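import Pool.Agent.K9h91.WI.NN

/-!
# The abstract main step
-/

set_option autoImplicit false
set_option linter.unusedSectionVars false

namespace Pool.Agent.K9h91.WI

universe u v

section
variable {k : Type u} [Field k] {ι : Type} [Fintype ι] [DecidableEq ι]

/-- The commutator of a linear map with the multiplication by `θ`. -/
noncomputable def cm (θ : Pg k ι) (T : Pg k ι →ₗ[k] Pg k ι) : Pg k ι →ₗ[k] Pg k ι :=
  T ∘ₗ LinearMap.mulLeft k θ - LinearMap.mulLeft k θ ∘ₗ T

lemma cm_apply (θ : Pg k ι) (T : Pg k ι →ₗ[k] Pg k ι) (u : Pg k ι) :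
    cm θ T u = T (θ * u) - θ * T u := rfl

lemma aeval_mem {S : Module.End k (Pg k ι)} {X : Submodule k (Pg k ι)} (h : ∀ u ∈ X, S u ∈ X)
    (q : Polynomial k) : ∀ u ∈ X, Polynomial.aeval S q u ∈ X := by
  induction q using Polynomial.induction_on' with
  | add p q hp hq =>
    intro u hu
    rw [map_add, LinearMap.add_apply]
    exact X.add_mem (hp u hu) (hq u hu)
  | monomial n c =>
    intro u hu
    rw [Polynomial.aeval_monomial, Module.End.mul_apply, Module.algebraMap_end_apply]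
    refine X.smul_mem _ ?_
    induction n with
    | zero => rw [pow_zero]; exact hu
    | succ n ih => rw [pow_succ', Module.End.mul_apply]; exact h _ ih

/-- The abstract main step: chains of stable subspaces stabilise. -/
theorem main_abs {I : Ideal (Pg k ι)} {a a' : ι → ι → ℤ} (B : Subalgebra k (Pg k ι))
    {θ τ : Pg k ι} {T : Pg k ι →ₗ[k] Pg k ι} (hθ : θ ∈ B) (hτ : τ ∈ B)
    (hTx : ∀ m u, T (xx m * u) = xx m * T u) (hTD : ∀ n u, T (Dt a n u) = Dt a' n (T u))
    (hID' : ∀ n u, u ∈ I → Dt a' n u ∈ I)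
    (hIT : ∀ u ∈ I, T u ∈ I)
    (hBd : ∀ n, ∀ b ∈ B, DD n b ∈ B) (hBa : ∀ n, ph a' n - ph a n ∈ B)
    (hOp : ∀ P : Submodule k (Pg k ι), Stab a P → (I : Set (Pg k ι)) ⊆ P → ∀ p ∈ P, ∀ b ∈ B,
      θ * b * T p ∈ P)
    (hNo : ∀ N : ℕ → Submodule B (Pg k ι), Monotone N → (∀ n, ∀ u ∈ I, u ∈ N n) →
      ∃ n, ∀ m, n ≤ m → N m = N n)
    (hfin : ∀ n, NN a ((I ⊔ Ideal.span {θ ^ n} : Ideal (Pg k ι)) : Set (Pg k ι)))
    (hdθ : ∀ n m u, u ∈ I ⊔ Ideal.span {θ ^ n} → Dt a m u ∈ I ⊔ Ideal.span {θ ^ n})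
    (hker : ∀ P : ℕ → Submodule k (Pg k ι), Monotone P → (∀ n, Stab a (P n)) →
      (∀ n, (I : Set (Pg k ι)) ⊆ P n) → ∃ n, ∀ m, n ≤ m → ∀ u ∈ P m, T u ∈ I → u ∈ P n)
    (hord : ∃ L, (cm θ)^[L] T = 0)
    (hdiag : ∀ h : Pg k ι, ∃ p : Polynomial k, p.coeff 0 ≠ 0 ∧
      T (Polynomial.aeval (LinearMap.mulLeft k τ ∘ₗ T : Module.End k (Pg k ι)) p h) = 0) :
    NN a (I : Set (Pg k ι)) := by
  intro P hP hs hc
  -- the images
  set Q : ℕ → Submodule k (Pg k ι) := fun n => (P n).map T ⊔ I.restrictScalars k with hQ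
  have hQmono : Monotone Q := fun i j hij => sup_le_sup_right (Submodule.map_mono (hP hij)) _
  have hQx : ∀ n m u, u ∈ Q n → xx m * u ∈ Q n := by
    intro n m u hu
    obtain ⟨_, ⟨p, hp, rfl⟩, q, hq, rfl⟩ := Submodule.mem_sup.1 hu
    rw [mul_add, ← hTx]
    exact Submodule.add_mem_sup ⟨_, (hs n).x m p hp, rfl⟩ (Ideal.mul_mem_left _ _ hq)
  have hQD : ∀ n m u, u ∈ Q n → Dt a' m u ∈ Q n := by
    intro n m u hu
    obtain ⟨_, ⟨p, hp, rfl⟩, q, hq, rfl⟩ := Submodule.mem_sup.1 hu
    rw [map_add, ← hTD]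
    exact Submodule.add_mem_sup ⟨_, (hs n).d m p hp, rfl⟩ (hID' m q hq)
  have hIQ : ∀ n, ∀ u ∈ I, u ∈ Q n := fun n u hu => Submodule.mem_sup_right hu
  have hPQ : ∀ n, ∀ u ∈ P n, T u ∈ Q n := fun n u hu => Submodule.mem_sup_left ⟨u, hu, rfl⟩
  -- the B-modules
  set QB : ℕ → Submodule B (Pg k ι) := fun n => Submodule.span B (Q n : Set (Pg k ι)) with hQB
  have hQQB : ∀ n, ∀ u ∈ Q n, u ∈ QB n := fun n u hu => Submodule.subset_span hu
  have hBmul : ∀ (N : Submodule B (Pg k ι)) (b u : Pg k ι), b ∈ B → u ∈ N → b * u ∈ N := by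
    intro N b u hb hu
    exact N.smul_mem ⟨b, hb⟩ hu
  have hQBD : ∀ n m u, u ∈ QB n → Dt a m u ∈ QB n := by
    intro n m u hu
    induction hu using Submodule.span_induction with
    | mem q hq =>
      have h1 : Dt a m q = Dt a' m q - (ph a' m - ph a m) * q := by
        rw [Dt_apply, Dt_apply]
        ring
      rw [h1]
      exact Submodule.sub_mem _ (hQQB n _ (hQD n m q hq)) (hBmul _ _ _ (hBa m) (hQQB n q hq))
    | zero => rw [map_zero]; exact Submodule.zero_mem _
    | add u v _ _ hu hv => rw [map_add]; exact Submodule.add_mem _ hu hv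
    | smul b u hu' ih =>
      have h1 : Dt a m (b • u) = DD m b.1 * u + b.1 * Dt a m u := by
        rw [Subalgebra.smul_def, smul_eq_mul, Dt_apply, Dt_apply, leib]
        ring
      rw [h1]
      exact Submodule.add_mem _ (hBmul _ _ _ (hBd m b.1 b.2) hu') (hBmul _ _ _ b.2 ih)
  have hθQB : ∀ n u, u ∈ QB n → ∀ b ∈ B, θ * b * u ∈ P n := by
    intro n u hu
    induction hu using Submodule.span_induction with
    | mem q hq =>
      intro b hb
      obtain ⟨_, ⟨p, hp, rfl⟩, i, hi, rfl⟩ := Submodule.mem_sup.1 hq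
      rw [mul_add]
      exact (P n).add_mem (hOp (P n) (hs n) (hc n) p hp b hb) (hc n (Ideal.mul_mem_left _ _ hi))
    | zero => intro b _; rw [mul_zero]; exact (P n).zero_mem
    | add u v _ _ hu hv => intro b hb; rw [mul_add]; exact (P n).add_mem (hu b hb) (hv b hb)
    | smul c u _ ih =>
      intro b hb
      rw [Subalgebra.smul_def, smul_eq_mul, ← mul_assoc, mul_assoc θ]
      exact ih _ (B.mul_mem hb c.2)
  obtain ⟨n0, hn0⟩ := hNo QB (fun i j hij => Submodule.span_mono (hQmono hij))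
    (fun n u hu => hQQB n u (hIQ n u hu))
  -- the saturation
  have hθm : ∀ (j : ℕ), θ ^ j ∈ B := fun j => B.pow_mem hθ j
  obtain ⟨j0, hj0⟩ := hNo (fun j =>
      { carrier := {u | θ ^ j * u ∈ QB n0}
        zero_mem' := by
          show θ ^ j * 0 ∈ QB n0
          rw [mul_zero]
          exact Submodule.zero_mem _
        add_mem' := by
          intro u v hu hv
          show θ ^ j * (u + v) ∈ QB n0
          rw [mul_add]
          exact Submodule.add_mem _ hu hv
        smul_mem' := by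
          intro b u hu
          show θ ^ j * (b • u) ∈ QB n0
          rw [mul_smul_comm]
          exact Submodule.smul_mem _ _ hu })
    (fun i j hij u hu => by
      show θ ^ j * u ∈ QB n0
      obtain ⟨l, rfl⟩ := Nat.exists_eq_add_of_le hij
      rw [pow_add, mul_comm (θ ^ i), mul_assoc]
      exact hBmul _ _ _ (hθm l) hu)
    (fun j u hu => by
      show θ ^ j * u ∈ QB n0
      exact hQQB _ _ (hIQ _ _ (Ideal.mul_mem_left _ _ hu)))
  have hsat : ∀ u, θ ^ (j0 + 1) * u ∈ QB n0 → θ ^ j0 * u ∈ QB n0 := by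
    intro u hu
    have h1 := hj0 (j0 + 1) (Nat.le_succ _)
    have h2 := (SetLike.ext_iff.1 h1 u).1 hu
    exact h2
  obtain ⟨X, hX⟩ : ∃ X : Submodule B (Pg k ι), ∀ u, u ∈ X ↔ θ ^ j0 * u ∈ QB n0 := by
    refine ⟨{ carrier := {u | θ ^ j0 * u ∈ QB n0}
              zero_mem' := by
                show θ ^ j0 * 0 ∈ QB n0
                rw [mul_zero]
                exact Submodule.zero_mem _
              add_mem' := by
                intro u v hu hv
                show θ ^ j0 * (u + v) ∈ QB n0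
                rw [mul_add]
                exact Submodule.add_mem _ hu hv
              smul_mem' := by
                intro b u hu
                show θ ^ j0 * (b • u) ∈ QB n0
                rw [mul_smul_comm]
                exact Submodule.smul_mem _ _ hu }, fun u => Iff.rfl⟩
  have hXsat : ∀ u, θ * u ∈ X → u ∈ X := by
    intro u hu
    rw [hX] at hu ⊢
    apply hsat
    rw [pow_succ, mul_assoc]
    exact hu
  have hXsatn : ∀ (l : ℕ) u, θ ^ l * u ∈ X → u ∈ X := by
    intro l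
    induction l with
    | zero => intro u hu; rwa [pow_zero, one_mul] at hu
    | succ l ih =>
      intro u hu
      rw [pow_succ, mul_assoc] at hu
      exact hXsat u (ih _ hu)
  have hQBX : ∀ u ∈ QB n0, u ∈ X := fun u hu => (hX u).2 (hBmul _ _ _ (hθm j0) hu)
  have hIX : ∀ u ∈ I, u ∈ X := fun u hu => hQBX u (hQQB _ _ (hIQ _ _ hu))
  have hXP : ∀ n, n0 ≤ n → ∀ u ∈ X, θ ^ (j0 + 1) * u ∈ P n := by
    intro n hn u hu
    have h1 := hθQB n0 _ ((hX u).1 hu) 1 B.one_mem
    rw [mul_one, ← mul_assoc, ← pow_succ'] at h1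
    exact hP hn h1
  have hTX0 : ∀ i, j0 + 1 ≤ i → ∀ u ∈ X, T (θ ^ i * u) ∈ X := by
    intro i hi u hu
    obtain ⟨l, rfl⟩ := Nat.exists_eq_add_of_le hi
    rw [pow_add, mul_assoc]
    exact hQBX _ (hQQB _ _ (hPQ _ _ (hXP n0 le_rfl _ (hBmul _ _ _ (hθm l) hu))))
  have hθX : ∀ (i : ℕ) u, u ∈ X → θ ^ i * u ∈ X := fun i u hu => hBmul _ _ _ (hθm i) hu
  have hθX1 : ∀ u, u ∈ X → θ * u ∈ X := fun u hu => hBmul _ _ _ hθ hu
  have hTl : ∀ l i, j0 + 1 ≤ i → ∀ u ∈ X, ((cm θ)^[l] T) (θ ^ i * u) ∈ X := by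
    intro l
    induction l with
    | zero => exact hTX0
    | succ l ih =>
      intro i hi u hu
      rw [Function.iterate_succ_apply', cm_apply, ← mul_assoc, ← pow_succ']
      exact X.sub_mem (ih (i + 1) (by omega) u hu) (hθX1 _ (ih i hi u hu))
  obtain ⟨L, hL⟩ := hord
  have hTd : ∀ d, d ≤ L → ∀ i, ∀ u ∈ X, ((cm θ)^[L - d] T) (θ ^ i * u) ∈ X := by
    intro d
    induction d with
    | zero =>
      intro _ i u _
      rw [Nat.sub_zero, hL, LinearMap.zero_apply]
      exact X.zero_mem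
    | succ d ih =>
      intro hd i u hu
      have h1 : L - d = (L - (d + 1)) + 1 := by omega
      -- downward induction on the exponent
      have h2 : ∀ s i, j0 + 1 ≤ i + s → ((cm θ)^[L - (d + 1)] T) (θ ^ i * u) ∈ X := by
        intro s
        induction s with
        | zero => intro i hi; exact hTl _ i hi u hu
        | succ s ihs =>
          intro i hi
          have h3 := ihs (i + 1) (by omega)
          have h4 := ih (by omega) i u hu
          rw [h1, Function.iterate_succ_apply', cm_apply, ← mul_assoc, ← pow_succ'] at h4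
          have h5 := X.sub_mem h3 h4
          rw [sub_sub_cancel] at h5
          exact hXsat _ h5
      exact h2 (j0 + 1) i (by omega)
  have hTX : ∀ u ∈ X, T u ∈ X := by
    intro u hu
    have h1 := hTd L le_rfl 0 u hu
    rw [Nat.sub_self, pow_zero, one_mul] at h1
    exact h1
  have hXD : ∀ m u, u ∈ X → Dt a m u ∈ X := by
    intro m u hu
    have h1 := (hX u).1 hu
    apply (hX _).2
    apply hsat
    have h2 := hQBD n0 m _ (hBmul _ _ _ hθ h1)
    have h3 : Dt a m (θ * (θ ^ j0 * u)) = DD m (θ ^ (j0 + 1)) * u +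
        θ ^ (j0 + 1) * Dt a m u := by
      have h4 : θ * (θ ^ j0 * u) = θ ^ (j0 + 1) * u := by ring
      rw [h4, Dt_apply, Dt_apply, leib]
      ring
    have h5 : DD m (θ ^ (j0 + 1)) * u = ((j0 + 1 : ℕ) : Pg k ι) * DD m θ * (θ ^ j0 * u) := by
      rw [Derivation.leibniz_pow, Nat.add_sub_cancel, nsmul_eq_mul, smul_eq_mul]
      ring
    rw [h3, h5] at h2
    have h6 := Submodule.sub_mem _ h2 (hBmul (QB n0) _ _
      (B.mul_mem (B.natCast_mem (j0 + 1)) (hBd m θ hθ)) h1)
    rwa [add_sub_cancel_left] at h6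
  -- the complement of the kernel
  have hsplit : ∀ h, T h ∈ X → ∃ x ∈ X, T (h - x) = 0 := by
    intro h hh
    obtain ⟨p, hp0, hp⟩ := hdiag h
    set S : Module.End k (Pg k ι) := LinearMap.mulLeft k τ ∘ₗ T with hS
    have hSX : ∀ u ∈ X.restrictScalars k, S u ∈ X.restrictScalars k := by
      intro u hu
      show τ * T u ∈ X
      exact hBmul _ _ _ hτ (hTX u hu)
    have h1 : Polynomial.aeval S p h = Polynomial.aeval S p.divX (S h) + p.coeff 0 • h := by
      conv_lhs => rw [← Polynomial.divX_mul_X_add p]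
      rw [map_add, map_mul, Polynomial.aeval_X, Polynomial.aeval_C, LinearMap.add_apply,
        Module.End.mul_apply, Module.algebraMap_end_apply]
    have h2 : Polynomial.aeval S p.divX (S h) ∈ X.restrictScalars k :=
      aeval_mem hSX _ _ (by
        show τ * T h ∈ X
        exact hBmul _ _ _ hτ hh)
    refine ⟨-((p.coeff 0)⁻¹ • Polynomial.aeval S p.divX (S h)), ?_, ?_⟩
    · exact (X.restrictScalars k).neg_mem ((X.restrictScalars k).smul_mem _ h2)
    · have h3 : h - -((p.coeff 0)⁻¹ • Polynomial.aeval S p.divX (S h)) =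
          (p.coeff 0)⁻¹ • Polynomial.aeval S p h := by
        rw [h1, smul_add, smul_smul, inv_mul_cancel₀ hp0, one_smul]
        ring
      rw [h3, map_smul, hp, smul_zero]
  -- the second chain
  set Y : ℕ → Submodule k (Pg k ι) := fun n => X.restrictScalars k ⊓ (Q n).comap T with hY
  have hYmono : Monotone Y := fun i j hij => inf_le_inf_left _ (Submodule.comap_mono (hQmono hij))
  have hIY : ∀ n, ∀ u ∈ I, u ∈ Y n := fun n u hu => ⟨hIX u hu, hIQ n _ (hIT u hu)⟩
  have hZst : ∀ n, Stab a (Y n ⊔ (I ⊔ Ideal.span {θ ^ (j0 + 1)}).restrictScalars k) := by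
    intro n
    constructor
    · intro m u hu
      obtain ⟨y, hy, q, hq, rfl⟩ := Submodule.mem_sup.1 hu
      rw [mul_add]
      have hq2 : xx m * q ∈ I ⊔ Ideal.span {θ ^ (j0 + 1)} := Ideal.mul_mem_left _ _ hq
      refine Submodule.add_mem_sup ⟨?_, ?_⟩ hq2
      · have hxQ : xx m * y ∈ X := by
          have h7 := hy.1
          have h8 : θ ^ j0 * (xx m * y) = xx m * (θ ^ j0 * y) := by ring
          rw [hX, h8]
          have h9 : θ ^ j0 * y ∈ QB n0 := (hX y).1 h7
          -- multiplication by letters preserves the B-module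
          have h10 : ∀ w ∈ QB n0, xx m * w ∈ QB n0 := by
            intro w hw
            induction hw using Submodule.span_induction with
            | mem q hq => exact hQQB _ _ (hQx n0 m q hq)
            | zero => rw [mul_zero]; exact Submodule.zero_mem _
            | add u v _ _ hu hv => rw [mul_add]; exact Submodule.add_mem _ hu hv
            | smul b u _ ih => rw [mul_smul_comm]; exact Submodule.smul_mem _ _ ih
          exact h10 _ h9
        exact hxQ
      · show T (xx m * y) ∈ Q n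
        rw [hTx]
        exact hQx n m _ hy.2
    · intro m u hu
      obtain ⟨y, hy, q, hq, rfl⟩ := Submodule.mem_sup.1 hu
      rw [map_add]
      refine Submodule.add_mem_sup ⟨hXD m y hy.1, ?_⟩ (hdθ _ m q hq)
      show T (Dt a m y) ∈ Q n
      rw [hTD]
      exact hQD n m _ hy.2
  obtain ⟨n1, hn1⟩ := hfin (j0 + 1)
    (fun n => Y n ⊔ (I ⊔ Ideal.span {θ ^ (j0 + 1)}).restrictScalars k)
    (fun i j hij => sup_le_sup_right (hYmono hij) _) hZst
    (fun n u hu => Submodule.mem_sup_right hu)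
  obtain ⟨n2, hn2⟩ := hker P hP hs hc
  have hYstab : ∀ n, n0 ≤ n → n1 ≤ n → ∀ m, n ≤ m → ∀ y ∈ Y m, y ∈ Y n := by
    intro n h0 h1 m hm y hy
    have h3 : y ∈ Y m ⊔ (I ⊔ Ideal.span {θ ^ (j0 + 1)}).restrictScalars k :=
      Submodule.mem_sup_left hy
    rw [hn1 m (h1.trans hm), ← hn1 n h1] at h3
    obtain ⟨y', hy', q, hq, h4⟩ := Submodule.mem_sup.1 h3
    obtain ⟨i, hi, v, rfl⟩ := span_sup_mem.1 hq
    have h5 : θ ^ (j0 + 1) * v ∈ X := by
      have h6 : θ ^ (j0 + 1) * v = y - y' - i := by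
        rw [← h4]
        ring
      rw [h6]
      exact X.sub_mem (X.sub_mem hy.1 hy'.1) (hIX i hi)
    have h7 : v ∈ X := hXsatn _ v h5
    have h8 : θ ^ (j0 + 1) * v ∈ Y n := ⟨h5, hPQ n _ (hXP n h0 v h7)⟩
    rw [← h4]
    exact (Y n).add_mem hy' ((Y n).add_mem (hIY n i hi) h8)
  refine ⟨max n0 (max n1 n2), fun m hm => le_antisymm (fun u hu => ?_) (hP hm)⟩
  set n := max n0 (max n1 n2) with hn
  have hn0' : n0 ≤ n := le_max_left _ _
  have hn1' : n1 ≤ n := (le_max_left _ _).trans (le_max_right _ _)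
  have hn2' : n2 ≤ n := (le_max_right _ _).trans (le_max_right _ _)
  have h1 : T u ∈ X := by
    apply hQBX
    rw [← hn0 m (hn0'.trans hm)]
    exact hQQB m _ (hPQ m u hu)
  obtain ⟨x, hx, hxT⟩ := hsplit u h1
  have h2 : T x = T u := by
    rw [map_sub, sub_eq_zero] at hxT
    exact hxT.symm
  have h3 : x ∈ Y m := ⟨hx, by
    show T x ∈ Q m
    rw [h2]
    exact hPQ m u hu⟩
  have h4 := (hYstab n hn0' hn1' m hm x h3).2
  have h5 : T u ∈ Q n := by
    rw [← h2]
    exact h4
  obtain ⟨_, ⟨p, hp, rfl⟩, i, hi, h6⟩ := Submodule.mem_sup.1 h5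
  have h7 : T (u - p) ∈ I := by
    rw [map_sub, ← h6, add_sub_cancel_left]
    exact hi
  have h8 := hn2 m (hn2'.trans hm) (u - p) ((P m).sub_mem hu (hP hm hp)) h7
  have h9 := (P n).add_mem (hP hn2' h8) hp
  rwa [sub_add_cancel] at h9

end

end Pool.Agent.K9h91.WI
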