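import Mathlib

/-!
# Laurent coefficients, polynomial letters

`Rg k ι` is the ring of Laurent polynomials in variables `t_i`, `i ∈ ι`, and `Pg k ι` is the polynomial
ring over it in variables `x_m`, `m ∈ ℤ`.  Homomorphisms and derivations given on generators.
-/

set_option autoImplicit false
set_option linter.unusedSectionVars false

namespace Pool.Agent.K9h91.WI

universe u v

/-- Laurent polynomials in the variables `t_i`. -/
abbrev Rg (k : Type u) [CommRing k] (ι : Type) := AddMonoidAlgebra k (ι → ℤ)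

/-- A copy of the polynomial rings over Laurent polynomials: used to hide the implementation. -/
structure Impl (k : Type u) [CommRing k] where
  /-- the rings -/
  P : Type → Type u
  /-- the ring structures -/
  [cr : ∀ ι, CommRing (P ι)]
  /-- the algebra structures -/
  [alg : ∀ ι, Algebra k (P ι)]
  /-- the identification with polynomials -/
  e : ∀ ι, P ι ≃ₐ[k] MvPolynomial ℤ (Rg k ι)

instance (k : Type u) [CommRing k] : Nonempty (Impl k) :=
  ⟨{ P := fun ι => MvPolynomial ℤ (Rg k ι), e := fun _ => AlgEquiv.refl }⟩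

/-- The hidden copy. -/
noncomputable opaque impl (k : Type u) [CommRing k] : Impl k

/-- Polynomials in `x_m` over the Laurent polynomials. -/
def Pg (k : Type u) [CommRing k] (ι : Type) : Type u := (impl k).P ι

section
variable {k : Type u} [CommRing k] {ι ι' ι'' : Type}

noncomputable instance instCR : CommRing (Pg k ι) := (impl k).cr ι

noncomputable instance instAlg : Algebra k (Pg k ι) := (impl k).alg ι

/-- The identification with polynomials. -/
noncomputable def eP : Pg k ι ≃ₐ[k] MvPolynomial ℤ (Rg k ι) := (impl k).e ι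

instance instNT [Nontrivial k] : Nontrivial (Pg k ι) := (eP (k := k) (ι := ι)).toEquiv.nontrivial

/-- The Laurent monomial `t^a`. -/
noncomputable def tt (a : ι → ℤ) : Pg k ι := eP.symm (MvPolynomial.C (AddMonoidAlgebra.single a 1))

/-- The variable `x_m`. -/
noncomputable def xx (m : ℤ) : Pg k ι := eP.symm (MvPolynomial.X m)

lemma tt_zero : tt (k := k) (0 : ι → ℤ) = 1 := by
  unfold tt
  rw [← AddMonoidAlgebra.one_def, map_one, map_one]

lemma tt_add (a b : ι → ℤ) : tt (k := k) (a + b) = tt a * tt b := by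
  unfold tt
  rw [← map_mul, ← map_mul, AddMonoidAlgebra.single_mul_single, one_mul]

/-- The monomials `t^a x^β`. -/
noncomputable def mono (a : ι → ℤ) (β : ℤ →₀ ℕ) : Pg k ι := tt a * β.prod fun m e => xx m ^ e

lemma mono_eq (a : ι → ℤ) (β : ℤ →₀ ℕ) :
    mono (k := k) a β =
      eP.symm (MvPolynomial.monomial β (AddMonoidAlgebra.single a 1)) := by
  unfold mono tt xx
  rw [MvPolynomial.monomial_eq, map_mul, Finsupp.prod, Finsupp.prod, map_prod]
  congr 1
  exact Finset.prod_congr rfl fun m _ => by rw [map_pow]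

/-- Induction principle: additive predicates hold if they hold for multiples of monomials. -/
lemma mono_induction {p : Pg k ι → Prop} (u : Pg k ι) (h0 : p 0)
    (hadd : ∀ u v, p u → p v → p (u + v)) (hm : ∀ (c : k) a β, p (c • mono a β)) : p u := by
  obtain ⟨f, rfl⟩ := (eP (k := k) (ι := ι)).symm.surjective u
  induction f using MvPolynomial.induction_on' with
  | monomial β r =>
    induction r using AddMonoidAlgebra.induction_linear with
    | zero => rw [map_zero, map_zero]; exact h0
    | add x y hx hy => rw [map_add, map_add]; exact hadd _ _ hx hy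
    | single a c =>
      have h := hm c a β
      rw [mono_eq, ← map_smul, MvPolynomial.smul_monomial, AddMonoidAlgebra.smul_single,
        smul_eq_mul, mul_one] at h
      exact h
  | add f g hf hg => rw [map_add]; exact hadd _ _ hf hg

lemma mono_mul (a b : ι → ℤ) (β γ : ℤ →₀ ℕ) :
    mono (k := k) a β * mono b γ = mono (a + b) (β + γ) := by
  unfold mono
  rw [tt_add, Finsupp.prod_add_index' (fun m => pow_zero _) (fun m e f => pow_add _ _ _)]
  ring

/-- Linear maps agreeing on monomials are equal. -/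
lemma lmap_ext {N : Type*} [AddCommMonoid N] [Module k N] {f g : Pg k ι →ₗ[k] N}
    (h : ∀ a β, f (mono a β) = g (mono a β)) : f = g := by
  refine LinearMap.ext fun u => ?_
  induction u using mono_induction with
  | h0 => rw [map_zero, map_zero]
  | hadd u v hu hv => rw [map_add, map_add, hu, hv]
  | hm c a β => rw [map_smul, map_smul, h]

section Hom
variable {A : Type*} [CommRing A] [Algebra k A]

/-- The homomorphism with `t^a ↦ u a` and `x_m ↦ y m` on polynomials. -/
noncomputable def rawHom (u : Multiplicative (ι → ℤ) →* A) (y : ℤ → A) :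
    MvPolynomial ℤ (Rg k ι) →ₐ[k] A :=
  { MvPolynomial.eval₂Hom (AddMonoidAlgebra.lift k A (ι → ℤ) u).toRingHom y with
    commutes' := by
      intro c
      have h1 : algebraMap k (MvPolynomial ℤ (Rg k ι)) c =
        MvPolynomial.C (algebraMap k (Rg k ι) c) := rfl
      simp [h1, Algebra.algebraMap_eq_smul_one c] }

/-- The algebra homomorphism with `t^a ↦ u a` and `x_m ↦ y m`. -/
noncomputable def mkHom (u : Multiplicative (ι → ℤ) →* A) (y : ℤ → A) : Pg k ι →ₐ[k] A :=
  (rawHom u y).comp eP.toAlgHom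

lemma mkHom_tt (u : Multiplicative (ι → ℤ) →* A) (y : ℤ → A) (a : ι → ℤ) :
    mkHom (k := k) u y (tt a) = u (Multiplicative.ofAdd a) := by
  unfold mkHom tt
  rw [AlgHom.comp_apply]
  show rawHom u y (eP (eP.symm _)) = _
  rw [AlgEquiv.apply_symm_apply]
  show MvPolynomial.eval₂Hom (AddMonoidAlgebra.lift k A (ι → ℤ) u).toRingHom y
    (MvPolynomial.C (AddMonoidAlgebra.single a 1)) = _
  simp

lemma mkHom_xx (u : Multiplicative (ι → ℤ) →* A) (y : ℤ → A) (m : ℤ) :
    mkHom (k := k) u y (xx m) = y m := by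
  unfold mkHom xx
  rw [AlgHom.comp_apply]
  show rawHom u y (eP (eP.symm _)) = _
  rw [AlgEquiv.apply_symm_apply]
  show MvPolynomial.eval₂Hom (AddMonoidAlgebra.lift k A (ι → ℤ) u).toRingHom y
    (MvPolynomial.X m) = _
  simp

end Hom

end

attribute [irreducible] tt xx mkHom
attribute [irreducible] Pg instCR instAlg eP


section
variable {k : Type u} [CommRing k] {ι ι' ι'' : Type}

section Hom
variable {A : Type*} [CommRing A] [Algebra k A]

/-- Homomorphisms agreeing on the generators are equal. -/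
lemma hom_ext {f g : Pg k ι →ₐ[k] A} (ht : ∀ a : ι → ℤ, f (tt a) = g (tt a))
    (hX : ∀ m : ℤ, f (xx m) = g (xx m)) : f = g := by
  have h : f.toLinearMap = g.toLinearMap := by
    apply lmap_ext
    intro a β
    unfold mono
    rw [AlgHom.toLinearMap_apply, AlgHom.toLinearMap_apply, map_mul, map_mul, ht, Finsupp.prod,
      map_prod, map_prod]
    congr 1
    exact Finset.prod_congr rfl fun m _ => by rw [map_pow, map_pow, hX]
  exact AlgHom.ext fun u => LinearMap.congr_fun h u

/-- Derivations along a homomorphism agreeing on the generators are equal. -/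
lemma der_ext (φ : Pg k ι → A) {f g : Pg k ι →ₗ[k] A}
    (hf : ∀ u v, f (u * v) = φ u * f v + φ v * f u)
    (hg : ∀ u v, g (u * v) = φ u * g v + φ v * g u)
    (ht : ∀ a : ι → ℤ, f (tt a) = g (tt a)) (hX : ∀ m : ℤ, f (xx m) = g (xx m)) : f = g := by
  apply lmap_ext
  intro a β
  unfold mono
  have h1 : f 1 = g 1 := by
    rw [← tt_zero]
    exact ht 0
  have h2 : ∀ (m : ℤ) (e : ℕ), f (xx m ^ e) = g (xx m ^ e) := by
    intro m e
    induction e with
    | zero => rw [pow_zero, h1]
    | succ e ih => rw [pow_succ, hf, hg, ih, hX]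
  have h3 : f (β.prod fun m e => xx m ^ e) = g (β.prod fun m e => xx m ^ e) := by
    rw [Finsupp.prod]
    refine Finset.prod_induction _ (fun x => f x = g x) ?_ h1 fun m _ => h2 m _
    intro x y hx hy
    rw [hf, hg, hx, hy]
  rw [hf, hg, ht, h3]

end Hom

/-- The derivation attached to a lift of the identity to the dual numbers. -/
noncomputable def derOfLift {B : Type*} [CommRing B] [Algebra k B] (Ψ : B →ₐ[k] TrivSqZeroExt B B)
    (h : ∀ u, (Ψ u).fst = u) : Derivation k B B :=
  Derivation.mk' ((TrivSqZeroExt.sndHom B B).restrictScalars k ∘ₗ Ψ.toLinearMap) (by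
    intro a b
    show (Ψ (a * b)).snd = _
    rw [map_mul, TrivSqZeroExt.snd_mul, h, h]
    show a • (Ψ b).snd + MulOpposite.op b • (Ψ a).snd = a • (Ψ b).snd + b • (Ψ a).snd
    rw [op_smul_eq_smul])

lemma derOfLift_apply {B : Type*} [CommRing B] [Algebra k B] (Ψ : B →ₐ[k] TrivSqZeroExt B B)
    (h : ∀ u, (Ψ u).fst = u) (u : B) : derOfLift Ψ h u = (Ψ u).snd := rfl

/-- The lift for `mkD`. -/
noncomputable def liftD (χ : (ι → ℤ) →+ Pg k ι) (y : ℤ → Pg k ι) :
    Pg k ι →ₐ[k] TrivSqZeroExt (Pg k ι) (Pg k ι) :=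
  mkHom
    { toFun := fun a => TrivSqZeroExt.inl (tt a.toAdd) + TrivSqZeroExt.inr (χ a.toAdd * tt a.toAdd)
      map_one' := by
        rw [toAdd_one, map_zero, tt_zero, zero_mul, TrivSqZeroExt.inr_zero, add_zero]
        rfl
      map_mul' := by
        intro a b
        apply TrivSqZeroExt.ext
        · simp [tt_add]
        · simp [tt_add]
          ring }
    (fun m => TrivSqZeroExt.inl (xx m) + TrivSqZeroExt.inr (y m))

lemma liftD_tt (χ : (ι → ℤ) →+ Pg k ι) (y : ℤ → Pg k ι) (a : ι → ℤ) :
    liftD χ y (tt a) = TrivSqZeroExt.inl (tt a) + TrivSqZeroExt.inr (χ a * tt a) := by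
  unfold liftD
  rw [mkHom_tt]
  rfl

lemma liftD_xx (χ : (ι → ℤ) →+ Pg k ι) (y : ℤ → Pg k ι) (m : ℤ) :
    liftD χ y (xx m) = TrivSqZeroExt.inl (xx m) + TrivSqZeroExt.inr (y m) := by
  unfold liftD
  rw [mkHom_xx]

lemma liftD_fst (χ : (ι → ℤ) →+ Pg k ι) (y : ℤ → Pg k ι) (u : Pg k ι) :
    (liftD χ y u).fst = u := by
  have h : (TrivSqZeroExt.fstHom k (Pg k ι) (Pg k ι)).comp (liftD χ y) = AlgHom.id k _ := by
    apply hom_ext
    · intro a
      rw [AlgHom.comp_apply, liftD_tt]
      simp
    · intro m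
      rw [AlgHom.comp_apply, liftD_xx]
      simp
  exact congrArg (fun f : Pg k ι →ₐ[k] Pg k ι => f u) h

/-- The derivation with `t^a ↦ χ a t^a` and `X_m ↦ y m`. -/
noncomputable def mkD (χ : (ι → ℤ) →+ Pg k ι) (y : ℤ → Pg k ι) : Derivation k (Pg k ι) (Pg k ι) :=
  derOfLift (liftD χ y) (liftD_fst χ y)

lemma mkD_tt (χ : (ι → ℤ) →+ Pg k ι) (y : ℤ → Pg k ι) (a : ι → ℤ) :
    mkD χ y (tt a) = χ a * tt a := by
  unfold mkD
  rw [derOfLift_apply, liftD_tt]
  simp

lemma mkD_xx (χ : (ι → ℤ) →+ Pg k ι) (y : ℤ → Pg k ι) (m : ℤ) :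
    mkD χ y (xx m) = y m := by
  unfold mkD
  rw [derOfLift_apply, liftD_xx]
  simp

end

attribute [irreducible] mkD

end Pool.Agent.K9h91.WI
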