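import Pool.Agent.K9h91.WI.NN

/-!
# Clusters without letters
-/

set_option autoImplicit false
set_option linter.unusedSectionVars false

namespace Pool.Agent.K9h91.WI

universe u v

section
variable {k : Type u} [CommRing k] {ι ι' : Type} [Fintype ι] [DecidableEq ι] [Fintype ι']
  [DecidableEq ι']

/-- The grading by the exponent of `t_e`. -/
noncomputable def gr (e : ι) : Pg k ι →ₐ[k] AddMonoidAlgebra (Pg k ι) ℤ :=
  mkHom
    { toFun := fun a => AddMonoidAlgebra.single (a.toAdd e) (tt a.toAdd)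
      map_one' := by
        show AddMonoidAlgebra.single 0 (tt 0) = _
        rw [tt_zero]
        rfl
      map_mul' := fun a b => by
        rw [AddMonoidAlgebra.single_mul_single, ← tt_add]
        rfl }
    (fun m => AddMonoidAlgebra.single 0 (xx m))

lemma gr_tt (e : ι) (a : ι → ℤ) : gr (k := k) e (tt a) = AddMonoidAlgebra.single (a e) (tt a) := by
  unfold gr
  rw [mkHom_tt]
  rfl

lemma gr_xx (e : ι) (m : ℤ) : gr (k := k) e (xx m) = AddMonoidAlgebra.single 0 (xx m) := by
  unfold gr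
  rw [mkHom_xx]

/-- The inclusion in degree zero. -/
noncomputable def sz : Pg k ι →ₐ[k] AddMonoidAlgebra (Pg k ι) ℤ := AddMonoidAlgebra.singleZeroAlgHom

lemma sz_apply (u : Pg k ι) : sz u = AddMonoidAlgebra.single 0 u := rfl

/-- The elements not involving `t_e`. -/
noncomputable def Fr (e : ι) : Subalgebra k (Pg k ι) := AlgHom.equalizer (gr e) sz

lemma mem_Fr {e : ι} {v : Pg k ι} : v ∈ Fr e ↔ gr e v = AddMonoidAlgebra.single 0 v := Iff.rfl

lemma xx_Fr (e : ι) (m : ℤ) : xx m ∈ Fr (k := k) e := mem_Fr.2 (gr_xx e m)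

lemma tv_Fr {e j : ι} (h : e ≠ j) (n : ℤ) : tv j n ∈ Fr (k := k) e := by
  rw [mem_Fr]
  unfold tv
  rw [gr_tt, Pi.single_eq_of_ne h]

lemma gr_mono (e : ι) (a : ι → ℤ) (β : ℤ →₀ ℕ) :
    gr (k := k) e (mono a β) = AddMonoidAlgebra.single (a e) (mono a β) := by
  have h : gr (k := k) e (β.prod fun m e => xx m ^ e) =
      AddMonoidAlgebra.single 0 (β.prod fun m e => xx m ^ e) := by
    rw [← mem_Fr, Finsupp.prod]
    exact Subalgebra.prod_mem _ fun m _ => Subalgebra.pow_mem _ (xx_Fr e m) _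
  unfold mono
  rw [map_mul, gr_tt, h, AddMonoidAlgebra.single_mul_single, add_zero]

/-- The operator multiplying the component of exponent `n` in `t_e` by `c n`. -/
noncomputable def mulc (e : ι) (c : ℤ → k) : Pg k ι →ₗ[k] Pg k ι where
  toFun f := (gr e f).coeff.sum fun m u => c m • u
  map_add' f g := by
    rw [map_add, AddMonoidAlgebra.coeff_add]
    exact Finsupp.sum_add_index' (fun m => smul_zero _) (fun m u v => smul_add _ _ _)
  map_smul' d f := by
    rw [map_smul, AddMonoidAlgebra.coeff_smul, RingHom.id_apply,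
      Finsupp.sum_smul_index' (fun m => smul_zero _), Finsupp.smul_sum]
    exact Finset.sum_congr rfl fun m _ => smul_comm _ _ _

lemma mulc_apply (e : ι) (c : ℤ → k) (u : Pg k ι) :
    mulc e c u = (gr e u).coeff.sum fun m u => c m • u := rfl

lemma mulc_mono (e : ι) (c : ℤ → k) (a : ι → ℤ) (β : ℤ →₀ ℕ) :
    mulc e c (mono a β) = c (a e) • mono a β := by
  rw [mulc_apply, gr_mono, AddMonoidAlgebra.coeff_single,
    Finsupp.sum_single_index (h := fun m u => c m • u) (smul_zero _)]

lemma mulc_mul (e : ι) (c : ℤ → k) {v : Pg k ι} (hv : v ∈ Fr e) (u : Pg k ι) :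
    mulc e c (v * u) = v * mulc e c u := by
  rw [mulc_apply, mulc_apply, map_mul, mem_Fr.1 hv]
  generalize gr e u = g
  induction g using AddMonoidAlgebra.induction_linear with
  | zero => simp
  | add x y hx hy =>
    rw [mul_add, AddMonoidAlgebra.coeff_add, AddMonoidAlgebra.coeff_add,
      Finsupp.sum_add_index' (fun m => smul_zero _) (fun m u v => smul_add _ _ _),
      Finsupp.sum_add_index' (fun m => smul_zero _) (fun m u v => smul_add _ _ _), hx, hy, mul_add]
  | single m u =>
    rw [AddMonoidAlgebra.single_mul_single, AddMonoidAlgebra.coeff_single,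
      AddMonoidAlgebra.coeff_single,
      Finsupp.sum_single_index (h := fun m u => c m • u) (smul_zero _),
      Finsupp.sum_single_index (h := fun m u => c m • u) (smul_zero _), zero_add, mul_smul_comm]

lemma mulc_jj (e : ι) (c : ℤ → k) (v : Pg k ι) : mulc (some e) c (jj v) = jj (mulc e c v) := by
  have h : mulc (some e) c ∘ₗ (jj (k := k) (ι := ι)).toLinearMap =
      (jj (k := k) (ι := ι)).toLinearMap ∘ₗ mulc e c := by
    apply lmap_ext
    intro a β
    simp only [LinearMap.comp_apply, AlgHom.toLinearMap_apply]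
    rw [Pmap_mono, mulc_mono, mulc_mono, map_smul, Pmap_mono, push_some]
  exact LinearMap.congr_fun h v

lemma mulc_xlin (e : ι) (c : ℤ → k) (f : Pg k (Option ι)) :
    mulc e c (xlin f) = xlin (mulc (some e) c f) := by
  have h : mulc e c ∘ₗ xlin = xlin ∘ₗ mulc (k := k) (some e) c := by
    apply olmap_ext
    intro m v
    simp only [LinearMap.comp_apply]
    rw [xlin_tv_mul, mulc_mul e c (xx_Fr e m), mulc_mul _ _ (tv_Fr (Option.some_ne_none e) m),
      mulc_jj, xlin_tv_mul]
  exact LinearMap.congr_fun h f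

lemma P0_Fr {r : ι → ℕ} {e : ι} (he : r e = 0) : P0 (k := k) r ∈ Fr (some e) := by
  unfold P0
  refine Subalgebra.prod_mem _ fun i _ => ?_
  rcases eq_or_ne i e with rfl | h
  · rw [he, pow_zero]
    exact Subalgebra.one_mem _
  · exact Subalgebra.pow_mem _ (Subalgebra.sub_mem _ (tv_Fr (Option.some_ne_none e) 1)
      (tv_Fr (fun h2 => h (Option.some_injective _ h2).symm) 1)) _

lemma mulc_mem_qq {r : ι → ℕ} {e : ι} (he : r e = 0) (c : ℤ → k) {u : Pg k ι} (hu : u ∈ qq r) :
    mulc e c u ∈ qq r := by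
  obtain ⟨f, rfl⟩ := hu
  exact ⟨mulc (some e) c f, by rw [mulc_xlin, mulc_mul _ _ (P0_Fr he)]⟩

end

attribute [irreducible] gr mulc Fr

section
variable {k : Type u} [Field k] [CharZero k] {ι ι' : Type} [Fintype ι] [DecidableEq ι] [Fintype ι']
  [DecidableEq ι']

lemma mulc_int_mul (e : ι) (c : ℤ → k) (n : ℤ) (u : Pg k ι) :
    mulc e c ((n : Pg k ι) * u) = (n : Pg k ι) * mulc e c u :=
  mulc_mul e c (Subalgebra.intCast_mem _ n) u

lemma int_mul_eq_smul (n : ℤ) (u : Pg k ι) : (n : Pg k ι) * u = (n : k) • u := by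
  rw [Algebra.smul_def, map_intCast]

lemma tv_mul_mono (e : ι) (n : ℤ) (a : ι → ℤ) (β : ℤ →₀ ℕ) :
    tv (k := k) e n * mono a β = mono (Pi.single e n + a) β := by
  unfold mono tv
  rw [tt_add, mul_assoc]

/-- `∂_e` followed by the integral. -/
lemma int_pd (e : ι) (u : Pg k ι) :
    tv e 1 * mulc e (fun n => ((n + 1 : ℤ) : k)⁻¹) (pd e u) =
      u - mulc e (fun n => if n = 0 then 1 else 0) u := by
  have h : LinearMap.mulLeft k (tv e 1) ∘ₗ mulc e (fun n => ((n + 1 : ℤ) : k)⁻¹) ∘ₗ
      (pd (k := k) e).toLinearMap = LinearMap.id - mulc e (fun n => if n = 0 then 1 else 0) := by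
    apply lmap_ext
    intro a β
    simp only [LinearMap.comp_apply, LinearMap.sub_apply, LinearMap.mulLeft_apply,
      Derivation.coeFn_coe, LinearMap.id_apply]
    rw [pd_mono, mulc_int_mul, mulc_mono, mulc_mono, int_mul_eq_smul, mul_smul_comm, mul_smul_comm,
      tv_mul_mono, smul_smul]
    have h1 : Pi.single e 1 + (a - Pi.single e 1) = a := by
      rw [add_sub_cancel]
    rw [h1, Pi.sub_apply, Pi.single_eq_same, sub_add_cancel]
    by_cases h2 : a e = 0
    · simp [h2]
    · have h3 : ((a e : ℤ) : k) ≠ 0 := Int.cast_ne_zero.2 h2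
      rw [mul_inv_cancel₀ h3, if_neg h2, one_smul, zero_smul, sub_zero]
  have h2 := LinearMap.congr_fun h u
  simp only [LinearMap.comp_apply, LinearMap.sub_apply, LinearMap.mulLeft_apply,
      Derivation.coeFn_coe, LinearMap.id_apply] at h2
  exact h2

/-- The inclusion for the removal of `e`. -/
noncomputable abbrev je (e : ι) : Pg k {x // x ≠ e} →ₐ[k] Pg k ι := Pmap Subtype.val

lemma push_val {e : ι} {a : ι → ℤ} (h : a e = 0) :
    push Subtype.val (fun x : {x // x ≠ e} => a x.1) = a := by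
  funext i
  rw [push_coord, Finset.sum_filter]
  rcases eq_or_ne i e with rfl | hi
  · rw [h]
    exact Finset.sum_eq_zero fun x _ => if_neg x.2
  · rw [Finset.sum_eq_single (⟨i, hi⟩ : {x // x ≠ e})]
    · rw [if_pos rfl]
    · intro x _ hx
      rw [if_neg fun h2 => hx (Subtype.ext h2)]
    · intro h
      exact absurd (Finset.mem_univ _) h

lemma mulc_zero_mem (e : ι) (u : Pg k ι) :
    ∃ v, mulc e (fun n => if n = 0 then (1 : k) else 0) u = je e v := by
  induction u using mono_induction with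
  | h0 => exact ⟨0, by rw [map_zero, map_zero]⟩
  | hadd u v hu hv =>
    obtain ⟨u', hu⟩ := hu
    obtain ⟨v', hv⟩ := hv
    exact ⟨u' + v', by rw [map_add, map_add, hu, hv]⟩
  | hm c a β =>
    by_cases h : a e = 0
    · refine ⟨c • mono (fun x : {x // x ≠ e} => a x.1) β, ?_⟩
      rw [map_smul, map_smul, mulc_mono, if_pos h, one_smul, Pmap_mono, push_val h]
    · exact ⟨0, by rw [map_smul, mulc_mono, if_neg h, zero_smul, smul_zero, map_zero]⟩

/-- Elements killed by `∂_e` modulo `qq r`. -/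
lemma exists_of_pd_mem {r : ι → ℕ} {e : ι} (he : r e = 0) {u : Pg k ι} (hu : pd e u ∈ qq r) :
    ∃ v, u - je e v ∈ qq r := by
  obtain ⟨v, hv⟩ := mulc_zero_mem e u
  refine ⟨v, ?_⟩
  rw [← hv, ← int_pd]
  exact Ideal.mul_mem_left _ _ (mulc_mem_qq he _ hu)

/-- Every element is a derivative plus a residue. -/
lemma exists_pd_add (e : ι) (u : Pg k ι) :
    ∃ (y : Pg k ι) (v : Pg k {x // x ≠ e}), u = pd e y + tv e (-1) * je e v := by
  induction u using mono_induction with
  | h0 => exact ⟨0, 0, by rw [map_zero, map_zero, mul_zero, add_zero]⟩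
  | hadd u v hu hv =>
    obtain ⟨y1, v1, h1⟩ := hu
    obtain ⟨y2, v2, h2⟩ := hv
    exact ⟨y1 + y2, v1 + v2, by rw [map_add, map_add, h1, h2]; ring⟩
  | hm c a β =>
    by_cases h : a e = -1
    · refine ⟨0, c • mono (fun x : {x // x ≠ e} => (a - Pi.single e (-1) : ι → ℤ) x.1) β, ?_⟩
      have h1 : (a - Pi.single e (-1) : ι → ℤ) e = 0 := by
        rw [Pi.sub_apply, h, Pi.single_eq_same, sub_self]
      rw [map_zero, zero_add, map_smul, Pmap_mono, push_val h1, mul_smul_comm, tv_mul_mono,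
        add_sub_cancel]
    · refine ⟨(((a e + 1 : ℤ) : k)⁻¹ * c) • mono (a + Pi.single e 1) β, 0, ?_⟩
      have h3 : ((a e + 1 : ℤ) : k) ≠ 0 := Int.cast_ne_zero.2 fun h4 => h (by omega)
      rw [map_zero, mul_zero, add_zero, Derivation.map_smul, pd_mono, Pi.add_apply, Pi.single_eq_same,
        add_sub_cancel_right, int_mul_eq_smul, smul_smul]
      congr 1
      rw [mul_assoc, mul_comm c, ← mul_assoc, inv_mul_cancel₀ h3, one_mul]

lemma pd_P0 {r : ι → ℕ} {e : ι} (he : r e = 0) : pd (k := k) (some e) (P0 r) = 0 := by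
  unfold P0
  refine Finset.prod_induction _ (fun x => pd (k := k) (some e) x = 0) ?_ ?_ ?_
  · intro x y hx hy
    rw [leib, hx, hy, mul_zero, mul_zero, add_zero]
  · exact Derivation.map_one_eq_zero _
  · intro i _
    rcases eq_or_ne i e with rfl | h
    · rw [he, pow_zero]
      exact Derivation.map_one_eq_zero _
    · rw [Derivation.leibniz_pow, map_sub, pd_tv_of_ne (Option.some_ne_none e),
        pd_tv_of_ne (fun h2 => h (Option.some_injective _ h2).symm), sub_zero, smul_zero, smul_zero]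

lemma pd_xlin (e : ι) (f : Pg k (Option ι)) : pd e (xlin f) = xlin (pd (some e) f) := by
  have h : (pd (k := k) e).toLinearMap ∘ₗ xlin = xlin ∘ₗ (pd (some e)).toLinearMap := by
    apply olmap_ext
    intro m v
    simp only [LinearMap.comp_apply, Derivation.coeFn_coe]
    rw [xlin_tv_mul, leib, leib, pd_xx, pd_tv_of_ne (Option.some_ne_none e), mul_zero, mul_zero,
      add_zero, add_zero, pd_Pmap_inj (Option.some_injective _), xlin_tv_mul]
  exact LinearMap.congr_fun h f

lemma pd_mem_qq {r : ι → ℕ} {e : ι} (he : r e = 0) {u : Pg k ι} (hu : u ∈ qq r) :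
    pd e u ∈ qq r := by
  obtain ⟨f, rfl⟩ := hu
  exact ⟨pd (some e) f, by rw [pd_xlin, leib, pd_P0 he, mul_zero, add_zero]⟩

/-- `e` does not interact in the twist. -/
def Sep (e : ι) (a : ι → ι → ℤ) : Prop := ∀ j, j ≠ e → a e j = 0 ∧ a j e = 0

/-- Restriction of a twist. -/
def resa (e : ι) (a : ι → ι → ℤ) : {x // x ≠ e} → {x // x ≠ e} → ℤ := fun x y => a x.1 y.1

lemma pusha_resa {e : ι} {a : ι → ι → ℤ} (h : Sep e a) (h0 : a e e = 0) :
    pusha Subtype.val (resa e a) = a := by
  have h1 : ∀ i (f : {x // x ≠ e} → ℤ), (∑ x with Subtype.val x = i, f x) =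
      if hi : i ≠ e then f ⟨i, hi⟩ else 0 := by
    intro i f
    rw [Finset.sum_filter]
    split_ifs with hi
    · rw [Finset.sum_eq_single (⟨i, hi⟩ : {x // x ≠ e})]
      · rw [if_pos rfl]
      · intro x _ hx
        rw [if_neg fun h2 => hx (Subtype.ext h2)]
      · intro h
        exact absurd (Finset.mem_univ _) h
    · rw [not_not] at hi
      subst hi
      exact Finset.sum_eq_zero fun x _ => if_neg x.2
  funext i j
  unfold pusha resa
  rw [h1]
  split_ifs with hi
  · rw [h1]
    split_ifs with hj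
    · rfl
    · rw [not_not] at hj
      subst hj
      exact ((h i hi).2).symm
  · rw [not_not] at hi
    subst hi
    rcases eq_or_ne j i with rfl | hj
    · exact h0.symm
    · exact ((h j hj).1).symm

lemma Dt_je {e : ι} {a : ι → ι → ℤ} (h : Sep e a) (h0 : a e e = 0) (n : ℤ)
    (v : Pg k {x // x ≠ e}) : Dt a n (je e v) = je e (Dt (resa e a) n v) := by
  have h1 := Dt_Pmap (k := k) Subtype.val (resa e a) n v
  rw [pusha_resa h h0] at h1
  exact h1

lemma ph_je {e : ι} {a : ι → ι → ℤ} (h : Sep e a) (h0 : a e e = 0) (n : ℤ) :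
    ph (k := k) a n = je e (ph (resa e a) n) := by
  have h1 := Pmap_ph (k := k) Subtype.val (resa e a) n
  rw [pusha_resa h h0] at h1
  exact h1.symm

lemma pd_je (e : ι) (v : Pg k {x // x ≠ e}) : pd e (je e v) = 0 :=
  pd_Pmap_not_mem (fun x => x.2) v

/-- `∂_e` intertwines the twist with weight `0` and the twist with weight `1` at `e`. -/
lemma pd_Dt {e : ι} {a : ι → ι → ℤ} (h : Sep e a) (h0 : a e e = 0) (n : ℤ) (u : Pg k ι) :
    pd e (Dt a n u) = Dt (a + eu e e) n (pd e u) := by
  rw [Dt_add_twist, Dt_apply, Dt_apply, map_add, pd_DD, leib, ph_eu, hh_self, ph_je h h0, pd_je,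
    mul_zero, add_zero]
  ring

lemma pushr_val {r : ι → ℕ} {e : ι} (he : r e = 0) :
    pushr Subtype.val (fun x : {x // x ≠ e} => r x.1) = r := by
  funext i
  unfold pushr
  rw [Finset.sum_filter]
  rcases eq_or_ne i e with rfl | hi
  · rw [he]
    exact Finset.sum_eq_zero fun x _ => if_neg x.2
  · rw [Finset.sum_eq_single (⟨i, hi⟩ : {x // x ≠ e})]
    · rw [if_pos rfl]
    · intro x _ hx
      rw [if_neg fun h2 => hx (Subtype.ext h2)]
    · intro h
      exact absurd (Finset.mem_univ _) h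

lemma je_mem_qq {r : ι → ℕ} {e : ι} (he : r e = 0) {v : Pg k {x // x ≠ e}}
    (hv : v ∈ qq (fun x : {x // x ≠ e} => r x.1)) : je e v ∈ qq r := by
  obtain ⟨f, rfl⟩ := hv
  exact ⟨Pmap (Option.map Subtype.val) f, by rw [Pmap_xlin, map_mul, Pmap_P0, pushr_val he]⟩

lemma Off.resa {a : ι → ι → ℤ} (h : Off a) (e : ι) : Off (resa e a) := fun i j hij =>
  h i.1 j.1 fun h2 => hij (Subtype.ext h2)

/-- The chain of the restrictions to the subring without `t_e`. -/
lemma NN_je {r : ι → ℕ} {e : ι} (he : r e = 0) {a : ι → ι → ℤ} (hoff : Off a) (h : Sep e a)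
    (h0 : a e e = 0) (hM : ∀ r', Main k {x // x ≠ e} r')
    (P : ℕ → Submodule k (Pg k ι)) (hP : Monotone P) (hs : ∀ n, Stab a (P n))
    (hc : ∀ n, (qq (k := k) r : Set (Pg k ι)) ⊆ P n) :
    ∃ n, ∀ m, n ≤ m → ∀ v, je e v ∈ P m → je e v ∈ P n := by
  have hst : ∀ n, Stab (resa e a) ((P n).comap (je e).toLinearMap) := by
    intro n
    constructor
    · intro m u hu
      show je e (xx m * u) ∈ P n
      rw [map_mul, Pmap_xx]
      exact (hs n).x m _ hu
    · intro m u hu
      show je e (Dt (resa e a) m u) ∈ P n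
      rw [← Dt_je h h0]
      exact (hs n).d m _ hu
  obtain ⟨n, hn⟩ := hM (fun x => r x.1) (resa e a) (hoff.resa e)
    (fun n => (P n).comap (je e).toLinearMap) (fun i j hij => Submodule.comap_mono (hP hij))
    hst (fun n u hu => hc n (je_mem_qq he hu))
  refine ⟨n, fun m hm v hv => ?_⟩
  have h1 : v ∈ (P m).comap (je e).toLinearMap := hv
  rw [hn m hm] at h1
  exact h1

/-- The composition of the `∂_e` over a list. -/
noncomputable def pdL : List ι → Pg k ι →ₗ[k] Pg k ι
  | [] => LinearMap.id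
  | e :: l => pdL l ∘ₗ (pd e).toLinearMap

lemma pdL_nil (u : Pg k ι) : pdL [] u = u := rfl

lemma pdL_cons (e : ι) (l : List ι) (u : Pg k ι) : pdL (e :: l) u = pdL l (pd e u) := rfl

lemma Sep_add {e e' : ι} {a : ι → ι → ℤ} (h : Sep e' a) : Sep e' (a + eu e e) := by
  intro j hj
  obtain ⟨h1, h2⟩ := h j hj
  rw [Pi.add_apply, Pi.add_apply, Pi.add_apply, Pi.add_apply, h1, h2]
  unfold eu
  constructor
  · rcases eq_or_ne e' e with rfl | h3
    · rw [Pi.single_eq_same, Pi.single_eq_of_ne hj, add_zero]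
    · rw [Pi.single_eq_of_ne h3, Pi.zero_apply, add_zero]
  · rcases eq_or_ne j e with rfl | h3
    · rw [Pi.single_eq_same, Pi.single_eq_of_ne (Ne.symm hj), add_zero]
    · rw [Pi.single_eq_of_ne h3, Pi.zero_apply, add_zero]

lemma Off_add_eu {a : ι → ι → ℤ} (h : Off a) (e : ι) : Off (a + eu e e) := by
  refine h.add ?_
  intro i j _
  unfold eu
  rcases eq_or_ne i e with rfl | h3
  · rw [Pi.single_eq_same]
    rcases eq_or_ne j i with rfl | h4
    · rw [Pi.single_eq_same]; exact zero_le_one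
    · rw [Pi.single_eq_of_ne h4]
  · rw [Pi.single_eq_of_ne h3, Pi.zero_apply]

/-- Chains inside the kernel of a product of the `∂_e`. -/
lemma ker_chain {r : ι → ℕ} (hM : ∀ (e : ι) r', Main k {x // x ≠ e} r') (l : List ι)
    (hnd : l.Nodup) (hdead : ∀ e ∈ l, r e = 0) :
    ∀ a : ι → ι → ℤ, Off a → (∀ e ∈ l, Sep e a ∧ a e e = 0) →
    ∀ P : ℕ → Submodule k (Pg k ι), Monotone P → (∀ n, Stab a (P n)) →
      (∀ n, (qq (k := k) r : Set (Pg k ι)) ⊆ P n) →
      ∃ n, ∀ m, n ≤ m → ∀ u ∈ P m, pdL l u ∈ qq r → u ∈ P n := by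
  induction l with
  | nil =>
    intro a _ _ P _ _ hc
    exact ⟨0, fun m _ u _ hu2 => hc 0 hu2⟩
  | cons e l ih =>
    intro a hoff hl P hP hs hc
    obtain ⟨hsep, h0⟩ := hl e List.mem_cons_self
    have he := hdead e List.mem_cons_self
    obtain ⟨n1, hn1⟩ := NN_je he hoff hsep h0 (hM e) P hP hs hc
    have hst : ∀ n, Stab (a + eu e e) ((P n).map (pd e).toLinearMap ⊔
        (qq r).restrictScalars k) := by
      intro n
      constructor
      · intro m u hu
        obtain ⟨_, ⟨p, hp, rfl⟩, q, hq, rfl⟩ := Submodule.mem_sup.1 hu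
        rw [mul_add]
        refine Submodule.add_mem_sup ⟨xx m * p, (hs n).x m p hp, ?_⟩ (Ideal.mul_mem_left _ _ hq)
        rw [Derivation.coeFn_coe, leib, pd_xx, mul_zero, add_zero]
      · intro m u hu
        obtain ⟨_, ⟨p, hp, rfl⟩, q, hq, rfl⟩ := Submodule.mem_sup.1 hu
        rw [Derivation.coeFn_coe, map_add, ← pd_Dt hsep h0]
        exact Submodule.add_mem_sup ⟨_, (hs n).d m p hp, rfl⟩ (Dt_mem_qq _ hq m)
    obtain ⟨n2, hn2⟩ := ih (List.nodup_cons.1 hnd).2
      (fun e' he' => hdead e' (List.mem_cons_of_mem _ he')) (a + eu e e) (Off_add_eu hoff e)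
      (fun e' he' => ⟨Sep_add (hl e' (List.mem_cons_of_mem _ he')).1, by
        have h3 : e' ≠ e := fun h4 => (List.nodup_cons.1 hnd).1 (h4 ▸ he')
        rw [Pi.add_apply, Pi.add_apply, (hl e' (List.mem_cons_of_mem _ he')).2]
        unfold eu
        rw [Pi.single_eq_of_ne h3, Pi.zero_apply, add_zero]⟩)
      (fun n => (P n).map (pd e).toLinearMap ⊔ (qq r).restrictScalars k)
      (fun i j hij => sup_le_sup_right (Submodule.map_mono (hP hij)) _) hst
      (fun n u hu => Submodule.mem_sup_right hu)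
    refine ⟨max n1 n2, fun m hm u hu hker => ?_⟩
    have hm1 : n1 ≤ m := (le_max_left _ _).trans hm
    have hm2 : n2 ≤ m := (le_max_right _ _).trans hm
    have h5 := hn2 m hm2 (pd e u) (Submodule.mem_sup_left ⟨u, hu, rfl⟩) hker
    obtain ⟨_, ⟨p, hp, rfl⟩, q, hq, h6⟩ := Submodule.mem_sup.1 h5
    rw [Derivation.coeFn_coe] at h6
    have h7 : pd e (u - p) ∈ qq r := by
      rw [map_sub, ← h6, add_sub_cancel_left]
      exact hq
    obtain ⟨v, hv⟩ := exists_of_pd_mem he h7
    have hpm : p ∈ P m := hP hm2 hp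
    have h8 : je e v ∈ P m := by
      have h9 := (P m).sub_mem ((P m).sub_mem hu hpm) (hc m hv)
      rwa [sub_sub_cancel] at h9
    have h10 := hP (le_max_left n1 n2) (hn1 m hm1 v h8)
    have h11 := (P (max n1 n2)).add_mem ((P (max n1 n2)).add_mem (hc _ hv) h10)
      (hP (le_max_right n1 n2) hp)
    have h12 : u - p - je e v + je e v + p = u := by ring
    rwa [h12] at h11

/-- Changing the weight `1` to the weight `0`. -/
lemma toggle {r : ι → ℕ} {e : ι} (he : r e = 0) {a : ι → ι → ℤ} (hoff : Off a) (h : Sep e a)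
    (h0 : a e e = 0) (hM : ∀ r', Main k {x // x ≠ e} r')
    (hN : NN a (qq (k := k) r : Set (Pg k ι))) :
    NN (a + eu e e) (qq (k := k) r : Set (Pg k ι)) := by
  intro P hP hs hc
  have hst1 : ∀ n, Stab a ((P n).comap (pd e).toLinearMap) := by
    intro n
    constructor
    · intro m u hu
      show pd e (xx m * u) ∈ P n
      rw [leib, pd_xx, mul_zero, add_zero]
      exact (hs n).x m _ hu
    · intro m u hu
      show pd e (Dt a m u) ∈ P n
      rw [pd_Dt h h0]
      exact (hs n).d m _ hu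
  obtain ⟨n1, hn1⟩ := hN (fun n => (P n).comap (pd e).toLinearMap)
    (fun i j hij => Submodule.comap_mono (hP hij)) hst1 (fun n u hu => hc n (pd_mem_qq he hu))
  have hkey : ∀ m (v : Pg k {x // x ≠ e}), Dt (a + eu e e) m (tv e (-1) * je e v) =
      tv e (-1) * je e (Dt (resa e a) m v) + pd e (tv e (m - 1) * je e v) := by
    intro m v
    have h1 : (-1 + m - 1) = m - 2 := by ring
    have h2 : m - 1 - 1 = m - 2 := by ring
    have h3 : tv (k := k) e (m - 1) * tv e (-1) = tv e (m - 2) := by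
      have h4 : m - 1 + -1 = m - 2 := by ring
      rw [tv_mul, h4]
    rw [Dt_add_twist, Dt_apply, leib, leib, ph_eu, hh_self, ph_je h h0, pd_je, DD_Pmap, DD_tv,
      Dt_apply, map_add, map_mul, pd_tv_self, mul_zero, zero_add, h1, h2]
    push_cast
    linear_combination ((m : Pg k ι) * je e v) * h3
  have hst2 : ∀ n, Stab (resa e a) ((P n ⊔ LinearMap.range (pd (k := k) e).toLinearMap).comap
      (LinearMap.mulLeft k (tv e (-1)) ∘ₗ (je e).toLinearMap)) := by
    intro n
    constructor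
    · intro m u hu
      obtain ⟨p, hp, _, ⟨y, rfl⟩, h4⟩ := Submodule.mem_sup.1 hu
      rw [Derivation.coeFn_coe] at h4
      have h5 : tv e (-1) * je e (xx m * u) = xx m * p + pd e (xx m * y) := by
        rw [map_mul, Pmap_xx, leib, pd_xx, mul_zero, add_zero, ← mul_add, h4]
        show _ = xx m * (tv e (-1) * je e u)
        ring
      rw [Submodule.mem_comap, LinearMap.comp_apply, LinearMap.mulLeft_apply,
        AlgHom.toLinearMap_apply, h5]
      exact Submodule.add_mem_sup ((hs n).x m p hp) ⟨_, rfl⟩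
    · intro m u hu
      obtain ⟨p, hp, _, ⟨y, rfl⟩, h4⟩ := Submodule.mem_sup.1 hu
      rw [Derivation.coeFn_coe] at h4
      have h4' : p + pd e y = tv e (-1) * je e u := h4
      have h5 : tv e (-1) * je e (Dt (resa e a) m u) = Dt (a + eu e e) m p +
          pd e (Dt a m y - tv e (m - 1) * je e u) := by
        have h6 := hkey m u
        rw [← h4', map_add, ← pd_Dt h h0] at h6
        rw [map_sub]
        linear_combination -h6
      rw [Submodule.mem_comap, LinearMap.comp_apply, LinearMap.mulLeft_apply,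
        AlgHom.toLinearMap_apply, h5]
      exact Submodule.add_mem_sup ((hs n).d m p hp) ⟨_, rfl⟩
  obtain ⟨n2, hn2⟩ := hM (fun x => r x.1) (resa e a) (hoff.resa e)
    (fun n => (P n ⊔ LinearMap.range (pd (k := k) e).toLinearMap).comap
      (LinearMap.mulLeft k (tv e (-1)) ∘ₗ (je e).toLinearMap))
    (fun i j hij => Submodule.comap_mono (sup_le_sup_right (hP hij) _)) hst2
    (fun n u hu => Submodule.mem_sup_left (hc n (Ideal.mul_mem_left _ _ (je_mem_qq he hu))))
  refine ⟨max n1 n2, fun m hm => le_antisymm (fun u hu => ?_) (hP hm)⟩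
  have hm1 : n1 ≤ m := (le_max_left _ _).trans hm
  have hm2 : n2 ≤ m := (le_max_right _ _).trans hm
  obtain ⟨y, v, rfl⟩ := exists_pd_add e u
  have h7 : v ∈ (P m ⊔ LinearMap.range (pd (k := k) e).toLinearMap).comap
      (LinearMap.mulLeft k (tv e (-1)) ∘ₗ (je e).toLinearMap) := by
    rw [Submodule.mem_comap, LinearMap.comp_apply, LinearMap.mulLeft_apply,
        AlgHom.toLinearMap_apply]
    have h8 : tv e (-1) * je e v = (pd e y + tv e (-1) * je e v) + pd e (-y) := by
      rw [map_neg]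
      ring
    rw [h8]
    exact Submodule.add_mem_sup hu ⟨_, rfl⟩
  rw [hn2 m hm2] at h7
  obtain ⟨p, hp, _, ⟨z, rfl⟩, h9⟩ := Submodule.mem_sup.1 h7
  rw [Derivation.coeFn_coe] at h9
  have h9' : p + pd e z = tv e (-1) * je e v := h9
  have hp' := hP (le_max_right n1 n2) hp
  have h10 : pd e (y + z) ∈ P m := by
    have h11 := (P m).sub_mem hu (hP hm2 hp)
    rw [← h9'] at h11
    have h12 : pd e y + (p + pd e z) - p = pd e (y + z) := by
      rw [map_add]
      ring
    rwa [h12] at h11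
  have h13 : y + z ∈ (P m).comap (pd e).toLinearMap := h10
  rw [hn1 m hm1] at h13
  have h14 : pd e (y + z) ∈ P (max n1 n2) := hP (le_max_left _ _) h13
  have h15 := (P _).add_mem h14 hp'
  have h16 : pd e (y + z) + p = pd e y + tv e (-1) * je e v := by
    rw [← h9', map_add]
    ring
  rwa [h16] at h15

end

end Pool.Agent.K9h91.WI
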