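import Pool.Agent.K9h91.WI.Letters
import Pool.Agent.K9h91.WI.Dead

/-!
# The operator attached to all clusters without letters
-/

set_option autoImplicit false
set_option linter.unusedSectionVars false

namespace Pool.Agent.K9h91.WI

universe u v

/-- The difference of two variables. -/
noncomputable def df {k : Type u} [CommRing k] {ι : Type} [DecidableEq ι] (y z : ι) : Pg k ι :=
  tv y 1 - tv z 1

lemma Pmap_df {k : Type u} [CommRing k] {ι ι' : Type} [Fintype ι] [DecidableEq ι] [DecidableEq ι']
    (f : ι → ι') (y z : ι) : Pmap (k := k) f (df y z) = df (f y) (f z) := by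
  unfold df
  rw [map_sub, Pmap_tv, Pmap_tv]

section
variable {k : Type u} [Field k] {κ : Type} [Fintype κ] [DecidableEq κ]

/-- The points: clusters and letters. -/
abbrev Pt (κ : Type) := κ ⊕ κ × Bool

lemma upd_inl (l : κ × Bool) (c i : κ) :
    Function.update id (Sum.inr l) (Sum.inl c) (Sum.inl i : Pt κ) = Sum.inl i := by
  rw [Function.update_of_ne Sum.inl_ne_inr]
  rfl

lemma upd_inr {l l' : κ × Bool} (h : l' ≠ l) (c : κ) :
    Function.update id (Sum.inr l) (Sum.inl c) (Sum.inr l' : Pt κ) = Sum.inr l' := by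
  rw [Function.update_of_ne fun h2 => h (Sum.inr_injective h2)]
  rfl

lemma upd_self (l : κ × Bool) (c : κ) :
    Function.update id (Sum.inr l) (Sum.inl c) (Sum.inr l : Pt κ) = Sum.inl c :=
  Function.update_self _ _ _

lemma evl_df (l : κ × Bool) (c : κ) (y z : Pt κ) : evl (k := k) l c (df y z) =
    df (Function.update id (Sum.inr l) (Sum.inl c) y)
      (Function.update id (Sum.inr l) (Sum.inl c) z) := Pmap_df _ _ _

variable (K0 : Finset κ) (ty : κ → Bool) (lam : κ → ℤ)

/-- The operator of a group of letters. -/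
noncomputable def GO (d : κ) : Pg k (Pt κ) →ₗ[k] Pg k (Pt κ) :=
  if ty d = true then Lt K0 lam (d, false) else Lt K0 lam (d, true) ∘ₗ Lt K0 lam (d, false)

/-- The operator of a list of groups. -/
noncomputable def GOL : List κ → (Pg k (Pt κ) →ₗ[k] Pg k (Pt κ))
  | [] => LinearMap.id
  | d :: L => GOL L ∘ₗ GO K0 ty lam d

/-- The letters that are used. -/
def us (l : κ × Bool) : Prop := ty l.1 = false ∨ l.2 = false

/-- Divisibility along a letter and the clusters already taken. -/
def H1 (M : ℕ) (l : κ × Bool) (K : Finset κ) (u : Pg k (Pt κ)) : Prop :=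
  ∀ c ∈ K0, c ∉ K → (df (Sum.inr l) (Sum.inl c)) ^ M ∣ u

variable {K0 ty lam}

lemma H1_step {M : ℕ} {l l' : κ × Bool} (h : l' ≠ l) {K : Finset κ} {u : Pg k (Pt κ)} (c : κ)
    (hu : H1 K0 (M + 1) l' K u) : H1 K0 M l' K (Lc lam l c u) := by
  intro c' hc' hcK
  have h1 := Lc_dvd lam l c (hu c' hc' hcK)
  rw [evl_df, upd_inr h, upd_inl] at h1
  exact h1

lemma H1_step' {M : ℕ} {l l' : κ × Bool} (h : l' ≠ l) {K : Finset κ} {u : Pg k (Pt κ)} (c : κ)
    (hu : H1 K0 (M + 1) l' K u) (h2 : (df (Sum.inr l') (Sum.inr l)) ^ (M + 1) ∣ u) :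
    H1 K0 M l' (K.erase c) (Lc lam l c u) := by
  intro c' hc' hcK
  by_cases hcc : c' = c
  · subst hcc
    have h1 := Lc_dvd lam l c' h2
    rw [evl_df, upd_inr h, upd_self] at h1
    exact h1
  · exact H1_step h c hu c' hc' fun h3 => hcK (Finset.mem_erase.2 ⟨hcc, h3⟩)

lemma H2_step {M : ℕ} {l l' l'' : κ × Bool} (h' : l' ≠ l) (h'' : l'' ≠ l) {u : Pg k (Pt κ)} (c : κ)
    (hu : (df (Sum.inr l') (Sum.inr l'')) ^ (M + 1) ∣ u) :
    (df (Sum.inr l') (Sum.inr l'')) ^ M ∣ Lc lam l c u := by
  have h1 := Lc_dvd lam l c hu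
  rw [evl_df, upd_inr h', upd_inr h''] at h1
  exact h1

lemma H1_Lt {M : ℕ} {l l' : κ × Bool} (h : l' ≠ l) {K : Finset κ} {u : Pg k (Pt κ)}
    (hu : H1 K0 (M + 1) l' K u) : H1 K0 M l' K (Lt K0 lam l u) := by
  intro c' hc' hcK
  rw [Lt_apply]
  exact Finset.dvd_sum fun c _ => H1_step h c hu c' hc' hcK

lemma H2_Lt {M : ℕ} {l l' l'' : κ × Bool} (h' : l' ≠ l) (h'' : l'' ≠ l) {u : Pg k (Pt κ)}
    (hu : (df (Sum.inr l') (Sum.inr l'')) ^ (M + 1) ∣ u) :
    (df (Sum.inr l') (Sum.inr l'')) ^ M ∣ Lt K0 lam l u := by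
  rw [Lt_apply]
  exact Finset.dvd_sum fun c _ => H2_step h' h'' c hu

lemma Lc_kill' {l : κ × Bool} {c : κ} {u : Pg k (Pt κ)} {M : ℕ} (hM : 2 ≤ M)
    (h : (df (Sum.inr l) (Sum.inl c)) ^ M ∣ u) : Lc lam l c u = 0 :=
  Lc_kill lam l c ((pow_dvd_pow _ hM).trans h)

variable (K0 ty lam)

/-- Divisibility for a list of groups. -/
def Hf (M : ℕ) (L : List κ) (K : Finset κ) (u : Pg k (Pt κ)) : Prop :=
  (∀ l : κ × Bool, l.1 ∈ L → us ty l → H1 K0 M l K u) ∧
    ∀ l l' : κ × Bool, l.1 ∈ L → l'.1 ∈ L → l.1 ≠ l'.1 → us ty l → us ty l' →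
      (df (Sum.inr l) (Sum.inr l')) ^ M ∣ u

variable {K0 ty lam}

lemma ne_of_fst {l l' : κ × Bool} (h : l.1 ≠ l'.1) : l ≠ l' := fun h2 => h (h2 ▸ rfl)

/-- Contraction of one letter of a group. -/
lemma Hf_step {M : ℕ} {d : κ} {ε : Bool} {L : List κ} (hd : d ∉ L) {K : Finset κ}
    {u : Pg k (Pt κ)} (hus : us ty (d, ε)) (h : Hf K0 ty (M + 1) (d :: L) K u) (c : κ) :
    Hf K0 ty M L (K.erase c) (Lc lam (d, ε) c u) := by
  have hne : ∀ l : κ × Bool, l.1 ∈ L → l.1 ≠ d := fun l hl h2 => hd (h2 ▸ hl)
  constructor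
  · intro l hl hul
    exact H1_step' (ne_of_fst (hne l hl)) c (h.1 l (List.mem_cons_of_mem _ hl) hul)
      (h.2 l (d, ε) (List.mem_cons_of_mem _ hl) List.mem_cons_self (hne l hl) hul hus)
  · intro l l' hl hl' hll hul hul'
    exact H2_step (ne_of_fst (hne l hl)) (ne_of_fst (hne l' hl')) c
      (h.2 l l' (List.mem_cons_of_mem _ hl) (List.mem_cons_of_mem _ hl') hll hul hul')

lemma Hf_Lt {M : ℕ} {d : κ} {ε : Bool} {L : List κ} (hd : d ∉ L) {K : Finset κ}
    {u : Pg k (Pt κ)} (h : Hf K0 ty (M + 1) L K u) :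
    Hf K0 ty M L K (Lt K0 lam (d, ε) u) := by
  have hne : ∀ l : κ × Bool, l.1 ∈ L → l.1 ≠ d := fun l hl h2 => hd (h2 ▸ hl)
  constructor
  · intro l hl hul
    exact H1_Lt (ne_of_fst (hne l hl)) (h.1 l hl hul)
  · intro l l' hl hl' hll hul hul'
    exact H2_Lt (ne_of_fst (hne l hl)) (ne_of_fst (hne l' hl')) (h.2 l l' hl hl' hll hul hul')

/-- Too few clusters: everything vanishes. -/
lemma GOL_zero (L : List κ) : ∀ (M : ℕ) (K : Finset κ) (u : Pg k (Pt κ)), L.Nodup →
    K.card < L.length → 2 * L.length + 1 ≤ M → Hf K0 ty M L K u → GOL K0 ty lam L u = 0 := by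
  induction L with
  | nil =>
    intro M K u _ h
    exact absurd h (Nat.not_lt_zero _)
  | cons d L ih =>
    intro M K u hnd hcard hM h
    obtain ⟨hd, hnd'⟩ := List.nodup_cons.1 hnd
    rw [List.length_cons] at hcard hM
    obtain ⟨M', rfl⟩ : ∃ M', M = M' + 2 := ⟨M - 2, by omega⟩
    have hus : us ty (d, false) := Or.inr rfl
    show GOL K0 ty lam L (GO K0 ty lam d u) = 0
    have hc0 : ∀ c ∈ K0, c ∉ K → Lc lam (d, false) c u = 0 := fun c hc hcK =>
      Lc_kill' (Nat.le_add_left 2 M') (h.1 (d, false) List.mem_cons_self hus c hc hcK)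
    unfold GO
    split_ifs with hty
    · rw [Lt_apply, map_sum]
      refine Finset.sum_eq_zero fun c hc => ?_
      by_cases hcK : c ∈ K
      · refine ih (M' + 1) (K.erase c) _ hnd' ?_ (by omega)
          (Hf_step (M := M' + 1) hd hus h c)
        rw [Finset.card_erase_of_mem hcK]
        have := Finset.card_pos.2 ⟨c, hcK⟩
        omega
      · rw [hc0 c hc hcK, map_zero]
    · rw [LinearMap.comp_apply, Lt_apply K0 lam (d, false), map_sum, map_sum]
      refine Finset.sum_eq_zero fun c hc => ?_
      by_cases hcK : c ∈ K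
      · refine ih M' (K.erase c) _ hnd' ?_ (by omega)
          (Hf_Lt hd (Hf_step (M := M' + 1) hd hus h c))
        rw [Finset.card_erase_of_mem hcK]
        have := Finset.card_pos.2 ⟨c, hcK⟩
        omega
      · rw [hc0 c hc hcK, map_zero, map_zero]

/-- A pair of letters at one cluster. -/
lemma Lc_pair {l0 l1 : κ × Bool} (h : l0 ≠ l1) (c : κ) (w : Pg k (Pt κ)) :
    Lc lam l1 c (Lc lam l0 c ((df (Sum.inr l0) (Sum.inr l1)) ^ 2 * w)) =
      ((2 * lam c * (1 - lam c) : ℤ) : Pg k (Pt κ)) * evl l1 c (evl l0 c w) := by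
  have hx0 : pd (k := k) (Sum.inr l0 : Pt κ) (df (Sum.inr l0) (Sum.inr l1)) = 1 := by
    unfold df
    rw [map_sub, pd_tv_self, pd_tv_of_ne fun h2 => h (Sum.inr_injective h2), sub_self, tv_zero,
      Int.cast_one, mul_one, sub_zero]
  have hxc : pd (k := k) (Sum.inl c : Pt κ) (df (Sum.inr l0) (Sum.inr l1)) = 0 := by
    unfold df
    rw [map_sub, pd_tv_of_ne Sum.inl_ne_inr, pd_tv_of_ne Sum.inl_ne_inr, sub_zero]
  have hyc : pd (k := k) (Sum.inl c : Pt κ) (df (Sum.inl c) (Sum.inr l1)) = 1 := by
    unfold df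
    rw [map_sub, pd_tv_self, pd_tv_of_ne Sum.inl_ne_inr, sub_self, tv_zero,
      Int.cast_one, mul_one, sub_zero]
  have hy1 : pd (k := k) (Sum.inr l1 : Pt κ) (df (Sum.inl c) (Sum.inr l1)) = -1 := by
    unfold df
    rw [map_sub, pd_tv_self, pd_tv_of_ne Sum.inr_ne_inl, sub_self, tv_zero,
      Int.cast_one, mul_one, zero_sub]
  have h1 : Lc lam l0 c ((df (Sum.inr l0) (Sum.inr l1)) ^ 2 * w) =
      (df (Sum.inl c) (Sum.inr l1)) ^ 2 * Lc lam l0 c w +
        2 * (lam c : Pg k (Pt κ)) * (df (Sum.inl c) (Sum.inr l1)) * evl l0 c w := by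
    have h2 : pd (Sum.inl c) ((df (Sum.inr l0) (Sum.inr l1)) ^ 2 * w) +
        (lam c : Pg k (Pt κ)) * pd (Sum.inr l0) ((df (Sum.inr l0) (Sum.inr l1)) ^ 2 * w) =
        (df (Sum.inr l0) (Sum.inr l1)) ^ 2 * (pd (Sum.inl c) w +
          (lam c : Pg k (Pt κ)) * pd (Sum.inr l0) w) +
          2 * (lam c : Pg k (Pt κ)) * (df (Sum.inr l0) (Sum.inr l1)) * w := by
      rw [pow_two]
      simp only [leib, hx0, hxc]
      ring
    rw [Lc_apply, h2, map_add, map_mul, map_pow, evl_df, upd_self, upd_inr h.symm, Lc_apply,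
      map_mul, map_mul, map_mul, map_ofNat, map_intCast, evl_df, upd_self, upd_inr h.symm]
  have h3 : evl (k := k) l1 c (df (Sum.inl c) (Sum.inr l1)) = 0 := by
    rw [evl_df, upd_inl, upd_self]
    unfold df
    rw [sub_self]
  have hint : ∀ (D : Derivation k (Pg k (Pt κ)) (Pg k (Pt κ))),
      D (2 * (lam c : Pg k (Pt κ))) = 0 := by
    intro D
    have h4 : (2 * (lam c : Pg k (Pt κ))) = ((2 * lam c : ℤ) : Pg k (Pt κ)) := by push_cast; ring
    rw [h4, Derivation.map_intCast]
  rw [h1, Lc_apply]
  rw [pow_two]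
  simp only [leib, hyc, hy1, hint, map_add, map_mul, h3, map_neg, map_one, map_zero, map_intCast,
    map_ofNat]
  push_cast
  ring

/-- The assignment of some letters to clusters. -/
def fm (s : κ → κ) (L : List κ) : Pt κ → Pt κ :=
  Sum.elim Sum.inl fun l => if l.1 ∈ L then Sum.inr l else Sum.inl (s l.1)

lemma fm_inl (s : κ → κ) (L : List κ) (i : κ) : fm s L (Sum.inl i) = Sum.inl i := rfl

lemma fm_mem (s : κ → κ) {L : List κ} {l : κ × Bool} (h : l.1 ∈ L) :
    fm s L (Sum.inr l) = Sum.inr l := if_pos h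

lemma fm_not_mem (s : κ → κ) {L : List κ} {l : κ × Bool} (h : l.1 ∉ L) :
    fm s L (Sum.inr l) = Sum.inl (s l.1) := if_neg h

variable (K0 ty lam)

/-- The properties of the kernel element used below. -/
structure Good (M0 : ℕ) (Γ : Pg k (Pt κ)) (θ : Pg k κ) : Prop where
  g1 : ∀ c ∈ K0, pd (Sum.inl c) Γ = 0
  g2 : ∀ l l' : κ × Bool, l.1 ∈ K0 → l'.1 ∈ K0 → l.1 ≠ l'.1 → us ty l → us ty l' →
    (df (Sum.inr l) (Sum.inr l')) ^ M0 ∣ Γ
  g4 : ∀ s : κ → κ, (∀ d ∈ K0, s d ∈ K0) → Set.InjOn s K0 → (∀ d ∈ K0, ty (s d) = ty d) →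
    Pmap (fm s []) Γ = il θ
  g5 : ∀ l : κ × Bool, l.1 ∉ K0 → pd (Sum.inr l) Γ = 0
  g6 : ∀ f g : Pt κ → Pt κ, (∀ i, f (Sum.inl i) = g (Sum.inl i)) →
    (∀ l : κ × Bool, l.1 ∈ K0 → us ty l → f (Sum.inr l) = g (Sum.inr l)) →
    Pmap f Γ = Pmap g Γ

/-- The state of the assignment. -/
structure St (L : List κ) (s : κ → κ) (K : Finset κ) : Prop where
  nd : L.Nodup
  sub : ∀ d ∈ L, d ∈ K0
  maps : ∀ d ∈ K0, d ∉ L → s d ∈ K0 ∧ ty (s d) = ty d ∧ s d ∉ K
  inj : ∀ d ∈ K0, d ∉ L → ∀ d' ∈ K0, d' ∉ L → s d = s d' → d = d'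
  surj : ∀ c ∈ K0, c ∉ K → ∃ d ∈ K0, d ∉ L ∧ s d = c
  subK : K ⊆ K0

variable {K0 ty lam}

lemma St.step {d : κ} {L : List κ} {s : κ → κ} {K : Finset κ} (h : St K0 ty (d :: L) s K) {c : κ}
    (hc : c ∈ K) (ht : ty c = ty d) : St K0 ty L (Function.update s d c) (K.erase c) := by
  obtain ⟨hd, hnd'⟩ := List.nodup_cons.1 h.nd
  have hdK0 := h.sub d List.mem_cons_self
  have hne : ∀ d' ∈ K0, d' ∉ L → d' ≠ d → d' ∉ d :: L := by
    intro d' _ h1 h2 h3
    rcases List.mem_cons.1 h3 with h4 | h4
    · exact h2 h4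
    · exact h1 h4
  refine ⟨hnd', fun d' hd' => h.sub d' (List.mem_cons_of_mem _ hd'), ?_, ?_, ?_, ?_⟩
  · intro d' hd' hdL
    by_cases hdd : d' = d
    · subst hdd
      rw [Function.update_self]
      exact ⟨h.subK hc, ht, Finset.notMem_erase _ _⟩
    · rw [Function.update_of_ne hdd]
      obtain ⟨h1, h2, h3⟩ := h.maps d' hd' (hne d' hd' hdL hdd)
      exact ⟨h1, h2, fun h4 => h3 (Finset.mem_of_mem_erase h4)⟩
  · intro d1 h1 h1L d2 h2 h2L h12
    by_cases h3 : d1 = d
    · by_cases h4 : d2 = d
      · rw [h3, h4]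
      · subst h3
        rw [Function.update_self, Function.update_of_ne h4] at h12
        exact absurd (h12 ▸ hc) (h.maps d2 h2 (hne d2 h2 h2L h4)).2.2
    · by_cases h4 : d2 = d
      · subst h4
        rw [Function.update_self, Function.update_of_ne h3] at h12
        exact absurd (h12 ▸ hc) (h.maps d1 h1 (hne d1 h1 h1L h3)).2.2
      · rw [Function.update_of_ne h3, Function.update_of_ne h4] at h12
        exact h.inj d1 h1 (hne d1 h1 h1L h3) d2 h2 (hne d2 h2 h2L h4) h12
  · intro c' hc' hcK
    by_cases hcc : c' = c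
    · exact ⟨d, hdK0, hd, by rw [Function.update_self, hcc]⟩
    · obtain ⟨d', hd', hdL, hs⟩ := h.surj c' hc' fun h5 => hcK (Finset.mem_erase.2 ⟨hcc, h5⟩)
      have hdd : d' ≠ d := fun h5 => hdL (h5 ▸ List.mem_cons_self)
      exact ⟨d', hd', fun h5 => hdL (List.mem_cons_of_mem _ h5), by
        rw [Function.update_of_ne hdd, hs]⟩
  · exact (Finset.erase_subset _ _).trans h.subK

/-- Divisibility of the multiples of the state. -/
lemma Hf_state {M0 : ℕ} {Γ : Pg k (Pt κ)} {θ : Pg k κ} (hG : Good K0 ty M0 Γ θ) {L : List κ}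
    {s : κ → κ} {K : Finset κ} (h : St K0 ty L s K) {u : Pg k (Pt κ)}
    (hu : Pmap (fm s L) Γ ∣ u) : Hf K0 ty M0 L K u := by
  constructor
  · intro l hl hul c hc hcK
    obtain ⟨d', hd', hdL, hs⟩ := h.surj c hc hcK
    have h1 := map_dvd (Pmap (k := k) (fm s L)) (hG.g2 l (d', false) (h.sub _ hl) hd'
      (fun h2 => hdL (by rw [← show l.1 = d' from h2]; exact hl)) hul (Or.inr rfl))
    rw [map_pow, Pmap_df, fm_mem s hl, fm_not_mem s hdL, hs] at h1
    exact h1.trans hu
  · intro l l' hl hl' hll hul hul'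
    have h1 := map_dvd (Pmap (k := k) (fm s L)) (hG.g2 l l' (h.sub _ hl) (h.sub _ hl')
      hll hul hul')
    rw [map_pow, Pmap_df, fm_mem s hl, fm_mem s hl'] at h1
    exact h1.trans hu

/-- The state does not involve the free clusters. -/
lemma pd_state {M0 : ℕ} {Γ : Pg k (Pt κ)} {θ : Pg k κ} (hG : Good K0 ty M0 Γ θ) {L : List κ}
    {s : κ → κ} {K : Finset κ} (h : St K0 ty L s K) {c : κ} (hc : c ∈ K) :
    pd (Sum.inl c) (Pmap (fm s L) Γ) = 0 := by
  rw [pd_Pmap]
  refine Finset.sum_eq_zero fun x hx => ?_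
  have hx2 := (Finset.mem_filter.1 hx).2
  cases x with
  | inl i =>
    rw [fm_inl] at hx2
    rw [Sum.inl_injective hx2, hG.g1 c (h.subK hc), map_zero]
  | inr l =>
    by_cases hl : l.1 ∈ L
    · rw [fm_mem s hl] at hx2
      exact absurd hx2 Sum.inr_ne_inl
    · rw [fm_not_mem s hl] at hx2
      have hx3 := Sum.inl_injective hx2
      by_cases hl0 : l.1 ∈ K0
      · exact absurd (hx3 ▸ hc) (h.maps l.1 hl0 hl).2.2
      · rw [hG.g5 l hl0, map_zero]

variable [CharZero k]

/-- The iterated derivative over a finite set. -/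
noncomputable def pdF (K : Finset κ) : Pg k κ →ₗ[k] Pg k κ := pdL K.toList

lemma pdL_perm {L L' : List κ} (h : L.Perm L') : ∀ u : Pg k κ, pdL L u = pdL L' u := by
  induction h with
  | nil => intro u; rfl
  | cons x _ ih => intro u; rw [pdL_cons, pdL_cons, ih]
  | swap x y l => intro u; rw [pdL_cons, pdL_cons, pdL_cons, pdL_cons, pd_comm]
  | trans _ _ ih1 ih2 => intro u; rw [ih1, ih2]

lemma pdF_erase {K : Finset κ} {c : κ} (hc : c ∈ K) (u : Pg k κ) :
    pdF (K.erase c) (pd c u) = pdF K u := by
  unfold pdF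
  rw [← pdL_cons]
  apply pdL_perm
  have h1 := Finset.toList_insert (Finset.notMem_erase c K)
  rw [Finset.insert_erase hc] at h1
  exact h1.symm

lemma pdF_empty (u : Pg k κ) : pdF ∅ u = u := by
  unfold pdF
  rw [Finset.toList_empty]
  rfl

/-- The phase of the exceptional clusters. -/
lemma phase_E {M0 : ℕ} (hM : 2 ≤ M0) {Γ : Pg k (Pt κ)} {θ : Pg k κ} (hG : Good K0 ty M0 Γ θ)
    (hlam : ∀ c ∈ K0, ty c = true → lam c = 0) (L : List κ) : (∀ d ∈ L, ty d = true) →
    ∀ (s : κ → κ) (K : Finset κ) (q : Pg k κ), St K0 ty L s K → (∀ c ∈ K, ty c = true) →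
      K.card = L.length →
      GOL K0 ty lam L (Pmap (fm s L) Γ * il q) =
        ((L.length.factorial : ℕ) : Pg k (Pt κ)) * il (θ * pdF K q) := by
  induction L with
  | nil =>
    intro _ s K q hst _ hcard
    have hK : K = ∅ := Finset.card_eq_zero.1 hcard
    subst hK
    show Pmap (fm s []) Γ * il q = _
    rw [hG.g4 s (fun d hd => (hst.maps d hd List.not_mem_nil).1)
      (fun d hd d' hd' h => hst.inj d hd List.not_mem_nil d' hd' List.not_mem_nil h)
      (fun d hd => (hst.maps d hd List.not_mem_nil).2.1), pdF_empty, map_mul]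
    simp
  | cons d L ih =>
    intro hL s K q hst hKt hcard
    obtain ⟨hd, hnd'⟩ := List.nodup_cons.1 hst.nd
    have htd := hL d List.mem_cons_self
    have hF : Hf K0 ty M0 (d :: L) K (Pmap (fm s (d :: L)) Γ * il q) :=
      Hf_state hG hst (Dvd.intro _ rfl)
    show GOL K0 ty lam L (GO K0 ty lam d _) = _
    unfold GO
    rw [if_pos htd, Lt_apply, map_sum]
    have hterm : ∀ c ∈ K0, GOL K0 ty lam L (Lc lam (d, false) c
        (Pmap (fm s (d :: L)) Γ * il q)) = if c ∈ K then
          ((L.length.factorial : ℕ) : Pg k (Pt κ)) * il (θ * pdF K q) else 0 := by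
      intro c hc
      split_ifs with hcK
      · have h1 : Lc lam (d, false) c (Pmap (fm s (d :: L)) Γ * il q) =
            Pmap (fm (Function.update s d c) L) Γ * il (pd c q) := by
          rw [Lc_apply, hlam c hc (hKt c hcK), Int.cast_zero, zero_mul, add_zero, leib,
            pd_state hG hst hcK, mul_zero, add_zero, pd_Pmap_inj Sum.inl_injective, map_mul,
            evl_il]
          congr 1
          unfold evl
          rw [Pmap_Pmap]
          apply hG.g6
          · intro i
            rw [Function.comp_apply, fm_inl, fm_inl, upd_inl]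
          · intro l hl hul
            rw [Function.comp_apply]
            by_cases hld : l.1 = d
            · have hl2 : l.2 = false := by
                rcases hul with h2 | h2
                · rw [hld, htd] at h2
                  exact absurd h2 (by decide)
                · exact h2
              have hl3 : l = (d, false) := Prod.ext hld hl2
              subst hl3
              rw [fm_mem s (L := d :: L) (l := (d, false)) List.mem_cons_self, upd_self,
                fm_not_mem _ (L := L) (l := (d, false)) hd, Function.update_self]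
            · by_cases hlL : l.1 ∈ L
              · rw [fm_mem s (List.mem_cons_of_mem _ hlL), fm_mem _ hlL,
                  upd_inr (ne_of_fst (l' := (d, false)) hld)]
              · have hlL' : l.1 ∉ d :: L := by
                  intro h3
                  rcases List.mem_cons.1 h3 with h4 | h4
                  · exact hld h4
                  · exact hlL h4
                rw [fm_not_mem s hlL', fm_not_mem _ hlL, upd_inl, Function.update_of_ne hld]
        rw [h1, ih (fun d' hd' => hL d' (List.mem_cons_of_mem _ hd')) _ (K.erase c) _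
          (hst.step hcK ((hKt c hcK).trans htd.symm))
          (fun c' hc' => hKt c' (Finset.mem_of_mem_erase hc')) ?_, pdF_erase hcK]
        rw [Finset.card_erase_of_mem hcK, hcard, List.length_cons, Nat.add_sub_cancel]
      · rw [Lc_kill' hM (hF.1 (d, false) List.mem_cons_self (Or.inr rfl) c hc hcK), map_zero]
    rw [Finset.sum_congr rfl hterm, ← Finset.sum_filter, Finset.sum_const, nsmul_eq_mul]
    have h5 : (K0.filter fun c => c ∈ K) = K := by
      ext c
      rw [Finset.mem_filter]
      exact ⟨fun h => h.2, fun h => ⟨hst.subK h, h⟩⟩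
    rw [h5, hcard, List.length_cons, Nat.factorial_succ]
    push_cast
    ring

/-- The product of the squares of the pairs. -/
noncomputable def PF (L : List κ) : Pg k (Pt κ) :=
  (L.map fun d => (df (Sum.inr (d, false)) (Sum.inr (d, true)) : Pg k (Pt κ)) ^ 2).prod

lemma evl_PF {d : κ} {ε : Bool} {L : List κ} (hd : d ∉ L) (c : κ) :
    evl (k := k) (d, ε) c (PF L) = PF L := by
  unfold PF
  rw [map_list_prod, List.map_map]
  congr 1
  refine List.map_congr_left fun d' hd' => ?_
  have h1 : d' ≠ d := fun h => hd (h ▸ hd')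
  rw [Function.comp_apply, map_pow, evl_df,
    upd_inr (ne_of_fst (l := (d', false)) (l' := (d, ε)) h1),
    upd_inr (ne_of_fst (l := (d', true)) (l' := (d, ε)) h1)]

/-- The full evaluation. -/
lemma phase_N {M0 : ℕ} {Γ : Pg k (Pt κ)} {θ : Pg k κ} (hG : Good K0 ty M0 Γ θ)
    (hlam : ∀ c ∈ K0, ty c = true → lam c = 0) (LE : List κ) (hLE : ∀ d ∈ LE, ty d = true)
    (LN : List κ) : (∀ d ∈ LN, ty d = false) → 2 * (LN.length + LE.length) + 4 ≤ M0 →
    ∀ (s : κ → κ) (K : Finset κ) (q : Pg k κ), St K0 ty (LN ++ LE) s K →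
      (K.filter fun c => ty c = false).card = LN.length →
      (K.filter fun c => ty c = true).card = LE.length →
      GOL K0 ty lam (LN ++ LE) (PF LN * (Pmap (fm s (LN ++ LE)) Γ * il q)) =
        ((((LN.length.factorial * LE.length.factorial : ℕ) : ℤ) *
          ∏ c ∈ K.filter (fun c => ty c = false), (2 * lam c * (1 - lam c)) : ℤ) : Pg k (Pt κ)) *
          il (θ * pdF (K.filter fun c => ty c = true) q) := by
  induction LN with
  | nil =>
    intro _ hM s K q hst hcN hcE
    have hK0 : K.filter (fun c => ty c = false) = ∅ := Finset.card_eq_zero.1 hcN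
    have hKt : ∀ c ∈ K, ty c = true := by
      intro c hc
      by_contra h
      have h2 : ty c = false := by
        cases h3 : ty c with
        | false => rfl
        | true => exact absurd h3 h
      have h3 : c ∈ K.filter (fun c => ty c = false) := Finset.mem_filter.2 ⟨hc, h2⟩
      rw [hK0] at h3
      exact Finset.notMem_empty _ h3
    have hKf : K.filter (fun c => ty c = true) = K := Finset.filter_true_of_mem hKt
    rw [hKf] at hcE
    rw [List.nil_append] at hst ⊢
    have h1 := phase_E (lam := lam) (by omega) hG hlam LE hLE s K q hst hKt hcE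
    unfold PF
    rw [List.map_nil, List.prod_nil, one_mul, h1, hK0, hKf]
    simp
  | cons d LN ih =>
    intro hLN hM s K q hst hcN hcE
    rw [List.length_cons] at hM
    rw [List.cons_append] at hst ⊢
    obtain ⟨hd, hnd'⟩ := List.nodup_cons.1 hst.nd
    have htd := hLN d List.mem_cons_self
    have hdN : d ∉ LN := fun h => hd (List.mem_append_left _ h)
    set L := LN ++ LE with hLdef
    have hLlen : L.length = LN.length + LE.length := List.length_append
    have hKcard : K.card = L.length + 1 := by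
      have h1 := Finset.card_filter_add_card_filter_not (s := K) (fun c => ty c = false)
      have h2 : (K.filter fun c => ¬ ty c = false) = K.filter fun c => ty c = true := by
        ext c
        simp
      rw [h2, hcN, hcE, List.length_cons] at h1
      omega
    set l0 : κ × Bool := (d, false) with hl0
    set l1 : κ × Bool := (d, true) with hl1
    have hl01 : l0 ≠ l1 := by
      rw [hl0, hl1]
      intro h
      exact Bool.noConfusion (Prod.ext_iff.1 h).2
    have hus0 : us ty l0 := Or.inr rfl
    have hus1 : us ty l1 := Or.inl htd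
    set w : Pg k (Pt κ) := PF LN * (Pmap (fm s (d :: L)) Γ * il q) with hw
    have hu : PF (d :: LN) * (Pmap (fm s (d :: L)) Γ * il q) =
        (df (Sum.inr l0) (Sum.inr l1)) ^ 2 * w := by
      unfold PF
      rw [List.map_cons, List.prod_cons, hw, mul_assoc]
      rfl
    obtain ⟨M', hM'⟩ : ∃ M', M0 = M' + 2 := ⟨M0 - 2, by omega⟩
    have hF : Hf K0 ty (M' + 2) (d :: L) K ((df (Sum.inr l0) (Sum.inr l1)) ^ 2 * w) := by
      rw [← hM']
      exact Hf_state hG hst ⟨(df (Sum.inr l0) (Sum.inr l1)) ^ 2 * (PF LN * il q), by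
        rw [hw]; ring⟩
    rw [hu]
    show GOL K0 ty lam L (GO K0 ty lam d _) = _
    unfold GO
    rw [if_neg (by rw [htd]; decide), LinearMap.comp_apply, Lt_apply K0 lam (d, false), map_sum,
      map_sum]
    have hterm : ∀ c ∈ K0, GOL K0 ty lam L (Lt K0 lam (d, true) (Lc lam (d, false) c
        ((df (Sum.inr l0) (Sum.inr l1)) ^ 2 * w))) = if c ∈ K.filter (fun c => ty c = false) then
          ((((LN.length.factorial * LE.length.factorial : ℕ) : ℤ) *
          ∏ c ∈ K.filter (fun c => ty c = false), (2 * lam c * (1 - lam c)) : ℤ) : Pg k (Pt κ)) *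
          il (θ * pdF (K.filter fun c => ty c = true) q) else 0 := by
      intro c hc
      by_cases hcK : c ∈ K
      · have hF1 : Hf K0 ty (M' + 1) L (K.erase c) (Lc lam l0 c
            ((df (Sum.inr l0) (Sum.inr l1)) ^ 2 * w)) := Hf_step (M := M' + 1) hd hus0 hF c
        -- only the cluster `c` contributes for the second letter
        have hsplit : ∀ c' ∈ K0, c' ≠ c → GOL K0 ty lam L (Lc lam l1 c' (Lc lam l0 c
            ((df (Sum.inr l0) (Sum.inr l1)) ^ 2 * w))) = 0 := by
          intro c' hc' hcc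
          have hH1 : H1 K0 (M' + 1) l1 K (Lc lam l0 c
              ((df (Sum.inr l0) (Sum.inr l1)) ^ 2 * w)) :=
            H1_step (Ne.symm hl01) c (hF.1 l1 List.mem_cons_self hus1)
          by_cases hcK' : c' ∈ K
          · have hne : ∀ l : κ × Bool, l.1 ∈ L → l.1 ≠ d := fun l hl h2 => hd (h2 ▸ hl)
            refine GOL_zero L M' ((K.erase c).erase c') _ hnd' ?_ (by omega) ⟨?_, ?_⟩
            · rw [Finset.card_erase_of_mem (Finset.mem_erase.2 ⟨hcc, hcK'⟩),
                Finset.card_erase_of_mem hcK, hKcard]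
              have h9 : 1 ≤ L.length := by
                have h10 : 1 < K.card := Finset.one_lt_card.2 ⟨c, hcK, c', hcK', Ne.symm hcc⟩
                omega
              omega
            · intro l hl hul
              refine H1_step' (ne_of_fst (hne l hl)) c' (hF1.1 l hl hul) ?_
              exact H2_step (ne_of_fst (hne l hl)) (Ne.symm hl01) c
                (hF.2 l l1 (List.mem_cons_of_mem _ hl) List.mem_cons_self (hne l hl) hul hus1)
            · intro l l' hl hl' hll hul hul'
              exact H2_step (ne_of_fst (hne l hl)) (ne_of_fst (hne l' hl')) c'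
                (hF1.2 l l' hl hl' hll hul hul')
          · rw [Lc_kill' (by omega : 2 ≤ M' + 1) (hH1 c' hc' hcK'), map_zero]
        rw [Lt_apply, map_sum, Finset.sum_eq_single c (fun c' hc' hcc => hsplit c' hc' hcc)
          (fun h => absurd hc h)]
        show GOL K0 ty lam L (Lc lam l1 c (Lc lam l0 c ((df (Sum.inr l0) (Sum.inr l1)) ^ 2 * w))) = _
        rw [Lc_pair hl01]
        by_cases htc : ty c = true
        · rw [hlam c hc htc, if_neg (fun h => by
            rw [(Finset.mem_filter.1 h).2] at htc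
            exact absurd htc (by decide))]
          simp
        · have htc' : ty c = false := by
            cases h3 : ty c with
            | false => rfl
            | true => exact absurd h3 htc
          rw [if_pos (Finset.mem_filter.2 ⟨hcK, htc'⟩)]
          have hev : evl l1 c (evl l0 c w) =
              PF LN * (Pmap (fm (Function.update s d c) L) Γ * il q) := by
            rw [hw, map_mul, map_mul, map_mul, map_mul, hl0, evl_PF hdN, hl1, evl_PF hdN, evl_il,
              evl_il]
            congr 2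
            unfold evl
            rw [Pmap_Pmap, Pmap_Pmap]
            apply hG.g6
            · intro i
              rw [Function.comp_apply, Function.comp_apply, fm_inl, fm_inl, upd_inl, upd_inl]
            · intro l hl hul
              rw [Function.comp_apply, Function.comp_apply]
              by_cases hld : l.1 = d
              · have hdl : l.1 ∈ d :: L := by rw [hld]; exact List.mem_cons_self
                have hnl : l.1 ∉ L := by rw [hld]; exact hd
                rw [fm_mem s hdl, fm_not_mem _ hnl, hld, Function.update_self]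
                cases h3 : l.2 with
                | false =>
                  have hl3 : l = (d, false) := Prod.ext hld h3
                  rw [hl3, upd_self, upd_inl]
                | true =>
                  have hl3 : l = (d, true) := Prod.ext hld h3
                  rw [hl3, upd_inr (Ne.symm hl01), upd_self]
              · by_cases hlL : l.1 ∈ L
                · rw [fm_mem s (List.mem_cons_of_mem _ hlL), fm_mem _ hlL,
                    upd_inr (ne_of_fst (l' := (d, false)) hld),
                    upd_inr (ne_of_fst (l' := (d, true)) hld)]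
                · have hlL' : l.1 ∉ d :: L := by
                    intro h3
                    rcases List.mem_cons.1 h3 with h4 | h4
                    · exact hld h4
                    · exact hlL h4
                  rw [fm_not_mem s hlL', fm_not_mem _ hlL, upd_inl, upd_inl,
                    Function.update_of_ne hld]
          have hmulint : ∀ (n : ℤ) (x : Pg k (Pt κ)), GOL K0 ty lam L ((n : Pg k (Pt κ)) * x) =
              (n : Pg k (Pt κ)) * GOL K0 ty lam L x := by
            intro n x
            have h1 : (n : Pg k (Pt κ)) = algebraMap k _ (n : k) := (map_intCast _ n).symm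
            rw [h1, ← Algebra.smul_def, map_smul, Algebra.smul_def]
          have hfE : (K.erase c).filter (fun c => ty c = true) =
              K.filter (fun c => ty c = true) := by
            ext x
            simp only [Finset.mem_filter, Finset.mem_erase]
            constructor
            · rintro ⟨⟨_, h1⟩, h2⟩
              exact ⟨h1, h2⟩
            · rintro ⟨h1, h2⟩
              refine ⟨⟨?_, h1⟩, h2⟩
              rintro rfl
              exact htc h2
          have hfN : (K.erase c).filter (fun c => ty c = false) =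
              (K.filter (fun c => ty c = false)).erase c := by
            rw [Finset.filter_erase]
          have hcmem : c ∈ K.filter (fun c => ty c = false) := Finset.mem_filter.2 ⟨hcK, htc'⟩
          rw [hmulint, hev, ih (fun d' hd' => hLN d' (List.mem_cons_of_mem _ hd')) (by omega) _
            (K.erase c) q (hst.step hcK (htc'.trans htd.symm)) ?_ ?_, hfE, hfN]
          · rw [← Finset.mul_prod_erase _ _ hcmem]
            push_cast
            ring
          · rw [hfN, Finset.card_erase_of_mem hcmem, hcN, List.length_cons, Nat.add_sub_cancel]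
          · rw [hfE, hcE]
      · have h1 : Lc lam (d, false) c ((df (Sum.inr l0) (Sum.inr l1)) ^ 2 * w) = 0 :=
          Lc_kill' (by omega : 2 ≤ M' + 2) (hF.1 l0 List.mem_cons_self hus0 c hc hcK)
        rw [h1, map_zero, map_zero, if_neg fun h => hcK (Finset.mem_filter.1 h).1]
    rw [Finset.sum_congr rfl hterm, ← Finset.sum_filter, Finset.sum_const, nsmul_eq_mul]
    have h5 : (K0.filter fun c => c ∈ K.filter (fun c => ty c = false)) =
        K.filter (fun c => ty c = false) := by
      ext c
      rw [Finset.mem_filter]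
      exact ⟨fun h => h.2, fun h => ⟨hst.subK (Finset.mem_filter.1 h).1, h⟩⟩
    rw [h5, hcN, List.length_cons, Nat.factorial_succ]
    push_cast
    ring

end

end Pool.Agent.K9h91.WI
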