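import Pool.Agent.K9h91.WI.Lev1

/-!
# The ascending chain condition on all two-sided ideals
-/

set_option autoImplicit false
set_option linter.unusedSectionVars false

namespace Pool.Agent.K9h91.WI

open Pool.Agent.R693

universe u v

section
variable {F : Type u} [Field F] [CharZero F]

variable (F) in
/-- The identification with the symmetric algebra. -/
noncomputable def psi : Pg F Empty →ₐ[F] MvPolynomial ℤ F := mkHom 1 MvPolynomial.X

lemma psi_xx (m : ℤ) : psi F (xx m) = MvPolynomial.X m := by
  unfold psi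
  rw [mkHom_xx]

lemma psi_surj : Function.Surjective (psi F) := by
  intro f
  refine ⟨MvPolynomial.aeval xx f, ?_⟩
  have h : (psi F).comp (MvPolynomial.aeval xx) = AlgHom.id F (MvPolynomial ℤ F) := by
    apply MvPolynomial.algHom_ext
    intro m
    rw [AlgHom.comp_apply, MvPolynomial.aeval_X, psi_xx, AlgHom.id_apply]
  exact AlgHom.congr_fun h f

lemma psi_DD (n : ℤ) (u : Pg F Empty) : psi F (DD n u) = DS F n (psi F u) := by
  have h : (psi F).toLinearMap ∘ₗ (DD n).toLinearMap =
      (DS F n).toLinearMap ∘ₗ (psi F).toLinearMap := by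
    apply der_ext (psi F)
    · intro u v
      simp only [LinearMap.comp_apply, Derivation.coeFn_coe, AlgHom.toLinearMap_apply, leib,
        map_add, map_mul]
    · intro u v
      simp only [LinearMap.comp_apply, Derivation.coeFn_coe, AlgHom.toLinearMap_apply, map_mul]
      rw [Derivation.leibniz, smul_eq_mul, smul_eq_mul]
    · intro a
      have ha : a = 0 := funext fun i => i.elim
      simp only [LinearMap.comp_apply, Derivation.coeFn_coe, AlgHom.toLinearMap_apply]
      rw [ha, tt_zero, Derivation.map_one_eq_zero (DD n), map_one (psi F),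
        Derivation.map_one_eq_zero (DS F n), map_zero]
    · intro m
      simp only [LinearMap.comp_apply, Derivation.coeFn_coe, AlgHom.toLinearMap_apply]
      rw [DD_xx, psi_xx, DS_X, map_mul, psi_xx, map_intCast, Algebra.smul_def, map_intCast]
  exact LinearMap.congr_fun h u

lemma TT_span {ι : Type} [Fintype ι] [DecidableEq ι] {v : Pg F ι} (hv : v ∈ TT F ι) :
    v ∈ Submodule.span F (Set.range (tt (k := F) (ι := ι))) := by
  unfold TT at hv
  induction hv using Algebra.adjoin_induction with
  | mem x hx => exact Submodule.subset_span hx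
  | algebraMap c =>
    rw [Algebra.algebraMap_eq_smul_one, ← tt_zero]
    exact Submodule.smul_mem _ _ (Submodule.subset_span ⟨0, rfl⟩)
  | add x y _ _ hx hy => exact Submodule.add_mem _ hx hy
  | mul x y _ _ hx hy =>
    have h1 := Submodule.mul_mem_mul hx hy
    rw [Submodule.span_mul_span] at h1
    refine Submodule.span_mono ?_ h1
    rintro _ ⟨_, ⟨a, rfl⟩, _, ⟨b, rfl⟩, rfl⟩
    exact ⟨a + b, tt_add a b⟩

lemma prod_X (w : List ℤ) : (w.map (MvPolynomial.X : ℤ → MvPolynomial ℤ F)).prod =
    MvPolynomial.monomial (Multiset.toFinsupp (w : Multiset ℤ)) 1 := by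
  induction w with
  | nil => simp
  | cons m w ih =>
    rw [List.map_cons, List.prod_cons, ih, MvPolynomial.X, MvPolynomial.monomial_mul, mul_one,
      ← Multiset.cons_coe, ← Multiset.singleton_add, map_add, Multiset.toFinsupp_singleton]

variable {A : Type v} [Ring A] [Algebra F A] {e : ℤ → A}

lemma om_wl (d : ℕ) (f : W.G ℤ) : W.om e d f = W.wd e (wl d f) := by
  induction d with
  | zero =>
    unfold wl
    rw [List.range_zero, List.reverse_nil, List.map_nil, W.wd_nil]
    rfl
  | succ d ih =>
    rw [wl_succ, W.wd_cons, ← ih]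
    rfl

lemma hc_cb {N d : ℕ} {ι : Type} [Fintype ι] [DecidableEq ι] {pos : ι → ℕ}
    {cb : Pg F ι →ₗ[F] Pg F Empty} {q : Pg F ι} (h : Tow F N d ι pos cb q) {v : Pg F ι}
    (hv : v ∈ TT F ι) (j : ℕ) : MvPolynomial.homogeneousComponent j (psi F (cb v)) =
      if j = d then psi F (cb v) else 0 := by
  have h1 := TT_span hv
  induction h1 using Submodule.span_induction with
  | mem x hx =>
    obtain ⟨b, rfl⟩ := hx
    rw [h.t, map_list_prod, List.map_map]
    have h2 : (⇑(psi F) ∘ xx : ℤ → MvPolynomial ℤ F) = MvPolynomial.X := funext psi_xx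
    rw [h2, prod_X, hc_monomial]
    have h3 : (Multiset.toFinsupp ((wl d (push pos b) : List ℤ) : Multiset ℤ)).degree = d := by
      rw [← lst_length, (lst_perm' _).length_eq, wl_length]
    rw [h3]
    by_cases hj : j = d
    · rw [if_pos hj, if_pos hj.symm]
    · rw [if_neg hj, if_neg (Ne.symm hj)]
  | zero => simp
  | add x y hx hy ihx ihy =>
    have hT : ∀ {z : Pg F ι}, z ∈ Submodule.span F (Set.range (tt (k := F) (ι := ι))) →
        z ∈ TT F ι := fun {z} hz => by
      have h4 : Submodule.span F (Set.range (tt (k := F) (ι := ι))) ≤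
          Subalgebra.toSubmodule (TT F ι) := Submodule.span_le.2 fun w hw => by
        obtain ⟨b, rfl⟩ := hw
        exact tt_TT b
      exact h4 hz
    rw [map_add, map_add, map_add, ihx (hT hx), ihy (hT hy)]
    split_ifs
    · rfl
    · rw [add_zero]
  | smul c x hx ihx =>
    have hT : ∀ {z : Pg F ι}, z ∈ Submodule.span F (Set.range (tt (k := F) (ι := ι))) →
        z ∈ TT F ι := fun {z} hz => by
      have h4 : Submodule.span F (Set.range (tt (k := F) (ι := ι))) ≤
          Subalgebra.toSubmodule (TT F ι) := Submodule.span_le.2 fun w hw => by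
        obtain ⟨b, rfl⟩ := hw
        exact tt_TT b
      exact h4 hz
    rw [map_smul, map_smul, map_smul, ihx (hT hx)]
    split_ifs
    · rfl
    · rw [smul_zero]

lemma sig_cb (he : W.IsW F e) {N d : ℕ} {ι : Type} [Fintype ι] [DecidableEq ι] {pos : ι → ℕ}
    {cb : Pg F ι →ₗ[F] Pg F Empty} {q : Pg F ι} (h : Tow F N d ι pos cb q) {v : Pg F ι}
    (hv : v ∈ TT F ι) :
    sig F e (psi F (cb v)) - W.act A (chi pos v) (W.om e d) 0 ∈ W.Fl F e d := by
  have h1 := TT_span hv
  clear hv
  induction h1 using Submodule.span_induction with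
  | mem x hx =>
    obtain ⟨b, rfl⟩ := hx
    rw [h.t, map_list_prod, List.map_map]
    have h2 : (⇑(psi F) ∘ xx : ℤ → MvPolynomial ℤ F) = MvPolynomial.X := funext psi_xx
    rw [h2, prod_X, sig_monomial, one_smul, chi_tt, W.act_single, one_smul, zero_add, om_wl]
    have h3 := W.perm_mem he (lst_perm' (wl d (push pos b)))
    rwa [(lst_perm' _).length_eq, wl_length] at h3
  | zero => simp
  | add x y _ _ ihx ihy =>
    simp only [map_add, LinearMap.add_apply, Pi.add_apply]
    have := Submodule.add_mem _ ihx ihy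
    rwa [sub_add_sub_comm] at this
  | smul c x _ ihx =>
    simp only [map_smul, LinearMap.smul_apply, Pi.smul_apply]
    rw [← smul_sub]
    exact Submodule.smul_mem _ _ ihx

/-- The leading forms contain the range of the contraction. -/
lemma link (he : W.IsW F e) {N d : ℕ} {ι : Type} [Fintype ι] [DecidableEq ι] {pos : ι → ℕ}
    {cb : Pg F ι →ₗ[F] Pg F Empty} {q : Pg F ι} (h : Tow F N d ι pos cb q)
    {L : Submodule F A} (hL : ∀ m, ∀ x ∈ L, e m * x ∈ L)
    (hV : W.Dl F ℤ d ^ N ∈ W.aI e d L) (u : Pg F ι) :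
    psi F (cb (q * u)) ∈ lead0 F e L := by
  induction u using mono_induction with
  | h0 => rw [mul_zero, map_zero, map_zero]; exact Submodule.zero_mem _
  | hadd u v hu hv =>
    rw [mul_add, map_add, map_add]
    exact Submodule.add_mem _ hu hv
  | hm c a β =>
    rw [mul_smul_comm, map_smul, map_smul]
    refine Submodule.smul_mem _ _ ?_
    have h1 : ∃ y : Pg F Empty, ∀ u, cb ((β.prod fun m e => xx m ^ e) * u) = y * cb u := by
      rw [Finsupp.prod]
      refine Finset.prod_induction _ (fun x => ∃ y : Pg F Empty, ∀ u, cb (x * u) = y * cb u)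
        ?_ ?_ ?_
      · rintro x x' ⟨y, hy⟩ ⟨y', hy'⟩
        exact ⟨y * y', fun u => by rw [mul_assoc, hy, hy', mul_assoc]⟩
      · exact ⟨1, fun u => by rw [one_mul, one_mul]⟩
      · intro m _
        generalize β m = s
        induction s with
        | zero => exact ⟨1, fun u => by rw [pow_zero, one_mul, one_mul]⟩
        | succ s ih =>
          obtain ⟨y, hy⟩ := ih
          exact ⟨y * xx m, fun u => by rw [pow_succ, mul_assoc, hy, h.x, mul_assoc]⟩
    obtain ⟨y, hy⟩ := h1
    have h2 : q * mono a β = (β.prod fun m e => xx m ^ e) * (q * tt a) := by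
      unfold mono
      ring
    rw [h2, hy, map_mul, mul_comm]
    refine lead0_mul he hL _ ?_
    have hT : q * tt a ∈ TT F ι := Subalgebra.mul_mem _ h.qT (tt_TT a)
    intro j
    rw [hc_cb h hT]
    by_cases hj : j = d
    · subst hj
      rw [if_pos rfl]
      have h3 := sig_cb he h hT
      have h4 : W.act A (chi pos (q * tt a)) (W.om e j) 0 ∈ L := by
        have h5 : chi pos (q * tt a) ∈ W.aI e j L := by
          obtain ⟨c', hc'⟩ := h.dvd
          rw [map_mul, hc']
          exact Ideal.mul_mem_right _ _ (Ideal.mul_mem_right _ _ hV)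
        exact h5 0
      have h5 := Submodule.add_mem _ (Submodule.mem_sup_right (S := L) h3)
        (Submodule.mem_sup_left h4)
      rwa [sub_add_cancel] at h5
    · rw [if_neg hj, map_zero]
      exact Submodule.zero_mem _

/-- **The ascending chain condition on all two-sided ideals.** -/
theorem acc_all (he : W.IsW F e) (hgen : ∀ x : A, ∃ k, x ∈ W.Fl F e k)
    (I : ℕ → TwoSidedIdeal A) (hmono : Monotone I) : ∃ n, ∀ m, n ≤ m → I m = I n := by
  by_cases hbot : ∀ i, I i = ⊥
  · exact ⟨0, fun m _ => by rw [hbot, hbot]⟩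
  push Not at hbot
  obtain ⟨i0, hi0⟩ := hbot
  obtain ⟨d, N, hV⟩ := W.exists_Van_ideal (F := F) he hgen hi0
  obtain ⟨ι, _, _, pos, cb, q, hT⟩ := tower F N d
  have hlm : ∀ (J : TwoSidedIdeal A) (m : ℤ), ∀ x ∈ W.subsp F J, e m * x ∈ W.subsp F J :=
    fun J m x hx => W.mem_subsp.mpr (J.mul_mem_left _ _ (W.mem_subsp.mp hx))
  have had : ∀ (J : TwoSidedIdeal A) (m : ℤ), ∀ x ∈ W.subsp F J, W.ad e m x ∈ W.subsp F J :=
    fun J m x hx => W.mem_subsp.mpr (J.sub_mem (J.mul_mem_left _ _ (W.mem_subsp.mp hx))
      (J.mul_mem_right _ _ (W.mem_subsp.mp hx)))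
  have hsub : ∀ {J J' : TwoSidedIdeal A}, J ≤ J' → W.subsp F J ≤ W.subsp F J' :=
    fun {J J'} h x hx => W.mem_subsp.mpr (h (W.mem_subsp.mp hx))
  obtain ⟨n, hn⟩ := hT.adm.n
    (fun n => (lead0 F e (W.subsp F (I (i0 + n)))).comap (psi F).toLinearMap)
    (fun i j hij => Submodule.comap_mono (lead0_mono (hsub (hmono (by omega)))))
    (fun n => by
      constructor
      · intro m u hu
        rw [Submodule.mem_comap, AlgHom.toLinearMap_apply] at hu ⊢
        rw [map_mul, psi_xx, mul_comm]
        exact lead0_mul_X he (hlm _) m hu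
      · intro m u hu
        rw [Submodule.mem_comap, AlgHom.toLinearMap_apply] at hu ⊢
        rw [Dt_zero, psi_DD]
        exact lead0_DS he (had _) m hu)
    (fun n => by
      rintro _ ⟨u, rfl⟩
      rw [SetLike.mem_coe, Submodule.mem_comap, AlgHom.toLinearMap_apply, LinearMap.comp_apply,
        LinearMap.mulLeft_apply]
      refine link he hT (hlm _) ?_ u
      intro m
      exact hsub (hmono (Nat.le_add_right i0 n)) (hV m))
  refine ⟨i0 + n, fun m hm => ?_⟩
  have h1 := hn (m - i0) (by omega)
  beta_reduce at h1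
  rw [show i0 + (m - i0) = m by omega] at h1
  have h2 := Submodule.comap_injective_of_surjective (f := (psi F).toLinearMap) psi_surj h1
  have h3 := eq_of_lead0 he hgen (hsub (hmono hm)) h2
  ext x
  rw [← W.mem_subsp (F := F), h3, W.mem_subsp]

end

end Pool.Agent.K9h91.WI
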