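import Pool.Agent.K9h91.WI.Noeth

/-!
# Hankel determinants of letters
-/

set_option autoImplicit false
set_option linter.unusedSectionVars false

namespace Pool.Agent.K9h91.WI

universe u v

open Polynomial in
section
variable {k : Type u} [Field k] {ι ι' : Type} [Fintype ι] [DecidableEq ι] [Fintype ι']
  [DecidableEq ι']

/-- The number of letters. -/
def sr (r : ι → ℕ) : ℕ := Fintype.card (Σ i : ι, Fin (r i))

/-- The enumeration of the clusters with multiplicities. -/
noncomputable def tau (r : ι → ℕ) (l : Fin (sr r)) : ι :=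
  ((Fintype.equivFin (Σ i : ι, Fin (r i))).symm l).1

lemma prod_tau {M : Type*} [CommMonoid M] (r : ι → ℕ) (F : ι → M) :
    ∏ l, F (tau r l) = ∏ i, F i ^ r i := by
  have h := Equiv.prod_comp (Fintype.equivFin (Σ i : ι, Fin (r i))).symm
    (fun x : (Σ i : ι, Fin (r i)) => F x.1)
  refine Eq.trans h ?_
  rw [Fintype.prod_sigma]
  refine Finset.prod_congr rfl fun i _ => ?_
  show ∏ _y : Fin (r i), F i = F i ^ r i
  rw [Finset.prod_const, Finset.card_univ, Fintype.card_fin]

lemma tau_pos (r : ι → ℕ) (l : Fin (sr r)) : r (tau r l) ≠ 0 := by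
  intro h
  have h2 : Fin (r (tau r l)) := ((Fintype.equivFin (Σ i : ι, Fin (r i))).symm l).2
  rw [h] at h2
  exact h2.elim0

/-- The Hankel matrix of the letters. -/
noncomputable def Hk (s : ℕ) (f : Pg k (Option ι)) : Matrix (Fin s) (Fin s) (Pg k ι) :=
  Matrix.of fun i j => xlin (f * tv none (((i : ℕ) : ℤ) + ((j : ℕ) : ℤ)))

lemma Hk_map (s : ℕ) (g : ι → ι') (f : Pg k (Option ι)) :
    (Hk s (Pmap (Option.map g) f)).det = Pmap g (Hk s f).det := by
  rw [AlgHom.map_det]
  congr 1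
  ext i j
  unfold Hk
  rw [AlgHom.mapMatrix_apply, Matrix.map_apply, Matrix.of_apply, Matrix.of_apply, Pmap_xlin,
    map_mul (Pmap (Option.map g)), Pmap_tv, Option.map_none]

/-- Products from the left. -/
noncomputable def Na (r : ι → ℕ) (l : Fin (sr r)) : (TT k ι)[X] :=
  ∏ a ∈ Finset.Iio l, (X - C (ti (tau r a)))

/-- Products from the right. -/
noncomputable def Nb (r : ι → ℕ) (l : Fin (sr r)) : (TT k ι)[X] :=
  ∏ a ∈ Finset.Ioi (Fin.rev l), (X - C (ti (tau r a)))

lemma Na_deg (r : ι → ℕ) (l : Fin (sr r)) : (Na (k := k) r l).natDegree = l := by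
  unfold Na
  rw [Polynomial.natDegree_finsetProd_X_sub_C_eq_card, Fin.card_Iio]

lemma Nb_deg (r : ι → ℕ) (l : Fin (sr r)) : (Nb (k := k) r l).natDegree = l := by
  unfold Nb
  rw [Polynomial.natDegree_finsetProd_X_sub_C_eq_card, Fin.card_Ioi, Fin.val_rev]
  omega

lemma Na_monic (r : ι → ℕ) (l : Fin (sr r)) : (Na (k := k) r l).Monic :=
  Polynomial.monic_prod_X_sub_C _ _

lemma Nb_monic (r : ι → ℕ) (l : Fin (sr r)) : (Nb (k := k) r l).Monic :=
  Polynomial.monic_prod_X_sub_C _ _

lemma evT_sum (p : (TT k ι)[X]) (s : ℕ) (hp : p.natDegree < s) :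
    evT p = ∑ i : Fin s, jj (p.coeff i).1 * tv none ((i : ℕ) : ℤ) := by
  conv_lhs => rw [p.as_sum_range' s hp]
  rw [map_sum, Finset.sum_range]
  refine Finset.sum_congr rfl fun i _ => ?_
  rw [← Polynomial.C_mul_X_pow_eq_monomial, map_mul, map_pow, evT_X, evT_C, tv_pow, mul_one]

/-- The Gram matrix. -/
noncomputable def GM (r : ι → ℕ) (f : Pg k (Option ι)) :
    Matrix (Fin (sr r)) (Fin (sr r)) (Pg k ι) :=
  Matrix.of fun l m => xlin (f * evT (Na r l) * evT (Nb r m))

lemma GM_eq (r : ι → ℕ) (f : Pg k (Option ι)) :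
    GM r f = ((Matrix.of fun i j : Fin (sr r) => (Na (k := k) r j).coeff i).map
      (TT k ι).val).transpose * Hk (sr r) f *
      (Matrix.of fun i j : Fin (sr r) => (Nb (k := k) r j).coeff i).map (TT k ι).val := by
  ext l m
  rw [Matrix.mul_apply]
  simp only [Matrix.mul_apply, Matrix.transpose_apply, Matrix.map_apply, Matrix.of_apply, GM, Hk]
  rw [evT_sum (Na r l) (sr r) (by rw [Na_deg]; exact l.2),
    evT_sum (Nb r m) (sr r) (by rw [Nb_deg]; exact m.2), Finset.mul_sum, map_sum]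
  refine Finset.sum_congr rfl fun j _ => ?_
  have h1 : ∀ i : Fin (sr r), (TT k ι).val ((Na (k := k) r l).coeff i) *
      xlin (f * tv none (((i : ℕ) : ℤ) + ((j : ℕ) : ℤ))) *
      (TT k ι).val ((Nb (k := k) r m).coeff j) =
      xlin (jj ((Na (k := k) r l).coeff i).1 * (jj ((Nb (k := k) r m).coeff j).1 *
        (f * tv none (((i : ℕ) : ℤ) + ((j : ℕ) : ℤ))))) := by
    intro i
    rw [xlin_mul, xlin_mul]
    show ((Na (k := k) r l).coeff i).1 * _ * ((Nb (k := k) r m).coeff j).1 = _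
    ring
  rw [Finset.sum_mul]
  simp only [h1]
  rw [← map_sum]
  congr 1
  rw [mul_assoc, Finset.sum_mul, Finset.mul_sum]
  refine Finset.sum_congr rfl fun i _ => ?_
  rw [tv_add]
  ring

lemma det_GM (r : ι → ℕ) (f : Pg k (Option ι)) : (GM r f).det = (Hk (sr r) f).det := by
  have h1 : ((Matrix.of fun i j : Fin (sr r) => (Na (k := k) r j).coeff i).map
      (TT k ι).val).det = 1 := by
    have h2 := Matrix.det_matrixOfPolynomials (Na (k := k) r) (Na_deg r) (Na_monic r)
    have h3 := congrArg (TT k ι).val h2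
    rw [AlgHom.map_det, map_one] at h3
    exact h3
  have h1' : ((Matrix.of fun i j : Fin (sr r) => (Nb (k := k) r j).coeff i).map
      (TT k ι).val).det = 1 := by
    have h2 := Matrix.det_matrixOfPolynomials (Nb (k := k) r) (Nb_deg r) (Nb_monic r)
    have h3 := congrArg (TT k ι).val h2
    rw [AlgHom.map_det, map_one] at h3
    exact h3
  rw [GM_eq, Matrix.det_mul, Matrix.det_mul, Matrix.det_transpose, h1, h1', one_mul, mul_one]

lemma P0_eq_prod (r : ι → ℕ) :
    P0 (k := k) r = ∏ l : Fin (sr r), (tv none 1 - tv (some (tau r l)) 1) :=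
  (prod_tau r fun i => (tv none 1 - tv (some i) 1 : Pg k (Option ι))).symm

lemma evT_prod (r : ι → ℕ) (S : Finset (Fin (sr r))) :
    evT (∏ a ∈ S, (X - C (ti (k := k) (tau r a)))) =
      ∏ a ∈ S, (tv none 1 - tv (some (tau r a)) 1) := by
  rw [map_prod]
  refine Finset.prod_congr rfl fun a _ => ?_
  rw [map_sub, evT_X, evT_C]
  unfold ti
  rw [Pmap_tv]

lemma P0_erase (r : ι → ℕ) (l : Fin (sr r)) :
    ∏ a ∈ Finset.univ.erase l, (tv none 1 - tv (some (tau r a)) 1) =
      P0 (k := k) (r - Pi.single (tau r l) 1) := by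
  have h1 : r - Pi.single (tau r l) 1 + Pi.single (tau r l) 1 = r := by
    funext i
    rw [Pi.add_apply, Pi.sub_apply]
    rcases eq_or_ne i (tau r l) with rfl | h
    · rw [Pi.single_eq_same]
      exact Nat.sub_add_cancel (Nat.one_le_iff_ne_zero.2 (tau_pos r l))
    · rw [Pi.single_eq_of_ne h, Nat.sub_zero, add_zero]
  have h2 : P0 (k := k) (r - Pi.single (tau r l) 1) * (tv none 1 - tv (some (tau r l)) 1) =
      (∏ a ∈ Finset.univ.erase l, (tv none 1 - tv (some (tau r a)) 1)) *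
        (tv none 1 - tv (some (tau r l)) 1) := by
    rw [← P0_single, ← P0_add, h1, P0_single, Finset.prod_erase_mul _ _ (Finset.mem_univ l)]
    exact P0_eq_prod r
  exact (mul_right_cancel₀ (tv_sub_ne (Option.some_ne_none _).symm) h2).symm

/-- The product of the lowest elements. -/
noncomputable def thS (k : Type u) [Field k] (r : ι → ℕ) : Pg k ι :=
  ∏ i, ww (r - Pi.single i 1) ^ r i

/-- The Hankel determinant modulo `qq r`. -/
lemma gram (r : ι → ℕ) : ∃ ε : ℤˣ, ∀ f : Pg k (Option ι),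
    ((ε : ℤ) : Pg k ι) * (Hk (sr r) f).det - thS k r * ∏ i, evo i f ^ r i ∈ qq r := by
  refine ⟨Equiv.Perm.sign (Fin.revPerm : Equiv.Perm (Fin (sr r))), fun f => ?_⟩
  set π := Ideal.Quotient.mk (qq (k := k) r) with hπ
  rw [← det_GM, ← Matrix.det_permute', ← Ideal.Quotient.mk_eq_mk_iff_sub_mem, ← hπ,
    RingHom.map_det, RingHom.mapMatrix_apply]
  have hP : ∀ g, π (xlin (P0 r * g)) = 0 := fun g =>
    Ideal.Quotient.eq_zero_iff_mem.2 (xlin_mem_qq r g)
  have hent : ∀ l m : Fin (sr r), ((GM r f).submatrix id (Fin.revPerm : Equiv.Perm _)) l m =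
      xlin (f * (∏ a ∈ Finset.Iio l, (tv none 1 - tv (some (tau r a)) 1)) *
        ∏ a ∈ Finset.Ioi m, (tv none 1 - tv (some (tau r a)) 1)) := by
    intro l m
    rw [Matrix.submatrix_apply]
    unfold GM Na Nb
    rw [Matrix.of_apply, evT_prod, evT_prod, Fin.revPerm_apply, Fin.rev_rev]
    rfl
  have htri : (((GM r f).submatrix id (Fin.revPerm : Equiv.Perm (Fin (sr r)))).map
      π).BlockTriangular id := by
    intro l m hlm
    rw [Matrix.map_apply, hent]
    have hlm' : m < l := hlm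
    have h1 : Finset.Iio l ∪ Finset.Ioi m = Finset.univ := by
      ext a
      simp only [Finset.mem_union, Finset.mem_Iio, Finset.mem_Ioi, Finset.mem_univ, iff_true]
      by_contra h
      rw [not_or, not_lt, not_lt] at h
      exact absurd (lt_of_le_of_lt h.2 hlm') (not_lt.2 h.1)
    have h2 := Finset.prod_union_inter (s₁ := Finset.Iio l) (s₂ := Finset.Ioi m)
      (f := fun a => (tv none 1 - tv (some (tau r a)) 1 : Pg k (Option ι)))
    rw [h1, ← P0_eq_prod] at h2
    rw [mul_assoc, ← h2]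
    have h3 : f * (P0 r * ∏ a ∈ Finset.Iio l ∩ Finset.Ioi m,
        (tv none 1 - tv (some (tau r a)) 1)) = P0 r * (f * ∏ a ∈ Finset.Iio l ∩ Finset.Ioi m,
        (tv none 1 - tv (some (tau r a)) 1)) := by ring
    rw [h3]
    exact hP _
  rw [Matrix.det_of_isUpperTriangular htri, map_mul]
  unfold thS
  have h4 : ∀ i, π (evo i f ^ r i) = π (evo i f) ^ r i := fun i => map_pow _ _ _
  have h5 : ∀ i, π (ww (r - Pi.single i 1) ^ r i) = π (ww (r - Pi.single i 1)) ^ r i :=
    fun i => map_pow _ _ _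
  rw [map_prod, map_prod]
  simp only [h4, h5]
  have e1 : ∏ i, π (ww (r - Pi.single i 1)) ^ r i =
      ∏ l, π (ww (r - Pi.single (tau r l) 1)) := (prod_tau r _).symm
  have e2 : ∏ i, π (evo i f) ^ r i = ∏ l, π (evo (tau r l) f) := (prod_tau r _).symm
  rw [e1, e2, ← Finset.prod_mul_distrib]
  refine Finset.prod_congr rfl fun l _ => ?_
  rw [Matrix.map_apply, hent, ← map_mul, mul_assoc]
  have h6 : (∏ a ∈ Finset.Iio l, (tv none 1 - tv (some (tau r a)) 1 : Pg k (Option ι))) *
      (∏ a ∈ Finset.Ioi l, (tv none 1 - tv (some (tau r a)) 1)) =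
      P0 (r - Pi.single (tau r l) 1) := by
    rw [← P0_erase, ← Finset.prod_union]
    · congr 1
      ext a
      simp only [Finset.mem_union, Finset.mem_Iio, Finset.mem_Ioi, Finset.mem_erase,
        Finset.mem_univ, and_true]
      exact lt_or_lt_iff_ne
    · rw [Finset.disjoint_left]
      intro a h1 h2
      rw [Finset.mem_Iio] at h1
      rw [Finset.mem_Ioi] at h2
      exact absurd h1 (not_lt.2 h2.le)
  rw [h6, mul_comm f]
  have h7 := xlin_P0_mul (k := k) (r - Pi.single (tau r l) 1) (tau r l) f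
  have h1 : r - Pi.single (tau r l) 1 + Pi.single (tau r l) 1 = r := by
    funext i
    rw [Pi.add_apply, Pi.sub_apply]
    rcases eq_or_ne i (tau r l) with rfl | h
    · rw [Pi.single_eq_same]
      exact Nat.sub_add_cancel (Nat.one_le_iff_ne_zero.2 (tau_pos r l))
    · rw [Pi.single_eq_of_ne h, Nat.sub_zero, add_zero]
  rw [h1] at h7
  exact (Ideal.Quotient.mk_eq_mk_iff_sub_mem _ _).2 h7

end

end Pool.Agent.K9h91.WI
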