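import Pool.Agent.K9h91.WI.Step

/-!
# The main theorem on the commutative side
-/

set_option autoImplicit false
set_option linter.unusedSectionVars false

namespace Pool.Agent.K9h91.WI

universe u v

section
variable {k : Type u} [Field k] [CharZero k] {κ : Type} [Fintype κ] [DecidableEq κ]

/-- The diagonal twist of a set. -/
def dS (S : Finset κ) : κ → κ → ℤ := fun i j => if i = j ∧ i ∈ S then 1 else 0

lemma dS_insert {S : Finset κ} {c : κ} (hc : c ∉ S) : dS (insert c S) = dS S + eu c c := by
  funext i j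
  rw [Pi.add_apply, Pi.add_apply]
  unfold dS eu
  by_cases hic : i = c
  · subst hic
    rw [Pi.single_eq_same]
    by_cases hij : i = j
    · subst hij
      rw [if_pos ⟨rfl, Finset.mem_insert_self _ _⟩, if_neg fun h => hc h.2, Pi.single_eq_same]
      rfl
    · rw [if_neg fun h => hij h.1, if_neg fun h => hij h.1, Pi.single_eq_of_ne (Ne.symm hij)]
      rfl
  · rw [Pi.single_eq_of_ne hic, Pi.zero_apply, add_zero]
    by_cases hij : i = j
    · subst hij
      by_cases hS : i ∈ S
      · rw [if_pos ⟨rfl, Finset.mem_insert_of_mem hS⟩, if_pos ⟨rfl, hS⟩]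
      · rw [if_neg fun h => hS ((Finset.mem_insert.1 h.2).resolve_left hic),
          if_neg fun h => hS h.2]
    · rw [if_neg fun h => hij h.1, if_neg fun h => hij h.1]

lemma toggle_all {r : κ → ℕ} (hM1 : ∀ (e : κ) r', Main k {x // x ≠ e} r')
    {a : κ → κ → ℤ} (ha : ∀ i j, i ≠ j → a i j = 0) (hN : NN a (qq (k := k) r : Set (Pg k κ)))
    (S : Finset κ) : (∀ c ∈ S, r c = 0 ∧ a c c = 0) →
    NN (a + dS S) (qq (k := k) r : Set (Pg k κ)) := by
  induction S using Finset.induction_on with
  | empty =>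
    intro _
    have h1 : a + dS ∅ = a := by
      funext i j
      rw [Pi.add_apply, Pi.add_apply]
      unfold dS
      rw [if_neg fun h => Finset.notMem_empty _ h.2, add_zero]
    rwa [h1]
  | insert c S hc ih =>
    intro h
    rw [dS_insert hc, ← add_assoc]
    have hd : ∀ i j, i ≠ j → (a + dS S) i j = 0 := by
      intro i j hij
      rw [Pi.add_apply, Pi.add_apply, ha i j hij]
      unfold dS
      rw [if_neg fun h => hij h.1, add_zero]
    refine toggle (h c (Finset.mem_insert_self _ _)).1 (Off_of_diag hd) (Sep_of_diag hd c) ?_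
      (hM1 c) (ih fun c' hc' => h c' (Finset.mem_insert_of_mem hc'))
    rw [Pi.add_apply, Pi.add_apply, (h c (Finset.mem_insert_self _ _)).2]
    unfold dS
    rw [if_neg fun h => hc h.2, add_zero]

/-- Diagonal twists. -/
lemma diag_case {r : κ → ℕ} (hM1 : ∀ (e : κ) r', Main k {x // x ≠ e} r')
    (hM2 : ∀ i, r i ≠ 0 → Main k κ (r - Pi.single i 1))
    {a : κ → κ → ℤ} (ha : ∀ i j, i ≠ j → a i j = 0) :
    NN a (qq (k := k) r : Set (Pg k κ)) := by
  set S : Finset κ := Finset.univ.filter fun c => r c = 0 ∧ a c c = 1 with hS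
  have hmem : ∀ c, c ∈ S ↔ r c = 0 ∧ a c c = 1 := fun c => by
    rw [hS, Finset.mem_filter]
    exact ⟨fun h => h.2, fun h => ⟨Finset.mem_univ _, h⟩⟩
  have h1 : a = (a - dS S) + dS S := (sub_add_cancel _ _).symm
  have hd : ∀ i j, i ≠ j → (a - dS S) i j = 0 := by
    intro i j hij
    rw [Pi.sub_apply, Pi.sub_apply, ha i j hij]
    unfold dS
    rw [if_neg fun h => hij h.1, sub_zero]
  rw [h1]
  refine toggle_all hM1 hd (step hd ?_ hM1 hM2) S ?_
  · intro c hc
    rw [Pi.sub_apply, Pi.sub_apply]
    unfold dS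
    by_cases h2 : c ∈ S
    · rw [if_pos ⟨rfl, h2⟩, ((hmem c).1 h2).2, sub_self]
      exact zero_ne_one
    · rw [if_neg fun h => h2 h.2, sub_zero]
      exact fun h3 => h2 ((hmem c).2 ⟨hc, h3⟩)
  · intro c hc
    refine ⟨((hmem c).1 hc).1, ?_⟩
    rw [Pi.sub_apply, Pi.sub_apply, ((hmem c).1 hc).2]
    unfold dS
    rw [if_pos ⟨rfl, hc⟩, sub_self]

/-- The factor removing the twists outside the diagonal. -/
noncomputable def xo (k : Type u) [Field k] (a : κ → κ → ℤ) : Pg k κ :=
  ∏ i, ∏ j, if i = j then 1 else (tv i 1 - tv j 1) ^ (a i j).toNat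

lemma reg_pow {r : κ → ℕ} {x : Pg k κ} (hx : ∀ u, x * u ∈ qq r → u ∈ qq r) (n : ℕ) :
    ∀ u, x ^ n * u ∈ qq r → u ∈ qq r := by
  induction n with
  | zero => intro u hu; rwa [pow_zero, one_mul] at hu
  | succ n ih =>
    intro u hu
    rw [pow_succ, mul_assoc] at hu
    exact hx u (ih _ hu)

lemma reg_prod {r : κ → ℕ} {σ : Type*} (s : Finset σ) {x : σ → Pg k κ}
    (hx : ∀ i ∈ s, ∀ u, x i * u ∈ qq r → u ∈ qq r) : ∀ u, (∏ i ∈ s, x i) * u ∈ qq r → u ∈ qq r := by
  classical
  induction s using Finset.induction_on with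
  | empty => intro u hu; rwa [Finset.prod_empty, one_mul] at hu
  | insert i s hi ih =>
    intro u hu
    rw [Finset.prod_insert hi, mul_assoc] at hu
    exact ih (fun j hj => hx j (Finset.mem_insert_of_mem hj)) u
      (hx i (Finset.mem_insert_self _ _) _ hu)

lemma xo_reg (r : κ → ℕ) (a : κ → κ → ℤ) : ∀ u, xo k a * u ∈ qq r → u ∈ qq r := by
  unfold xo
  refine reg_prod _ fun i _ => reg_prod _ fun j _ u hu => ?_
  by_cases hij : i = j
  · rwa [if_pos hij, one_mul] at hu
  · rw [if_neg hij] at hu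
    exact reg_pow (fun v hv => regular_qq r hij hv) _ u hu

lemma LD_xo {a : κ → κ → ℤ} (ha : Off a) (n : ℤ) :
    LD n (xo k a) (ph (fun i j => if i = j then 0 else a i j) n) := by
  have h1 : ph (k := k) (fun i j => if i = j then 0 else a i j) n =
      ∑ i, ∑ j, if i = j then 0 else ((a i j).toNat : Pg k κ) * hh n i j := by
    unfold ph
    refine Finset.sum_congr rfl fun i _ => Finset.sum_congr rfl fun j _ => ?_
    dsimp only
    by_cases hij : i = j
    · rw [if_pos hij, if_pos hij, Int.cast_zero, zero_mul]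
    · rw [if_neg hij, if_neg hij]
      congr 1
      have h2 : ((a i j).toNat : ℤ) = a i j := Int.toNat_of_nonneg (ha i j hij)
      conv_lhs => rw [← h2]
      rw [Int.cast_natCast]
  rw [h1]
  unfold xo
  refine LD.prod _ fun i _ => LD.prod _ fun j _ => ?_
  by_cases hij : i = j
  · rw [if_pos hij, if_pos hij]
    exact LD.one n
  · rw [if_neg hij, if_neg hij]
    exact (LD_sub n i j).pow _

/-- All twists which are non-negative outside the diagonal. -/
lemma main_case {r : κ → ℕ} (hM1 : ∀ (e : κ) r', Main k {x // x ≠ e} r')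
    (hM2 : ∀ i, r i ≠ 0 → Main k κ (r - Pi.single i 1)) : Main k κ r := by
  intro a ha
  have h1 : a = (fun i j => if i = j then a i j else 0) +
      (fun i j => if i = j then 0 else a i j) := by
    funext i j
    rw [Pi.add_apply, Pi.add_apply]
    by_cases hij : i = j
    · rw [if_pos hij, if_pos hij, add_zero]
    · rw [if_neg hij, if_neg hij, zero_add]
  rw [h1]
  refine NN_inj (x := xo k a) (fun n u hu => Dt_mem_qq _ hu n) (xo_reg r a) (fun n => ?_)
    (diag_case hM1 hM2 fun i j hij => if_neg hij)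
  have h2 : DD n (xo k a) = xo k a * ph (fun i j => if i = j then 0 else a i j) n := LD_xo ha n
  rw [h2, sub_self]
  exact Ideal.zero_mem _

end

/-- **Main theorem.** -/
theorem main_all (k : Type u) [Field k] [CharZero k] (n : ℕ) : ∀ (κ : Type) [Fintype κ]
    [DecidableEq κ], Fintype.card κ = n → ∀ r : κ → ℕ, Main k κ r := by
  induction n using Nat.strong_induction_on with
  | h n ih =>
    intro κ _ _ hcard
    have hM1 : ∀ (e : κ) r', Main k {x // x ≠ e} r' := by
      intro e r'
      refine ih (Fintype.card {x // x ≠ e}) ?_ _ rfl r'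
      rw [← hcard]
      exact Fintype.card_subtype_lt (x := e) fun h => h rfl
    have h2 : ∀ (s : ℕ) (r : κ → ℕ), ∑ i, r i = s → Main k κ r := by
      intro s
      induction s using Nat.strong_induction_on with
      | h s ih2 =>
        intro r hr
        refine main_case hM1 fun i hi => ?_
        refine ih2 (∑ j, (r - Pi.single i 1 : κ → ℕ) j) ?_ _ rfl
        rw [← hr]
        refine Finset.sum_lt_sum (fun j _ => Nat.sub_le _ _) ⟨i, Finset.mem_univ _, ?_⟩
        rw [Pi.sub_apply, Pi.single_eq_same]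
        omega
    exact fun r => h2 _ r rfl

theorem main_thm (k : Type u) [Field k] [CharZero k] (κ : Type) [Fintype κ] [DecidableEq κ]
    (r : κ → ℕ) (a : κ → κ → ℤ) (ha : Off a) : NN a (qq (k := k) r : Set (Pg k κ)) :=
  main_all k _ κ rfl r a ha

end Pool.Agent.K9h91.WI
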