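import Pool.Agent.K9h91.WI.Tors

/-!
# Contraction of operators along extra variables
-/

set_option autoImplicit false
set_option linter.unusedSectionVars false

namespace Pool.Agent.K9h91.WI

universe u v

section
variable {k : Type u} [Field k] {κ Λ : Type} [Fintype κ] [DecidableEq κ] [Fintype Λ]
  [DecidableEq Λ]

/-- Inclusion of the cluster variables. -/
noncomputable abbrev il : Pg k κ →ₐ[k] Pg k (κ ⊕ Λ) := Pmap Sum.inl

/-- Inclusion of the letter variables. -/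
noncomputable abbrev ir : Pg k Λ →ₐ[k] Pg k (κ ⊕ Λ) := Pmap Sum.inr

lemma mon_mem {ι : Type} [Fintype ι] [DecidableEq ι] {a : ι → ι → ℤ}
    {P : Submodule k (Pg k ι)} (h : Stab a P) (β : ℤ →₀ ℕ) {p : Pg k ι} (hp : p ∈ P) :
    (β.prod fun m e => xx m ^ e) * p ∈ P := by
  have h1 : ∀ (m : ℤ) (e : ℕ) (q : Pg k ι), q ∈ P → xx m ^ e * q ∈ P := by
    intro m e
    induction e with
    | zero => intro q hq; rwa [pow_zero, one_mul]
    | succ e ih =>
      intro q hq
      rw [pow_succ', mul_assoc]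
      exact h.x m _ (ih q hq)
  rw [Finsupp.prod]
  have h2 : ∀ q ∈ P, (∏ m ∈ β.support, xx m ^ β m) * q ∈ P := by
    refine Finset.prod_induction _ (fun x => ∀ q ∈ P, x * q ∈ P) ?_ ?_ ?_
    · intro x y hx hy q hq
      rw [mul_assoc]
      exact hx _ (hy q hq)
    · intro q hq
      rwa [one_mul]
    · intro m _ q hq
      exact h1 m _ q hq
  exact h2 p hp

/-- The extension of a subspace by the letter variables. -/
noncomputable def Pext (Λ : Type) [Fintype Λ] [DecidableEq Λ] (P : Submodule k (Pg k κ)) :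
    Submodule k (Pg k (κ ⊕ Λ)) :=
  Submodule.span k {w | ∃ (v : Pg k Λ) (p : Pg k κ), p ∈ P ∧ w = ir v * il p}

lemma Pext_mem {P : Submodule k (Pg k κ)} (v : Pg k Λ) {p : Pg k κ} (hp : p ∈ P) :
    ir v * il p ∈ Pext Λ P := Submodule.subset_span ⟨v, p, hp, rfl⟩

lemma Pext_mul {P : Submodule k (Pg k κ)} (v : Pg k Λ) {u : Pg k (κ ⊕ Λ)} (hu : u ∈ Pext Λ P) :
    ir v * u ∈ Pext Λ P := by
  unfold Pext at hu
  induction hu using Submodule.span_induction with
  | mem x hx =>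
    obtain ⟨w, p, hp, rfl⟩ := hx
    rw [← mul_assoc, ← map_mul]
    exact Pext_mem _ hp
  | zero => rw [mul_zero]; exact Submodule.zero_mem _
  | add x y _ _ hx hy => rw [mul_add]; exact Submodule.add_mem _ hx hy
  | smul c x _ hx => rw [mul_smul_comm]; exact Submodule.smul_mem _ _ hx

/-- Induction over the generators of the extension. -/
lemma Pext_induction {a : κ → κ → ℤ} {P : Submodule k (Pg k κ)} (hs : Stab a P)
    {Q : Submodule k (Pg k (κ ⊕ Λ))}
    (h : ∀ (b : Λ → ℤ) (p : Pg k κ), p ∈ P → ir (tt b) * il p ∈ Q) : Pext Λ P ≤ Q := by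
  unfold Pext
  rw [Submodule.span_le]
  rintro _ ⟨v, p, hp, rfl⟩
  show ir v * il p ∈ Q
  induction v using mono_induction with
  | h0 => rw [map_zero, zero_mul]; exact Q.zero_mem
  | hadd u v hu hv => rw [map_add, add_mul]; exact Q.add_mem hu hv
  | hm c b β =>
    rw [map_smul, smul_mul_assoc]
    refine Q.smul_mem _ ?_
    have h1 := h b _ (mon_mem hs β hp)
    have h2 : (ir (mono b β) * il p : Pg k (κ ⊕ Λ)) =
        ir (tt b) * il ((β.prod fun m e => xx m ^ e) * p) := by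
      unfold mono
      rw [map_mul, map_mul, Finsupp.prod, map_prod, Finsupp.prod, map_prod]
      have h3 : ∀ m, ir (Λ := Λ) (κ := κ) (k := k) (xx m ^ β m) = il (xx m ^ β m) := fun m => by
        rw [map_pow, map_pow, Pmap_xx, Pmap_xx]
      simp only [h3]
      ring
    rw [h2]
    exact h1

/-- Evaluation of the letters at `1`. -/
noncomputable def eall : Pg k (κ ⊕ Λ) →ₐ[k] Pg k κ :=
  mkHom
    { toFun := fun a => tt (fun i => a.toAdd (Sum.inl i))
      map_one' := tt_zero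
      map_mul' := fun _ _ => tt_add _ _ }
    (fun m => xx m)

lemma eall_tt (a : κ ⊕ Λ → ℤ) : eall (k := k) (tt a) = tt (fun i => a (Sum.inl i)) := by
  unfold eall
  rw [mkHom_tt]
  rfl

lemma eall_xx (m : ℤ) : eall (k := k) (κ := κ) (Λ := Λ) (xx m) = xx m := by
  unfold eall
  rw [mkHom_xx]

lemma push_inl_inl (a : κ → ℤ) (i : κ) : push (Sum.inl : κ → κ ⊕ Λ) a (Sum.inl i) = a i := by
  rw [push_coord, Finset.sum_filter, Finset.sum_eq_single i]
  · rw [if_pos rfl]
  · intro j _ hj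
    rw [if_neg fun h => hj (Sum.inl_injective h)]
  · intro h
    exact absurd (Finset.mem_univ i) h

lemma push_inr_inl (b : Λ → ℤ) (i : κ) : push (Sum.inr : Λ → κ ⊕ Λ) b (Sum.inl i) = 0 := by
  rw [push_coord, Finset.sum_filter]
  exact Finset.sum_eq_zero fun l _ => if_neg Sum.inr_ne_inl

lemma eall_il (p : Pg k κ) : eall (il (Λ := Λ) p) = p := by
  have h : (eall (Λ := Λ)).comp il = AlgHom.id k (Pg k κ) := by
    apply hom_ext
    · intro a
      rw [AlgHom.comp_apply, Pmap_tt, eall_tt, AlgHom.id_apply]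
      congr 1
      funext i
      exact push_inl_inl a i
    · intro m
      rw [AlgHom.comp_apply, Pmap_xx, eall_xx, AlgHom.id_apply]
  exact AlgHom.congr_fun h p

lemma mem_of_il_mem {a : κ → κ → ℤ} {P : Submodule k (Pg k κ)} (hs : Stab a P) {q : Pg k κ}
    (hq : il q ∈ Pext Λ P) : q ∈ P := by
  have h1 : Pext Λ P ≤ P.comap (eall (Λ := Λ)).toLinearMap := by
    refine Pext_induction hs fun b p hp => ?_
    show eall (ir (tt b) * il p) ∈ P
    rw [map_mul, Pmap_tt, eall_tt, eall_il]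
    have h2 : (fun i : κ => push (Sum.inr : Λ → κ ⊕ Λ) b (Sum.inl i)) = 0 := by
      funext i
      exact push_inr_inl b i
    rw [h2, tt_zero, one_mul]
    exact hp
  have h3 := h1 hq
  have h4 : eall (il (Λ := Λ) q) ∈ P := h3
  rwa [eall_il] at h4

/-- The multiplicities extended by zero. -/
def rh (Λ : Type) (r : κ → ℕ) : κ ⊕ Λ → ℕ := Sum.elim r fun _ => 0

lemma pushr_inl (r : κ → ℕ) : pushr (Sum.inl : κ → κ ⊕ Λ) r = rh Λ r := by
  funext x
  unfold pushr rh
  rw [Finset.sum_filter]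
  cases x with
  | inl i =>
    rw [Finset.sum_eq_single i]
    · rw [if_pos rfl]; rfl
    · intro j _ hj
      rw [if_neg fun h => hj (Sum.inl_injective h)]
    · intro h
      exact absurd (Finset.mem_univ i) h
  | inr l => exact Finset.sum_eq_zero fun j _ => if_neg Sum.inl_ne_inr

lemma tt_split (a : Option (κ ⊕ Λ) → ℤ) : tt (k := k) a =
    jj (ir (tt fun l => a (some (Sum.inr l)))) *
      Pmap (Option.map Sum.inl) (tt fun o => a (o.map Sum.inl)) := by
  rw [tt_eq_prod, tt_eq_prod, tt_eq_prod, map_prod, map_prod, map_prod, Fintype.prod_option,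
    Fintype.prod_option, Fintype.prod_sum_type]
  simp only [Pmap_tv, Option.map_none, Option.map_some]
  ring

/-- The ideal upstairs is contained in the extension. -/
lemma qq_le_Pext {P : Submodule k (Pg k κ)} {r : κ → ℕ}
    (hc : (qq (k := k) r : Set (Pg k κ)) ⊆ P) {u : Pg k (κ ⊕ Λ)} (hu : u ∈ qq (rh Λ r)) :
    u ∈ Pext Λ P := by
  obtain ⟨f, rfl⟩ := hu
  rw [← pushr_inl, ← Pmap_P0]
  induction f using mono_induction with
  | h0 => rw [mul_zero, map_zero]; exact Submodule.zero_mem _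
  | hadd u v hu hv => rw [mul_add, map_add]; exact Submodule.add_mem _ hu hv
  | hm c a β =>
    rw [mul_smul_comm, map_smul]
    refine Submodule.smul_mem _ _ ?_
    have h1 : Pmap (Option.map Sum.inl) (P0 r) * mono a β =
        jj (ir (tt fun l => a (some (Sum.inr l)))) *
          Pmap (Option.map Sum.inl) (P0 (k := k) r * mono (fun o => a (o.map Sum.inl)) β) := by
      unfold mono
      rw [tt_split a, map_mul, map_mul]
      have h2 : Pmap (k := k) (Option.map (Sum.inl : κ → κ ⊕ Λ)) (β.prod fun m e => xx m ^ e) =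
          β.prod fun m e => xx m ^ e := by
        rw [Finsupp.prod, map_prod, Finsupp.prod]
        exact Finset.prod_congr rfl fun m _ => by rw [map_pow, Pmap_xx]
      rw [h2]
      ring
    rw [h1, xlin_mul, ← Pmap_xlin]
    exact Pext_mem _ (hc (xlin_mem_qq r _))

/-- Evaluation of the letter `l` at the cluster `c`. -/
noncomputable def evl (l : Λ) (c : κ) : Pg k (κ ⊕ Λ) →ₐ[k] Pg k (κ ⊕ Λ) :=
  Pmap (Function.update id (Sum.inr l) (Sum.inl c))

lemma evl_tv (l : Λ) (c : κ) (x : κ ⊕ Λ) (n : ℤ) :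
    evl (k := k) l c (tv x n) = tv (Function.update id (Sum.inr l) (Sum.inl c) x) n := Pmap_tv _ _ _

lemma evl_tv_self (l : Λ) (c : κ) (n : ℤ) :
    evl (k := k) l c (tv (Sum.inr l) n) = tv (Sum.inl c) n := by
  rw [evl_tv, Function.update_self]

lemma evl_il (l : Λ) (c : κ) (p : Pg k κ) : evl l c (il p) = il p := by
  unfold evl
  rw [Pmap_Pmap]
  rfl

/-- The map separating the letter `l`. -/
def sg (l : Λ) (x : κ ⊕ Λ) : Option (κ ⊕ Λ) := if x = Sum.inr l then none else some x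

lemma sg_self (l : Λ) : sg (κ := κ) l (Sum.inr l) = none := if_pos rfl

lemma push_congr {ι ι' : Type} [Fintype ι] [DecidableEq ι] [DecidableEq ι'] {f g : ι → ι'} {b : ι → ℤ}
    (h : ∀ i, b i ≠ 0 → f i = g i) : push f b = push g b := by
  rw [push_apply, push_apply]
  refine Finset.sum_congr rfl fun i _ => ?_
  by_cases hb : b i = 0
  · rw [hb, Pi.single_zero, Pi.single_zero]
  · rw [h i hb]

/-- Contraction of the letter `l` with the `x_m`. -/
noncomputable def xl (l : Λ) : Pg k (κ ⊕ Λ) →ₗ[k] Pg k (κ ⊕ Λ) := xlin ∘ₗ (Pmap (sg l)).toLinearMap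

lemma xl_apply (l : Λ) (u : Pg k (κ ⊕ Λ)) : xl l u = xlin (Pmap (sg l) u) := rfl

lemma xl_mul (l : Λ) {w : Pg k (κ ⊕ Λ)} (hw : Pmap (sg l) w = jj w) (u : Pg k (κ ⊕ Λ)) :
    xl l (w * u) = w * xl l u := by
  rw [xl_apply, xl_apply, map_mul, hw, xlin_mul]

lemma sg_il (l : Λ) (p : Pg k κ) : Pmap (sg l) (il p) = jj (il p) := by
  rw [Pmap_Pmap, Pmap_Pmap]
  rfl

lemma sg_ir (l : Λ) {b : Λ → ℤ} (hb : b l = 0) : Pmap (sg (κ := κ) l) (ir (tt (k := k) b)) =
    jj (ir (tt b)) := by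
  rw [Pmap_Pmap, Pmap_Pmap, Pmap_tt, Pmap_tt]
  congr 1
  refine push_congr fun i hi => ?_
  have h1 : i ≠ l := fun h => hi (h ▸ hb)
  show sg l (Sum.inr i) = some (Sum.inr i)
  exact if_neg fun h => h1 (Sum.inr_injective h)

lemma evl_ir (l : Λ) (c : κ) {b : Λ → ℤ} (hb : b l = 0) :
    evl l c (ir (tt (k := k) b)) = ir (tt b) := by
  unfold evl
  rw [Pmap_Pmap, Pmap_tt, Pmap_tt]
  congr 1
  refine push_congr fun i hi => ?_
  have h1 : i ≠ l := fun h => hi (h ▸ hb)
  show Function.update id (Sum.inr l) (Sum.inl c) (Sum.inr i) = Sum.inr i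
  rw [Function.update_of_ne fun h => h1 (Sum.inr_injective h)]
  rfl

/-- The part of the letter operator acting on the `x_m`. -/
noncomputable def Xp (l : Λ) (u : Pg k (κ ⊕ Λ)) : Pg k (κ ⊕ Λ) :=
  xl l (2 * XD (fun m => (m : Pg k (κ ⊕ Λ)) * tv (Sum.inr l) (m - 1)) u -
    pd (Sum.inr l) (XD (fun m => tv (Sum.inr l) m) u))

lemma Xp_il (l : Λ) (n : ℤ) (p : Pg k κ) : Xp l (tv (Sum.inr l) n * il p) =
    il (XD (fun m => ((m - n : ℤ) : Pg k κ) * xx (m + n - 1)) p) := by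
  have h : xl l ∘ₗ ((2 : k) • (LinearMap.mulLeft k (tv (Sum.inr l) n) ∘ₗ
      (XD (fun m => (m : Pg k (κ ⊕ Λ)) * tv (Sum.inr l) (m - 1))).toLinearMap ∘ₗ
        (il (Λ := Λ)).toLinearMap) -
      (pd (Sum.inr l)).toLinearMap ∘ₗ LinearMap.mulLeft k (tv (Sum.inr l) n) ∘ₗ
        (XD (fun m => tv (Sum.inr l) m)).toLinearMap ∘ₗ (il (Λ := Λ)).toLinearMap) =
      (il (Λ := Λ)).toLinearMap ∘ₗ
        (XD (fun m => ((m - n : ℤ) : Pg k κ) * xx (m + n - 1))).toLinearMap := by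
    apply der_ext (il (Λ := Λ))
    · intro u v
      simp only [LinearMap.comp_apply, LinearMap.sub_apply, LinearMap.smul_apply,
        LinearMap.mulLeft_apply, Derivation.coeFn_coe, AlgHom.toLinearMap_apply]
      have h0 : ∀ q : Pg k κ, pd (Sum.inr l) (il (Λ := Λ) q) = 0 := fun q =>
        pd_Pmap_not_mem (fun i => Sum.inl_ne_inr) q
      have h1 : (2 : k) • (tv (Sum.inr l) n * XD (fun m => (m : Pg k (κ ⊕ Λ)) *
          tv (Sum.inr l) (m - 1)) (il (u * v))) -
          pd (Sum.inr l) (tv (Sum.inr l) n * XD (fun m => tv (Sum.inr l) m) (il (u * v))) =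
          il u * ((2 : k) • (tv (Sum.inr l) n * XD (fun m => (m : Pg k (κ ⊕ Λ)) *
          tv (Sum.inr l) (m - 1)) (il v)) -
          pd (Sum.inr l) (tv (Sum.inr l) n * XD (fun m => tv (Sum.inr l) m) (il v))) +
          il v * ((2 : k) • (tv (Sum.inr l) n * XD (fun m => (m : Pg k (κ ⊕ Λ)) *
          tv (Sum.inr l) (m - 1)) (il u)) -
          pd (Sum.inr l) (tv (Sum.inr l) n * XD (fun m => tv (Sum.inr l) m) (il u))) := by
        rw [map_mul]
        simp only [leib, h0, map_add, Algebra.smul_def]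
        ring
      rw [h1, map_add, xl_mul l (sg_il l u), xl_mul l (sg_il l v)]
    · intro u v
      simp only [LinearMap.comp_apply, Derivation.coeFn_coe, AlgHom.toLinearMap_apply, leib,
        map_add, map_mul]
    · intro a
      simp only [LinearMap.comp_apply, LinearMap.sub_apply, LinearMap.smul_apply,
        LinearMap.mulLeft_apply, Derivation.coeFn_coe, AlgHom.toLinearMap_apply]
      rw [Pmap_tt, XD_tt, XD_tt, XD_tt, mul_zero, map_zero, map_zero, smul_zero, sub_zero,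
        map_zero]
    · intro m
      simp only [LinearMap.comp_apply, LinearMap.sub_apply, LinearMap.smul_apply,
        LinearMap.mulLeft_apply, Derivation.coeFn_coe, AlgHom.toLinearMap_apply]
      rw [Pmap_xx, XD_xx, XD_xx, XD_xx, ← tv_add, pd_tv_self]
      have h2 : (2 : k) • (tv (Sum.inr l) n * ((m : Pg k (κ ⊕ Λ)) * tv (Sum.inr l) (m - 1))) -
          ((n + m : ℤ) : Pg k (κ ⊕ Λ)) * tv (Sum.inr l) (n + m - 1) =
          ((m - n : ℤ) : k) • tv (Sum.inr l) (m + n - 1) := by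
        have h3 : tv (k := k) (Sum.inr l : κ ⊕ Λ) (n + m - 1) =
            tv (Sum.inr l) n * tv (Sum.inr l) (m - 1) := by
          rw [tv_mul]
          congr 1
          ring
        have h4 : tv (k := k) (Sum.inr l : κ ⊕ Λ) (m + n - 1) =
            tv (Sum.inr l) n * tv (Sum.inr l) (m - 1) := by
          rw [tv_mul]
          congr 1
          ring
        rw [h3, h4, Algebra.smul_def, Algebra.smul_def, map_ofNat, map_intCast]
        push_cast
        ring
      rw [h2, map_smul, xl_apply, Pmap_tv, sg_self, xlin_tv, map_mul, map_intCast, Pmap_xx,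
        Algebra.smul_def, map_intCast]
  have h2 := LinearMap.congr_fun h p
  simp only [LinearMap.comp_apply, LinearMap.sub_apply, LinearMap.smul_apply,
    LinearMap.mulLeft_apply, Derivation.coeFn_coe, AlgHom.toLinearMap_apply] at h2
  unfold Xp
  rw [← h2]
  congr 1
  simp only [leib, XD_tv, mul_zero, add_zero]
  rw [Algebra.smul_def, map_ofNat]

/-- The elements not involving the letters of `l` and constant for the derivations. -/
lemma pd_ir (l : Λ) {b : Λ → ℤ} (hb : b l = 0) :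
    pd (Sum.inr l) (ir (κ := κ) (tt (k := k) b)) = 0 := by
  rw [pd_Pmap_inj Sum.inr_injective, pd_tt, hb, Int.cast_zero, zero_mul, map_zero]

lemma pd_inl_ir (c : κ) (v : Pg k Λ) : pd (Sum.inl c) (ir (κ := κ) v) = 0 :=
  pd_Pmap_not_mem (fun _ => Sum.inr_ne_inl) v

lemma XD_ir (y : ℤ → Pg k (κ ⊕ Λ)) (b : Λ → ℤ) : XD y (ir (tt b)) = 0 := by
  rw [Pmap_tt, XD_tt]

lemma Xp_ir (l : Λ) (n : ℤ) {b : Λ → ℤ} (hb : b l = 0) (p : Pg k κ) :
    Xp l (tv (Sum.inr l) n * (ir (tt b) * il p)) = ir (tt b) *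
      il (XD (fun m => ((m - n : ℤ) : Pg k κ) * xx (m + n - 1)) p) := by
  rw [← Xp_il]
  unfold Xp
  rw [← xl_mul l (sg_ir l hb)]
  congr 1
  simp only [leib, XD_ir, XD_tv, pd_ir l hb, mul_zero, add_zero]
  ring

/-- One local piece of the operator attached to the letter `l`. -/
noncomputable def Lc (lam : κ → ℤ) (l : Λ) (c : κ) : Pg k (κ ⊕ Λ) →ₗ[k] Pg k (κ ⊕ Λ) :=
  (evl l c).toLinearMap ∘ₗ ((pd (Sum.inl c)).toLinearMap + ((lam c : ℤ) : k) •
    (pd (Sum.inr l)).toLinearMap)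

lemma Lc_apply (lam : κ → ℤ) (l : Λ) (c : κ) (u : Pg k (κ ⊕ Λ)) : Lc lam l c u =
    evl l c (pd (Sum.inl c) u + (lam c : Pg k (κ ⊕ Λ)) * pd (Sum.inr l) u) := by
  unfold Lc
  simp only [LinearMap.comp_apply, LinearMap.add_apply, LinearMap.smul_apply,
    Derivation.coeFn_coe, AlgHom.toLinearMap_apply]
  rw [Algebra.smul_def, map_intCast]

lemma ph_diag {a : κ → κ → ℤ} (ha : ∀ i j, i ≠ j → a i j = 0) (n : ℤ) :
    ph (k := k) a n = ∑ c, (a c c : Pg k κ) * ((n : Pg k κ) * tv c (n - 1)) := by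
  unfold ph
  refine Finset.sum_congr rfl fun i _ => ?_
  rw [Finset.sum_eq_single i]
  · rw [hh_self]
  · intro j _ hj
    rw [ha i j (Ne.symm hj), Int.cast_zero, zero_mul]
  · intro h
    exact absurd (Finset.mem_univ _) h

/-- The operator attached to the letter `l`, on a generator. -/
lemma Lfull_gen {a : κ → κ → ℤ} (ha : ∀ i j, i ≠ j → a i j = 0) (l : Λ) (n : ℤ) {b : Λ → ℤ}
    (hb : b l = 0) (p : Pg k κ) :
    (∑ c, Lc (fun c => a c c) l c (tv (Sum.inr l) n * (ir (tt b) * il p))) +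
      Xp l (tv (Sum.inr l) n * (ir (tt b) * il p)) = ir (tt b) * il (Dt a n p) := by
  have h1 : ∀ c, Lc (fun c => a c c) l c (tv (Sum.inr l) n * (ir (tt b) * il p)) =
      ir (tt b) * il (tv c n * pd c p + (a c c : Pg k κ) * ((n : Pg k κ) * tv c (n - 1)) * p) := by
    intro c
    have h2 : pd (Sum.inl c) (tv (Sum.inr l) n * (ir (tt b) * il p)) =
        tv (Sum.inr l) n * (ir (tt b) * il (pd c p)) := by
      rw [leib, leib, pd_inl_ir, pd_tv_of_ne Sum.inl_ne_inr, pd_Pmap_inj Sum.inl_injective,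
        mul_zero, mul_zero, add_zero, add_zero]
    have h3 : pd (Sum.inr l) (tv (Sum.inr l) n * (ir (tt b) * il p)) =
        (n : Pg k (κ ⊕ Λ)) * tv (Sum.inr l) (n - 1) * (ir (tt b) * il p) := by
      rw [leib, leib, pd_ir l hb, pd_tv_self, pd_Pmap_not_mem (fun i => Sum.inl_ne_inr) p,
        mul_zero, mul_zero, add_zero, mul_zero, zero_add]
      ring
    rw [Lc_apply, h2, h3]
    simp only [map_add, map_mul, map_intCast, evl_tv_self, evl_ir l c hb, evl_il, Pmap_tv]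
    ring
  simp only [h1]
  rw [Xp_ir l n hb, ← Finset.mul_sum, ← map_sum, ← mul_add, ← map_add]
  congr 2
  rw [Dt_apply, DD_eq, ph_diag ha, Finset.sum_add_distrib, Finset.sum_mul]
  ring

/-- The whole operator attached to the letter `l` preserves the extension. -/
lemma Lfull_mem {a : κ → κ → ℤ} (ha : ∀ i j, i ≠ j → a i j = 0) {P : Submodule k (Pg k κ)}
    (hs : Stab a P) (l : Λ) {u : Pg k (κ ⊕ Λ)} (hu : u ∈ Pext Λ P) :
    (∑ c, Lc (fun c => a c c) l c u) + Xp l u ∈ Pext Λ P := by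
  let F : Pg k (κ ⊕ Λ) →ₗ[k] Pg k (κ ⊕ Λ) := (∑ c, Lc (fun c => a c c) l c) +
    xl l ∘ₗ ((2 : k) • (XD (fun m => (m : Pg k (κ ⊕ Λ)) * tv (Sum.inr l) (m - 1))).toLinearMap -
    (pd (Sum.inr l)).toLinearMap ∘ₗ (XD (fun m => tv (Sum.inr l) m)).toLinearMap)
  have hF : ∀ w, F w = (∑ c, Lc (fun c => a c c) l c w) + Xp l w := by
    intro w
    unfold Xp
    simp only [F, LinearMap.comp_apply, LinearMap.add_apply, LinearMap.sum_apply,
      LinearMap.sub_apply, LinearMap.smul_apply, Derivation.coeFn_coe]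
    rw [Algebra.smul_def, map_ofNat]
  rw [← hF]
  have h1 : Pext Λ P ≤ (Pext Λ P).comap F := by
    refine Pext_induction hs fun b p hp => ?_
    rw [Submodule.mem_comap, hF]
    have h2 : ir (κ := κ) (tt (k := k) b) =
        tv (Sum.inr l) (b l) * ir (tt (b - Pi.single l (b l))) := by
      have h3 : tt (k := k) b = tv l (b l) * tt (b - Pi.single l (b l)) := by
        unfold tv
        rw [← tt_add, add_sub_cancel]
      conv_lhs => rw [h3]
      rw [map_mul, Pmap_tv]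
    have h4 : (b - Pi.single l (b l) : Λ → ℤ) l = 0 := by
      rw [Pi.sub_apply, Pi.single_eq_same, sub_self]
    rw [h2, mul_assoc, Lfull_gen ha l _ h4]
    exact Pext_mem _ (hs.d _ p hp)
  exact h1 hu

/-- The product `∏ (T_l - t_c)^{r c}`. -/
noncomputable def PL (r : κ → ℕ) (l : Λ) : Pg k (κ ⊕ Λ) :=
  ∏ c, (tv (Sum.inr l) 1 - tv (Sum.inl c) 1) ^ r c

lemma PL_TT (r : κ → ℕ) (l : Λ) : PL (k := k) r l ∈ TT k (κ ⊕ Λ) :=
  Subalgebra.prod_mem _ fun _ _ => Subalgebra.pow_mem _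
    (Subalgebra.sub_mem _ (tv_TT _ _) (tv_TT _ _)) _

lemma XD_TT {ι : Type} [Fintype ι] [DecidableEq ι] (y : ℤ → Pg k ι) {v : Pg k ι}
    (hv : v ∈ TT k ι) : XD y v = 0 := by
  unfold TT at hv
  induction hv using Algebra.adjoin_induction with
  | mem x hx =>
    obtain ⟨a, rfl⟩ := hx
    exact XD_tt y a
  | algebraMap c => exact Derivation.map_algebraMap _ _
  | add x y _ _ hx hy => rw [map_add, hx, hy, add_zero]
  | mul x y _ _ hx hy => rw [leib, hx, hy, mul_zero, mul_zero, add_zero]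

lemma xl_PL (r : κ → ℕ) (l : Λ) (v : Pg k (κ ⊕ Λ)) : xl l (PL r l * v) ∈ qq (rh Λ r) := by
  refine ⟨Pmap (sg l) v, ?_⟩
  rw [xl_apply, map_mul]
  congr 2
  unfold PL P0
  rw [map_prod, Fintype.prod_sum_type]
  have h1 : ∏ x : Λ, (tv (k := k) none 1 - tv (some (Sum.inr x : κ ⊕ Λ)) 1) ^
      rh Λ r (Sum.inr x) = 1 := Finset.prod_eq_one fun x _ => pow_zero _
  rw [h1, mul_one]
  refine Finset.prod_congr rfl fun c _ => ?_
  rw [map_pow, map_sub, Pmap_tv, Pmap_tv, sg_self]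
  have h2 : sg l (Sum.inl c : κ ⊕ Λ) = some (Sum.inl c) := if_neg Sum.inl_ne_inr
  rw [h2]
  rfl

lemma Xp_PL (r : κ → ℕ) (l : Λ) (v : Pg k (κ ⊕ Λ)) : Xp l (PL r l ^ 2 * v) ∈ qq (rh Λ r) := by
  unfold Xp
  have h1 : (2 * XD (fun m => (m : Pg k (κ ⊕ Λ)) * tv (Sum.inr l) (m - 1)) (PL r l ^ 2 * v) -
      pd (Sum.inr l) (XD (fun m => tv (Sum.inr l) m) (PL r l ^ 2 * v))) =
      PL r l * (2 * PL r l * XD (fun m => (m : Pg k (κ ⊕ Λ)) * tv (Sum.inr l) (m - 1)) v -
        PL r l * pd (Sum.inr l) (XD (fun m => tv (Sum.inr l) m) v) -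
        2 * XD (fun m => tv (Sum.inr l) m) v * pd (Sum.inr l) (PL r l)) := by
    have h2 := XD_TT (fun m => (m : Pg k (κ ⊕ Λ)) * tv (Sum.inr l) (m - 1))
      (PL_TT (k := k) r l)
    have h3 := XD_TT (fun m => tv (Sum.inr l) m) (PL_TT (k := k) r l)
    rw [pow_two]
    simp only [leib, h2, h3, mul_zero, add_zero]
    ring
  rw [h1]
  exact xl_PL r l _

/-- Divisibility under the local operators. -/
lemma Lc_dvd (lam : κ → ℤ) (l : Λ) (c : κ) {x u : Pg k (κ ⊕ Λ)} {M : ℕ} (h : x ^ (M + 1) ∣ u) :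
    (evl l c x) ^ M ∣ Lc lam l c u := by
  obtain ⟨v, rfl⟩ := h
  have key : ∀ D : Derivation k (Pg k (κ ⊕ Λ)) (Pg k (κ ⊕ Λ)), x ^ M ∣ D (x ^ (M + 1) * v) := by
    intro D
    rw [leib, Derivation.leibniz_pow, Nat.add_sub_cancel, smul_eq_mul, pow_succ]
    refine dvd_add ?_ ?_
    · rw [mul_assoc]
      exact Dvd.intro _ rfl
    · rw [nsmul_eq_mul]
      exact ⟨v * (((M + 1 : ℕ) : Pg k (κ ⊕ Λ)) * D x), by ring⟩
  rw [Lc_apply, ← map_pow]
  exact map_dvd _ (dvd_add (key _) (Dvd.dvd.mul_left (key _) _))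

/-- The total local operator over the clusters without letters. -/
noncomputable def Lt (K0 : Finset κ) (lam : κ → ℤ) (l : Λ) : Pg k (κ ⊕ Λ) →ₗ[k] Pg k (κ ⊕ Λ) :=
  ∑ c ∈ K0, Lc lam l c

lemma Lt_apply (K0 : Finset κ) (lam : κ → ℤ) (l : Λ) (u : Pg k (κ ⊕ Λ)) :
    Lt K0 lam l u = ∑ c ∈ K0, Lc lam l c u := by
  unfold Lt
  rw [LinearMap.sum_apply]

lemma Lc_kill (lam : κ → ℤ) (l : Λ) (c : κ) {u : Pg k (κ ⊕ Λ)}
    (h : (tv (Sum.inr l) 1 - tv (Sum.inl c) 1) ^ 2 ∣ u) : Lc lam l c u = 0 := by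
  have h1 := Lc_dvd lam l c h
  rw [pow_one, map_sub, evl_tv_self, evl_tv] at h1
  have h2 : Function.update id (Sum.inr l) (Sum.inl c) (Sum.inl c : κ ⊕ Λ) = Sum.inl c := by
    rw [Function.update_of_ne Sum.inl_ne_inr]
    rfl
  rw [h2, sub_self, zero_dvd_iff] at h1
  exact h1

/-- The membership for the local operators. -/
lemma Lt_mem {a : κ → κ → ℤ} (ha : ∀ i j, i ≠ j → a i j = 0) {P : Submodule k (Pg k κ)}
    (hs : Stab a P) {r : κ → ℕ} (hc : (qq (k := k) r : Set (Pg k κ)) ⊆ P) (l : Λ)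
    {u : Pg k (κ ⊕ Λ)} (hu : u ∈ Pext Λ P) (hdvd : PL r l ^ 2 ∣ u) :
    Lt (Finset.univ.filter fun c => r c = 0) (fun c => a c c) l u ∈ Pext Λ P := by
  have h1 := Lfull_mem ha hs l hu
  have h2 : Xp l u ∈ Pext Λ P := by
    obtain ⟨v, rfl⟩ := hdvd
    exact qq_le_Pext hc (Xp_PL r l v)
  have h3 := (Pext Λ P).sub_mem h1 h2
  rw [add_sub_cancel_right, ← Finset.sum_filter_add_sum_filter_not Finset.univ
    (fun c => r c = 0)] at h3
  have h4 : ∑ c ∈ Finset.univ.filter (fun c => ¬ r c = 0), Lc (fun c => a c c) l c u = 0 := by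
    refine Finset.sum_eq_zero fun c hc => ?_
    refine Lc_kill _ l c (dvd_trans ?_ hdvd)
    refine pow_dvd_pow_of_dvd ?_ 2
    unfold PL
    refine dvd_trans ?_ (Finset.dvd_prod_of_mem _ (Finset.mem_univ c))
    exact dvd_pow_self _ (Finset.mem_filter.1 hc).2
  rw [h4, add_zero] at h3
  rw [Lt_apply]
  exact h3

end

end Pool.Agent.K9h91.WI
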