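import Pool.Agent.R693.W.Main

/-!
# The leading forms of the ideals of an algebra satisfying the Witt relations
-/

set_option autoImplicit false
set_option linter.unusedSectionVars false

namespace Pool.Agent.K9h91.WI

open MvPolynomial Pool.Agent.R693.W

section
variable {F : Type*} [Field F] [CharZero F] {A : Type*} [Ring A] [Algebra F A] {e : ℤ → A}

/-- A word representing a monomial. -/
noncomputable def lst (α : ℤ →₀ ℕ) : List ℤ := (Finsupp.toMultiset α).toList

variable (F) (e) in
/-- The (non multiplicative) evaluation of polynomials. -/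
noncomputable def sig : MvPolynomial ℤ F →ₗ[F] A :=
  (MvPolynomial.basisMonomials ℤ F).constr F (fun α => wd e (lst α))

lemma sig_monomial (α : ℤ →₀ ℕ) (a : F) :
    sig F e (monomial α a) = a • wd e (lst α) := by
  have h : (monomial α a : MvPolynomial ℤ F) = a • MvPolynomial.basisMonomials ℤ F α := by
    rw [MvPolynomial.coe_basisMonomials, MvPolynomial.smul_monomial, smul_eq_mul, mul_one]
  rw [h, map_smul]
  congr 1
  exact Module.Basis.constr_basis _ _ _ _

lemma lst_length (α : ℤ →₀ ℕ) : (lst α).length = α.degree := by
  unfold lst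
  rw [Multiset.length_toList, Finsupp.card_toMultiset]
  rfl

lemma lst_perm (α : ℤ →₀ ℕ) (i : ℤ) :
    (lst (α + Finsupp.single i 1)).Perm (i :: lst α) := by
  unfold lst
  rw [← Multiset.coe_eq_coe, Multiset.coe_toList, ← Multiset.cons_coe, Multiset.coe_toList, map_add,
    Finsupp.toMultiset_single, one_smul, add_comm, Multiset.singleton_add]

lemma lst_perm' (w : List ℤ) :
    (lst (Multiset.toFinsupp (w : Multiset ℤ))).Perm w := by
  unfold lst
  rw [← Multiset.coe_eq_coe, Multiset.coe_toList, Multiset.toFinsupp_toMultiset]

lemma hc_monomial (j : ℕ) (α : ℤ →₀ ℕ) (a : F) :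
    homogeneousComponent j (monomial α a) = if α.degree = j then monomial α a else 0 := by
  classical
  ext d
  rw [coeff_homogeneousComponent]
  split_ifs with h1 h2 h2
  · rfl
  · rw [coeff_monomial, if_neg (by rintro rfl; exact h2 h1), coeff_zero]
  · rw [coeff_monomial, if_neg (by rintro rfl; exact h1 h2)]
  · rw [coeff_zero]

lemma mono_mul_X (α : ℤ →₀ ℕ) (a : F) (i : ℤ) :
    (monomial α a : MvPolynomial ℤ F) * X i = monomial (α + Finsupp.single i 1) a := by
  rw [MvPolynomial.X, monomial_mul, mul_one]

lemma sig_mul_X (he : IsW F e) (i : ℤ) (j : ℕ) (f : MvPolynomial ℤ F) :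
    sig F e (homogeneousComponent j f * X i) - e i * sig F e (homogeneousComponent j f) ∈
      Fl F e (j + 1) := by
  induction f using MvPolynomial.induction_on' with
  | monomial α a =>
    rw [hc_monomial]
    split_ifs with h
    · rw [mono_mul_X, sig_monomial, sig_monomial, mul_smul_comm, ← smul_sub]
      apply Submodule.smul_mem
      have h2 := perm_mem he (lst_perm α i)
      rw [lst_length, wd_cons] at h2
      have h3 : (α + Finsupp.single i 1).degree = j + 1 := by
        rw [map_add, h, Finsupp.degree_single]
      rwa [h3] at h2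
    · simp
  | add p q hp hq =>
    rw [map_add, add_mul, map_add, map_add, mul_add]
    have := Submodule.add_mem _ hp hq
    rwa [sub_add_sub_comm] at this

lemma hc_mul_X (i : ℤ) (j : ℕ) (f : MvPolynomial ℤ F) :
    homogeneousComponent (j + 1) (f * X i) = homogeneousComponent j f * X i := by
  induction f using MvPolynomial.induction_on' with
  | monomial α a =>
    rw [mono_mul_X, hc_monomial, hc_monomial, map_add, Finsupp.degree_single]
    by_cases h : α.degree = j
    · rw [if_pos (by omega), if_pos h, mono_mul_X]
    · rw [if_neg (by omega), if_neg h, zero_mul]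
  | add p q hp hq =>
    rw [add_mul, map_add, map_add, hp, hq, add_mul]

lemma hc_mul_X_zero (i : ℤ) (f : MvPolynomial ℤ F) :
    homogeneousComponent 0 (f * X i) = 0 := by
  induction f using MvPolynomial.induction_on' with
  | monomial α a =>
    rw [mono_mul_X, hc_monomial, map_add, Finsupp.degree_single, if_neg (by omega)]
  | add p q hp hq =>
    rw [add_mul, map_add, hp, hq, add_zero]

/-- The derivations of the symmetric algebra. -/
noncomputable def DS (F : Type*) [Field F] (n : ℤ) :
    Derivation F (MvPolynomial ℤ F) (MvPolynomial ℤ F) :=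
  MvPolynomial.mkDerivation F fun m => ((m - n : ℤ) : F) • X (m + n - 1)

lemma DS_X (n m : ℤ) : DS F n (X m) = ((m - n : ℤ) : F) • X (m + n - 1) := by
  unfold DS
  rw [mkDerivation_X]

lemma DS_mul_X (n m : ℤ) (f : MvPolynomial ℤ F) :
    DS F n (f * X m) = DS F n f * X m + ((m - n : ℤ) : F) • (f * X (m + n - 1)) := by
  rw [Derivation.leibniz, DS_X, smul_eq_mul, smul_eq_mul, mul_smul_comm]
  ring

lemma hc_DS (n : ℤ) (f : MvPolynomial ℤ F) : ∀ j,
    homogeneousComponent j (DS F n f) = DS F n (homogeneousComponent j f) := by
  induction f using MvPolynomial.induction_on with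
  | C a =>
    intro j
    rw [← MvPolynomial.algebraMap_eq, Derivation.map_algebraMap, map_zero,
      MvPolynomial.algebraMap_eq, ← MvPolynomial.monomial_zero', hc_monomial]
    split_ifs
    · rw [MvPolynomial.monomial_zero', ← MvPolynomial.algebraMap_eq, Derivation.map_algebraMap]
    · rw [map_zero]
  | add p q hp hq =>
    intro j
    rw [map_add, map_add, map_add, map_add, hp, hq]
  | mul_X p i hp =>
    intro j
    rw [DS_mul_X, map_add, map_smul]
    cases j with
    | zero =>
      rw [hc_mul_X_zero, hc_mul_X_zero, hc_mul_X_zero, smul_zero, add_zero, map_zero]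
    | succ j =>
      rw [hc_mul_X, hc_mul_X, hc_mul_X, DS_mul_X, hp]

lemma ad_Fl (he : IsW F e) (n : ℤ) {k : ℕ} {x : A} (hx : x ∈ Fl F e k) :
    ad e n x ∈ Fl F e k := by
  unfold Fl at hx
  induction hx using Submodule.span_induction with
  | mem y hy =>
    obtain ⟨w, hw, rfl⟩ := hy
    induction w generalizing k with
    | nil =>
      rw [wd_nil, ad_one]
      exact Submodule.zero_mem _
    | cons v w ih =>
      rw [List.length_cons] at hw
      obtain ⟨k', rfl⟩ : ∃ k', k = k' + 1 := ⟨k - 1, by omega⟩
      rw [wd_cons, ad_mul, ad_e he]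
      have h1 : ((Lab.c v : ℤ) + Lab.c n - 1) = Lab.c (v + n - 1 : ℤ) := rfl
      rw [h1, ext_c]
      refine Submodule.add_mem _ ?_ (e_mul_mem v (ih (by omega)))
      rw [smul_mul_assoc, ← wd_cons]
      exact Submodule.smul_mem _ _ (wd_mem (by rw [List.length_cons]; exact hw))
  | zero => rw [ad_zero]; exact Submodule.zero_mem _
  | add y z _ _ hy hz => rw [ad_add]; exact Submodule.add_mem _ hy hz
  | smul a y _ hy => rw [ad_smul]; exact Submodule.smul_mem _ _ hy

lemma sig_DS (he : IsW F e) (n : ℤ) (f : MvPolynomial ℤ F) : ∀ j,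
    sig F e (DS F n (homogeneousComponent j f)) - ad e n (sig F e (homogeneousComponent j f)) ∈
      Fl F e j := by
  induction f using MvPolynomial.induction_on with
  | C a =>
    intro j
    rw [← MvPolynomial.monomial_zero', hc_monomial]
    split_ifs with h
    · rw [sig_monomial, ad_smul]
      have h1 : lst 0 = [] := by
        unfold lst
        rw [map_zero, Multiset.toList_zero]
      rw [h1, wd_nil, ad_one, smul_zero, MvPolynomial.monomial_zero',
        ← MvPolynomial.algebraMap_eq, Derivation.map_algebraMap, map_zero, sub_zero]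
      exact Submodule.zero_mem _
    · rw [map_zero, map_zero, ad_zero, sub_zero]
      exact Submodule.zero_mem _
  | add p q hp hq =>
    intro j
    rw [map_add, map_add, map_add, map_add, ad_add]
    have := Submodule.add_mem _ (hp j) (hq j)
    rwa [sub_add_sub_comm] at this
  | mul_X p i hp =>
    intro j
    cases j with
    | zero =>
      rw [hc_mul_X_zero, map_zero, map_zero, ad_zero, sub_zero]
      exact Submodule.zero_mem _
    | succ j =>
      rw [hc_mul_X, DS_mul_X, map_add, map_smul]
      have h1 := sig_mul_X he i j (DS F n p)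
      rw [hc_DS] at h1
      have h2 := e_mul_mem i (hp j)
      have h3 := sig_mul_X he (i + n - 1) j p
      have h4 := ad_Fl he n (sig_mul_X he i j p)
      have h5 := ad_e he n i
      have h6 : ((Lab.c i : ℤ) + Lab.c n - 1) = Lab.c (i + n - 1 : ℤ) := rfl
      rw [h6, ext_c] at h5
      have h7 : ad e n (sig F e (homogeneousComponent j p * X i) -
          e i * sig F e (homogeneousComponent j p)) =
          ad e n (sig F e (homogeneousComponent j p * X i)) -
          (((i - n : ℤ) : F) • (e (i + n - 1) * sig F e (homogeneousComponent j p)) +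
            e i * ad e n (sig F e (homogeneousComponent j p))) := by
        rw [sub_eq_add_neg, ad_add, ← neg_one_smul F, ad_smul, ad_mul, h5, neg_one_smul,
          ← sub_eq_add_neg, smul_mul_assoc]
        rfl
      rw [h7] at h4
      have h8 := Submodule.add_mem _ (Submodule.add_mem _ h1 h2)
        (Submodule.sub_mem _ (Submodule.smul_mem _ ((i - n : ℤ) : F) h3) h4)
      have h9 : sig F e (DS F n (homogeneousComponent j p) * X i) +
          ((i - n : ℤ) : F) • sig F e (homogeneousComponent j p * X (i + n - 1)) -
          ad e n (sig F e (homogeneousComponent j p * X i)) =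
          sig F e (DS F n (homogeneousComponent j p) * X i) -
              e i * sig F e (DS F n (homogeneousComponent j p)) +
            e i * (sig F e (DS F n (homogeneousComponent j p)) -
              ad e n (sig F e (homogeneousComponent j p))) +
            (((i - n : ℤ) : F) • (sig F e (homogeneousComponent j p * X (i + n - 1)) -
                e (i + n - 1) * sig F e (homogeneousComponent j p)) -
              (ad e n (sig F e (homogeneousComponent j p * X i)) -
                (((i - n : ℤ) : F) • (e (i + n - 1) * sig F e (homogeneousComponent j p)) +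
                  e i * ad e n (sig F e (homogeneousComponent j p))))) := by
        rw [mul_sub, smul_sub]
        abel
      rw [h9]
      exact h8

/-- The leading forms of a subspace. -/
def lead0 (F : Type*) [Field F] [CharZero F] {A : Type*} [Ring A] [Algebra F A] (e : ℤ → A)
    (L : Submodule F A) : Submodule F (MvPolynomial ℤ F) where
  carrier := {f | ∀ j, sig F e (homogeneousComponent j f) ∈ L ⊔ Fl F e j}
  add_mem' := by
    intro f g hf hg j
    rw [map_add, map_add]
    exact Submodule.add_mem _ (hf j) (hg j)
  zero_mem' := by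
    intro j
    rw [map_zero, map_zero]
    exact Submodule.zero_mem _
  smul_mem' := by
    intro c f hf j
    rw [map_smul, map_smul]
    exact Submodule.smul_mem _ _ (hf j)

lemma mem_lead0 {L : Submodule F A} {f : MvPolynomial ℤ F} :
    f ∈ lead0 F e L ↔ ∀ j, sig F e (homogeneousComponent j f) ∈ L ⊔ Fl F e j := Iff.rfl

lemma lead0_mono {L L' : Submodule F A} (h : L ≤ L') : lead0 F e L ≤ lead0 F e L' :=
  fun _ hf j => sup_le_sup_right h _ (hf j)

lemma lead0_mul_X (he : IsW F e) {L : Submodule F A} (hL : ∀ m, ∀ x ∈ L, e m * x ∈ L) (i : ℤ)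
    {f : MvPolynomial ℤ F} (hf : f ∈ lead0 F e L) : f * X i ∈ lead0 F e L := by
  intro j
  cases j with
  | zero =>
    rw [hc_mul_X_zero, map_zero]
    exact Submodule.zero_mem _
  | succ j =>
    rw [hc_mul_X]
    have h1 := sig_mul_X he i j f
    have h2 : e i * sig F e (homogeneousComponent j f) ∈ L ⊔ Fl F e (j + 1) := by
      have h3 := hf j
      rw [Submodule.mem_sup] at h3
      obtain ⟨y, hy, z, hz, hyz⟩ := h3
      rw [← hyz, mul_add]
      exact Submodule.add_mem _ (Submodule.mem_sup_left (hL _ _ hy))
        (Submodule.mem_sup_right (e_mul_mem i hz))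
    have h4 := Submodule.add_mem _ (Submodule.mem_sup_right h1) h2
    rwa [sub_add_cancel] at h4

lemma lead0_mul (he : IsW F e) {L : Submodule F A} (hL : ∀ m, ∀ x ∈ L, e m * x ∈ L)
    (g : MvPolynomial ℤ F) {f : MvPolynomial ℤ F} (hf : f ∈ lead0 F e L) :
    f * g ∈ lead0 F e L := by
  induction g using MvPolynomial.induction_on with
  | C a =>
    rw [mul_comm, ← MvPolynomial.smul_eq_C_mul]
    exact Submodule.smul_mem _ _ hf
  | add p q hp hq =>
    rw [mul_add]
    exact Submodule.add_mem _ hp hq
  | mul_X p i hp =>
    rw [← mul_assoc]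
    exact lead0_mul_X he hL i hp

lemma lead0_DS (he : IsW F e) {L : Submodule F A} (hL : ∀ m, ∀ x ∈ L, ad e m x ∈ L) (n : ℤ)
    {f : MvPolynomial ℤ F} (hf : f ∈ lead0 F e L) : DS F n f ∈ lead0 F e L := by
  intro j
  rw [hc_DS]
  have h1 := sig_DS he n f j
  have h2 : ad e n (sig F e (homogeneousComponent j f)) ∈ L ⊔ Fl F e j := by
    have h3 := hf j
    rw [Submodule.mem_sup] at h3
    obtain ⟨y, hy, z, hz, hyz⟩ := h3
    rw [← hyz, ad_add]
    exact Submodule.add_mem _ (Submodule.mem_sup_left (hL _ _ hy))
      (Submodule.mem_sup_right (ad_Fl he n hz))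
  have h4 := Submodule.add_mem _ (Submodule.mem_sup_right h1) h2
  rwa [sub_add_cancel] at h4

lemma repr0 (he : IsW F e) (m : ℕ) {x : A} (hx : x ∈ Fl F e (m + 1)) :
    ∃ f : MvPolynomial ℤ F, homogeneousComponent m f = f ∧ x - sig F e f ∈ Fl F e m := by
  unfold Fl at hx
  induction hx using Submodule.span_induction with
  | mem y hy =>
    obtain ⟨w, hw, rfl⟩ := hy
    rcases Nat.lt_or_ge w.length m with h | h
    · exact ⟨0, by rw [map_zero], by rw [map_zero, sub_zero]; exact wd_mem h⟩
    · have hwm : w.length = m := by omega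
      have hdeg : (Multiset.toFinsupp (w : Multiset ℤ)).degree = m := by
        have h1 := lst_length (Multiset.toFinsupp (w : Multiset ℤ))
        rw [← h1, (lst_perm' w).length_eq, hwm]
      refine ⟨monomial (Multiset.toFinsupp (w : Multiset ℤ)) 1, ?_, ?_⟩
      · rw [hc_monomial, if_pos hdeg]
      · rw [sig_monomial, one_smul]
        have h1 := perm_mem he (lst_perm' w).symm
        rwa [hwm] at h1
  | zero => exact ⟨0, by rw [map_zero], by simp⟩
  | add y z _ _ hy hz =>
    obtain ⟨f, hf1, hf2⟩ := hy
    obtain ⟨g, hg1, hg2⟩ := hz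
    refine ⟨f + g, by rw [map_add, hf1, hg1], ?_⟩
    rw [map_add, add_sub_add_comm]
    exact Submodule.add_mem _ hf2 hg2
  | smul a y _ hy =>
    obtain ⟨f, hf1, hf2⟩ := hy
    refine ⟨a • f, by rw [map_smul, hf1], ?_⟩
    rw [map_smul, ← smul_sub]
    exact Submodule.smul_mem _ _ hf2

/-- Subspaces with the same leading forms. -/
lemma eq_of_lead0 (he : IsW F e) (hgen : ∀ x : A, ∃ k, x ∈ Fl F e k) {L L' : Submodule F A}
    (h : L ≤ L') (hlead : lead0 F e L' = lead0 F e L) : L' = L := by
  refine le_antisymm ?_ h
  have key : ∀ k x, x ∈ L' → x ∈ Fl F e k → x ∈ L := by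
    intro k
    induction k with
    | zero =>
      intro x _ hx
      have h1 : Fl F e 0 = ⊥ := by
        unfold Fl
        have h2 : {x : A | ∃ w : List ℤ, w.length < 0 ∧ x = wd e w} = ∅ := by
          ext z; simp
        rw [h2, Submodule.span_empty]
      rw [h1, Submodule.mem_bot] at hx
      rw [hx]
      exact Submodule.zero_mem _
    | succ k ih =>
      intro x hxm hx
      obtain ⟨f, hf1, hf2⟩ := repr0 he k hx
      have h2 : f ∈ lead0 F e L' := by
        intro j
        by_cases hj : j = k
        · subst hj
          rw [hf1]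
          have h3 : sig F e f = x - (x - sig F e f) := by abel
          rw [h3]
          exact Submodule.sub_mem _ (Submodule.mem_sup_left hxm) (Submodule.mem_sup_right hf2)
        · have h3 : homogeneousComponent j f = 0 := by
            rw [← hf1]
            ext d
            rw [coeff_homogeneousComponent, coeff_homogeneousComponent, coeff_zero]
            split_ifs with h4 h5
            · exact absurd (h4.symm.trans h5) hj
            · rfl
            · rfl
          rw [h3, map_zero]
          exact Submodule.zero_mem _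
      rw [hlead] at h2
      have h3 := h2 k
      rw [hf1, Submodule.mem_sup] at h3
      obtain ⟨y, hy, z, hz, hyz⟩ := h3
      have h4 : x = y + (x - y) := by abel
      rw [h4]
      refine Submodule.add_mem _ hy (ih _ (Submodule.sub_mem _ hxm (h hy)) ?_)
      have h5 : x - y = (x - sig F e f) + z := by rw [← hyz]; abel
      rw [h5]
      exact Submodule.add_mem _ hf2 hz
  intro x hx
  obtain ⟨k, hk⟩ := hgen x
  exact key k x hx hk

end

end Pool.Agent.K9h91.WI
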