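import Pool.Agent.K9h91.WI.Induct

/-!
# Contractions
-/

set_option autoImplicit false
set_option linter.unusedSectionVars false

namespace Pool.Agent.K9h91.WI

universe u v

section
variable {k : Type u} [Field k] [CharZero k] {ι : Type} [Fintype ι] [DecidableEq ι]

lemma Dt_zero (n : ℤ) (u : Pg k ι) : Dt (0 : ι → ι → ℤ) n u = DD n u := by
  rw [Dt_apply, ph_zero, zero_mul, add_zero]

/-- A contraction with a twist whose image is the bottom of stabilising chains. -/
structure Adm (Ψ : Pg k ι →ₗ[k] Pg k Empty) : Prop where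
  x : ∀ m u, Ψ (xx m * u) = xx m * Ψ u
  d : ∃ a : ι → ι → ℤ, Off a ∧ ∀ n u, DD n (Ψ u) = Ψ (Dt a n u)
  n : NN (0 : Empty → Empty → ℤ) (Set.range Ψ)

lemma Adm_id : Adm (LinearMap.id : Pg k Empty →ₗ[k] Pg k Empty) := by
  refine ⟨fun _ _ => rfl, ⟨0, fun i => i.elim, fun n u => (Dt_zero n u).symm⟩, ?_⟩
  refine NN.mono (NN_univ _) fun u _ => ⟨u, rfl⟩

/-- The next contraction. -/
noncomputable def nxt (Ψ : Pg k ι →ₗ[k] Pg k Empty) (r : ι → ℕ) :
    Pg k (Option ι) →ₗ[k] Pg k Empty := Ψ ∘ₗ xlin ∘ₗ LinearMap.mulLeft k (P0 r)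

lemma nxt_apply (Ψ : Pg k ι →ₗ[k] Pg k Empty) (r : ι → ℕ) (u : Pg k (Option ι)) :
    nxt Ψ r u = Ψ (xlin (P0 r * u)) := rfl

/-- The next twist. -/
def nta (a : ι → ι → ℤ) (r : ι → ℕ) : Option ι → Option ι → ℤ
  | none, none => -1
  | none, some i => r i
  | some _, none => 0
  | some i, some j => a i j

lemma ph_nta (a : ι → ι → ℤ) (r : ι → ℕ) (n : ℤ) : ph (k := k) (nta a r) n =
    (∑ i, (r i : Pg k (Option ι)) * hh n none (some i)) -
      (n : Pg k (Option ι)) * tv none (n - 1) + jj (ph a n) := by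
  unfold ph
  rw [Fintype.sum_option, Fintype.sum_option, map_sum]
  have h1 : ∀ i : ι, ∑ o : Option ι, (nta a r (some i) o : Pg k (Option ι)) * hh n (some i) o =
      jj (∑ j, (a i j : Pg k ι) * hh n i j) := by
    intro i
    rw [Fintype.sum_option, map_sum]
    simp only [map_mul, map_intCast, Pmap_hh]
    show ((0 : ℤ) : Pg k (Option ι)) * hh n (some i) none + _ = _
    rw [Int.cast_zero, zero_mul, zero_add]
    rfl
  simp only [h1]
  rw [hh_self]
  show ((-1 : ℤ) : Pg k (Option ι)) * _ + ∑ i, ((r i : ℤ) : Pg k (Option ι)) * _ + _ = _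
  simp only [Int.cast_natCast]
  push_cast
  ring

lemma Adm_nxt {Ψ : Pg k ι →ₗ[k] Pg k Empty} (h : Adm Ψ) (r : ι → ℕ) : Adm (nxt Ψ r) := by
  have hx : ∀ m u, nxt Ψ r (xx m * u) = xx m * nxt Ψ r u := by
    intro m u
    rw [nxt_apply, nxt_apply, ← h.x]
    congr 1
    rw [← xlin_mul, Pmap_xx]
    congr 1
    ring
  obtain ⟨a, ha, hd⟩ := h.d
  refine ⟨hx, ⟨nta a r, ?_, ?_⟩, ?_⟩
  · intro o o' hoo
    cases o with
    | none =>
      cases o' with
      | none => exact absurd rfl hoo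
      | some i => exact Int.natCast_nonneg _
    | some i =>
      cases o' with
      | none => exact le_refl _
      | some j => exact ha i j fun h => hoo (congrArg some h)
  · intro n u
    rw [nxt_apply, nxt_apply, hd, Dt_apply, DD_xlin, ← xlin_mul, ← map_add]
    congr 2
    have h1 : DD n (P0 (k := k) r) = P0 r * _ := LD_P0 n r
    rw [leib, h1, Dt_apply, ph_nta]
    ring
  · intro P hP hs hc
    have hsQ : ∀ n, Stab 0 (P n ⊔ LinearMap.range Ψ) := by
      intro n
      constructor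
      · intro m u hu
        obtain ⟨p, hp, _, ⟨v, rfl⟩, rfl⟩ := Submodule.mem_sup.1 hu
        rw [mul_add, ← h.x]
        exact Submodule.add_mem_sup ((hs n).x m p hp) ⟨_, rfl⟩
      · intro m u hu
        obtain ⟨p, hp, _, ⟨v, rfl⟩, rfl⟩ := Submodule.mem_sup.1 hu
        rw [map_add, Dt_zero m (Ψ v), hd]
        exact Submodule.add_mem_sup ((hs n).d m p hp) ⟨_, rfl⟩
    obtain ⟨n1, hn1⟩ := h.n (fun n => P n ⊔ LinearMap.range Ψ)
      (fun i j hij => sup_le_sup_right (hP hij) _) hsQ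
      (fun n u hu => Submodule.mem_sup_right hu)
    have hsR : ∀ n, Stab a ((P n).comap Ψ) := by
      intro n
      constructor
      · intro m u hu
        rw [Submodule.mem_comap, h.x]
        exact (hs n).x m _ hu
      · intro m u hu
        rw [Submodule.mem_comap, ← hd, ← Dt_zero]
        exact (hs n).d m _ hu
    obtain ⟨n2, hn2⟩ := main_thm k ι r a ha (fun n => (P n).comap Ψ)
      (fun i j hij => Submodule.comap_mono (hP hij)) hsR (fun n u hu => by
        obtain ⟨f, rfl⟩ := hu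
        exact hc n ⟨f, rfl⟩)
    refine ⟨max n1 n2, fun m hm => le_antisymm ?_ (hP hm)⟩
    intro p hp
    have h1 : p ∈ P m ⊔ LinearMap.range Ψ := Submodule.mem_sup_left hp
    have h2 := hn1 m ((le_max_left _ _).trans hm)
    have h3 := hn1 (max n1 n2) (le_max_left _ _)
    beta_reduce at h2 h3
    rw [h2, ← h3] at h1
    obtain ⟨p', hp', _, ⟨v, rfl⟩, rfl⟩ := Submodule.mem_sup.1 h1
    refine (P (max n1 n2)).add_mem hp' ?_
    have h4 : v ∈ (P m).comap Ψ := by
      rw [Submodule.mem_comap]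
      have h5 := (P m).sub_mem hp (hP hm hp')
      rwa [add_sub_cancel_left] at h5
    have h6 := hn2 m ((le_max_right _ _).trans hm)
    have h7 := hn2 (max n1 n2) (le_max_right _ _)
    beta_reduce at h6 h7
    rw [h6, ← h7] at h4
    exact h4

end

end Pool.Agent.K9h91.WI
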