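import Pool.Agent.K9h91.WI.Lev0
import Pool.Agent.K9h91.WI.Lev2

/-!
# The link between the two sides
-/

set_option autoImplicit false
set_option linter.unusedSectionVars false

namespace Pool.Agent.K9h91.WI

open Pool.Agent.R693

universe u v

section
variable {F : Type u} [Field F] [CharZero F]

/-- The translation to the group algebra of the labels. -/
noncomputable def chi {ι : Type} [Fintype ι] (pos : ι → ℕ) : Pg F ι →ₐ[F] W.K F ℤ :=
  mkHom
    { toFun := fun a => AddMonoidAlgebra.single (push pos a.toAdd) 1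
      map_one' := by
        rw [toAdd_one, map_zero]
        rfl
      map_mul' := fun a b => by
        rw [toAdd_mul, map_add, AddMonoidAlgebra.single_mul_single, one_mul] }
    (fun _ => 0)

lemma chi_tt {ι : Type} [Fintype ι] (pos : ι → ℕ) (a : ι → ℤ) :
    chi (F := F) pos (tt a) = AddMonoidAlgebra.single (push pos a) 1 := by
  unfold chi
  rw [mkHom_tt]
  rfl

lemma chi_xx {ι : Type} [Fintype ι] (pos : ι → ℕ) (m : ℤ) :
    chi (F := F) pos (xx m) = 0 := by
  unfold chi
  rw [mkHom_xx]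

lemma chi_tv {ι : Type} [Fintype ι] [DecidableEq ι] (pos : ι → ℕ) (i : ι) :
    chi (F := F) pos (tv i 1) = W.X (pos i) := by
  unfold tv W.X W.dl
  rw [chi_tt, push_single]
  rfl

/-- The next positions. -/
def npos {ι : Type} (d : ℕ) (pos : ι → ℕ) : Option ι → ℕ := fun o => o.elim d pos

lemma push_npos {ι : Type} [Fintype ι] [DecidableEq ι] (d : ℕ) (pos : ι → ℕ) (b : Option ι → ℤ) :
    push (npos d pos) b = Pi.single d (b none) + push pos (fun i => b (some i)) := by
  rw [push_apply, Fintype.sum_option, push_apply]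
  rfl

lemma chi_jj {ι : Type} [Fintype ι] [DecidableEq ι] (d : ℕ) (pos : ι → ℕ) (v : Pg F ι) :
    chi (npos d pos) (jj v) = chi pos v := by
  have h : (chi (npos d pos)).comp jj = chi (F := F) pos := by
    apply hom_ext
    · intro a
      rw [AlgHom.comp_apply, Pmap_tt, chi_tt, chi_tt, push_push]
      rfl
    · intro m
      rw [AlgHom.comp_apply, Pmap_xx, chi_xx, chi_xx]
  exact AlgHom.congr_fun h v

lemma P0_TT {ι : Type} [Fintype ι] [DecidableEq ι] (r : ι → ℕ) : P0 r ∈ TT F (Option ι) :=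
  Subalgebra.prod_mem _ fun _ _ => Subalgebra.pow_mem _
    (Subalgebra.sub_mem _ (tv_TT _ _) (tv_TT _ _)) _

lemma jj_TT {ι : Type} [Fintype ι] [DecidableEq ι] {v : Pg F ι} (hv : v ∈ TT F ι) :
    jj v ∈ TT F (Option ι) := by
  unfold TT at hv
  induction hv using Algebra.adjoin_induction with
  | mem x hx =>
    obtain ⟨a, rfl⟩ := hx
    rw [Pmap_tt]
    exact tt_TT _
  | algebraMap c => rw [AlgHom.commutes]; exact Subalgebra.algebraMap_mem _ _
  | add x y _ _ hx hy => rw [map_add]; exact Subalgebra.add_mem _ hx hy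
  | mul x y _ _ hx hy => rw [map_mul]; exact Subalgebra.mul_mem _ hx hy

/-- The word of a label. -/
def wl (d : ℕ) (f : ℕ → ℤ) : List ℤ := (List.range d).reverse.map f

lemma wl_succ (d : ℕ) (f : ℕ → ℤ) : wl (d + 1) f = f d :: wl d f := by
  unfold wl
  rw [List.range_succ, List.reverse_append, List.reverse_cons, List.reverse_nil, List.nil_append,
    List.singleton_append, List.map_cons]

lemma wl_length (d : ℕ) (f : ℕ → ℤ) : (wl d f).length = d := by
  unfold wl
  simp

lemma wl_congr {d : ℕ} {f g : ℕ → ℤ} (h : ∀ i < d, f i = g i) : wl d f = wl d g := by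
  unfold wl
  refine List.map_congr_left fun i hi => h i ?_
  simpa using hi

/-- The tower of contractions. -/
structure Tow (F : Type u) [Field F] [CharZero F] (N d : ℕ) (ι : Type) [Fintype ι]
    [DecidableEq ι] (pos : ι → ℕ) (cb : Pg F ι →ₗ[F] Pg F Empty) (q : Pg F ι) : Prop where
  x : ∀ m u, cb (xx m * u) = xx m * cb u
  adm : Adm (cb ∘ₗ LinearMap.mulLeft F q)
  t : ∀ b : ι → ℤ, cb (tt b) = ((wl d (push pos b)).map xx).prod
  p : ∀ i, pos i < d
  pr : ∀ f : ℕ → W.K F ℤ, ∏ i, f (pos i) = ∏ i : Fin d, f i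
  qT : q ∈ TT F ι
  dvd : W.Dl F ℤ d ^ N ∣ chi pos q

lemma Tow_zero (N : ℕ) : Tow F N 0 Empty Empty.elim LinearMap.id 1 := by
  refine ⟨fun _ _ => rfl, ?_, ?_, fun i => i.elim, fun f => ?_, Subalgebra.one_mem _, ?_⟩
  · have h : (LinearMap.id ∘ₗ LinearMap.mulLeft F 1 : Pg F Empty →ₗ[F] Pg F Empty) =
        LinearMap.id := by
      ext u
      simp
    rw [h]
    exact Adm_id
  · intro b
    have h : b = 0 := funext fun i => i.elim
    rw [h, tt_zero]
    rfl
  · rw [Finset.univ_eq_empty, Finset.prod_empty, Finset.univ_eq_empty, Finset.prod_empty]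
  · rw [map_one]
    have h3 : W.Dl F ℤ 0 = 1 := by
      unfold W.Dl W.offd
      simp
    rw [h3, one_pow]

lemma Tow_succ {N d : ℕ} {ι : Type} [Fintype ι] [DecidableEq ι] {pos : ι → ℕ}
    {cb : Pg F ι →ₗ[F] Pg F Empty} {q : Pg F ι} (h : Tow F N d ι pos cb q) :
    Tow F N (d + 1) (Option ι) (npos d pos) (cb ∘ₗ xlin) (jj q * P0 fun _ => 2 * N) := by
  refine ⟨?_, ?_, ?_, ?_, ?_, Subalgebra.mul_mem _ (jj_TT h.qT) (P0_TT _), ?_⟩
  · intro m u
    rw [LinearMap.comp_apply, LinearMap.comp_apply, ← h.x, ← xlin_mul, Pmap_xx]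
  · have h1 : ((cb ∘ₗ xlin) ∘ₗ LinearMap.mulLeft F (jj q * P0 fun _ => 2 * N) :
        Pg F (Option ι) →ₗ[F] Pg F Empty) =
        nxt (cb ∘ₗ LinearMap.mulLeft F q) fun _ => 2 * N := by
      ext u
      rw [nxt_apply, LinearMap.comp_apply, LinearMap.comp_apply, LinearMap.comp_apply,
        LinearMap.mulLeft_apply, LinearMap.mulLeft_apply, mul_assoc, xlin_mul]
    rw [h1]
    exact Adm_nxt h.adm _
  · intro b
    have h1 : tt (k := F) b = tv none (b none) * jj (tt fun i => b (some i)) := by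
      rw [tt_eq_prod, tt_eq_prod, map_prod, Fintype.prod_option]
      simp only [Pmap_tv]
    rw [LinearMap.comp_apply, h1, xlin_tv_mul, h.x, h.t, wl_succ, List.map_cons, List.prod_cons,
      push_npos]
    have h2 : push pos (fun i => b (some i)) d = 0 := by
      rw [push_coord]
      refine Finset.sum_eq_zero fun i hi => ?_
      exact absurd (Finset.mem_filter.1 hi).2 (h.p i).ne
    congr 1
    · rw [Pi.add_apply, Pi.single_eq_same, h2, add_zero]
    · congr 2
      refine wl_congr fun i hi => ?_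
      rw [Pi.add_apply, Pi.single_eq_of_ne hi.ne, zero_add]
  · intro o
    cases o with
    | none => exact Nat.lt_succ_self d
    | some i => exact (h.p i).trans (Nat.lt_succ_self d)
  · intro f
    rw [Fintype.prod_option, Fin.prod_univ_castSucc, mul_comm]
    exact congrArg₂ _ (h.pr f) rfl
  · have h1 : chi (F := F) (npos d pos) (P0 fun _ => 2 * N) =
        ((∏ i : Fin d, (W.X d - W.X (i : ℕ))) ^ 2) ^ N := by
      unfold P0
      rw [map_prod]
      simp only [map_pow, map_sub, chi_tv]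
      rw [Finset.prod_pow, pow_mul]
      have h2 := h.pr fun j => (W.X d - W.X j : W.K F ℤ)
      beta_reduce at h2
      rw [← h2]
      rfl
    rw [map_mul, chi_jj, h1]
    obtain ⟨c, hc⟩ := W.Dl_succ_dvd (F := F) (ι := ℤ) d
    obtain ⟨c', hc'⟩ := h.dvd
    refine ⟨c ^ N * c', ?_⟩
    rw [hc', ← mul_assoc, ← mul_pow, ← hc, mul_pow]
    ring

theorem tower (F : Type u) [Field F] [CharZero F] (N d : ℕ) :
    ∃ (ι : Type) (_ : Fintype ι) (_ : DecidableEq ι) (pos : ι → ℕ)
      (cb : Pg F ι →ₗ[F] Pg F Empty) (q : Pg F ι), Tow F N d ι pos cb q := by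
  induction d with
  | zero => exact ⟨Empty, inferInstance, inferInstance, _, _, _, Tow_zero N⟩
  | succ d ih =>
    obtain ⟨ι, _, _, pos, cb, q, h⟩ := ih
    exact ⟨Option ι, inferInstance, inferInstance, _, _, _, Tow_succ h⟩

end

end Pool.Agent.K9h91.WI
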