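import Pool.Agent.K9h91.WI.Basic

/-!
# Maps between the rings `Pg k ι` and the derivations `∂_i`, `D_n`
-/

set_option autoImplicit false
set_option linter.unusedSectionVars false

namespace Pool.Agent.K9h91.WI

universe u v

section
variable {k : Type u} [CommRing k] {ι ι' ι'' : Type} [DecidableEq ι] [DecidableEq ι']
  [DecidableEq ι'']

/-- The power `t_i^n`. -/
noncomputable def tv (i : ι) (n : ℤ) : Pg k ι := tt (Pi.single i n)

lemma tv_zero (i : ι) : tv (k := k) i 0 = 1 := by
  unfold tv
  rw [Pi.single_zero, tt_zero]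

lemma tv_add (i : ι) (m n : ℤ) : tv (k := k) i (m + n) = tv i m * tv i n := by
  unfold tv
  rw [Pi.single_add, tt_add]

lemma tv_mul (i : ι) (m n : ℤ) : tv (k := k) i m * tv i n = tv i (m + n) := (tv_add i m n).symm

lemma tv_neg_mul (i : ι) (n : ℤ) : tv (k := k) i (-n) * tv i n = 1 := by
  rw [tv_mul, neg_add_cancel, tv_zero]

lemma tv_pow (i : ι) (m : ℤ) (n : ℕ) : tv (k := k) i m ^ n = tv i (n * m) := by
  induction n with
  | zero => rw [pow_zero, Nat.cast_zero, zero_mul, tv_zero]
  | succ n ih => rw [pow_succ, ih, tv_mul]; congr 1; push_cast; ring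

/-- Push forward of exponents. -/
noncomputable def push [Fintype ι] (f : ι → ι') : (ι → ℤ) →+ (ι' → ℤ) where
  toFun a := ∑ i, Pi.single (f i) (a i)
  map_zero' := by simp
  map_add' a b := by
    rw [← Finset.sum_add_distrib]
    exact Finset.sum_congr rfl fun i _ => by rw [← Pi.single_add]; rfl

lemma push_apply [Fintype ι] (f : ι → ι') (a : ι → ℤ) : push f a = ∑ i, Pi.single (f i) (a i) := rfl

lemma push_single [Fintype ι] (f : ι → ι') (i : ι) (n : ℤ) :
    push f (Pi.single i n) = Pi.single (f i) n := by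
  rw [push_apply, Finset.sum_eq_single i]
  · rw [Pi.single_eq_same]
  · intro j _ hj
    rw [Pi.single_eq_of_ne hj, Pi.single_zero]
  · intro h
    exact absurd (Finset.mem_univ i) h

lemma push_push [Fintype ι] [Fintype ι'] (f : ι → ι') (g : ι' → ι'') (a : ι → ℤ) :
    push g (push f a) = push (g ∘ f) a := by
  rw [push_apply f, map_sum, push_apply (g ∘ f)]
  exact Finset.sum_congr rfl fun i _ => push_single g _ _

lemma push_id [Fintype ι] (a : ι → ℤ) : push id a = a := by
  rw [push_apply]
  exact Finset.univ_sum_single a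

lemma push_coord [Fintype ι] (f : ι → ι') (a : ι → ℤ) (j : ι') :
    push f a j = ∑ i with f i = j, a i := by
  rw [push_apply, Finset.sum_apply, Finset.sum_filter]
  refine Finset.sum_congr rfl fun i _ => ?_
  rw [Pi.single_apply]
  simp [eq_comm]

/-- The homomorphism `t_i ↦ t_{f i}`, `X_m ↦ X_m`. -/
noncomputable def Pmap [Fintype ι] (f : ι → ι') : Pg k ι →ₐ[k] Pg k ι' :=
  mkHom
    { toFun := fun a => tt (push f a.toAdd)
      map_one' := by rw [toAdd_one, map_zero, tt_zero]
      map_mul' := fun a b => by rw [toAdd_mul, map_add, tt_add] }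
    (fun m => xx m)

lemma Pmap_tt [Fintype ι] (f : ι → ι') (a : ι → ℤ) :
    Pmap (k := k) f (tt a) = tt (push f a) := by
  unfold Pmap
  rw [mkHom_tt]
  rfl

lemma Pmap_xx [Fintype ι] (f : ι → ι') (m : ℤ) : Pmap (k := k) f (xx m) = xx m := by
  unfold Pmap
  rw [mkHom_xx]

lemma Pmap_tv [Fintype ι] (f : ι → ι') (i : ι) (n : ℤ) :
    Pmap (k := k) f (tv i n) = tv (f i) n := by
  unfold tv
  rw [Pmap_tt, push_single]

lemma Pmap_Pmap [Fintype ι] [Fintype ι'] (f : ι → ι') (g : ι' → ι'') (u : Pg k ι) :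
    Pmap g (Pmap f u) = Pmap (g ∘ f) u := by
  have h : (Pmap g).comp (Pmap f) = Pmap (k := k) (g ∘ f) := by
    apply hom_ext
    · intro a
      rw [AlgHom.comp_apply, Pmap_tt, Pmap_tt, Pmap_tt, push_push]
    · intro m
      rw [AlgHom.comp_apply, Pmap_xx, Pmap_xx, Pmap_xx]
  rw [← h, AlgHom.comp_apply]

lemma Pmap_id [Fintype ι] (u : Pg k ι) : Pmap id u = u := by
  have h : Pmap (k := k) (id : ι → ι) = AlgHom.id k _ := by
    apply hom_ext
    · intro a
      rw [Pmap_tt, push_id, AlgHom.id_apply]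
    · intro m
      rw [Pmap_xx, AlgHom.id_apply]
  rw [h, AlgHom.id_apply]

lemma Pmap_mono [Fintype ι] (f : ι → ι') (a : ι → ℤ) (β : ℤ →₀ ℕ) :
    Pmap (k := k) f (mono a β) = mono (push f a) β := by
  unfold mono
  rw [map_mul, Pmap_tt, Finsupp.prod, map_prod, Finsupp.prod]
  congr 1
  exact Finset.prod_congr rfl fun m _ => by rw [map_pow, Pmap_xx]

/-- The derivation `∂_i`. -/
noncomputable def pd (i : ι) : Derivation k (Pg k ι) (Pg k ι) :=
  mkD
    { toFun := fun a => (a i : Pg k ι) * tv i (-1)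
      map_zero' := by simp
      map_add' := fun a b => by rw [Pi.add_apply]; push_cast; ring }
    0

lemma pd_tt (i : ι) (a : ι → ℤ) : pd (k := k) i (tt a) = (a i : Pg k ι) * (tv i (-1) * tt a) := by
  unfold pd
  rw [mkD_tt, ← mul_assoc]
  rfl

lemma pd_xx (i : ι) (m : ℤ) : pd (k := k) i (xx m) = 0 := by
  unfold pd
  rw [mkD_xx]
  rfl

lemma pd_tv_self (i : ι) (n : ℤ) : pd (k := k) i (tv i n) = (n : Pg k ι) * tv i (n - 1) := by
  have h := pd_tt (k := k) i (Pi.single i n)
  rw [Pi.single_eq_same] at h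
  have h2 : tv (k := k) i (-1) * tt (Pi.single i n) = tv i (n - 1) := by
    rw [sub_eq_neg_add, tv_add]
    rfl
  rw [h2] at h
  exact h

lemma pd_tv_of_ne {i j : ι} (h : i ≠ j) (n : ℤ) : pd (k := k) i (tv j n) = 0 := by
  have h2 := pd_tt (k := k) i (Pi.single j n)
  rw [Pi.single_eq_of_ne h, Int.cast_zero, zero_mul] at h2
  exact h2

lemma leib (D : Derivation k (Pg k ι) (Pg k ι)) (u v : Pg k ι) : D (u * v) = u * D v + v * D u := by
  rw [Derivation.leibniz, smul_eq_mul, smul_eq_mul]

lemma der_xpart (D : Derivation k (Pg k ι) (Pg k ι)) (h : ∀ m, D (xx m) = 0) (β : ℤ →₀ ℕ) :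
    D (β.prod fun m e => xx m ^ e) = 0 := by
  rw [Finsupp.prod]
  refine Finset.prod_induction _ (fun x => D x = 0) ?_ ?_ ?_
  · intro x y hx hy
    rw [leib, hx, hy, mul_zero, mul_zero, add_zero]
  · exact Derivation.map_one_eq_zero _
  · intro m _
    rw [Derivation.leibniz_pow, h, smul_zero, smul_zero]

lemma pd_mono (i : ι) (a : ι → ℤ) (β : ℤ →₀ ℕ) :
    pd (k := k) i (mono a β) = (a i : Pg k ι) * mono (a - Pi.single i 1) β := by
  unfold mono
  rw [leib, der_xpart _ (pd_xx i), mul_zero, zero_add, pd_tt]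
  have h : tt (k := k) (a - Pi.single i 1) = tv i (-1) * tt a := by
    unfold tv
    rw [← tt_add, Pi.single_neg, neg_add_eq_sub]
  rw [h]
  ring

/-- The derivation with `X_m ↦ y m`, `t^a ↦ 0`. -/
noncomputable def XD (y : ℤ → Pg k ι) : Derivation k (Pg k ι) (Pg k ι) := mkD 0 y

lemma XD_tt (y : ℤ → Pg k ι) (a : ι → ℤ) : XD y (tt a) = 0 := by
  unfold XD
  rw [mkD_tt, AddMonoidHom.zero_apply, zero_mul]

lemma XD_tv (y : ℤ → Pg k ι) (i : ι) (n : ℤ) : XD y (tv i n) = 0 := XD_tt y _

lemma XD_xx (y : ℤ → Pg k ι) (m : ℤ) : XD y (xx m) = y m := by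
  unfold XD
  rw [mkD_xx]

/-- The derivation `D_n`: `t_i ↦ t_i^n`, `X_m ↦ (m - n) X_{m + n - 1}`. -/
noncomputable def DD [Fintype ι] (n : ℤ) : Derivation k (Pg k ι) (Pg k ι) :=
  mkD
    { toFun := fun a => ∑ i, (a i : Pg k ι) * tv i (n - 1)
      map_zero' := by simp
      map_add' := fun a b => by
        rw [← Finset.sum_add_distrib]
        exact Finset.sum_congr rfl fun i _ => by rw [Pi.add_apply]; push_cast; ring }
    (fun m => ((m - n : ℤ) : Pg k ι) * xx (m + n - 1))

lemma DD_tt [Fintype ι] (n : ℤ) (a : ι → ℤ) :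
    DD (k := k) n (tt a) = (∑ i, (a i : Pg k ι) * tv i (n - 1)) * tt a := by
  unfold DD
  rw [mkD_tt]
  rfl

lemma DD_xx [Fintype ι] (n m : ℤ) :
    DD (k := k) (ι := ι) n (xx m) = ((m - n : ℤ) : Pg k ι) * xx (m + n - 1) := by
  unfold DD
  rw [mkD_xx]

lemma DD_tv [Fintype ι] (n : ℤ) (i : ι) (m : ℤ) :
    DD (k := k) n (tv i m) = (m : Pg k ι) * tv i (m + n - 1) := by
  have h := DD_tt (k := k) n (Pi.single i m)
  rw [Finset.sum_eq_single i] at h
  · rw [Pi.single_eq_same] at h
    have h2 : tv (k := k) i (m + n - 1) = tv i (n - 1) * tt (Pi.single i m) := by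
      have h3 : m + n - 1 = (n - 1) + m := by ring
      rw [h3, tv_add]
      rfl
    rw [h2, ← mul_assoc]
    exact h
  · intro j _ hj
    rw [Pi.single_eq_of_ne hj, Int.cast_zero, zero_mul]
  · intro h
    exact absurd (Finset.mem_univ i) h

lemma DD_eq [Fintype ι] (n : ℤ) (u : Pg k ι) :
    DD n u = (∑ i, tv i n * pd i u) +
      XD (fun m => ((m - n : ℤ) : Pg k ι) * xx (m + n - 1)) u := by
  have h : (DD (k := k) (ι := ι) n).toLinearMap =
      (∑ i, LinearMap.mulLeft k (tv i n) ∘ₗ (pd i).toLinearMap) +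
        (XD (fun m => ((m - n : ℤ) : Pg k ι) * xx (m + n - 1))).toLinearMap := by
    apply der_ext id
    · intro u v
      exact leib _ u v
    · intro u v
      simp only [LinearMap.add_apply, LinearMap.sum_apply, LinearMap.comp_apply,
        LinearMap.mulLeft_apply, Derivation.coeFn_coe, leib, id]
      simp only [mul_add, Finset.sum_add_distrib, Finset.mul_sum]
      have h1 : ∀ i, tv i n * (u * pd i v) = u * (tv i n * pd i v) := fun i => by ring
      have h2 : ∀ i, tv i n * (v * pd i u) = v * (tv i n * pd i u) := fun i => by ring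
      simp only [h1, h2]
      ring
    · intro a
      simp only [LinearMap.add_apply, LinearMap.sum_apply, LinearMap.comp_apply,
        LinearMap.mulLeft_apply, Derivation.coeFn_coe, DD_tt, XD_tt,
        add_zero, pd_tt, Finset.sum_mul]
      refine Finset.sum_congr rfl fun i _ => ?_
      have h3 : tv (k := k) i (n - 1) = tv i n * tv i (-1) := by
        rw [tv_mul]
        rfl
      rw [h3]
      ring
    · intro m
      simp only [LinearMap.add_apply, LinearMap.sum_apply, LinearMap.comp_apply,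
        LinearMap.mulLeft_apply, Derivation.coeFn_coe, DD_xx, XD_xx, pd_xx, mul_zero,
        Finset.sum_const_zero, zero_add]
  have h2 := LinearMap.congr_fun h u
  simp only [LinearMap.add_apply, LinearMap.sum_apply, LinearMap.comp_apply,
        LinearMap.mulLeft_apply, Derivation.coeFn_coe] at h2
  exact h2

/-- `D_n` commutes with the homomorphisms `Pmap f`. -/
lemma DD_Pmap [Fintype ι] [Fintype ι'] (f : ι → ι') (n : ℤ) (u : Pg k ι) :
    DD n (Pmap f u) = Pmap f (DD n u) := by
  have h : (DD (k := k) (ι := ι') n).toLinearMap ∘ₗ (Pmap f).toLinearMap =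
      (Pmap f).toLinearMap ∘ₗ (DD n).toLinearMap := by
    apply der_ext (Pmap f)
    · intro u v
      simp only [LinearMap.comp_apply, AlgHom.toLinearMap_apply, Derivation.coeFn_coe, map_mul, leib]
    · intro u v
      simp only [LinearMap.comp_apply, AlgHom.toLinearMap_apply, Derivation.coeFn_coe, map_mul,
        leib, map_add]
    · intro a
      simp only [LinearMap.comp_apply, AlgHom.toLinearMap_apply, Derivation.coeFn_coe]
      rw [Pmap_tt, DD_tt, DD_tt, map_mul, Pmap_tt]
      congr 1
      rw [map_sum]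
      have h1 : ∀ i, Pmap f ((a i : Pg k ι) * tv i (n - 1)) =
          ∑ j, if f i = j then (a i : Pg k ι') * tv j (n - 1) else 0 := by
        intro i
        rw [map_mul, map_intCast, Pmap_tv, Finset.sum_ite_eq]
        simp
      simp only [h1]
      rw [Finset.sum_comm]
      refine Finset.sum_congr rfl fun j _ => ?_
      rw [push_coord, Int.cast_sum, Finset.sum_mul, Finset.sum_filter]
    · intro m
      simp only [LinearMap.comp_apply, AlgHom.toLinearMap_apply, Derivation.coeFn_coe]
      rw [Pmap_xx, DD_xx, DD_xx, map_mul, map_intCast, Pmap_xx]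
  exact LinearMap.congr_fun h u

/-- The chain rule for `Pmap f`. -/
lemma pd_Pmap [Fintype ι] (f : ι → ι') (j : ι') (u : Pg k ι) :
    pd j (Pmap f u) = ∑ i with f i = j, Pmap f (pd i u) := by
  have h : (pd (k := k) j).toLinearMap ∘ₗ (Pmap f).toLinearMap =
      ∑ i with f i = j, (Pmap f).toLinearMap ∘ₗ (pd i).toLinearMap := by
    apply der_ext (Pmap f)
    · intro u v
      simp only [LinearMap.comp_apply, AlgHom.toLinearMap_apply, Derivation.coeFn_coe, map_mul, leib]
    · intro u v
      simp only [LinearMap.sum_apply, LinearMap.comp_apply, AlgHom.toLinearMap_apply,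
        Derivation.coeFn_coe, leib, map_add, map_mul,
        Finset.sum_add_distrib, Finset.mul_sum]
    · intro a
      simp only [LinearMap.sum_apply, LinearMap.comp_apply, AlgHom.toLinearMap_apply,
        Derivation.coeFn_coe, Pmap_tt, pd_tt, map_intCast, map_mul,
        Pmap_tv, push_coord, Int.cast_sum, Finset.sum_mul]
      refine Finset.sum_congr rfl fun i hi => ?_
      rw [(Finset.mem_filter.1 hi).2]
    · intro m
      simp only [LinearMap.sum_apply, LinearMap.comp_apply, AlgHom.toLinearMap_apply,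
        Derivation.coeFn_coe, Pmap_xx, pd_xx, map_zero, Finset.sum_const_zero]
  have h2 := LinearMap.congr_fun h u
  simp only [LinearMap.sum_apply, LinearMap.comp_apply, AlgHom.toLinearMap_apply,
        Derivation.coeFn_coe] at h2
  exact h2

lemma pd_Pmap_inj [Fintype ι] {f : ι → ι'} (hf : Function.Injective f) (i : ι)
    (u : Pg k ι) : pd (f i) (Pmap f u) = Pmap f (pd i u) := by
  rw [pd_Pmap, Finset.sum_filter, Finset.sum_eq_single i]
  · rw [if_pos rfl]
  · intro j _ hj
    rw [if_neg fun h => hj (hf h)]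
  · intro h
    exact absurd (Finset.mem_univ _) h

lemma pd_Pmap_not_mem [Fintype ι] {f : ι → ι'} {j : ι'} (hf : ∀ i, f i ≠ j)
    (u : Pg k ι) : pd j (Pmap f u) = 0 := by
  rw [pd_Pmap, Finset.sum_filter]
  exact Finset.sum_eq_zero fun i _ => by rw [if_neg (hf i)]

lemma der_int_mul (D : Derivation k (Pg k ι) (Pg k ι)) (n : ℤ) (u : Pg k ι) :
    D ((n : Pg k ι) * u) = (n : Pg k ι) * D u := by
  rw [leib, Derivation.map_intCast, mul_zero, add_zero]

lemma pd_comm (i j : ι) (u : Pg k ι) : pd i (pd j u) = pd j (pd i u) := by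
  have h : (pd (k := k) i).toLinearMap ∘ₗ (pd j).toLinearMap =
      (pd j).toLinearMap ∘ₗ (pd i).toLinearMap := by
    apply lmap_ext
    intro a β
    rw [LinearMap.comp_apply, LinearMap.comp_apply, Derivation.coeFn_coe, Derivation.coeFn_coe,
      pd_mono, pd_mono, der_int_mul, der_int_mul, pd_mono, pd_mono]
    have h1 : a - Pi.single j 1 - Pi.single i 1 = a - Pi.single i 1 - Pi.single j (1 : ℤ) :=
      sub_right_comm _ _ _
    rw [h1]
    rcases eq_or_ne i j with rfl | hij
    · rfl
    · rw [Pi.sub_apply, Pi.sub_apply, Pi.single_eq_of_ne hij, Pi.single_eq_of_ne hij.symm, sub_zero,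
        sub_zero]
      ring
  exact LinearMap.congr_fun h u

lemma pd_DD [Fintype ι] (e : ι) (n : ℤ) (u : Pg k ι) :
    pd e (DD n u) = DD n (pd e u) + (n : Pg k ι) * (tv e (n - 1) * pd e u) := by
  have h : (pd (k := k) e).toLinearMap ∘ₗ (DD n).toLinearMap - (DD n).toLinearMap ∘ₗ
      (pd e).toLinearMap = LinearMap.mulLeft k ((n : Pg k ι) * tv e (n - 1)) ∘ₗ
        (pd e).toLinearMap := by
    apply der_ext id
    · intro u v
      simp only [LinearMap.sub_apply, LinearMap.comp_apply, Derivation.coeFn_coe, leib, map_add, id]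
      ring
    · intro u v
      simp only [LinearMap.comp_apply, Derivation.coeFn_coe, leib, LinearMap.mulLeft_apply, id]
      ring
    · intro a
      simp only [LinearMap.sub_apply, LinearMap.comp_apply, Derivation.coeFn_coe,
        LinearMap.mulLeft_apply]
      have h1 : pd (k := k) e (∑ i, (a i : Pg k ι) * tv i (n - 1)) =
          (a e : Pg k ι) * (((n - 1 : ℤ) : Pg k ι) * tv e (n - 2)) := by
        rw [map_sum, Finset.sum_eq_single e]
        · rw [der_int_mul, pd_tv_self]
          have h5 : n - 1 - 1 = n - 2 := by ring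
          rw [h5]
        · intro j _ hj
          rw [der_int_mul, pd_tv_of_ne (Ne.symm hj), mul_zero]
        · intro h
          exact absurd (Finset.mem_univ _) h
      have h2 : tv (k := k) e (n - 2) = tv e (n - 1) * tv e (-1) := by
        rw [tv_mul]
        congr 1
        ring
      have h3 : (-1 + n - 1) = n - 2 := by ring
      rw [DD_tt, pd_tt, leib, h1, pd_tt, der_int_mul, leib, DD_tt, DD_tv, h3, h2]
      push_cast
      ring
    · intro m
      simp only [LinearMap.sub_apply, LinearMap.comp_apply, Derivation.coeFn_coe,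
        LinearMap.mulLeft_apply]
      rw [DD_xx, der_int_mul, pd_xx, pd_xx, map_zero, mul_zero, mul_zero, sub_zero]
  have h2 := LinearMap.congr_fun h u
  simp only [LinearMap.sub_apply, LinearMap.comp_apply, Derivation.coeFn_coe,
        LinearMap.mulLeft_apply] at h2
  linear_combination h2

end

end Pool.Agent.K9h91.WI
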