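import Pool.Agent.K9h91.WI.Xlin

/-!
# Chains of stable subspaces
-/

set_option autoImplicit false
set_option linter.unusedSectionVars false

namespace Pool.Agent.K9h91.WI

universe u v

section
variable {k : Type u} [CommRing k] {ι ι' : Type} [Fintype ι] [DecidableEq ι] [Fintype ι']
  [DecidableEq ι']

/-- Subspaces stable under multiplication by `x_m` and under the twisted operators. -/
structure Stab (a : ι → ι → ℤ) (P : Submodule k (Pg k ι)) : Prop where
  x : ∀ m u, u ∈ P → xx m * u ∈ P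
  d : ∀ n u, u ∈ P → Dt a n u ∈ P

/-- Chains of stable subspaces containing `B` stabilise. -/
def NN (a : ι → ι → ℤ) (B : Set (Pg k ι)) : Prop :=
  ∀ P : ℕ → Submodule k (Pg k ι), Monotone P → (∀ n, Stab a (P n)) → (∀ n, B ⊆ P n) →
    ∃ n, ∀ m, n ≤ m → P m = P n

lemma NN.mono {a : ι → ι → ℤ} {B B' : Set (Pg k ι)} (h : NN a B) (hB : B ⊆ B') : NN a B' :=
  fun P hP hs hc => h P hP hs fun n => hB.trans (hc n)

lemma NN_univ (a : ι → ι → ℤ) : NN a (Set.univ : Set (Pg k ι)) := fun P _ _ hc =>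
  ⟨0, fun m _ => by
    rw [(Submodule.eq_top_iff'.2 fun u => hc m (Set.mem_univ u) : P m = ⊤),
      (Submodule.eq_top_iff'.2 fun u => hc 0 (Set.mem_univ u) : P 0 = ⊤)]⟩

lemma NN_of_top {a : ι → ι → ℤ} {I : Ideal (Pg k ι)} (h : I = ⊤) : NN a (I : Set (Pg k ι)) := by
  refine (NN_univ a).mono ?_
  rw [h]
  intro u _
  trivial

lemma Dt_add_twist (a c : ι → ι → ℤ) (n : ℤ) (u : Pg k ι) :
    Dt (a + c) n u = Dt a n u + ph c n * u := by
  rw [Dt_apply, Dt_apply, ph_add]
  ring

/-- Quotients along a surjection. -/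
lemma NN_push {f : ι → ι'} {a : ι → ι → ℤ} {B : Set (Pg k ι)} {B' : Set (Pg k ι')}
    (hker : ∀ u, Pmap f u = 0 → u ∈ B) (hB : ∀ b' ∈ B', ∃ b ∈ B, Pmap f b = b')
    (h : NN (pusha f a) B') : NN a B := by
  intro P hP hs hc
  have hst : ∀ m, Stab (pusha f a) ((P m).map (Pmap f).toLinearMap) := by
    intro m
    constructor
    · rintro l _ ⟨u, hu, rfl⟩
      refine ⟨xx l * u, (hs m).x l u hu, ?_⟩
      rw [AlgHom.toLinearMap_apply, AlgHom.toLinearMap_apply, map_mul, Pmap_xx]
    · rintro l _ ⟨u, hu, rfl⟩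
      refine ⟨Dt a l u, (hs m).d l u hu, ?_⟩
      rw [AlgHom.toLinearMap_apply, AlgHom.toLinearMap_apply, Dt_Pmap]
  have hcc : ∀ m, B' ⊆ ((P m).map (Pmap f).toLinearMap : Submodule k (Pg k ι')) := by
    intro m b' hb'
    obtain ⟨b, hb, rfl⟩ := hB b' hb'
    exact ⟨b, hc m hb, rfl⟩
  obtain ⟨n, hn⟩ := h (fun m => (P m).map (Pmap f).toLinearMap)
    (fun i j hij => Submodule.map_mono (hP hij)) hst hcc
  refine ⟨n, fun m hm => le_antisymm (fun u hu => ?_) (hP hm)⟩
  have h1 : Pmap f u ∈ (P m).map (Pmap f).toLinearMap := Submodule.mem_map_of_mem hu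
  rw [hn m hm] at h1
  obtain ⟨v, hv, hvu⟩ := h1
  have h2 : Pmap f (u - v) = 0 := by
    rw [map_sub, sub_eq_zero]
    exact hvu.symm
  have h3 := (P n).add_mem (hc n (hker _ h2)) hv
  rwa [sub_add_cancel] at h3

lemma span_sup_mem {I : Ideal (Pg k ι)} {x u : Pg k ι} :
    u ∈ I ⊔ Ideal.span {x} ↔ ∃ q ∈ I, ∃ v, u = q + x * v := by
  rw [Submodule.mem_sup]
  constructor
  · rintro ⟨q, hq, w, hw, rfl⟩
    obtain ⟨v, rfl⟩ := Ideal.mem_span_singleton'.1 hw
    exact ⟨q, hq, v, by rw [mul_comm]⟩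
  · rintro ⟨q, hq, v, rfl⟩
    exact ⟨q, hq, x * v, Ideal.mul_mem_right _ _ (Ideal.mem_span_singleton_self x), rfl⟩

/-- The twisted operator on multiples of `x`, up to the ideal `I`. -/
lemma Dt_mul_mod {I : Ideal (Pg k ι)} (a c : ι → ι → ℤ) (n : ℤ) {x : Pg k ι} (u : Pg k ι)
    (h : DD n x - x * ph c n ∈ I) : Dt a n (x * u) - x * Dt (a + c) n u ∈ I := by
  have h2 : Dt a n (x * u) - x * Dt (a + c) n u = (DD n x - x * ph c n) * u := by
    rw [Dt_add_twist, Dt_apply, Dt_apply, leib]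
    ring
  rw [h2]
  exact Ideal.mul_mem_right _ _ h

/-- Products. -/
lemma NN_mul {I : Ideal (Pg k ι)} {a c : ι → ι → ℤ} {x y : Pg k ι}
    (hI : ∀ n u, u ∈ I → Dt a n u ∈ I)
    (hx : ∀ n, DD n x - x * ph c n ∈ I)
    (h1 : NN a ((I ⊔ Ideal.span {x} : Ideal (Pg k ι)) : Set (Pg k ι)))
    (h2 : NN (a + c) ((I ⊔ Ideal.span {y} : Ideal (Pg k ι)) : Set (Pg k ι))) :
    NN a ((I ⊔ Ideal.span {x * y} : Ideal (Pg k ι)) : Set (Pg k ι)) := by
  intro P hP hs hc
  have hIP : ∀ n u, u ∈ I → u ∈ P n := fun n u hu => hc n (Ideal.mem_sup_left hu)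
  have hst1 : ∀ n, Stab a (P n ⊔ (I ⊔ Ideal.span {x}).restrictScalars k) := by
    intro n
    constructor
    · intro m u hu
      obtain ⟨p, hp, q, hq, rfl⟩ := Submodule.mem_sup.1 hu
      rw [mul_add]
      have hq2 : xx m * q ∈ I ⊔ Ideal.span {x} := Ideal.mul_mem_left _ _ hq
      exact Submodule.add_mem_sup ((hs n).x m p hp) hq2
    · intro m u hu
      obtain ⟨p, hp, q, hq, rfl⟩ := Submodule.mem_sup.1 hu
      rw [map_add]
      refine Submodule.add_mem_sup ((hs n).d m p hp) ?_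
      obtain ⟨q', hq', v, rfl⟩ := span_sup_mem.1 hq
      rw [map_add]
      refine Submodule.add_mem _ ?_ ?_
      · exact Ideal.mem_sup_left (hI m q' hq')
      · have h4 : Dt a m (x * v) = (Dt a m (x * v) - x * Dt (a + c) m v) +
            x * Dt (a + c) m v := by
          ring
        rw [h4]
        exact span_sup_mem.2 ⟨_, Dt_mul_mod a c m v (hx m), _, rfl⟩
  obtain ⟨n1, hn1⟩ := h1 (fun n => P n ⊔ (I ⊔ Ideal.span {x}).restrictScalars k)
    (fun i j hij => sup_le_sup_right (hP hij) _) hst1 (fun n u hu => Submodule.mem_sup_right hu)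
  have hst2 : ∀ n, Stab (a + c) ((P n).comap (LinearMap.mulLeft k x)) := by
    intro n
    constructor
    · intro m u hu
      have h5 := (hs n).x m _ hu
      have h6 : xx m * (LinearMap.mulLeft k x) u = x * (xx m * u) := by
        rw [LinearMap.mulLeft_apply]
        ring
      rw [h6] at h5
      exact h5
    · intro m u hu
      have h5 := (hs n).d m _ hu
      rw [LinearMap.mulLeft_apply] at h5
      have h6 := (P n).sub_mem h5 (hIP n _ (Dt_mul_mod a c m u (hx m)))
      rw [sub_sub_cancel] at h6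
      exact h6
  have hc2 : ∀ n, ((I ⊔ Ideal.span {y} : Ideal (Pg k ι)) : Set (Pg k ι)) ⊆
      ((P n).comap (LinearMap.mulLeft k x) : Submodule k (Pg k ι)) := by
    intro n u hu
    obtain ⟨q, hq, v, rfl⟩ := span_sup_mem.1 hu
    show x * (q + y * v) ∈ P n
    rw [mul_add]
    refine (P n).add_mem (hIP n _ (Ideal.mul_mem_left _ _ hq)) (hc n ?_)
    exact span_sup_mem.2 ⟨0, I.zero_mem, v, by ring⟩
  obtain ⟨n2, hn2⟩ := h2 (fun n => (P n).comap (LinearMap.mulLeft k x))
    (fun i j hij => Submodule.comap_mono (hP hij)) hst2 hc2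
  refine ⟨max n1 n2, fun m hm => le_antisymm (fun u hu => ?_) (hP hm)⟩
  have hm1 : n1 ≤ m := (le_max_left _ _).trans hm
  have hm2 : n2 ≤ m := (le_max_right _ _).trans hm
  have h7 : u ∈ P m ⊔ (I ⊔ Ideal.span {x}).restrictScalars k := Submodule.mem_sup_left hu
  rw [hn1 m hm1, ← hn1 (max n1 n2) (le_max_left _ _)] at h7
  obtain ⟨p, hp, q, hq, rfl⟩ := Submodule.mem_sup.1 h7
  obtain ⟨q', hq', v, rfl⟩ := span_sup_mem.1 hq
  refine (P _).add_mem hp ((P _).add_mem (hIP _ _ hq') ?_)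
  have h8 : v ∈ (P m).comap (LinearMap.mulLeft k x) := by
    show x * v ∈ P m
    have h9 := (P m).sub_mem ((P m).sub_mem hu (hP hm hp)) (hIP m _ hq')
    have h10 : p + (q' + x * v) - p - q' = x * v := by ring
    rw [h10] at h9
    exact h9
  rw [hn2 m hm2, ← hn2 (max n1 n2) (le_max_right _ _)] at h8
  exact h8

/-- Multiplication by an element which is regular modulo the base. -/
lemma NN_inj {I : Ideal (Pg k ι)} {a c : ι → ι → ℤ} {x : Pg k ι}
    (hI : ∀ n u, u ∈ I → Dt a n u ∈ I) (hreg : ∀ u, x * u ∈ I → u ∈ I)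
    (hx : ∀ n, DD n x - x * ph c n ∈ I) (h : NN a (I : Set (Pg k ι))) :
    NN (a + c) (I : Set (Pg k ι)) := by
  intro P hP hs hc
  have hst : ∀ n, Stab a ((P n).map (LinearMap.mulLeft k x) ⊔ I.restrictScalars k) := by
    intro n
    constructor
    · intro m u hu
      obtain ⟨_, ⟨p, hp, rfl⟩, q, hq, rfl⟩ := Submodule.mem_sup.1 hu
      rw [mul_add]
      refine Submodule.add_mem_sup ⟨xx m * p, (hs n).x m p hp, ?_⟩ (Ideal.mul_mem_left _ _ hq)
      rw [LinearMap.mulLeft_apply, LinearMap.mulLeft_apply]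
      ring
    · intro m u hu
      obtain ⟨_, ⟨p, hp, rfl⟩, q, hq, rfl⟩ := Submodule.mem_sup.1 hu
      rw [LinearMap.mulLeft_apply, map_add]
      refine Submodule.add_mem _ ?_ (Submodule.mem_sup_right (hI m q hq))
      have h4 : Dt a m (x * p) = x * Dt (a + c) m p + (Dt a m (x * p) - x * Dt (a + c) m p) := by
        ring
      rw [h4]
      exact Submodule.add_mem_sup ⟨_, (hs n).d m p hp, rfl⟩ (Dt_mul_mod a c m p (hx m))
  obtain ⟨n1, hn1⟩ := h (fun n => (P n).map (LinearMap.mulLeft k x) ⊔ I.restrictScalars k)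
    (fun i j hij => sup_le_sup_right (Submodule.map_mono (hP hij)) _) hst
    (fun n u hu => Submodule.mem_sup_right hu)
  refine ⟨n1, fun m hm => le_antisymm (fun u hu => ?_) (hP hm)⟩
  have h5 : x * u ∈ (P m).map (LinearMap.mulLeft k x) ⊔ I.restrictScalars k :=
    Submodule.mem_sup_left ⟨u, hu, rfl⟩
  rw [hn1 m hm] at h5
  obtain ⟨_, ⟨p, hp, rfl⟩, q, hq, h6⟩ := Submodule.mem_sup.1 h5
  rw [LinearMap.mulLeft_apply] at h6
  have h7 : u - p ∈ I := by
    apply hreg
    rw [mul_sub, ← h6, add_sub_cancel_left]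
    exact hq
  have h8 := (P n1).add_mem (hc n1 h7) hp
  rwa [sub_add_cancel] at h8

end

section
variable {k : Type u} [CommRing k] {ι ι' : Type} [Fintype ι] [DecidableEq ι] [Fintype ι']
  [DecidableEq ι']

/-- Twists with nonnegative off-diagonal part. -/
def Off (a : ι → ι → ℤ) : Prop := ∀ i j, i ≠ j → 0 ≤ a i j

lemma Off.add {a b : ι → ι → ℤ} (ha : Off a) (hb : Off b) : Off (a + b) := fun i j h =>
  add_nonneg (ha i j h) (hb i j h)

lemma Off.pusha {a : ι → ι → ℤ} (ha : Off a) (f : ι → ι') : Off (pusha f a) := by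
  intro i' j' h
  refine Finset.sum_nonneg fun i hi => Finset.sum_nonneg fun j hj => ha i j ?_
  rintro rfl
  exact h ((Finset.mem_filter.1 hi).2.symm.trans (Finset.mem_filter.1 hj).2)

/-- Small quotients: `x` is multiplicative for the operators and chains modulo `x` stabilise. -/
def SQ (r : ι → ℕ) (x : Pg k ι) : Prop :=
  (∃ c, Off c ∧ ∀ n, DD n x - x * ph c n ∈ qq r) ∧
    ∀ a, Off a → NN a ((qq r ⊔ Ideal.span {x} : Ideal (Pg k ι)) : Set (Pg k ι))

lemma ph_zero (n : ℤ) : ph (k := k) (0 : ι → ι → ℤ) n = 0 := by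
  unfold ph
  refine Finset.sum_eq_zero fun i _ => Finset.sum_eq_zero fun j _ => ?_
  rw [Pi.zero_apply, Pi.zero_apply, Int.cast_zero, zero_mul]

lemma SQ_one (r : ι → ℕ) : SQ r (1 : Pg k ι) := by
  refine ⟨⟨0, fun i j _ => le_refl _, fun n => ?_⟩, fun a _ => NN_of_top ?_⟩
  · rw [Derivation.map_one_eq_zero, ph_zero, mul_zero, sub_zero]
    exact Ideal.zero_mem _
  · rw [Ideal.span_singleton_one, sup_top_eq]

lemma SQ.mul {r : ι → ℕ} {x y : Pg k ι} (hx : SQ r x) (hy : SQ r y) : SQ r (x * y) := by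
  obtain ⟨⟨c, hc, hxc⟩, hxN⟩ := hx
  obtain ⟨⟨d, hd, hyd⟩, hyN⟩ := hy
  refine ⟨⟨c + d, hc.add hd, fun n => ?_⟩, fun a ha => ?_⟩
  · have h : DD n (x * y) - x * y * ph (c + d) n =
        x * (DD n y - y * ph d n) + y * (DD n x - x * ph c n) := by
      rw [leib, ph_add]
      ring
    rw [h]
    exact Ideal.add_mem _ (Ideal.mul_mem_left _ _ (hyd n)) (Ideal.mul_mem_left _ _ (hxc n))
  · exact NN_mul (fun n u hu => Dt_mem_qq a hu n) hxc (hxN a ha) (hyN _ (ha.add hc))

lemma SQ.pow {r : ι → ℕ} {x : Pg k ι} (hx : SQ r x) (n : ℕ) : SQ r (x ^ n) := by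
  induction n with
  | zero => rw [pow_zero]; exact SQ_one r
  | succ n ih => rw [pow_succ]; exact ih.mul hx

lemma SQ.prod {r : ι → ℕ} {σ : Type*} (s : Finset σ) {x : σ → Pg k ι} (h : ∀ i ∈ s, SQ r (x i)) :
    SQ r (∏ i ∈ s, x i) :=
  Finset.prod_induction _ (SQ r) (fun _ _ => SQ.mul) (SQ_one r) h

/-- The statement proved by induction: chains for `(ι, r)` and all admissible twists. -/
def Main (k : Type u) [CommRing k] (ι : Type) [Fintype ι] [DecidableEq ι] (r : ι → ℕ) : Prop :=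
  ∀ a : ι → ι → ℤ, Off a → NN a (qq (k := k) r : Set (Pg k ι))

/-- A matrix unit. -/
def eu (i j : ι) : ι → ι → ℤ := Pi.single i (Pi.single j 1)

lemma ph_eu (i j : ι) (n : ℤ) : ph (k := k) (eu i j) n = hh n i j := by
  unfold ph eu
  rw [Finset.sum_eq_single i, Finset.sum_eq_single j]
  · rw [Pi.single_eq_same, Pi.single_eq_same, Int.cast_one, one_mul]
  · intro b _ hb
    rw [Pi.single_eq_same, Pi.single_eq_of_ne hb, Int.cast_zero, zero_mul]
  · intro h
    exact absurd (Finset.mem_univ _) h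
  · intro b _ hb
    refine Finset.sum_eq_zero fun c _ => ?_
    rw [Pi.single_eq_of_ne hb, Pi.zero_apply, Int.cast_zero, zero_mul]
  · intro h
    exact absurd (Finset.mem_univ _) h

lemma SQ_ww {r : ι → ℕ} (i : ι) (h : Main k ι r) : SQ (k := k) (r + Pi.single i 1) (ww r) := by
  refine ⟨⟨(fun i' j' => if i' = i then (r j' : ℤ) else 0) - eu i i, ?_, fun n => ?_⟩,
    fun a ha => (h a ha).mono ?_⟩
  · intro i' j' hij
    rw [Pi.sub_apply, Pi.sub_apply]
    have h1 : eu i i i' j' = 0 := by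
      unfold eu
      rcases eq_or_ne i' i with rfl | h2
      · rw [Pi.single_eq_same, Pi.single_eq_of_ne (Ne.symm hij)]
      · rw [Pi.single_eq_of_ne h2, Pi.zero_apply]
    rw [h1, sub_zero]
    split_ifs
    · exact Nat.cast_nonneg _
    · exact le_refl _
  · have h1 := DD_ww (k := k) r i n
    have h2 : ph (k := k) ((fun i' j' => if i' = i then (r j' : ℤ) else 0) - eu i i) n =
        (∑ j, (r j : Pg k ι) * hh n i j) - hh n i i := by
      have h3 : ph (k := k) ((fun i' j' => if i' = i then (r j' : ℤ) else 0) - eu i i) n +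
          ph (eu i i) n = ph (fun i' j' => if i' = i then (r j' : ℤ) else 0) n := by
        rw [← ph_add, sub_add_cancel]
      rw [ph_eu] at h3
      rw [eq_sub_iff_add_eq, h3]
      unfold ph
      rw [Finset.sum_eq_single i]
      · simp
      · intro b _ hb
        simp [hb]
      · intro h
        exact absurd (Finset.mem_univ _) h
    rw [h2]
    exact h1
  · exact qq_le r i

/-- Substituting `t_i` for `t_j`. -/
lemma merge_dvd (i j : ι) (u : Pg k ι) :
    ∃ g, u - Pmap (Function.update id j i) u = (tv j 1 - tv i 1) * g := by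
  obtain ⟨g, hg⟩ := evo_dvd i (Pmap (fun l => if l = j then none else some l) u)
  refine ⟨evo j g, ?_⟩
  have h := congrArg (evo (k := k) j) hg
  rw [map_sub, evo_jj, Pmap_Pmap, Pmap_Pmap, map_mul, map_sub, Pmap_tv, Pmap_tv] at h
  have h1 : (fun o : Option ι => o.elim j id) ∘ (fun l => if l = j then none else some l) = id := by
    funext l
    by_cases hl : l = j
    · simp [hl]
    · simp [hl]
  have h2 : (fun o : Option ι => o.elim i id) ∘ (fun l => if l = j then none else some l) =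
      Function.update id j i := by
    funext l
    by_cases hl : l = j
    · simp [hl]
    · simp [hl]
  rw [h1, h2, Pmap_id] at h
  exact h

/-- Push forward of multiplicities. -/
def pushr (f : ι → ι') (r : ι → ℕ) : ι' → ℕ := fun j => ∑ i with f i = j, r i

lemma Pmap_P0 (f : ι → ι') (r : ι → ℕ) :
    Pmap (k := k) (Option.map f) (P0 r) = P0 (pushr f r) := by
  unfold P0 pushr
  rw [map_prod]
  simp only [map_pow, map_sub, Pmap_tv, Option.map_none, Option.map_some]
  rw [← Finset.prod_fiberwise _ f]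
  refine Finset.prod_congr rfl fun j _ => ?_
  rw [← Finset.prod_pow_eq_pow_sum]
  exact Finset.prod_congr rfl fun i hi => by rw [(Finset.mem_filter.1 hi).2]

lemma SQ_sub {i j : ι} (hij : i ≠ j) (r : ι → ℕ)
    (h : ∀ r' : {x // x ≠ j} → ℕ, Main k {x // x ≠ j} r') :
    SQ (k := k) r (tv j 1 - tv i 1) := by
  classical
  refine ⟨⟨eu j i, ?_, fun n => ?_⟩, fun a ha => ?_⟩
  · intro i' j' _
    unfold eu
    rcases eq_or_ne i' j with rfl | h2
    · rw [Pi.single_eq_same]
      rcases eq_or_ne j' i with rfl | h3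
      · rw [Pi.single_eq_same]; exact zero_le_one
      · rw [Pi.single_eq_of_ne h3]
    · rw [Pi.single_eq_of_ne h2, Pi.zero_apply]
  · have h1 := LD_sub (k := k) n j i
    unfold LD at h1
    rw [h1, ph_eu, sub_self]
    exact Ideal.zero_mem _
  · set f : ι → {x // x ≠ j} := fun l => if hl : l = j then ⟨i, hij⟩ else ⟨l, hl⟩ with hf
    have hfs : ∀ l : {x // x ≠ j}, f l.1 = l := by
      intro l
      rw [hf]
      simp only [dif_neg l.2]
    have hsf : (Subtype.val ∘ f) = Function.update id j i := by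
      funext l
      by_cases hl : l = j
      · simp [hf, hl]
      · simp [hf, hl]
    refine NN_push (f := f) (B' := (qq (k := k) (pushr f r) : Set _)) ?_ ?_
      (h (pushr f r) (pusha f a) (ha.pusha f))
    · intro u hu
      obtain ⟨g, hg⟩ := merge_dvd i j u
      rw [← hsf, ← Pmap_Pmap, hu, map_zero, sub_zero] at hg
      rw [hg]
      exact Ideal.mem_sup_right (Ideal.mul_mem_right _ _ (Ideal.mem_span_singleton_self _))
    · rintro _ ⟨g, rfl⟩
      refine ⟨xlin (P0 r * Pmap (Option.map Subtype.val) g), Ideal.mem_sup_left ⟨_, rfl⟩, ?_⟩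
      rw [Pmap_xlin, map_mul, Pmap_P0, Pmap_Pmap]
      have h3 : Option.map f ∘ Option.map (Subtype.val : {x // x ≠ j} → ι) = id := by
        funext o
        cases o with
        | none => rfl
        | some l => exact congrArg some (hfs l)
      rw [h3, Pmap_id]

end

end Pool.Agent.K9h91.WI
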