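import Pool.Agent.K9h91.WI.Tors

/-!
# The subring `BB` of norms and letters, and its Noetherian property
-/

set_option autoImplicit false
set_option linter.unusedSectionVars false

namespace Pool.Agent.K9h91.WI

universe u v

section
variable {k : Type u} [Field k] {ι ι' : Type} [Fintype ι] [DecidableEq ι] [Fintype ι']
  [DecidableEq ι']

/-- Evaluation of a one-variable Laurent polynomial at `t_i`. -/
noncomputable def gev (i : ι) : AddMonoidAlgebra k ℤ →ₐ[k] Pg k ι :=
  AddMonoidAlgebra.lift k _ ℤ
    { toFun := fun m => tv i m.toAdd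
      map_one' := tv_zero i
      map_mul' := fun a b => tv_add i a.toAdd b.toAdd }

lemma gev_single (i : ι) (m : ℤ) (c : k) :
    gev i (AddMonoidAlgebra.single m c) = c • tv (k := k) i m := by
  unfold gev
  rw [AddMonoidAlgebra.lift_single]
  rfl

lemma Pmap_gev (f : ι → ι') (i : ι) (g : AddMonoidAlgebra k ℤ) :
    Pmap f (gev i g) = gev (f i) g := by
  induction g using AddMonoidAlgebra.induction_linear with
  | zero => rw [map_zero, map_zero, map_zero]
  | add x y hx hy => rw [map_add, map_add, map_add, hx, hy]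
  | single m c => rw [gev_single, gev_single, map_smul, Pmap_tv]

lemma exists_DD_gev (n : ℤ) (g : AddMonoidAlgebra k ℤ) :
    ∃ h : AddMonoidAlgebra k ℤ, ∀ i : ι, DD n (gev i g) = gev i h := by
  induction g using AddMonoidAlgebra.induction_linear with
  | zero => exact ⟨0, fun i => by simp only [map_zero]⟩
  | add x y hx hy =>
    obtain ⟨h1, h1'⟩ := hx
    obtain ⟨h2, h2'⟩ := hy
    exact ⟨h1 + h2, fun i => by rw [map_add, map_add, map_add, h1', h2']⟩
  | single m c =>
    refine ⟨AddMonoidAlgebra.single (m + n - 1) ((m : k) * c), fun i => ?_⟩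
    rw [gev_single, gev_single, Derivation.map_smul, DD_tv, mul_comm (m : k), ← smul_smul,
      Algebra.smul_def (m : k), map_intCast]

/-- The norm-like products. -/
noncomputable def nn (cl : ι → Fin 3) (e : ι → ℕ) (G : Fin 3 → AddMonoidAlgebra k ℤ) : Pg k ι :=
  ∏ i, gev i (G (cl i)) ^ e i

lemma nn_mul (cl : ι → Fin 3) (e : ι → ℕ) (G H : Fin 3 → AddMonoidAlgebra k ℤ) :
    nn cl e (G * H) = nn cl e G * nn cl e H := by
  unfold nn
  rw [← Finset.prod_mul_distrib]
  exact Finset.prod_congr rfl fun i _ => by rw [Pi.mul_apply, map_mul, mul_pow]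

lemma nn_one (cl : ι → Fin 3) (e : ι → ℕ) : nn (k := k) cl e 1 = 1 := by
  unfold nn
  refine Finset.prod_eq_one fun i _ => ?_
  rw [Pi.one_apply, map_one, one_pow]

/-- The letters, the norms and `z`. -/
noncomputable def BB (cl : ι → Fin 3) (e : ι → ℕ) (z : Pg k ι) : Subalgebra k (Pg k ι) :=
  Algebra.adjoin k ((Set.range xx ∪ Set.range (nn cl e)) ∪ {z})

lemma xx_BB (cl : ι → Fin 3) (e : ι → ℕ) (z : Pg k ι) (m : ℤ) : xx m ∈ BB cl e z :=
  Algebra.subset_adjoin (Or.inl (Or.inl ⟨m, rfl⟩))

lemma nn_BB (cl : ι → Fin 3) (e : ι → ℕ) (z : Pg k ι) (G : Fin 3 → AddMonoidAlgebra k ℤ) :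
    nn cl e G ∈ BB cl e z :=
  Algebra.subset_adjoin (Or.inl (Or.inr ⟨G, rfl⟩))

lemma z_BB (cl : ι → Fin 3) (e : ι → ℕ) (z : Pg k ι) : z ∈ BB cl e z :=
  Algebra.subset_adjoin (Or.inr rfl)

/-- Linear predicates on `BB`. -/
lemma BB_induction {cl : ι → Fin 3} {e : ι → ℕ} {z : Pg k ι} {p : Pg k ι → Prop} (h0 : p 0)
    (hadd : ∀ u v, p u → p v → p (u + v)) (hsm : ∀ (c : k) u, p u → p (c • u))
    (hm : ∀ (β : Multiset ℤ) G (i : ℕ), p ((β.map xx).prod * nn cl e G * z ^ i)) {b : Pg k ι}
    (hb : b ∈ BB cl e z) : p b := by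
  have h1 : b ∈ Submodule.span k ((Submonoid.closure ((Set.range xx ∪
      Set.range (nn (k := k) cl e)) ∪ {z}) : Submonoid (Pg k ι)) : Set (Pg k ι)) := by
    rw [← Algebra.adjoin_eq_span]
    exact hb
  have h2 : ∀ x ∈ Submonoid.closure ((Set.range xx ∪ Set.range (nn (k := k) cl e)) ∪ {z}),
      ∃ (β : Multiset ℤ) (G : Fin 3 → AddMonoidAlgebra k ℤ) (i : ℕ),
        x = (β.map xx).prod * nn cl e G * z ^ i := by
    intro x hx
    induction hx using Submonoid.closure_induction with
    | mem x hx =>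
      rcases hx with (⟨m, rfl⟩ | ⟨G, rfl⟩) | hx
      · exact ⟨{m}, 1, 0, by
          rw [nn_one, Multiset.map_singleton, Multiset.prod_singleton, mul_one, pow_zero, mul_one]⟩
      · exact ⟨0, G, 0, by rw [Multiset.map_zero, Multiset.prod_zero, one_mul, pow_zero, mul_one]⟩
      · rw [Set.mem_singleton_iff] at hx
        subst hx
        exact ⟨0, 1, 1, by
          rw [nn_one, Multiset.map_zero, Multiset.prod_zero, one_mul, pow_one, one_mul]⟩
    | one =>
      exact ⟨0, 1, 0, by
        rw [nn_one, Multiset.map_zero, Multiset.prod_zero, one_mul, pow_zero, one_mul]⟩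
    | mul x y _ _ hx hy =>
      obtain ⟨β, G, i, rfl⟩ := hx
      obtain ⟨γ, H, j, rfl⟩ := hy
      refine ⟨β + γ, G * H, i + j, ?_⟩
      rw [Multiset.map_add, Multiset.prod_add, nn_mul, pow_add]
      ring
  clear hb
  induction h1 using Submodule.span_induction with
  | mem x hx =>
    obtain ⟨β, G, i, rfl⟩ := h2 x hx
    exact hm β G i
  | zero => exact h0
  | add x y _ _ hx hy => exact hadd x y hx hy
  | smul c x _ hx => exact hsm c x hx

open Polynomial in
/-- A polynomial with values in a subspace at all scalars has its coefficients in it. -/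
lemma coeff_mem [CharZero k] (M : Submodule k (Pg k ι)) (F : (Pg k ι)[X])
    (h : ∀ c : k, F.eval (algebraMap k _ c) ∈ M) (j : ℕ) : F.coeff j ∈ M := by
  by_contra hj
  obtain ⟨φ, hφ1, hφ2⟩ := Submodule.exists_dual_map_eq_bot_of_notMem hj inferInstance
  have h1 : ∀ u ∈ M, φ u = 0 := by
    intro u hu
    have h2 : φ u ∈ M.map φ := Submodule.mem_map_of_mem hu
    rw [hφ2] at h2
    exact h2
  have h3 : (∑ i ∈ F.support, Polynomial.monomial i (φ (F.coeff i)) : k[X]) = 0 := by
    apply Polynomial.funext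
    intro c
    rw [Polynomial.eval_zero, ← h1 _ (h c), Polynomial.eval_finsetSum, Polynomial.eval_eq_sum,
      Polynomial.sum, map_sum]
    refine Finset.sum_congr rfl fun i _ => ?_
    rw [Polynomial.eval_monomial, ← map_pow, mul_comm (F.coeff i), ← Algebra.smul_def, map_smul,
      smul_eq_mul, mul_comm]
  have h4 := congrArg (fun q : k[X] => q.coeff j) h3
  simp only [Polynomial.finsetSum_coeff, Polynomial.coeff_monomial, Polynomial.coeff_zero,
    Finset.sum_ite_eq', Polynomial.mem_support_iff] at h4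
  split_ifs at h4 with h5
  · exact hφ1 h4
  · rw [Polynomial.notMem_support_iff] at h5
    rw [h5] at hφ1
    exact hφ1 (map_zero φ)

lemma gev_C (i : ι) (c : k) : gev i (algebraMap k (AddMonoidAlgebra k ℤ) c) = algebraMap k _ c :=
  AlgHom.commutes _ _

open Polynomial in
/-- Integrality of the values of a one-variable Laurent polynomial. -/
lemma integral_gev [CharZero k] (cl : ι → Fin 3) (e : ι → ℕ) (z : Pg k ι) (he : ∀ i, e i ≠ 0)
    (g : AddMonoidAlgebra k ℤ) (i : ι) :
    IsIntegral (BB cl e z) (gev i g) := by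
  set F : (Pg k ι)[X] := ∏ j, (X - C (gev j g)) ^ e j with hF
  have hmon : F.Monic := Polynomial.monic_prod_of_monic _ _ fun i _ =>
    (Polynomial.monic_X_sub_C _).pow _
  have hco : ∀ j, F.coeff j ∈ (BB cl e z).toSubmodule := by
    apply coeff_mem
    intro c
    have h1 : F.eval (algebraMap k _ c) =
        nn cl e (fun _ => algebraMap k (AddMonoidAlgebra k ℤ) c - g) := by
      rw [hF, Polynomial.eval_prod]
      unfold nn
      refine Finset.prod_congr rfl fun j _ => ?_
      rw [Polynomial.eval_pow, Polynomial.eval_sub, Polynomial.eval_X, Polynomial.eval_C, map_sub,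
        gev_C]
    rw [h1]
    exact nn_BB cl e z _
  have hlift : F ∈ Polynomial.lifts (algebraMap (BB cl e z) (Pg k ι)) := by
    rw [Polynomial.lifts_iff_coeff_lifts]
    exact fun n => ⟨⟨F.coeff n, hco n⟩, rfl⟩
  obtain ⟨Q, hQ, -, hQm⟩ := Polynomial.lifts_and_natDegree_eq_and_monic hlift hmon
  refine ⟨Q, hQm, ?_⟩
  rw [← Polynomial.eval_map, hQ, hF, Polynomial.eval_prod]
  apply Finset.prod_eq_zero (Finset.mem_univ i)
  rw [Polynomial.eval_pow, Polynomial.eval_sub, Polynomial.eval_X, Polynomial.eval_C, sub_self,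
    zero_pow (he i)]

/-- The ring is finite over `BB`. -/
lemma fg_BB [CharZero k] (cl : ι → Fin 3) (e : ι → ℕ) (z : Pg k ι) (he : ∀ i, e i ≠ 0) :
    (⊤ : Submodule (BB cl e z) (Pg k ι)).FG := by
  have h1 : ∀ x ∈ gs k ι, IsIntegral (BB cl e z) x := by
    rintro x (⟨i, rfl⟩ | ⟨i, rfl⟩)
    · have h := integral_gev cl e z he (AddMonoidAlgebra.single 1 (1 : k)) i
      rwa [gev_single, one_smul] at h
    · have h := integral_gev cl e z he (AddMonoidAlgebra.single (-1) (1 : k)) i
      rwa [gev_single, one_smul] at h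
  have h2 := fg_adjoin_of_finite (R := BB cl e z) (gs_finite (k := k) (ι := ι)) h1
  have h3 : Algebra.adjoin (BB cl e z) (gs k ι) = ⊤ := by
    rw [eq_top_iff]
    intro u _
    have h4 : gs k ι ⊆ ((Algebra.adjoin (BB cl e z) (gs k ι)).restrictScalars k :
        Subalgebra k (Pg k ι)) := Algebra.subset_adjoin
    have h5 : u ∈ (Algebra.adjoin (BB cl e z) (gs k ι)).restrictScalars k := by
      induction u using mono_induction with
      | h0 => exact Subalgebra.zero_mem _
      | hadd u v hu hv => exact Subalgebra.add_mem _ (hu trivial) (hv trivial)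
      | hm c a β =>
        refine Subalgebra.smul_mem _ (Subalgebra.mul_mem _ (tt_mem_of_gs h4 a)
          (Subalgebra.prod_mem _ fun m _ => Subalgebra.pow_mem _ ?_ _)) _
        exact Subalgebra.algebraMap_mem (Algebra.adjoin (BB cl e z) (gs k ι))
          (⟨xx m, xx_BB cl e z m⟩ : BB cl e z)
    exact h5
  rw [h3] at h2
  exact h2

/-- Chains of `BB`-submodules containing `qq r` stabilise. -/
lemma noeth_BB [CharZero k] (r : ι → ℕ) (cl : ι → Fin 3) (e : ι → ℕ) (z : Pg k ι) (he : ∀ i, e i ≠ 0)
    (N : ℕ → Submodule (BB cl e z) (Pg k ι)) (hN : Monotone N)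
    (hc : ∀ n, ∀ u ∈ qq r, u ∈ N n) : ∃ n, ∀ m, n ≤ m → N m = N n := by
  set π := Ideal.Quotient.mkₐ k (qq (k := k) r) with hπ
  have hπs : Function.Surjective π := Ideal.Quotient.mkₐ_surjective k _
  set Bq : Subalgebra k (Pg k ι ⧸ qq (k := k) r) := (BB cl e z).map π with hBq
  have h1 : (⊤ : Submodule Bq (Pg k ι ⧸ qq (k := k) r)).FG := by
    obtain ⟨S, hS⟩ := fg_BB (k := k) cl e z he
    classical
    refine ⟨S.image π, ?_⟩
    rw [eq_top_iff]
    rintro x -
    obtain ⟨u, rfl⟩ := hπs x
    have hu : u ∈ Submodule.span (BB cl e z) (S : Set (Pg k ι)) := by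
      rw [hS]
      trivial
    induction hu using Submodule.span_induction with
    | mem s hs => exact Submodule.subset_span (by
        rw [Finset.coe_image]
        exact ⟨s, hs, rfl⟩)
    | zero => rw [map_zero]; exact Submodule.zero_mem _
    | add x y _ _ hx hy => rw [map_add]; exact Submodule.add_mem _ hx hy
    | smul b x _ hx =>
      have h2 : π (b • x) = (⟨π b.1, b.1, b.2, rfl⟩ : Bq) • π x := by
        rw [Subalgebra.smul_def, Subalgebra.smul_def, smul_eq_mul, map_mul, smul_eq_mul]
      rw [h2]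
      exact Submodule.smul_mem _ _ hx
  have h2 : (⊤ : Subalgebra k Bq).FG :=
    fg_of_fg_of_fg k Bq (Pg k ι ⧸ qq (k := k) r) (fg_quot r) h1 Subtype.val_injective
  have h3 : Algebra.FiniteType k Bq := ⟨h2⟩
  have h4 : IsNoetherianRing Bq := Algebra.FiniteType.isNoetherianRing k Bq
  have h5 : Module.Finite Bq (Pg k ι ⧸ qq (k := k) r) := ⟨h1⟩
  have h6 : IsNoetherian Bq (Pg k ι ⧸ qq (k := k) r) := inferInstance
  let M : ℕ →o Submodule Bq (Pg k ι ⧸ qq (k := k) r) :=
    { toFun := fun n =>
        { carrier := π '' (N n : Set (Pg k ι))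
          zero_mem' := ⟨0, (N n).zero_mem, map_zero _⟩
          add_mem' := by
            rintro _ _ ⟨x, hx, rfl⟩ ⟨y, hy, rfl⟩
            exact ⟨x + y, (N n).add_mem hx hy, map_add _ _ _⟩
          smul_mem' := by
            rintro ⟨_, b, hb, rfl⟩ _ ⟨x, hx, rfl⟩
            exact ⟨b * x, (N n).smul_mem ⟨b, hb⟩ hx, map_mul _ _ _⟩ }
      monotone' := fun i j hij => Set.image_mono (hN hij) }
  obtain ⟨n, hn⟩ := monotone_stabilizes_iff_noetherian.2 h6 M
  refine ⟨n, fun m hm => le_antisymm (fun u hu => ?_) (hN hm)⟩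
  have h7 : π u ∈ M m := ⟨u, hu, rfl⟩
  rw [← hn m hm] at h7
  obtain ⟨v, hv, hvu⟩ := h7
  have h8 : u - v ∈ qq r := Ideal.Quotient.eq.1 hvu.symm
  have h9 := (N n).add_mem (hc n _ h8) hv
  rwa [sub_add_cancel] at h9

open Polynomial in
lemma DD_nn_mem [CharZero k] (cl : ι → Fin 3) (e : ι → ℕ) (z : Pg k ι) (n : ℤ) (G : Fin 3 → AddMonoidAlgebra k ℤ) :
    DD n (nn cl e G) ∈ BB cl e z := by
  choose h hh using fun g : AddMonoidAlgebra k ℤ => exists_DD_gev (ι := ι) n g
  set F : (Pg k ι)[X] := ∏ i, (C (gev i (G (cl i))) + X * C (gev i (h (G (cl i))))) ^ e i with hF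
  have hco : ∀ j, F.coeff j ∈ (BB cl e z).toSubmodule := by
    apply coeff_mem
    intro c
    have h1 : F.eval (algebraMap k _ c) =
        nn cl e (fun b => G b + algebraMap k (AddMonoidAlgebra k ℤ) c * h (G b)) := by
      rw [hF, Polynomial.eval_prod]
      unfold nn
      refine Finset.prod_congr rfl fun j _ => ?_
      rw [Polynomial.eval_pow, Polynomial.eval_add, Polynomial.eval_mul, Polynomial.eval_X,
        Polynomial.eval_C, Polynomial.eval_C, map_add, map_mul, gev_C]
    rw [h1]
    exact nn_BB cl e z _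
  have key : DD n (F.eval 0) = (derivative F).eval 0 := by
    rw [hF]
    refine Finset.prod_induction _ (fun q : (Pg k ι)[X] => DD n (q.eval 0) =
      (derivative q).eval 0) ?_ ?_ ?_
    · intro p q hp hq
      rw [Polynomial.eval_mul, leib, hp, hq, Polynomial.derivative_mul, Polynomial.eval_add,
        Polynomial.eval_mul, Polynomial.eval_mul]
      ring
    · rw [Polynomial.eval_one, Derivation.map_one_eq_zero, Polynomial.derivative_one,
        Polynomial.eval_zero]
    · intro i _
      rw [Polynomial.eval_pow, Derivation.leibniz_pow, Polynomial.derivative_pow]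
      simp only [Polynomial.eval_add, Polynomial.eval_mul, Polynomial.eval_X, Polynomial.eval_C,
        Polynomial.eval_pow, Polynomial.derivative_add, Polynomial.derivative_C,
        Polynomial.derivative_mul, Polynomial.derivative_X, zero_mul, add_zero, mul_zero, zero_add,
        one_mul, smul_eq_mul, nsmul_eq_mul, hh]
      ring
  have h0 : F.eval 0 = nn cl e G := by
    rw [hF, Polynomial.eval_prod]
    unfold nn
    refine Finset.prod_congr rfl fun j _ => ?_
    rw [Polynomial.eval_pow, Polynomial.eval_add, Polynomial.eval_mul, Polynomial.eval_X,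
      Polynomial.eval_C, zero_mul, add_zero]
  have h2 := hco 1
  rw [← h0, key, ← Polynomial.coeff_zero_eq_eval_zero, Polynomial.coeff_derivative]
  simpa using h2

lemma DD_BB [CharZero k] (cl : ι → Fin 3) (e : ι → ℕ) {z : Pg k ι} (n : ℤ)
    (hz : DD n z ∈ BB cl e z) {b : Pg k ι} (hb : b ∈ BB cl e z) :
    DD n b ∈ BB cl e z := by
  unfold BB at hb
  induction hb using Algebra.adjoin_induction with
  | mem x hx =>
    rcases hx with (⟨m, rfl⟩ | ⟨G, rfl⟩) | hx
    · rw [DD_xx]
      exact Subalgebra.mul_mem _ (Subalgebra.intCast_mem _ _) (xx_BB cl e z _)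
    · exact DD_nn_mem cl e z n G
    · rw [Set.mem_singleton_iff] at hx
      subst hx
      exact hz
  | algebraMap c =>
    rw [Derivation.map_algebraMap]
    exact Subalgebra.zero_mem _
  | add x y _ _ hx hy => rw [map_add]; exact Subalgebra.add_mem _ hx hy
  | mul x y hx' hy' hx hy =>
    rw [leib]
    exact Subalgebra.add_mem _ (Subalgebra.mul_mem _ hx' hy) (Subalgebra.mul_mem _ hy' hx)

open Polynomial in
/-- Power sums over a class. -/
lemma powersum_BB [CharZero k] (cl : ι → Fin 3) (e : ι → ℕ) (z : Pg k ι) (m : ℤ) (b : Fin 3) :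
    (∑ i, if cl i = b then (e i : Pg k ι) * tv i m else 0) ∈ BB cl e z := by
  set F : (Pg k ι)[X] := ∏ i, (1 + X * C (if cl i = b then tv i m else 0)) ^ e i with hF
  have hco : ∀ j, F.coeff j ∈ (BB cl e z).toSubmodule := by
    apply coeff_mem
    intro c
    have h1 : F.eval (algebraMap k _ c) =
        nn cl e (fun b' => 1 + algebraMap k (AddMonoidAlgebra k ℤ) c *
          (if b' = b then AddMonoidAlgebra.single m 1 else 0)) := by
      rw [hF, Polynomial.eval_prod]
      unfold nn
      refine Finset.prod_congr rfl fun j _ => ?_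
      rw [Polynomial.eval_pow, Polynomial.eval_add, Polynomial.eval_mul, Polynomial.eval_X,
        Polynomial.eval_C, Polynomial.eval_one, map_add, map_mul, gev_C, map_one]
      split_ifs
      · rw [gev_single, one_smul]
      · rw [map_zero]
    rw [h1]
    exact nn_BB cl e z _
  have key : (derivative F).eval 0 =
      ∑ i, if cl i = b then (e i : Pg k ι) * tv i m else 0 := by
    rw [hF, Polynomial.derivative_prod_finset, Polynomial.eval_finsetSum]
    refine Finset.sum_congr rfl fun i _ => ?_
    rw [Polynomial.eval_mul, Polynomial.eval_prod, Finset.prod_eq_one, one_mul,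
      Polynomial.derivative_pow]
    · simp only [Polynomial.eval_add, Polynomial.eval_mul, Polynomial.eval_X, Polynomial.eval_C,
        Polynomial.eval_pow, Polynomial.derivative_add, Polynomial.derivative_C,
        Polynomial.derivative_mul, Polynomial.derivative_X, zero_mul, add_zero, mul_zero, zero_add,
        one_mul, Polynomial.derivative_one, Polynomial.eval_one, one_pow, mul_one]
      split_ifs
      · rfl
      · rw [mul_zero]
    · intro j _
      rw [Polynomial.eval_pow, Polynomial.eval_add, Polynomial.eval_mul, Polynomial.eval_X,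
        zero_mul, Polynomial.eval_one, add_zero, one_pow]
  have h2 := hco 1
  rw [← key, ← Polynomial.coeff_zero_eq_eval_zero, Polynomial.coeff_derivative]
  simpa using h2

end

end Pool.Agent.K9h91.WI
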