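import Pool.Agent.K9h91.WI.DPart
import Pool.Agent.K9h91.WI.Gram
import Pool.Agent.K9h91.WI.Noeth

/-!
# The operator lemma
-/

set_option autoImplicit false
set_option linter.unusedSectionVars false

namespace Pool.Agent.K9h91.WI

universe u v

section
variable {k : Type u} [Field k] {ι ι' : Type} [Fintype ι] [DecidableEq ι] [Fintype ι']
  [DecidableEq ι']

/-- The elements supported on a set of variables. -/
noncomputable def Sp (k : Type u) [Field k] {ι : Type} [Fintype ι] [DecidableEq ι]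
    (S : Finset ι) : Subalgebra k (Pg k ι) :=
  (Pmap (k := k) (Subtype.val : {x // x ∈ S} → ι)).range

lemma Sp_pd {S : Finset ι} {j : ι} (hj : j ∉ S) {u : Pg k ι} (hu : u ∈ Sp k S) : pd j u = 0 := by
  obtain ⟨v, rfl⟩ := hu
  exact pd_Pmap_not_mem (fun i h => hj (by rw [← h]; exact i.2)) v

lemma Sp_congr {S : Finset ι} {u : Pg k ι} (hu : u ∈ Sp k S) {f g : ι → ι'}
    (h : ∀ i ∈ S, f i = g i) : Pmap f u = Pmap g u := by
  obtain ⟨v, rfl⟩ := hu
  show Pmap f (Pmap _ v) = Pmap g (Pmap _ v)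
  rw [Pmap_Pmap, Pmap_Pmap]
  have h1 : f ∘ Subtype.val = g ∘ (Subtype.val : {x // x ∈ S} → ι) := funext fun i => h i.1 i.2
  rw [h1]

lemma gev_Sp {S : Finset ι} {i : ι} (hi : i ∈ S) (g : AddMonoidAlgebra k ℤ) :
    gev i g ∈ Sp k S := by
  unfold Sp
  rw [AlgHom.mem_range]
  have h := Pmap_gev (Subtype.val : {x // x ∈ S} → ι) ⟨i, hi⟩ g
  exact ⟨_, h⟩

lemma df_Sp {S : Finset ι} {i j : ι} (hi : i ∈ S) (hj : j ∈ S) : df i j ∈ Sp k S := by
  unfold Sp
  rw [AlgHom.mem_range]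
  exact ⟨df ⟨i, hi⟩ ⟨j, hj⟩, Pmap_df _ _ _⟩

lemma ww_Sp {S : Finset ι} {r : ι → ℕ} (hr : ∀ i, r i ≠ 0 → i ∈ S) : ww r ∈ Sp k S := by
  unfold Sp
  rw [AlgHom.mem_range]
  refine ⟨ww (fun x : {x // x ∈ S} => r x.1), ?_⟩
  unfold ww
  rw [Pmap_xlin, Pmap_P0]
  congr 2
  funext j
  unfold pushr
  rw [Finset.sum_filter]
  by_cases hj : j ∈ S
  · rw [Finset.sum_eq_single ⟨j, hj⟩]
    · rw [if_pos rfl]
    · intro b _ hb
      rw [if_neg fun h => hb (Subtype.ext h)]
    · intro h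
      exact absurd (Finset.mem_univ _) h
  · rw [Finset.sum_eq_zero]
    · by_contra h
      exact hj (hr j (Ne.symm h))
    · intro b _
      rw [if_neg fun h => hj (by rw [← h]; exact b.2)]

lemma thS_Sp {S : Finset ι} {r : ι → ℕ} (hr : ∀ i, r i ≠ 0 → i ∈ S) : thS k r ∈ Sp k S := by
  refine Subalgebra.prod_mem _ fun i _ => Subalgebra.pow_mem _ (ww_Sp fun j hj => hr j ?_) _
  intro h
  apply hj
  rw [Pi.sub_apply, h, Nat.zero_sub]

end

section
variable {k : Type u} [Field k] {κ Λ : Type} [Fintype κ] [DecidableEq κ] [Fintype Λ]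
  [DecidableEq Λ]

lemma il_ww (r : κ → ℕ) : il (Λ := Λ) (ww (k := k) r) = ww (rh Λ r) := by
  unfold ww
  rw [Pmap_xlin, Pmap_P0, pushr_inl]

lemma rh_sub_single (r : κ → ℕ) (i : κ) :
    rh Λ r - Pi.single (Sum.inl i) 1 = rh Λ (r - Pi.single i 1) := by
  funext x
  cases x with
  | inl j =>
    by_cases h : j = i
    · subst h
      simp [rh]
    · simp [rh, h]
  | inr l => simp [rh]

lemma il_thS (r : κ → ℕ) : il (Λ := Λ) (thS k r) = thS k (rh Λ r) := by
  unfold thS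
  rw [map_prod, Fintype.prod_sum_type]
  have h1 : ∏ x : Λ, ww (k := k) (rh Λ r - Pi.single (Sum.inr x) 1) ^ rh Λ r (Sum.inr x) = 1 :=
    Finset.prod_eq_one fun x _ => pow_zero _
  rw [h1, mul_one]
  refine Finset.prod_congr rfl fun i _ => ?_
  rw [map_pow, il_ww, rh_sub_single]
  rfl

end

section
variable {k : Type u} [Field k] {κ : Type} [Fintype κ] [DecidableEq κ]

/-- The clusters of multiplicity zero. -/
abbrev KK (r : κ → ℕ) : Finset κ := Finset.univ.filter fun c => r c = 0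

instance us_dec (ty : κ → Bool) (l : κ × Bool) : Decidable (us ty l) := by
  unfold us
  infer_instance

/-- The letters. -/
def UL (r : κ → ℕ) (ty : κ → Bool) : Finset (κ × Bool) :=
  Finset.univ.filter fun l => r l.1 = 0 ∧ us ty l

lemma mem_UL {r : κ → ℕ} {ty : κ → Bool} {l : κ × Bool} :
    l ∈ UL r ty ↔ r l.1 = 0 ∧ us ty l := by
  unfold UL
  rw [Finset.mem_filter]
  exact ⟨fun h => h.2, fun h => ⟨Finset.mem_univ _, h⟩⟩

/-- The pairs of letters in different groups. -/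
def UP (r : κ → ℕ) (ty : κ → Bool) : Finset ((κ × Bool) × (κ × Bool)) :=
  (UL r ty ×ˢ UL r ty).filter fun x => x.1.1 ≠ x.2.1

/-- The classes. -/
def cl3 (r : κ → ℕ) (ty : κ → Bool) (c : κ) : Fin 3 :=
  if r c = 0 then (if ty c = true then 2 else 1) else 0

/-- The exponents. -/
def e3 (r : κ → ℕ) (c : κ) : ℕ := if r c = 0 then 1 else r c

lemma e3_ne (r : κ → ℕ) (c : κ) : e3 r c ≠ 0 := by
  unfold e3
  split_ifs with h
  · exact one_ne_zero
  · exact h

/-- The number of letters. -/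
def w3 (r : κ → ℕ) (ty : κ → Bool) (c : κ) : ℕ :=
  if r c = 0 then (if ty c = true then 1 else 2) else 0

/-- The exponents of the differences. -/
def b3 (r : κ → ℕ) (ty : κ → Bool) (i c : κ) : ℕ :=
  r i * w3 r ty c + if i = c then 0 else w3 r ty i * w3 r ty c

/-- The product of differences. -/
noncomputable def Th1 (k : Type u) [Field k] (r : κ → ℕ) (ty : κ → Bool) : Pg k κ :=
  ∏ i, ∏ c, df i c ^ b3 r ty i c

lemma prod_UL {N : Type*} [CommMonoid N] (r : κ → ℕ) (ty : κ → Bool) (F : κ → N) :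
    ∏ l ∈ UL r ty, F l.1 = ∏ c, F c ^ w3 r ty c := by
  unfold UL
  rw [Finset.prod_filter, Fintype.prod_prod_type]
  refine Finset.prod_congr rfl fun c _ => ?_
  rw [Fintype.prod_bool]
  unfold w3 us
  by_cases h1 : r c = 0
  · by_cases h2 : ty c = true
    · simp [h1, h2]
    · rw [Bool.not_eq_true] at h2
      simp [h1, h2, pow_two]
  · simp [h1]

lemma prod_UP {N : Type*} [CommMonoid N] (r : κ → ℕ) (ty : κ → Bool) (F : κ → κ → N) :
    ∏ x ∈ UP r ty, F x.1.1 x.2.1 =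
      ∏ c, ∏ c', F c c' ^ (if c = c' then 0 else w3 r ty c * w3 r ty c') := by
  unfold UP
  rw [Finset.prod_filter, Finset.prod_product]
  have h1 : ∀ l : κ × Bool, ∏ l' ∈ UL r ty, (if l.1 ≠ l'.1 then F l.1 l'.1 else 1) =
      ∏ c', (if l.1 ≠ c' then F l.1 c' else 1) ^ w3 r ty c' := fun l =>
    prod_UL r ty fun c' => if l.1 ≠ c' then F l.1 c' else 1
  simp only [h1]
  rw [prod_UL r ty fun c => ∏ c', (if c ≠ c' then F c c' else 1) ^ w3 r ty c']
  refine Finset.prod_congr rfl fun c _ => ?_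
  rw [← Finset.prod_pow]
  refine Finset.prod_congr rfl fun c' _ => ?_
  by_cases h : c = c'
  · rw [if_neg (not_not.2 h), if_pos h, one_pow, one_pow, pow_zero]
  · rw [if_pos h, if_neg h, ← pow_mul, mul_comm]

/-- The kernel element. -/
noncomputable def Gam (r : κ → ℕ) (ty : κ → Bool) (M : ℕ)
    (G : Fin 3 → AddMonoidAlgebra k ℤ) : Pg k (Pt κ) :=
  (il (thS k r) * ∏ i, (gev (Sum.inl i) (G 0) *
    ∏ l ∈ UL r ty, df (Sum.inl i) (Sum.inr l) ^ M) ^ r i) *
  ((∏ x ∈ UP r ty, df (Sum.inr x.1) (Sum.inr x.2) ^ M) *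
    ∏ d ∈ KK r, gev (Sum.inr (d, false)) (G (cl3 r ty d)))

/-- The membership of the kernel element. -/
lemma Gam_mem {P : Submodule k (Pg k κ)} {r : κ → ℕ}
    (hc : (qq (k := k) r : Set (Pg k κ)) ⊆ P) (ty : κ → Bool) (M : ℕ)
    (G : Fin 3 → AddMonoidAlgebra k ℤ) {p : Pg k κ} (hp : p ∈ P) :
    Gam r ty M G * il p ∈ Pext (κ × Bool) P := by
  obtain ⟨ε, hε⟩ := gram (k := k) (rh (κ × Bool) r)
  set f0 : Pg k (Option (κ × Bool)) := gev none (G 0) *
    ∏ l ∈ UL r ty, df none (some l) ^ M with hf0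
  have h1 := hε (Pmap (Option.map Sum.inr) f0)
  rw [Hk_map, Fintype.prod_sum_type] at h1
  have h2 : ∏ x : κ × Bool, evo (Sum.inr x) (Pmap (Option.map Sum.inr) f0) ^
      rh (κ × Bool) r (Sum.inr x) = (1 : Pg k (Pt κ)) := Finset.prod_eq_one fun x _ => pow_zero _
  rw [h2, mul_one, ← il_thS] at h1
  have h3 : ∀ i : κ, evo (Sum.inl i) (Pmap (Option.map Sum.inr) f0) =
      (gev (Sum.inl i) (G 0) * ∏ l ∈ UL r ty, df (Sum.inl i) (Sum.inr l) ^ M : Pg k (Pt κ)) := by
    intro i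
    rw [Pmap_Pmap, hf0, map_mul, map_prod, Pmap_gev]
    refine congrArg₂ _ rfl (Finset.prod_congr rfl fun l _ => ?_)
    rw [map_pow, Pmap_df]
    rfl
  simp only [h3] at h1
  have h4 := qq_le_Pext (Λ := κ × Bool) hc (Ideal.mul_mem_right (il p) _ h1)
  have h5 : ir (((ε : ℤ) : Pg k (κ × Bool)) * (Hk (sr (rh (κ × Bool) r)) f0).det) * il p ∈
      Pext (κ × Bool) P := Pext_mem _ hp
  have h6 := (Pext (κ × Bool) P).sub_mem h5 h4
  rw [map_mul, map_intCast, ← sub_mul, sub_sub_cancel] at h6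
  have h7 := Pext_mul ((∏ x ∈ UP r ty, df x.1 x.2 ^ M) *
    ∏ d ∈ KK r, gev (d, false) (G (cl3 r ty d))) h6
  rw [map_mul, map_prod, map_prod] at h7
  simp only [map_pow, Pmap_df, Pmap_gev] at h7
  have h8 : Gam r ty M G * il p = (∏ x ∈ UP r ty, df (Sum.inr x.1) (Sum.inr x.2) ^ M) *
      (∏ d ∈ KK r, gev (Sum.inr (d, false)) (G (cl3 r ty d))) *
      (il (thS k r) * (∏ i, (gev (Sum.inl i) (G 0) *
        ∏ l ∈ UL r ty, df (Sum.inl i) (Sum.inr l) ^ M) ^ r i) * il p) := by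
    unfold Gam
    ring
  rw [h8]
  exact h7

/-- The support of the kernel element. -/
def SG (r : κ → ℕ) (ty : κ → Bool) : Finset (Pt κ) :=
  (Finset.univ.filter fun i => r i ≠ 0).disjSum (UL r ty)

lemma inl_SG {r : κ → ℕ} {ty : κ → Bool} {i : κ} (h : r i ≠ 0) :
    (Sum.inl i : Pt κ) ∈ SG r ty := by
  unfold SG
  rw [Finset.inl_mem_disjSum]
  exact Finset.mem_filter.2 ⟨Finset.mem_univ _, h⟩

lemma inr_SG {r : κ → ℕ} {ty : κ → Bool} {l : κ × Bool} (h : l ∈ UL r ty) :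
    (Sum.inr l : Pt κ) ∈ SG r ty := by
  unfold SG
  rw [Finset.inr_mem_disjSum]
  exact h

lemma Gam_Sp (r : κ → ℕ) (ty : κ → Bool) (M : ℕ) (G : Fin 3 → AddMonoidAlgebra k ℤ) :
    Gam r ty M G ∈ Sp k (SG r ty) := by
  unfold Gam
  refine Subalgebra.mul_mem _ (Subalgebra.mul_mem _ ?_ ?_) (Subalgebra.mul_mem _ ?_ ?_)
  · rw [il_thS]
    refine thS_Sp fun x hx => ?_
    cases x with
    | inl i => exact inl_SG hx
    | inr l => exact absurd rfl hx
  · refine Subalgebra.prod_mem _ fun i _ => ?_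
    by_cases hi : r i = 0
    · rw [hi, pow_zero]
      exact Subalgebra.one_mem _
    · exact Subalgebra.pow_mem _ (Subalgebra.mul_mem _ (gev_Sp (inl_SG hi) _)
        (Subalgebra.prod_mem _ fun l hl => Subalgebra.pow_mem _
          (df_Sp (inl_SG hi) (inr_SG hl)) _)) _
  · refine Subalgebra.prod_mem _ fun x hx => Subalgebra.pow_mem _ ?_ _
    have h := Finset.mem_product.1 (Finset.mem_filter.1 hx).1
    exact df_Sp (inr_SG h.1) (inr_SG h.2)
  · exact Subalgebra.prod_mem _ fun d hd => gev_Sp (inr_SG (mem_UL.2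
      ⟨(Finset.mem_filter.1 hd).2, Or.inr rfl⟩)) _

lemma nn_split (r : κ → ℕ) (ty : κ → Bool) (G : Fin 3 → AddMonoidAlgebra k ℤ) :
    nn (cl3 r ty) (e3 r) G =
      (∏ i, gev i (G 0) ^ r i) * ∏ d ∈ KK r, gev d (G (cl3 r ty d)) := by
  unfold nn
  rw [Finset.prod_filter, ← Finset.prod_mul_distrib]
  refine Finset.prod_congr rfl fun i _ => ?_
  by_cases h : r i = 0
  · rw [if_pos h, h, pow_zero, one_mul]
    unfold e3
    rw [if_pos h, pow_one]
  · rw [if_neg h, mul_one]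
    unfold e3 cl3
    rw [if_neg h, if_neg h]

lemma Th1_pow (r : κ → ℕ) (ty : κ → Bool) (M : ℕ) : Th1 k r ty ^ M =
    (∏ i, (∏ c, (df i c ^ M) ^ w3 r ty c) ^ r i) *
      ∏ c, ∏ c', (df c c' ^ M) ^ (if c = c' then 0 else w3 r ty c * w3 r ty c') := by
  unfold Th1
  rw [← Finset.prod_pow, ← Finset.prod_mul_distrib]
  refine Finset.prod_congr rfl fun i _ => ?_
  rw [← Finset.prod_pow, ← Finset.prod_pow, ← Finset.prod_mul_distrib]
  refine Finset.prod_congr rfl fun c _ => ?_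
  unfold b3
  rw [← pow_mul, ← pow_mul, ← pow_mul, ← pow_mul, ← pow_add]
  congr 1
  ring

lemma T1_eq (r : κ → ℕ) (ty : κ → Bool) (M : ℕ) (G : Fin 3 → AddMonoidAlgebra k ℤ)
    (σ : κ ≃ κ) (hr0 : ∀ c, r (σ c) = 0 ↔ r c = 0) (hty : ∀ c, r c = 0 → ty (σ c) = ty c) :
    thS k r * (∏ i, (gev i (G 0) * ∏ l ∈ UL r ty, df i (σ l.1) ^ M) ^ r i) *
      ((∏ x ∈ UP r ty, df (σ x.1.1) (σ x.2.1) ^ M) *
        ∏ d ∈ KK r, gev (σ d) (G (cl3 r ty d))) =
      thS k r * Th1 k r ty ^ M * nn (cl3 r ty) (e3 r) G := by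
  have hw : ∀ c, w3 r ty c = w3 r ty (σ c) := by
    intro c
    unfold w3
    by_cases h : r c = 0
    · rw [if_pos h, if_pos ((hr0 c).2 h), hty c h]
    · rw [if_neg h, if_neg fun h2 => h ((hr0 c).1 h2)]
  have hcl : ∀ c, cl3 r ty c = cl3 r ty (σ c) := by
    intro c
    unfold cl3
    by_cases h : r c = 0
    · rw [if_pos h, if_pos ((hr0 c).2 h), hty c h]
    · rw [if_neg h, if_neg fun h2 => h ((hr0 c).1 h2)]
  have h1 : ∀ i : κ, ∏ l ∈ UL r ty, df (k := k) i (σ l.1) ^ M =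
      ∏ c, (df i c ^ M) ^ w3 r ty c := by
    intro i
    rw [prod_UL r ty fun c => df (k := k) i (σ c) ^ M,
      ← Equiv.prod_comp σ fun c => (df (k := k) i c ^ M) ^ w3 r ty c]
    exact Finset.prod_congr rfl fun c _ => by rw [← hw]
  have h2 : ∏ x ∈ UP r ty, df (k := k) (σ x.1.1) (σ x.2.1) ^ M =
      ∏ c, ∏ c', (df c c' ^ M) ^ (if c = c' then 0 else w3 r ty c * w3 r ty c') := by
    rw [prod_UP r ty fun c c' => df (k := k) (σ c) (σ c') ^ M,
      ← Equiv.prod_comp σ fun c => ∏ c', (df (k := k) c c' ^ M) ^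
        (if c = c' then 0 else w3 r ty c * w3 r ty c')]
    refine Finset.prod_congr rfl fun c _ => ?_
    rw [← Equiv.prod_comp σ fun c' => (df (k := k) (σ c) c' ^ M) ^
        (if σ c = c' then 0 else w3 r ty (σ c) * w3 r ty c')]
    refine Finset.prod_congr rfl fun c' _ => ?_
    rw [← hw, ← hw]
    by_cases h : c = c'
    · rw [if_pos h, if_pos (congrArg σ h)]
    · rw [if_neg h, if_neg fun h3 => h (σ.injective h3)]
  have h3 : ∏ d ∈ KK r, gev (k := k) (σ d) (G (cl3 r ty d)) =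
      ∏ d ∈ KK r, gev d (G (cl3 r ty d)) := by
    rw [Finset.prod_filter, Finset.prod_filter,
      ← Equiv.prod_comp σ fun d => if r d = 0 then gev (k := k) d (G (cl3 r ty d)) else 1]
    refine Finset.prod_congr rfl fun c _ => ?_
    by_cases h : r c = 0
    · rw [if_pos h, if_pos ((hr0 c).2 h), ← hcl]
    · rw [if_neg h, if_neg fun h2 => h ((hr0 c).1 h2)]
  simp only [h1]
  rw [h2, h3, Th1_pow, nn_split]
  simp only [mul_pow, Finset.prod_mul_distrib]
  ring

/-- The kernel element is good. -/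
lemma Gam_good (r : κ → ℕ) (ty : κ → Bool) (M : ℕ) (G : Fin 3 → AddMonoidAlgebra k ℤ) :
    Good (KK r) ty M (Gam r ty M G) (thS k r * Th1 k r ty ^ M * nn (cl3 r ty) (e3 r) G) := by
  have hK : ∀ {c : κ}, c ∈ KK r ↔ r c = 0 := fun {c} => by
    rw [Finset.mem_filter]
    exact ⟨fun h => h.2, fun h => ⟨Finset.mem_univ _, h⟩⟩
  have hcon : ∀ f g : Pt κ → Pt κ, (∀ i, f (Sum.inl i) = g (Sum.inl i)) →
      (∀ l : κ × Bool, l.1 ∈ KK r → us ty l → f (Sum.inr l) = g (Sum.inr l)) →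
      Pmap f (Gam r ty M G) = Pmap g (Gam r ty M G) := by
    intro f g h1 h2
    refine Sp_congr (Gam_Sp r ty M G) fun x hx => ?_
    cases x with
    | inl i => exact h1 i
    | inr l =>
      unfold SG at hx
      rw [Finset.inr_mem_disjSum, mem_UL] at hx
      exact h2 l (hK.2 hx.1) hx.2
  constructor
  · intro c hc
    refine Sp_pd ?_ (Gam_Sp r ty M G)
    unfold SG
    rw [Finset.inl_mem_disjSum, Finset.mem_filter]
    exact fun h => h.2 (hK.1 hc)
  · intro l l' hl hl' hne hu hu'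
    unfold Gam
    refine Dvd.dvd.mul_left (Dvd.dvd.mul_right ?_ _) _
    have hmem : (l, l') ∈ UP r ty := Finset.mem_filter.2
      ⟨Finset.mem_product.2 ⟨mem_UL.2 ⟨hK.1 hl, hu⟩, mem_UL.2 ⟨hK.1 hl', hu'⟩⟩, hne⟩
    exact Finset.dvd_prod_of_mem (fun x : (κ × Bool) × (κ × Bool) =>
      df (k := k) (Sum.inr x.1 : Pt κ) (Sum.inr x.2) ^ M) hmem
  · intro s hs1 hs2 hs3
    have hinj : Function.Injective fun c => if c ∈ KK r then s c else c := by
      intro c c' h
      dsimp only at h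
      by_cases h1 : c ∈ KK r
      · by_cases h2 : c' ∈ KK r
        · rw [if_pos h1, if_pos h2] at h
          exact hs2 h1 h2 h
        · rw [if_pos h1, if_neg h2] at h
          exact absurd (by rw [← h]; exact hs1 c h1) h2
      · by_cases h2 : c' ∈ KK r
        · rw [if_neg h1, if_pos h2] at h
          exact absurd (by rw [h]; exact hs1 c' h2) h1
        · rwa [if_neg h1, if_neg h2] at h
    let σ : κ ≃ κ := Equiv.ofBijective _ (Finite.injective_iff_bijective.1 hinj)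
    have hσ : ∀ c ∈ KK r, σ c = s c := fun c hc => if_pos hc
    have hσ' : ∀ c, c ∉ KK r → σ c = c := fun c hc => if_neg hc
    have hr0 : ∀ c, r (σ c) = 0 ↔ r c = 0 := by
      intro c
      by_cases h : c ∈ KK r
      · rw [hσ c h]
        exact ⟨fun _ => hK.1 h, fun _ => hK.1 (hs1 c h)⟩
      · rw [hσ' c h]
    have hty : ∀ c, r c = 0 → ty (σ c) = ty c := fun c hc => by
      rw [hσ c (hK.2 hc), hs3 c (hK.2 hc)]
    rw [← T1_eq r ty M G σ hr0 hty, hcon (fm s []) (fm σ []) (fun i => rfl) (fun l hl _ => by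
      rw [fm_not_mem s List.not_mem_nil, fm_not_mem _ List.not_mem_nil, hσ _ hl])]
    unfold Gam
    have h4 : Pmap (fm σ []) (il (thS k r)) = il (thS k r) := by
      rw [Pmap_Pmap]
      rfl
    have h5 : ∀ l : κ × Bool, fm (⇑σ) [] (Sum.inr l) = Sum.inl (σ l.1) := fun l =>
      fm_not_mem _ List.not_mem_nil
    simp only [map_mul, map_prod, map_pow, Pmap_gev, Pmap_df, fm_inl, h5]
    rw [h4]
  · intro l hl
    refine Sp_pd ?_ (Gam_Sp r ty M G)
    unfold SG
    rw [Finset.inr_mem_disjSum, mem_UL]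
    exact fun h => hl (hK.2 h.1)
  · exact hcon

lemma PL_evl {r : κ → ℕ} {l l' : κ × Bool} (h : l' ≠ l) (c : κ) :
    evl (k := k) l c (PL r l') = PL r l' := by
  unfold PL
  rw [map_prod]
  refine Finset.prod_congr rfl fun i _ => ?_
  rw [map_pow, map_sub, evl_tv, evl_tv, upd_inr h, upd_inl]

lemma PL_Lt {K0 : Finset κ} {lam : κ → ℤ} {r : κ → ℕ} {M : ℕ} {l l' : κ × Bool} (h : l' ≠ l)
    {u : Pg k (Pt κ)} (hu : PL r l' ^ (M + 1) ∣ u) : PL r l' ^ M ∣ Lt K0 lam l u := by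
  rw [Lt_apply]
  refine Finset.dvd_sum fun c _ => ?_
  have h1 := Lc_dvd lam l c hu
  rwa [PL_evl h] at h1

/-- Membership for the operators of a list of groups. -/
lemma GOL_mem {a : κ → κ → ℤ} (ha : ∀ i j, i ≠ j → a i j = 0) {P : Submodule k (Pg k κ)}
    (hs : Stab a P) {r : κ → ℕ} (hc : (qq (k := k) r : Set (Pg k κ)) ⊆ P) (ty : κ → Bool)
    (L : List κ) : ∀ (M : ℕ) (u : Pg k (Pt κ)), L.Nodup → 2 * L.length + 2 ≤ M →
    u ∈ Pext (κ × Bool) P → (∀ l : κ × Bool, l.1 ∈ L → us ty l → PL r l ^ M ∣ u) →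
    GOL (KK r) ty (fun c => a c c) L u ∈ Pext (κ × Bool) P := by
  induction L with
  | nil => intro M u _ _ hu _; exact hu
  | cons d L ih =>
    intro M u hnd hM hu hdvd
    obtain ⟨hd, hnd'⟩ := List.nodup_cons.1 hnd
    rw [List.length_cons] at hM
    obtain ⟨M', rfl⟩ : ∃ M', M = M' + 2 := ⟨M - 2, by omega⟩
    have hne : ∀ l : κ × Bool, l.1 ∈ L → l.1 ≠ d := fun l hl h2 => hd (h2 ▸ hl)
    have h0 : Lt (KK r) (fun c => a c c) (d, false) u ∈ Pext (κ × Bool) P :=
      Lt_mem ha hs hc (d, false) hu ((pow_dvd_pow _ (by omega)).trans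
        (hdvd (d, false) List.mem_cons_self (Or.inr rfl)))
    show GOL (KK r) ty _ L (GO (KK r) ty _ d u) ∈ _
    unfold GO
    split_ifs with hty
    · exact ih (M' + 1) _ hnd' (by omega) h0 fun l hl hul =>
        PL_Lt (M := M' + 1) (ne_of_fst (hne l hl)) (hdvd l (List.mem_cons_of_mem _ hl) hul)
    · rw [Bool.not_eq_true] at hty
      have h01 : ((d, true) : κ × Bool) ≠ (d, false) := fun h =>
        Bool.noConfusion (Prod.ext_iff.1 h).2
      have h1 : Lt (KK r) (fun c => a c c) (d, true) (Lt (KK r) (fun c => a c c) (d, false) u) ∈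
          Pext (κ × Bool) P :=
        Lt_mem ha hs hc (d, true) h0 ((pow_dvd_pow _ (by omega)).trans
          (PL_Lt (M := M' + 1) h01 (hdvd (d, true) List.mem_cons_self (Or.inl hty))))
      exact ih M' _ hnd' (by omega) h1 fun l hl hul => PL_Lt (ne_of_fst (hne l hl))
        (PL_Lt (M := M' + 1) (ne_of_fst (hne l hl)) (hdvd l (List.mem_cons_of_mem _ hl) hul))

lemma PL_Gam {r : κ → ℕ} {ty : κ → Bool} {M : ℕ} {G : Fin 3 → AddMonoidAlgebra k ℤ}
    {l : κ × Bool} (hl : l ∈ UL r ty) : PL (k := k) r l ^ M ∣ Gam r ty M G := by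
  unfold Gam
  refine Dvd.dvd.mul_right (Dvd.dvd.mul_left ?_ _) _
  unfold PL
  rw [← Finset.prod_pow]
  refine Finset.prod_dvd_prod_of_dvd _ _ fun c _ => ?_
  rw [← pow_mul, mul_comm, pow_mul]
  refine pow_dvd_pow_of_dvd ?_ _
  refine Dvd.dvd.mul_left ?_ _
  refine dvd_trans ?_ (Finset.dvd_prod_of_mem _ hl)
  refine pow_dvd_pow_of_dvd ?_ _
  exact ⟨-1, by unfold df; ring⟩

end

section
variable {k : Type u} [Field k] [CharZero k] {κ : Type} [Fintype κ] [DecidableEq κ]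

/-- The clusters of type `true`. -/
abbrev EE (r : κ → ℕ) (ty : κ → Bool) : Finset κ := (KK r).filter fun c => ty c = true

/-- **The operator lemma.** -/
theorem oper {a : κ → κ → ℤ} (ha : ∀ i j, i ≠ j → a i j = 0) {r : κ → ℕ} {ty : κ → Bool}
    (ht1 : ∀ c, r c = 0 → ty c = true → a c c = 0)
    (ht0 : ∀ c, r c = 0 → ty c = false → a c c ≠ 0 ∧ a c c ≠ 1)
    {P : Submodule k (Pg k κ)} (hs : Stab a P) (hc : (qq (k := k) r : Set (Pg k κ)) ⊆ P)
    (G : Fin 3 → AddMonoidAlgebra k ℤ) {M : ℕ} (hM : 2 * Fintype.card κ + 4 ≤ M)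
    {p : Pg k κ} (hp : p ∈ P) :
    thS k r * Th1 k r ty ^ M * nn (cl3 r ty) (e3 r) G * pdF (EE r ty) p ∈ P := by
  set LN := ((KK r).filter fun c => ty c = false).toList with hLN
  set LE := (EE r ty).toList with hLE
  have hmemN : ∀ d, d ∈ LN ↔ d ∈ KK r ∧ ty d = false := fun d => by
    rw [hLN, Finset.mem_toList, Finset.mem_filter]
  have hmemE : ∀ d, d ∈ LE ↔ d ∈ KK r ∧ ty d = true := fun d => by
    rw [hLE, Finset.mem_toList, Finset.mem_filter]
  have hmem : ∀ d, d ∈ LN ++ LE ↔ d ∈ KK r := by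
    intro d
    rw [List.mem_append, hmemN, hmemE]
    constructor
    · rintro (h | h)
      · exact h.1
      · exact h.1
    · intro h
      by_cases h2 : ty d = true
      · exact Or.inr ⟨h, h2⟩
      · rw [Bool.not_eq_true] at h2
        exact Or.inl ⟨h, h2⟩
  have hnd : (LN ++ LE).Nodup := by
    refine List.nodup_append.2 ⟨Finset.nodup_toList _, Finset.nodup_toList _, ?_⟩
    intro x hx y hy hxy
    have h1 := ((hmemN x).1 hx).2
    have h2 := ((hmemE y).1 hy).2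
    rw [hxy, h2] at h1
    exact Bool.noConfusion h1
  have hlenN : LN.length = ((KK r).filter fun c => ty c = false).card := Finset.length_toList _
  have hlenE : LE.length = (EE r ty).card := Finset.length_toList _
  have hlen : (LN ++ LE).length ≤ Fintype.card κ := by
    have h1 := List.toFinset_card_of_nodup hnd
    rw [← h1]
    exact Finset.card_le_univ _
  have hlen2 : LN.length + LE.length ≤ Fintype.card κ := by
    rwa [List.length_append] at hlen
  have hst : St (KK r) ty (LN ++ LE) id (KK r) :=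
    ⟨hnd, fun d hd => (hmem d).1 hd, fun d hd hdL => absurd ((hmem d).2 hd) hdL,
      fun d hd hdL => absurd ((hmem d).2 hd) hdL, fun c hc1 hc2 => absurd hc1 hc2,
      Finset.Subset.refl _⟩
  have hGood := Gam_good (k := k) r ty M G
  have h1 := phase_N (lam := fun c => a c c) hGood
    (fun c hc1 hc2 => ht1 c (Finset.mem_filter.1 hc1).2 hc2) LE (fun d hd => ((hmemE d).1 hd).2)
    LN (fun d hd => ((hmemN d).1 hd).2) (by omega) id (KK r) p hst hlenN.symm hlenE.symm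
  have h2 : Pmap (fm id (LN ++ LE)) (Gam (k := k) r ty M G) = Gam r ty M G := by
    have h3 := hGood.g6 (fm id (LN ++ LE)) id (fun i => rfl)
      (fun l hl _ => fm_mem id ((hmem _).2 hl))
    rw [h3, Pmap_id]
  rw [h2] at h1
  have h4 : PF (k := k) LN = ir ((LN.map fun d => (df ((d, false) : κ × Bool) (d, true) :
      Pg k (κ × Bool)) ^ 2).prod) := by
    unfold PF
    rw [map_list_prod, List.map_map]
    congr 1
    refine List.map_congr_left fun d _ => ?_
    rw [Function.comp_apply, map_pow, Pmap_df]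
  have h5 : PF LN * (Gam r ty M G * il p) ∈ Pext (κ × Bool) P := by
    rw [h4]
    exact Pext_mul _ (Gam_mem hc ty M G hp)
  have h6 := GOL_mem ha hs hc ty (LN ++ LE) M _ hnd (by omega) h5 (fun l hl hul =>
    Dvd.dvd.mul_left (Dvd.dvd.mul_right (PL_Gam (mem_UL.2
      ⟨(Finset.mem_filter.1 ((hmem _).1 hl)).2, hul⟩)) _) _)
  rw [h1] at h6
  set C : ℤ := (((LN.length.factorial * LE.length.factorial : ℕ) : ℤ) *
    ∏ c ∈ (KK r).filter (fun c => ty c = false), (2 * a c c * (1 - a c c)) : ℤ) with hC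
  have hC0 : C ≠ 0 := by
    rw [hC]
    refine mul_ne_zero ?_ ?_
    · exact_mod_cast Nat.mul_ne_zero (Nat.factorial_ne_zero _) (Nat.factorial_ne_zero _)
    · refine Finset.prod_ne_zero_iff.2 fun c hc1 => ?_
      obtain ⟨h7, h8⟩ := ht0 c (Finset.mem_filter.1 (Finset.mem_filter.1 hc1).1).2
        (Finset.mem_filter.1 hc1).2
      refine mul_ne_zero (mul_ne_zero two_ne_zero h7) ?_
      intro h9
      exact h8 (by omega)
  have h7 : ((C : ℤ) : k) • (thS k r * Th1 k r ty ^ M * nn (cl3 r ty) (e3 r) G *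
      pdF (EE r ty) p) ∈ P := by
    refine mem_of_il_mem (Λ := κ × Bool) hs ?_
    rw [map_smul, Algebra.smul_def, map_intCast]
    exact h6
  have h8 := P.smul_mem (((C : ℤ) : k)⁻¹) h7
  rwa [smul_smul, inv_mul_cancel₀ (Int.cast_ne_zero.2 hC0), one_smul] at h8

end

end Pool.Agent.K9h91.WI
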