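import Pool.Agent.K9h91.WI.Oper
import Pool.Agent.K9h91.WI.Abs

/-!
# The main step
-/

set_option autoImplicit false
set_option linter.unusedSectionVars false

namespace Pool.Agent.K9h91.WI

universe u v

section
variable {k : Type u} [Field k] {ι : Type} [Fintype ι] [DecidableEq ι]

lemma cm_add (θ : Pg k ι) (S T : Pg k ι →ₗ[k] Pg k ι) : cm θ (S + T) = cm θ S + cm θ T := by
  ext u
  rw [LinearMap.add_apply, cm_apply, cm_apply, cm_apply, LinearMap.add_apply, LinearMap.add_apply]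
  ring

lemma cm_comp (θ : Pg k ι) (S T : Pg k ι →ₗ[k] Pg k ι) :
    cm θ (S ∘ₗ T) = S ∘ₗ cm θ T + cm θ S ∘ₗ T := by
  ext u
  rw [LinearMap.add_apply, LinearMap.comp_apply, LinearMap.comp_apply, cm_apply, cm_apply,
    cm_apply, LinearMap.comp_apply, LinearMap.comp_apply, map_sub]
  ring

lemma cm_zero (θ : Pg k ι) : cm θ (0 : Pg k ι →ₗ[k] Pg k ι) = 0 := by
  ext u
  rw [cm_apply, LinearMap.zero_apply, LinearMap.zero_apply, mul_zero, sub_zero]

lemma cm_iter_zero (θ : Pg k ι) (n : ℕ) : (cm θ)^[n] (0 : Pg k ι →ₗ[k] Pg k ι) = 0 := by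
  induction n with
  | zero => rfl
  | succ n ih => rw [Function.iterate_succ_apply, cm_zero, ih]

lemma cm_iter_add (θ : Pg k ι) (n : ℕ) : ∀ S T : Pg k ι →ₗ[k] Pg k ι,
    (cm θ)^[n] (S + T) = (cm θ)^[n] S + (cm θ)^[n] T := by
  induction n with
  | zero => intro S T; rfl
  | succ n ih =>
    intro S T
    rw [Function.iterate_succ_apply, Function.iterate_succ_apply, Function.iterate_succ_apply,
      cm_add, ih]

lemma cm_nil (θ : Pg k ι) (n : ℕ) : ∀ (a b : ℕ) (S T : Pg k ι →ₗ[k] Pg k ι), a + b = n →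
    (cm θ)^[a] S = 0 → (cm θ)^[b] T = 0 → (cm θ)^[n] (S ∘ₗ T) = 0 := by
  induction n with
  | zero =>
    intro a b S T hab ha hb
    have ha0 : a = 0 := by omega
    subst ha0
    have hS : S = 0 := ha
    rw [hS, LinearMap.zero_comp]
    rfl
  | succ n ih =>
    intro a b S T hab ha hb
    cases a with
    | zero =>
      have hS : S = 0 := ha
      rw [hS, LinearMap.zero_comp, cm_iter_zero]
    | succ a =>
      cases b with
      | zero =>
        have hT : T = 0 := hb
        rw [hT, LinearMap.comp_zero, cm_iter_zero]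
      | succ b =>
        rw [Function.iterate_succ_apply, cm_comp, cm_iter_add,
          ih (a + 1) b S (cm θ T) (by omega) ha (by rwa [Function.iterate_succ_apply] at hb),
          ih a (b + 1) (cm θ S) T (by omega) (by rwa [Function.iterate_succ_apply] at ha) hb,
          add_zero]

lemma cm_pd (θ : Pg k ι) (D : Derivation k (Pg k ι) (Pg k ι)) :
    (cm θ)^[2] D.toLinearMap = 0 := by
  show cm θ (cm θ D.toLinearMap) = 0
  ext u
  rw [cm_apply, cm_apply, cm_apply, LinearMap.zero_apply]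
  simp only [Derivation.coeFn_coe, leib]
  ring

/-- Congruent elements give the same ideal. -/
lemma sup_span_congr {I : Ideal (Pg k ι)} {x y : Pg k ι} (h : x - y ∈ I) :
    I ⊔ Ideal.span {x} = I ⊔ Ideal.span {y} := by
  apply le_antisymm
  · refine sup_le le_sup_left ?_
    rw [Ideal.span_singleton_le_iff_mem]
    have h2 : x = (x - y) + y * 1 := by ring
    exact span_sup_mem.2 ⟨x - y, h, 1, h2⟩
  · refine sup_le le_sup_left ?_
    rw [Ideal.span_singleton_le_iff_mem]
    have h2 : y = -(x - y) + x * 1 := by ring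
    exact span_sup_mem.2 ⟨-(x - y), I.neg_mem h, 1, h2⟩

lemma sub_pow_mem {I : Ideal (Pg k ι)} {x y : Pg k ι} (h : x - y ∈ I) (n : ℕ) :
    x ^ n - y ^ n ∈ I := by
  obtain ⟨c, hc⟩ := sub_dvd_pow_sub_pow x y n
  rw [hc]
  exact Ideal.mul_mem_right _ _ h

/-- Determinants in a subalgebra. -/
lemma det_mem {s : ℕ} (B : Subalgebra k (Pg k ι)) (X : Matrix (Fin s) (Fin s) (Pg k ι))
    (h : ∀ i j, X i j ∈ B) : X.det ∈ B := by
  rw [Matrix.det_apply']
  exact Subalgebra.sum_mem _ fun σ _ => Subalgebra.mul_mem _ (intCast_mem B _)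
    (Subalgebra.prod_mem _ fun i _ => h _ _)

/-- The shape of the divided differences. -/
lemma hh_form (n : ℤ) : ∃ (N : ℕ) (c : ℤ) (f g : ℕ → ℤ), ∀ i j : ι,
    hh (k := k) n i j = (c : Pg k ι) * ∑ l ∈ Finset.range N, tv i (f l) * tv j (g l) := by
  cases n with
  | ofNat N =>
    refine ⟨N, 1, fun l => (l : ℤ) * 1, fun l => ((N - 1 - l : ℕ) : ℤ) * 1, fun i j => ?_⟩
    show ∑ l ∈ Finset.range N, tv i 1 ^ l * tv j 1 ^ (N - 1 - l) = _
    rw [Int.cast_one, one_mul]
    exact Finset.sum_congr rfl fun l _ => by rw [tv_pow, tv_pow]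
  | negSucc N =>
    refine ⟨N + 1, -1, fun l => -1 + (l : ℤ) * (-1), fun l => -1 + ((N - l : ℕ) : ℤ) * (-1),
      fun i j => ?_⟩
    show -(tv i (-1) * tv j (-1) * ∑ l ∈ Finset.range (N + 1), tv i (-1) ^ l *
      tv j (-1) ^ (N - l)) = _
    rw [Int.cast_neg, Int.cast_one, neg_one_mul, Finset.mul_sum]
    congr 1
    refine Finset.sum_congr rfl fun l _ => ?_
    rw [tv_pow, tv_pow, tv_add, tv_add]
    ring

lemma hh_sum_mem (B : Subalgebra k (Pg k ι)) (α β : ι → ℤ)
    (hα : ∀ m, ∑ i, ((α i : ℤ) : Pg k ι) * tv i m ∈ B)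
    (hβ : ∀ m, ∑ i, ((β i : ℤ) : Pg k ι) * tv i m ∈ B) (n : ℤ) :
    ∑ i, ∑ j, (((α i * β j : ℤ)) : Pg k ι) * hh n i j ∈ B := by
  obtain ⟨N, c, f, g, h⟩ := hh_form (k := k) (ι := ι) n
  have h1 : ∑ i, ∑ j, (((α i * β j : ℤ)) : Pg k ι) * hh n i j =
      (c : Pg k ι) * ∑ l ∈ Finset.range N, (∑ i, ((α i : ℤ) : Pg k ι) * tv i (f l)) *
        (∑ j, ((β j : ℤ) : Pg k ι) * tv j (g l)) := by
    rw [Finset.mul_sum]
    have h2 : ∀ l, (c : Pg k ι) * ((∑ i, ((α i : ℤ) : Pg k ι) * tv i (f l)) *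
        (∑ j, ((β j : ℤ) : Pg k ι) * tv j (g l))) =
        ∑ i, ∑ j, ((α i * β j : ℤ) : Pg k ι) * ((c : Pg k ι) * (tv i (f l) * tv j (g l))) := by
      intro l
      rw [Finset.sum_mul_sum, Finset.mul_sum]
      refine Finset.sum_congr rfl fun i _ => ?_
      rw [Finset.mul_sum]
      refine Finset.sum_congr rfl fun j _ => ?_
      push_cast
      ring
    simp only [h2]
    rw [Finset.sum_comm (s := Finset.range N)]
    refine Finset.sum_congr rfl fun i _ => ?_
    rw [Finset.sum_comm (s := Finset.range N)]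
    refine Finset.sum_congr rfl fun j _ => ?_
    rw [h, Finset.mul_sum, Finset.mul_sum]
  rw [h1]
  exact Subalgebra.mul_mem _ (intCast_mem B _)
    (Subalgebra.sum_mem _ fun l _ => Subalgebra.mul_mem _ (hα _) (hβ _))

end

section
variable {k : Type u} [Field k] [CharZero k] {κ : Type} [Fintype κ] [DecidableEq κ]

/-- Power sums with weights constant on the classes. -/
lemma wsum_BB (cl : κ → Fin 3) (e : κ → ℕ) (z : Pg k κ) (c : Fin 3 → ℤ) (m : ℤ) :
    ∑ i, ((c (cl i) * e i : ℤ) : Pg k κ) * tv i m ∈ BB cl e z := by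
  have h1 : ∑ i, ((c (cl i) * e i : ℤ) : Pg k κ) * tv i m =
      ∑ b, (c b : Pg k κ) * ∑ i, if cl i = b then (e i : Pg k κ) * tv i m else 0 := by
    simp only [Finset.mul_sum]
    rw [Finset.sum_comm]
    refine Finset.sum_congr rfl fun i _ => ?_
    simp only [mul_ite, mul_zero]
    rw [Finset.sum_ite_eq, if_pos (Finset.mem_univ _)]
    push_cast
    ring
  rw [h1]
  exact Subalgebra.sum_mem _ fun b _ => Subalgebra.mul_mem _ (intCast_mem _ _)
    (powersum_BB cl e z m b)

lemma r_eq (r : κ → ℕ) (ty : κ → Bool) (i : κ) :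
    ((r i + w3 r ty i : ℕ) : ℤ) = (![1, 2, 1] : Fin 3 → ℤ) (cl3 r ty i) * e3 r i := by
  unfold w3 cl3 e3
  by_cases h : r i = 0
  · by_cases h2 : ty i = true
    · simp [h, h2]
    · simp [h, h2]
  · simp [h]

lemma w_eq (r : κ → ℕ) (ty : κ → Bool) (i : κ) :
    ((w3 r ty i : ℕ) : ℤ) = (![0, 2, 1] : Fin 3 → ℤ) (cl3 r ty i) * e3 r i := by
  unfold w3 cl3 e3
  by_cases h : r i = 0
  · by_cases h2 : ty i = true
    · simp [h, h2]
    · simp [h, h2]
  · simp [h]

lemma ww_eq (r : κ → ℕ) (ty : κ → Bool) (i : κ) :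
    ((w3 r ty i * w3 r ty i : ℕ) : ℤ) =
      (![0, 4, 1] : Fin 3 → ℤ) (cl3 r ty i) * e3 r i := by
  unfold w3 cl3 e3
  by_cases h : r i = 0
  · by_cases h2 : ty i = true
    · simp [h, h2]
    · simp [h, h2]
  · simp [h]

/-- The twist of the product of differences. -/
def b3z (r : κ → ℕ) (ty : κ → Bool) : κ → κ → ℤ := fun i c => (b3 r ty i c : ℤ)

lemma b3_self (r : κ → ℕ) (ty : κ → Bool) (i : κ) : b3 r ty i i = 0 := by
  unfold b3 w3
  by_cases h : r i = 0
  · simp [h]
  · simp [h]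

lemma LD_Th1 (r : κ → ℕ) (ty : κ → Bool) (n : ℤ) :
    LD n (Th1 k r ty) (ph (b3z r ty) n) := by
  have h1 : LD n (Th1 k r ty) (∑ i, ∑ c, (b3 r ty i c : Pg k κ) * hh n i c) :=
    LD.prod _ fun i _ => LD.prod _ fun c _ => (LD_sub n i c).pow _
  have h2 : ph (k := k) (b3z r ty) n = ∑ i, ∑ c, (b3 r ty i c : Pg k κ) * hh n i c := by
    unfold ph b3z
    simp only [Int.cast_natCast]
  rw [h2]
  exact h1

lemma ph_b3_mem (r : κ → ℕ) (ty : κ → Bool) (z : Pg k κ) (n : ℤ) :
    ph (b3z r ty) n ∈ BB (cl3 r ty) (e3 r) z := by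
  have h1 : ph (k := k) (b3z r ty) n =
      (∑ i, ∑ j, ((((r i + w3 r ty i : ℕ) : ℤ) * ((w3 r ty j : ℕ) : ℤ) : ℤ) : Pg k κ) *
        hh n i j) - (n : Pg k κ) *
        ∑ i, ((((w3 r ty i * w3 r ty i : ℕ) : ℤ) : Pg k κ)) * tv i (n - 1) := by
    unfold ph b3z b3
    rw [Finset.mul_sum, ← Finset.sum_sub_distrib]
    refine Finset.sum_congr rfl fun i _ => ?_
    have h2 : (n : Pg k κ) * (((((w3 r ty i * w3 r ty i : ℕ) : ℤ) : Pg k κ)) * tv i (n - 1)) =
        ∑ j, if i = j then ((w3 r ty i * w3 r ty j : ℕ) : Pg k κ) * hh n i j else 0 := by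
      rw [Finset.sum_ite_eq, if_pos (Finset.mem_univ _), hh_self]
      push_cast
      ring
    rw [h2, ← Finset.sum_sub_distrib]
    refine Finset.sum_congr rfl fun j _ => ?_
    split_ifs with h3
    · push_cast
      ring
    · push_cast
      ring
  rw [h1]
  refine Subalgebra.sub_mem _ (hh_sum_mem _ _ _ (fun m => ?_) (fun m => ?_) n)
    (Subalgebra.mul_mem _ (intCast_mem _ _) ?_)
  · simp only [r_eq]
    exact wsum_BB _ _ _ _ _
  · simp only [w_eq]
    exact wsum_BB _ _ _ _ _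
  · simp only [ww_eq]
    exact wsum_BB _ _ _ _ _

lemma pdL_xx (l : List κ) (m : ℤ) : ∀ u : Pg k κ, pdL l (xx m * u) = xx m * pdL l u := by
  induction l with
  | nil => intro u; rfl
  | cons e l ih =>
    intro u
    rw [pdL_cons, leib, pd_xx, mul_zero, add_zero, ih, pdL_cons]

lemma pdL_mem_qq {r : κ → ℕ} (l : List κ) : (∀ e ∈ l, r e = 0) →
    ∀ u : Pg k κ, u ∈ qq r → pdL l u ∈ qq r := by
  induction l with
  | nil => intro _ u hu; exact hu
  | cons e l ih =>
    intro h u hu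
    rw [pdL_cons]
    exact ih (fun e' he' => h e' (List.mem_cons_of_mem _ he')) _
      (pd_mem_qq (h e List.mem_cons_self) hu)

lemma pdL_Dt (l : List κ) : ∀ a : κ → κ → ℤ, l.Nodup → (∀ e ∈ l, Sep e a ∧ a e e = 0) →
    ∀ (n : ℤ) (u : Pg k κ), pdL l (Dt a n u) =
      Dt (a + (l.map fun e => eu e e).sum) n (pdL l u) := by
  induction l with
  | nil =>
    intro a _ _ n u
    rw [List.map_nil, List.sum_nil, add_zero]
    rfl
  | cons e l ih =>
    intro a hnd hl n u
    obtain ⟨hd, hnd'⟩ := List.nodup_cons.1 hnd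
    obtain ⟨hsep, h0⟩ := hl e List.mem_cons_self
    rw [pdL_cons, pd_Dt hsep h0, ih (a + eu e e) hnd' (fun e' he' =>
      ⟨Sep_add (hl e' (List.mem_cons_of_mem _ he')).1, by
        have h3 : e' ≠ e := fun h4 => hd (h4 ▸ he')
        rw [Pi.add_apply, Pi.add_apply, (hl e' (List.mem_cons_of_mem _ he')).2]
        unfold eu
        rw [Pi.single_eq_of_ne h3, Pi.zero_apply, add_zero]⟩), pdL_cons, List.map_cons,
      List.sum_cons, add_assoc]

lemma cm_pdL (θ : Pg k κ) (l : List κ) : ∃ L, (cm θ)^[L] (pdL (k := k) l) = 0 := by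
  induction l with
  | nil =>
    refine ⟨1, ?_⟩
    show cm θ LinearMap.id = 0
    ext u
    rw [cm_apply, LinearMap.id_apply, LinearMap.id_apply, sub_self, LinearMap.zero_apply]
  | cons e l ih =>
    obtain ⟨L, hL⟩ := ih
    exact ⟨L + 2, cm_nil θ (L + 2) L 2 _ _ rfl hL (cm_pd θ (pd e))⟩

lemma pdL_int (l : List κ) (n : ℤ) (u : Pg k κ) :
    pdL l ((n : Pg k κ) * u) = (n : Pg k κ) * pdL l u := by
  rw [int_mul_eq_smul, map_smul, int_mul_eq_smul]

lemma diag_mono (l : List κ) (β : ℤ →₀ ℕ) : ∀ a : κ → ℤ, l.Nodup →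
    (l.map fun e => tv (k := k) e 1).prod * pdL l (mono a β) =
      (((l.map a).prod : ℤ) : Pg k κ) * mono a β := by
  induction l with
  | nil =>
    intro a _
    simp [pdL_nil]
  | cons e l ih =>
    intro a hnd
    obtain ⟨hd, hnd'⟩ := List.nodup_cons.1 hnd
    have h1 : l.map (a - Pi.single e 1) = l.map a := by
      refine List.map_congr_left fun e' he' => ?_
      have h3 : e' ≠ e := fun h4 => hd (h4 ▸ he')
      rw [Pi.sub_apply, Pi.single_eq_of_ne h3, sub_zero]
    have h2 := ih (a - Pi.single e 1) hnd'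
    rw [h1] at h2
    have h3 : tv (k := k) e 1 * mono (a - Pi.single e 1) β = mono a β := by
      rw [tv_mul_mono, add_sub_cancel]
    rw [pdL_cons, pd_mono, pdL_int, List.map_cons, List.prod_cons, List.map_cons,
      List.prod_cons]
    calc tv e 1 * (l.map fun e => tv (k := k) e 1).prod *
          ((a e : Pg k κ) * pdL l (mono (a - Pi.single e 1) β)) =
          (a e : Pg k κ) * (tv e 1 * ((l.map fun e => tv (k := k) e 1).prod *
            pdL l (mono (a - Pi.single e 1) β))) := by ring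
      _ = ((a e * (l.map a).prod : ℤ) : Pg k κ) * (tv e 1 * mono (a - Pi.single e 1) β) := by
          rw [h2]
          push_cast
          ring
      _ = _ := by rw [h3]

lemma prod_tv_ne (l : List κ) : (l.map fun e => tv (k := k) e 1).prod ≠ 0 := by
  rw [Ne, List.prod_eq_zero_iff, List.mem_map]
  rintro ⟨e, _, he⟩
  have h1 := tv_neg_mul (k := k) e 1
  rw [he, mul_zero] at h1
  exact zero_ne_one h1

lemma diag_poly (l : List κ) (hnd : l.Nodup) (h : Pg k κ) :
    ∃ p : Polynomial k, p.coeff 0 ≠ 0 ∧ pdL l (Polynomial.aeval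
      (LinearMap.mulLeft k ((l.map fun e => tv (k := k) e 1).prod) ∘ₗ pdL l :
        Module.End k (Pg k κ)) p h) = 0 := by
  set τ := (l.map fun e => tv (k := k) e 1).prod with hτ
  set S : Module.End k (Pg k κ) := LinearMap.mulLeft k τ ∘ₗ pdL l with hS
  have hSa : ∀ u, S u = τ * pdL l u := fun u => rfl
  have key : ∃ p : Polynomial k, p.coeff 0 ≠ 0 ∧ S (Polynomial.aeval S p h) = 0 := by
    have hcomm : ∀ (p : Polynomial k) (u : Pg k κ),
        S (Polynomial.aeval S p u) = Polynomial.aeval S p (S u) := by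
      intro p u
      have h1 := (Commute.all (Polynomial.X : Polynomial k) p).map (Polynomial.aeval S)
      rw [Polynomial.aeval_X] at h1
      exact LinearMap.congr_fun h1.eq u
    induction h using mono_induction with
    | h0 => exact ⟨1, by simp, by simp⟩
    | hadd u v hu hv =>
      obtain ⟨p, hp, hpu⟩ := hu
      obtain ⟨q, hq, hqv⟩ := hv
      refine ⟨p * q, by rw [Polynomial.mul_coeff_zero]; exact mul_ne_zero hp hq, ?_⟩
      have h1 : Polynomial.aeval S (p * q) u = Polynomial.aeval S q (Polynomial.aeval S p u) := by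
        rw [mul_comm, map_mul]
        rfl
      have h2 : Polynomial.aeval S (p * q) v = Polynomial.aeval S p (Polynomial.aeval S q v) := by
        rw [map_mul]
        rfl
      rw [map_add, map_add, h1, h2, hcomm q (Polynomial.aeval S p u), hpu,
        hcomm p (Polynomial.aeval S q v), hqv, map_zero, map_zero, add_zero]
    | hm c a β =>
      have h1 : S (mono a β) = (((l.map a).prod : ℤ) : k) • mono a β := by
        rw [hSa, hτ, diag_mono l β a hnd, int_mul_eq_smul]
      by_cases h0 : (l.map a).prod = 0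
      · refine ⟨1, by simp, ?_⟩
        rw [map_one, Module.End.one_apply, map_smul, h1, h0, Int.cast_zero, zero_smul, smul_zero]
      · refine ⟨Polynomial.X - Polynomial.C (((l.map a).prod : ℤ) : k), ?_, ?_⟩
        · rw [Polynomial.coeff_sub, Polynomial.coeff_X_zero, Polynomial.coeff_C_zero, zero_sub]
          exact neg_ne_zero.2 (Int.cast_ne_zero.2 h0)
        · rw [map_sub, Polynomial.aeval_X, Polynomial.aeval_C, LinearMap.sub_apply,
            Module.algebraMap_end_apply, map_smul, h1, smul_smul, smul_smul, mul_comm, sub_self,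
            map_zero]
  obtain ⟨p, hp, h1⟩ := key
  refine ⟨p, hp, ?_⟩
  rw [hSa] at h1
  exact (mul_eq_zero.1 h1).resolve_left (prod_tv_ne l)

lemma Sep_of_diag {a : κ → κ → ℤ} (ha : ∀ i j, i ≠ j → a i j = 0) (e : κ) : Sep e a :=
  fun j hj => ⟨ha e j (Ne.symm hj), ha j e hj⟩

lemma Off_of_diag {a : κ → κ → ℤ} (ha : ∀ i j, i ≠ j → a i j = 0) : Off a :=
  fun i j hij => (ha i j hij).ge

lemma SQ_thS {r : κ → ℕ} (hM2 : ∀ i, r i ≠ 0 → Main k κ (r - Pi.single i 1)) :
    SQ r (thS k r) := by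
  refine SQ.prod _ fun i _ => ?_
  by_cases hi : r i = 0
  · rw [hi, pow_zero]
    exact SQ_one r
  · refine SQ.pow ?_ _
    have h1 := SQ_ww i (hM2 i hi)
    have h2 : r - Pi.single i 1 + Pi.single i 1 = r := by
      funext j
      by_cases hj : j = i
      · subst hj
        rw [Pi.add_apply, Pi.sub_apply, Pi.single_eq_same]
        omega
      · rw [Pi.add_apply, Pi.sub_apply, Pi.single_eq_of_ne hj, Nat.sub_zero, add_zero]
    rwa [h2] at h1

lemma SQ_Th1 {r : κ → ℕ} (ty : κ → Bool) (hM1 : ∀ (e : κ) r', Main k {x // x ≠ e} r') :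
    SQ r (Th1 k r ty) := by
  refine SQ.prod _ fun i _ => SQ.prod _ fun c _ => ?_
  by_cases hic : i = c
  · subst hic
    rw [b3_self, pow_zero]
    exact SQ_one r
  · exact (SQ_sub (Ne.symm hic) r (hM1 i)).pow _

lemma ph_sum_eu (l : List κ) (n : ℤ) :
    ph (k := k) ((l.map fun e => eu e e).sum) n = (l.map fun e => hh n e e).sum := by
  induction l with
  | nil => exact ph_zero n
  | cons e l ih => rw [List.map_cons, List.sum_cons, ph_add, ph_eu, ih, List.map_cons,
      List.sum_cons]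

lemma mset_mem {P : Submodule k (Pg k κ)} (h : ∀ m u, u ∈ P → xx m * u ∈ P) (β : Multiset ℤ)
    {u : Pg k κ} (hu : u ∈ P) : (β.map xx).prod * u ∈ P := by
  induction β using Multiset.induction_on with
  | empty =>
    rw [Multiset.map_zero, Multiset.prod_zero, one_mul]
    exact hu
  | cons m β ih =>
    rw [Multiset.map_cons, Multiset.prod_cons, mul_assoc]
    exact h m _ ih

/-- **The main step**: diagonal twists without dead clusters of weight one. -/
theorem step {r : κ → ℕ} {a : κ → κ → ℤ} (ha : ∀ i j, i ≠ j → a i j = 0)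
    (hdead : ∀ c, r c = 0 → a c c ≠ 1)
    (hM1 : ∀ (e : κ) r', Main k {x // x ≠ e} r')
    (hM2 : ∀ i, r i ≠ 0 → Main k κ (r - Pi.single i 1)) :
    NN a (qq (k := k) r : Set (Pg k κ)) := by
  classical
  set ty : κ → Bool := fun c => decide (a c c = 0) with hty
  have ht1 : ∀ c, r c = 0 → ty c = true → a c c = 0 := fun c _ h => of_decide_eq_true h
  have ht0 : ∀ c, r c = 0 → ty c = false → a c c ≠ 0 ∧ a c c ≠ 1 := fun c hc h =>
    ⟨of_decide_eq_false h, hdead c hc⟩
  set M := 2 * Fintype.card κ + 4 with hM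
  set z := Th1 k r ty ^ M with hz
  set B := BB (cl3 r ty) (e3 r) z with hB
  obtain ⟨ε, hε⟩ := gram (k := k) r
  have hε1 := hε 1
  have h1 : ∏ i, evo i (1 : Pg k (Option κ)) ^ r i = 1 :=
    Finset.prod_eq_one fun i _ => by rw [map_one, one_pow]
  rw [h1, mul_one] at hε1
  set δ := ((ε : ℤ) : Pg k κ) * (Hk (sr r) (1 : Pg k (Option κ))).det with hδ
  have hδB : δ ∈ B := Subalgebra.mul_mem _ (intCast_mem _ _) (det_mem _ _ fun i j => by
    show xlin (1 * tv none _) ∈ B
    rw [one_mul, xlin_tv]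
    exact xx_BB _ _ _ _)
  set lE := (EE r ty).toList with hlE
  have hlnd : lE.Nodup := Finset.nodup_toList _
  have hlmem : ∀ e, e ∈ lE → r e = 0 ∧ ty e = true := by
    intro e he
    rw [hlE, Finset.mem_toList, Finset.mem_filter, Finset.mem_filter] at he
    exact ⟨he.1.2, he.2⟩
  have hsepE : ∀ e ∈ lE, Sep e a ∧ a e e = 0 := fun e he =>
    ⟨Sep_of_diag ha e, ht1 e (hlmem e he).1 (hlmem e he).2⟩
  set θ := δ * z with hθ
  have hθB : θ ∈ B := Subalgebra.mul_mem _ hδB (z_BB _ _ _)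
  set τ := (lE.map fun e => tv (k := k) e 1).prod with hτ
  have hτB : τ ∈ B := by
    have h2 : τ = nn (cl3 r ty) (e3 r)
        (![1, 1, AddMonoidAlgebra.single 1 1] : Fin 3 → AddMonoidAlgebra k ℤ) := by
      rw [nn_split, hτ, hlE, Finset.prod_map_toList, Finset.prod_filter]
      have h3 : ∏ i : κ, gev (k := k) i ((![1, 1, AddMonoidAlgebra.single 1 1] :
          Fin 3 → AddMonoidAlgebra k ℤ) 0) ^ r i = 1 :=
        Finset.prod_eq_one fun i _ => by
          rw [show (![1, 1, AddMonoidAlgebra.single 1 1] : Fin 3 → AddMonoidAlgebra k ℤ) 0 = 1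
            from rfl, map_one, one_pow]
      rw [h3, one_mul]
      refine Finset.prod_congr rfl fun d hd => ?_
      have hd2 := (Finset.mem_filter.1 hd).2
      unfold cl3
      rw [if_pos hd2]
      by_cases h4 : ty d = true
      · rw [if_pos h4, if_pos h4, show (![1, 1, AddMonoidAlgebra.single 1 1] :
          Fin 3 → AddMonoidAlgebra k ℤ) 2 = AddMonoidAlgebra.single 1 1 from rfl, gev_single,
          one_smul]
      · rw [if_neg h4, if_neg h4, show (![1, 1, AddMonoidAlgebra.single 1 1] :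
          Fin 3 → AddMonoidAlgebra k ℤ) 1 = 1 from rfl, map_one]
    rw [h2]
    exact nn_BB _ _ _ _
  have hθI : θ - thS k r * z ∈ qq r := by
    rw [hθ, ← sub_mul]
    exact Ideal.mul_mem_right _ _ hε1
  have hSQ : SQ r (thS k r * z) := (SQ_thS hM2).mul ((SQ_Th1 ty hM1).pow M)
  have hid : ∀ n, qq r ⊔ Ideal.span {θ ^ n} = qq r ⊔ Ideal.span {(thS k r * z) ^ n} := fun n =>
    sup_span_congr (sub_pow_mem hθI n)
  have hoff := Off_of_diag ha
  refine main_abs (I := qq r) (a := a) (a' := a + (lE.map fun e => eu e e).sum) B (θ := θ)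
    (τ := τ) (T := pdL lE) hθB hτB (fun m u => pdL_xx lE m u)
    (fun n u => pdL_Dt lE a hlnd hsepE n u) (fun n u hu => Dt_mem_qq _ hu n)
    (fun u hu => pdL_mem_qq lE (fun e he => (hlmem e he).1) u hu) ?_ ?_ ?_ ?_ ?_ ?_ ?_
    (cm_pdL θ lE) (fun h => diag_poly lE hlnd h)
  · intro n b hb
    refine DD_BB _ _ n ?_ hb
    have h2 : DD n z = z * ((M : Pg k κ) * ph (b3z r ty) n) := (LD_Th1 r ty n).pow M
    rw [h2]
    exact Subalgebra.mul_mem _ (z_BB _ _ _) (Subalgebra.mul_mem _ (natCast_mem _ _)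
      (ph_b3_mem r ty z n))
  · intro n
    rw [ph_add, add_sub_cancel_left, ph_sum_eu, hlE, Finset.sum_map_toList]
    have h2 := Subalgebra.mul_mem _ (intCast_mem B n)
      (powersum_BB (k := k) (cl3 r ty) (e3 r) z (n - 1) 2)
    have h3 : ∑ e ∈ EE r ty, hh (k := k) n e e = (n : Pg k κ) * ∑ i, if cl3 r ty i = 2 then
        (e3 r i : Pg k κ) * tv i (n - 1) else 0 := by
      rw [Finset.sum_filter, Finset.sum_filter, Finset.mul_sum]
      refine Finset.sum_congr rfl fun i _ => ?_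
      unfold cl3 e3
      by_cases h4 : r i = 0
      · by_cases h5 : ty i = true
        · simp [h4, h5, hh_self]
        · simp [h4, h5]
      · simp [h4]
    rw [h3]
    exact h2
  · intro P hs hc p hp b hb
    refine BB_induction (p := fun b => θ * b * pdL lE p ∈ P) ?_ ?_ ?_ ?_ hb
    · rw [mul_zero, zero_mul]
      exact P.zero_mem
    · intro u v hu hv
      rw [mul_add, add_mul]
      exact P.add_mem hu hv
    · intro c u hu
      rw [mul_smul_comm, smul_mul_assoc]
      exact P.smul_mem _ hu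
    · intro β G i
      have h2 : 2 * Fintype.card κ + 4 ≤ M * (i + 1) := Nat.le_mul_of_pos_right _ (Nat.succ_pos i)
      have h3 := oper ha ht1 ht0 hs hc G h2 hp
      have h4 : (δ - thS k r) * (z ^ (i + 1) * nn (cl3 r ty) (e3 r) G * pdL lE p) ∈ P :=
        hc (Ideal.mul_mem_right _ _ hε1)
      have h5 : thS k r * Th1 k r ty ^ (M * (i + 1)) * nn (cl3 r ty) (e3 r) G *
          pdF (EE r ty) p + (δ - thS k r) * (z ^ (i + 1) * nn (cl3 r ty) (e3 r) G * pdL lE p) =
          δ * z ^ (i + 1) * nn (cl3 r ty) (e3 r) G * pdL lE p := by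
        have h6 : pdF (EE r ty) p = pdL lE p := rfl
        rw [h6, pow_mul, ← hz]
        ring
      have h7 := P.add_mem h3 h4
      rw [h5] at h7
      have h8 := mset_mem hs.x β h7
      have h9 : θ * ((β.map xx).prod * nn (cl3 r ty) (e3 r) G * z ^ i) * pdL lE p =
          (β.map xx).prod * (δ * z ^ (i + 1) * nn (cl3 r ty) (e3 r) G * pdL lE p) := by
        rw [hθ]
        ring
      rw [h9]
      exact h8
  · intro N hN hc
    exact noeth_BB r (cl3 r ty) (e3 r) z (e3_ne r) N hN hc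
  · intro n
    rw [hid]
    exact (hSQ.pow n).2 a hoff
  · intro n m u hu
    rw [hid] at hu ⊢
    obtain ⟨c, _, hc⟩ := (hSQ.pow n).1
    obtain ⟨q, hq, v, rfl⟩ := span_sup_mem.1 hu
    rw [map_add]
    refine Ideal.add_mem _ (Ideal.mem_sup_left (Dt_mem_qq a hq m)) ?_
    have h2 := Dt_mul_mod a c m v (hc m)
    refine span_sup_mem.2 ⟨_, h2, Dt (a + c) m v, ?_⟩
    ring
  · intro P hP hs hc
    exact ker_chain hM1 lE hlnd (fun e he => (hlmem e he).1) a hoff hsepE P hP hs hc

end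

end Pool.Agent.K9h91.WI
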