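import Pool.Agent.K9h91.WI.NN

/-!
# The quotient by `qq r`: regularity of `t_i - t_j` and finite generation
-/

set_option autoImplicit false
set_option linter.unusedSectionVars false

namespace Pool.Agent.K9h91.WI

universe u v

open Polynomial in
section
variable {k : Type u} [Field k] {ι : Type} [Fintype ι] [DecidableEq ι]

instance instDom : IsDomain (Pg k ι) := (eP (k := k) (ι := ι)).toMulEquiv.isDomain

/-- The subring of Laurent polynomials. -/
noncomputable def TT (k : Type u) [Field k] (ι : Type) : Subalgebra k (Pg k ι) :=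
  Algebra.adjoin k (Set.range tt)

lemma tt_TT (a : ι → ℤ) : tt a ∈ TT k ι := Algebra.subset_adjoin ⟨a, rfl⟩

lemma tv_TT (i : ι) (n : ℤ) : tv i n ∈ TT k ι := tt_TT _

/-- The variable `t_i` in the subring. -/
noncomputable def ti (i : ι) : TT k ι := ⟨tv i 1, tv_TT i 1⟩

lemma isUnit_ti (i : ι) : IsUnit (ti (k := k) i) := by
  have h : (⟨tv i (-1), tv_TT i (-1)⟩ : TT k ι) * ti i = 1 := by
    apply Subtype.ext
    exact tv_neg_mul i 1
  exact IsUnit.of_mul_eq_one_right _ h

/-- The polynomial `∏ (X - t_i)^{r i}`. -/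
noncomputable def gg (r : ι → ℕ) : (TT k ι)[X] := ∏ i, (X - C (ti i)) ^ r i

lemma gg_monic (r : ι → ℕ) : (gg (k := k) r).Monic :=
  Polynomial.monic_prod_of_monic _ _ fun i _ => (Polynomial.monic_X_sub_C _).pow _

/-- Evaluation at `T`. -/
noncomputable def evT : (TT k ι)[X] →+* Pg k (Option ι) :=
  Polynomial.eval₂RingHom ((jj (k := k) (ι := ι)).toRingHom.comp (TT k ι).val.toRingHom) (tv none 1)

lemma evT_X : evT (k := k) (ι := ι) X = tv none 1 := by
  unfold evT
  simp

lemma evT_C (c : TT k ι) : evT (C c) = jj c.1 := by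
  unfold evT
  simp

lemma evT_gg (r : ι → ℕ) : evT (gg (k := k) r) = P0 r := by
  unfold gg P0
  rw [map_prod]
  refine Finset.prod_congr rfl fun i _ => ?_
  rw [map_pow, map_sub, evT_X, evT_C]
  unfold ti
  rw [Pmap_tv]

lemma isUnit_root (r : ι → ℕ) : IsUnit (AdjoinRoot.root (gg (k := k) r)) := by
  have h1 : IsUnit ((gg (k := k) r).coeff 0) := by
    rw [Polynomial.coeff_zero_eq_eval_zero]
    unfold gg
    rw [Polynomial.eval_prod]
    refine Finset.prod_induction _ IsUnit (fun _ _ => IsUnit.mul) isUnit_one fun i _ => ?_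
    rw [Polynomial.eval_pow, Polynomial.eval_sub, Polynomial.eval_X, Polynomial.eval_C, zero_sub]
    exact (isUnit_ti i).neg.pow _
  have h2 : AdjoinRoot.mk (gg (k := k) r) (gg r) = 0 := AdjoinRoot.mk_self
  rw [← Polynomial.divX_mul_X_add (gg (k := k) r)] at h2
  have h3 : AdjoinRoot.mk (gg (k := k) r) (gg r).divX * AdjoinRoot.root (gg r) +
      AdjoinRoot.of (gg r) ((gg r).coeff 0) = 0 := by
    have h4 : AdjoinRoot.mk (gg (k := k) r) ((gg r).divX * X + C ((gg r).coeff 0)) = 0 := by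
      rw [Polynomial.divX_mul_X_add]
      exact AdjoinRoot.mk_self
    rw [map_add, map_mul, AdjoinRoot.mk_X, AdjoinRoot.mk_C] at h4
    exact h4
  have h5 : IsUnit (AdjoinRoot.mk (gg (k := k) r) (gg r).divX * AdjoinRoot.root (gg r)) := by
    rw [eq_neg_of_add_eq_zero_left h3]
    exact (h1.map (AdjoinRoot.of (gg r))).neg
  exact isUnit_of_mul_isUnit_right h5

/-- The root as a unit. -/
noncomputable def ru (r : ι → ℕ) : (AdjoinRoot (gg (k := k) r))ˣ := (isUnit_root r).unit

lemma ru_val (r : ι → ℕ) : (ru (k := k) r : AdjoinRoot (gg (k := k) r)) = AdjoinRoot.root _ := rfl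

/-- The powers of the root form a basis. -/
noncomputable def rb (r : ι → ℕ) :
    Module.Basis (Fin (AdjoinRoot.powerBasis' (gg_monic (k := k) r)).dim) (TT k ι)
      (AdjoinRoot (gg (k := k) r)) := (AdjoinRoot.powerBasis' (gg_monic r)).basis

lemma rb_apply (r : ι → ℕ) (l) : rb (k := k) r l = AdjoinRoot.root _ ^ (l : ℕ) := by
  unfold rb
  rw [PowerBasis.basis_eq_pow, AdjoinRoot.powerBasis'_gen]

/-- The functional `root^l ↦ x_l`, `l < s`. -/
noncomputable def La (r : ι → ℕ) : AdjoinRoot (gg (k := k) r) →ₗ[TT k ι] Pg k ι :=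
  (rb r).constr (TT k ι) fun l => xx (l : ℕ)

/-- The reduction endomorphism. -/
noncomputable def Red (r : ι → ℕ) : Pg k ι →ₐ[k] Pg k ι :=
  mkHom
    { toFun := fun a => tt a.toAdd
      map_one' := tt_zero
      map_mul' := fun a b => tt_add a.toAdd b.toAdd }
    (fun m => La r ((ru r ^ m : (AdjoinRoot (gg (k := k) r))ˣ) : AdjoinRoot (gg (k := k) r)))

lemma Red_tt (r : ι → ℕ) (a : ι → ℤ) : Red (k := k) r (tt a) = tt a := by
  unfold Red
  rw [mkHom_tt]
  rfl

lemma Red_xx (r : ι → ℕ) (m : ℤ) : Red (k := k) r (xx m) =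
    La r ((ru r ^ m : (AdjoinRoot (gg (k := k) r))ˣ) : AdjoinRoot (gg (k := k) r)) := by
  unfold Red
  rw [mkHom_xx]

lemma Red_TT (r : ι → ℕ) {v : Pg k ι} (hv : v ∈ TT k ι) : Red r v = v := by
  unfold TT at hv
  induction hv using Algebra.adjoin_induction with
  | mem x hx =>
    obtain ⟨a, rfl⟩ := hx
    exact Red_tt r a
  | algebraMap c => rw [AlgHom.commutes]
  | add x y _ _ hx hy => rw [map_add, hx, hy]
  | mul x y _ _ hx hy => rw [map_mul, hx, hy]

lemma Red_xlin_evT (r : ι → ℕ) (m : ℤ) (F : (TT k ι)[X]) :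
    Red r (xlin (tv none m * evT F)) =
      La r (((ru r ^ m : (AdjoinRoot (gg (k := k) r))ˣ) : AdjoinRoot (gg (k := k) r)) *
        AdjoinRoot.mk _ F) := by
  induction F using Polynomial.induction_on' with
  | add p q hp hq => rw [map_add, mul_add, map_add, map_add, hp, hq, map_add, mul_add, map_add]
  | monomial n c =>
    have h1 : tv none m * evT (Polynomial.monomial n c) = jj c.1 * tv none (m + n) := by
      rw [← Polynomial.C_mul_X_pow_eq_monomial, map_mul, map_pow, evT_X, evT_C, tv_pow, mul_one,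
        tv_add]
      ring
    have h2 : ((ru r ^ m : (AdjoinRoot (gg (k := k) r))ˣ) : AdjoinRoot (gg (k := k) r)) *
        AdjoinRoot.mk _ (Polynomial.monomial n c) =
        c • ((ru r ^ (m + n) : (AdjoinRoot (gg (k := k) r))ˣ) : AdjoinRoot (gg (k := k) r)) := by
      rw [← Polynomial.C_mul_X_pow_eq_monomial, map_mul, map_pow, AdjoinRoot.mk_X, AdjoinRoot.mk_C,
        zpow_add, zpow_natCast, Units.val_mul, Units.val_pow_eq_pow_val, ru_val, Algebra.smul_def]
      have h3 : algebraMap (TT k ι) (AdjoinRoot (gg (k := k) r)) c = AdjoinRoot.of _ c := rfl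
      rw [h3]
      ring
    rw [h1, h2, xlin_mul, xlin_tv, map_mul, Red_TT r c.2, Red_xx, map_smul]
    rfl

lemma Red_qq (r : ι → ℕ) {u : Pg k ι} (hu : u ∈ qq r) : Red r u = 0 := by
  obtain ⟨f, rfl⟩ := hu
  induction f using opt_induction with
  | h0 => rw [mul_zero, map_zero, map_zero]
  | hadd u v hu hv => rw [mul_add, map_add, map_add, hu, hv, add_zero]
  | hm m v =>
    have h1 : P0 r * (tv none m * jj v) = jj v * (tv none m * evT (gg r)) := by
      rw [evT_gg]
      ring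
    rw [h1, xlin_mul, map_mul, Red_xlin_evT, AdjoinRoot.mk_self, mul_zero, map_zero, mul_zero]

lemma La_eq (r : ι → ℕ) (z : AdjoinRoot (gg (k := k) r)) :
    ∃ F : (TT k ι)[X], AdjoinRoot.mk _ F = z ∧ La r z = xlin (evT F) ∧
      La r z = ∑ l, ((rb r).repr z l).1 * xx (l : ℕ) := by
  have h1 : La r z = ∑ l, ((rb r).repr z l).1 * xx (l : ℕ) := by
    unfold La
    rw [Module.Basis.constr_apply_fintype]
    rfl
  refine ⟨∑ l, C ((rb r).repr z l) * X ^ (l : ℕ), ?_, ?_, h1⟩
  · rw [map_sum]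
    conv_rhs => rw [← (rb r).sum_repr z]
    refine Finset.sum_congr rfl fun l _ => ?_
    rw [map_mul, map_pow, AdjoinRoot.mk_X, AdjoinRoot.mk_C, rb_apply, Algebra.smul_def]
    rfl
  · rw [h1, map_sum, map_sum]
    refine Finset.sum_congr rfl fun l _ => ?_
    rw [map_mul, map_pow, evT_X, evT_C, tv_pow, xlin_mul, mul_one, xlin_tv]

lemma xx_sub_La (r : ι → ℕ) (m : ℤ) :
    xx m - La r ((ru r ^ m : (AdjoinRoot (gg (k := k) r))ˣ) : AdjoinRoot (gg (k := k) r)) ∈
      qq r := by
  obtain ⟨F, hF1, hF2, -⟩ := La_eq r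
    ((ru r ^ m : (AdjoinRoot (gg (k := k) r))ˣ) : AdjoinRoot (gg (k := k) r))
  obtain ⟨M, N, hMN⟩ : ∃ M N : ℕ, m + M = N := ⟨m.natAbs, (m + m.natAbs).toNat, by omega⟩
  have h1 : AdjoinRoot.mk (gg (k := k) r) (X ^ N - X ^ M * F) = 0 := by
    rw [map_sub, map_mul, hF1, map_pow, map_pow, AdjoinRoot.mk_X, ← ru_val,
      ← Units.val_pow_eq_pow_val, ← Units.val_pow_eq_pow_val, ← Units.val_mul, ← zpow_natCast,
      ← zpow_natCast, ← zpow_add, ← hMN, add_comm (M : ℤ), sub_self]
  obtain ⟨H, hH⟩ := AdjoinRoot.mk_eq_zero.1 h1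
  have h2 : tv none m - evT F = P0 r * (tv none (-M) * evT H) := by
    have h3 := congrArg (evT (k := k) (ι := ι)) hH
    rw [map_sub, map_mul, map_mul, map_pow, map_pow, evT_X, evT_gg, tv_pow, tv_pow, mul_one,
      mul_one, ← hMN, tv_add] at h3
    have h4 : tv (k := k) (none : Option ι) (-M) * tv none M = 1 := tv_neg_mul _ _
    linear_combination (tv (k := k) (none : Option ι) (-M)) * h3 -
      (tv none m - evT F) * h4
  rw [hF2, ← xlin_tv m, ← map_sub, h2]
  exact xlin_mem_qq _ _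

lemma sub_Red (r : ι → ℕ) (u : Pg k ι) : u - Red r u ∈ qq r := by
  have h : (Ideal.Quotient.mkₐ k (qq (k := k) r)).comp (Red r) = Ideal.Quotient.mkₐ k (qq r) := by
    apply hom_ext
    · intro a
      rw [AlgHom.comp_apply, Red_tt]
    · intro m
      rw [AlgHom.comp_apply, Red_xx]
      exact (Ideal.Quotient.eq.2 (xx_sub_La r m)).symm
  have h2 := AlgHom.congr_fun h u
  rw [AlgHom.comp_apply] at h2
  exact Ideal.Quotient.eq.1 h2.symm

lemma tv_sub_ne {i j : ι} (h : i ≠ j) : tv (k := k) i 1 - tv j 1 ≠ 0 := by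
  intro h1
  have h2 := congrArg (pd (k := k) i) h1
  rw [map_sub, pd_tv_self, pd_tv_of_ne h, map_zero, sub_zero, Int.cast_one, one_mul, sub_self,
    tv_zero] at h2
  exact one_ne_zero h2

/-- `t_i - t_j` is regular modulo `qq r`. -/
lemma regular_qq (r : ι → ℕ) {i j : ι} (h : i ≠ j) {u : Pg k ι}
    (hu : (tv i 1 - tv j 1) * u ∈ qq r) : u ∈ qq r := by
  have h1 := Red_qq r hu
  rw [map_mul, Red_TT r (Subalgebra.sub_mem _ (tv_TT i 1) (tv_TT j 1))] at h1
  have h2 := (mul_eq_zero.1 h1).resolve_left (tv_sub_ne h)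
  have h3 := sub_Red r u
  rw [h2, sub_zero] at h3
  exact h3

lemma tt_sum {σ : Type*} (s : Finset σ) (f : σ → ι → ℤ) :
    tt (k := k) (∑ i ∈ s, f i) = ∏ i ∈ s, tt (f i) := by
  classical
  induction s using Finset.induction_on with
  | empty => rw [Finset.sum_empty, Finset.prod_empty, tt_zero]
  | insert i s hi ih => rw [Finset.sum_insert hi, Finset.prod_insert hi, tt_add, ih]

lemma tt_eq_prod (a : ι → ℤ) : tt (k := k) a = ∏ i, tv i (a i) := by
  conv_lhs => rw [← Finset.univ_sum_single a]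
  exact tt_sum _ _

/-- A finite set generating the Laurent polynomials. -/
def gs (k : Type u) [Field k] (ι : Type) [DecidableEq ι] : Set (Pg k ι) :=
  Set.range (fun i => tv i 1) ∪ Set.range (fun i => tv i (-1))

lemma gs_finite : (gs k ι).Finite := (Set.finite_range _).union (Set.finite_range _)

lemma tt_mem_of_gs {S : Subalgebra k (Pg k ι)} (h : gs k ι ⊆ S) (a : ι → ℤ) : tt a ∈ S := by
  rw [tt_eq_prod]
  refine Subalgebra.prod_mem _ fun i _ => ?_
  obtain ⟨n, hn | hn⟩ := Int.eq_nat_or_neg (a i)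
  · rw [hn]
    have h1 : tv (k := k) i n = tv i 1 ^ n := by rw [tv_pow, mul_one]
    rw [h1]
    exact Subalgebra.pow_mem _ (h (Or.inl ⟨i, rfl⟩)) _
  · rw [hn]
    have h1 : tv (k := k) i (-n) = tv i (-1) ^ n := by
      rw [tv_pow]
      congr 1
      ring
    rw [h1]
    exact Subalgebra.pow_mem _ (h (Or.inr ⟨i, rfl⟩)) _

/-- The quotient is finitely generated. -/
lemma fg_quot (r : ι → ℕ) : (⊤ : Subalgebra k (Pg k ι ⧸ qq (k := k) r)).FG := by
  classical
  set s := (AdjoinRoot.powerBasis' (gg_monic (k := k) r)).dim with hs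
  set G : Set (Pg k ι) := gs k ι ∪ Set.range (fun l : Fin s => xx (l : ℕ)) with hG
  have hGf : G.Finite := gs_finite.union (Set.finite_range _)
  have hsub : TT k ι ≤ Algebra.adjoin k G := by
    refine Algebra.adjoin_le ?_
    rintro _ ⟨a, rfl⟩
    exact tt_mem_of_gs (Set.subset_union_left.trans Algebra.subset_adjoin) a
  have hRed : ∀ u, Red r u ∈ Algebra.adjoin k G := by
    intro u
    induction u using mono_induction with
    | h0 => rw [map_zero]; exact Subalgebra.zero_mem _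
    | hadd u v hu hv => rw [map_add]; exact Subalgebra.add_mem _ hu hv
    | hm c a β =>
      rw [map_smul]
      refine Subalgebra.smul_mem _ ?_ _
      unfold mono
      rw [map_mul, Red_tt, Finsupp.prod, map_prod]
      refine Subalgebra.mul_mem _ (hsub (tt_TT a)) (Subalgebra.prod_mem _ fun m _ => ?_)
      rw [map_pow, Red_xx]
      refine Subalgebra.pow_mem _ ?_ _
      obtain ⟨-, -, -, h1⟩ := La_eq r
        ((ru r ^ m : (AdjoinRoot (gg (k := k) r))ˣ) : AdjoinRoot (gg (k := k) r))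
      rw [h1]
      refine Subalgebra.sum_mem _ fun l _ => Subalgebra.mul_mem _ (hsub (Subtype.mem _)) ?_
      exact Algebra.subset_adjoin (Or.inr ⟨l, rfl⟩)
  have htop : (⊤ : Subalgebra k (Pg k ι ⧸ qq (k := k) r)) =
      (Algebra.adjoin k G).map (Ideal.Quotient.mkₐ k (qq r)) := by
    symm
    rw [eq_top_iff]
    intro x _
    obtain ⟨u, rfl⟩ := Ideal.Quotient.mkₐ_surjective k (qq (k := k) r) x
    refine ⟨Red r u, hRed u, ?_⟩
    exact (Ideal.Quotient.eq.2 (sub_Red r u)).symm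
  rw [htop, AlgHom.map_adjoin]
  exact Subalgebra.fg_def.2 ⟨_, hGf.image _, rfl⟩

end

end Pool.Agent.K9h91.WI
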