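import Pool.Agent.K9h91.WI.Maps

/-!
# The contraction `T^m ↦ X_m` and the ideals `qq r`
-/

set_option autoImplicit false
set_option linter.unusedSectionVars false

namespace Pool.Agent.K9h91.WI

universe u v

section
variable {k : Type u} [CommRing k] {ι ι' ι'' : Type} [Fintype ι] [DecidableEq ι] [Fintype ι']
  [DecidableEq ι'] [DecidableEq ι'']

/-- Expansion of an element over `Option ι` in powers of the extra variable. -/
noncomputable def toL : Pg k (Option ι) →ₐ[k] AddMonoidAlgebra (Pg k ι) ℤ :=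
  mkHom
    { toFun := fun a => AddMonoidAlgebra.single (a.toAdd none) (tt (fun i => a.toAdd (some i)))
      map_one' := by
        show AddMonoidAlgebra.single 0 (tt 0) = _
        rw [tt_zero]
        rfl
      map_mul' := fun a b => by
        rw [AddMonoidAlgebra.single_mul_single, ← tt_add]
        rfl }
    (fun m => AddMonoidAlgebra.single 0 (xx m))

lemma toL_tt (a : Option ι → ℤ) : toL (k := k) (tt a) =
    AddMonoidAlgebra.single (a none) (tt (fun i => a (some i))) := by
  unfold toL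
  rw [mkHom_tt]
  rfl

lemma toL_xx (m : ℤ) : toL (k := k) (ι := ι) (xx m) = AddMonoidAlgebra.single 0 (xx m) := by
  unfold toL
  rw [mkHom_xx]

lemma toL_tv_none (m : ℤ) : toL (k := k) (ι := ι) (tv none m) = AddMonoidAlgebra.single m 1 := by
  unfold tv
  rw [toL_tt]
  have h : (fun i => (Pi.single none m : Option ι → ℤ) (some i)) = 0 := by
    funext i
    rw [Pi.single_eq_of_ne (Option.some_ne_none i)]
    rfl
  rw [h, tt_zero, Pi.single_eq_same]

lemma push_some (a : ι → ℤ) (i : ι) : push some a (some i) = a i := by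
  rw [push_coord, Finset.sum_filter, Finset.sum_eq_single i]
  · rw [if_pos rfl]
  · intro j _ hj
    rw [if_neg fun h => hj (Option.some_injective _ h)]
  · intro h
    exact absurd (Finset.mem_univ i) h

lemma push_some_none (a : ι → ℤ) : push some a none = 0 := by
  rw [push_coord, Finset.sum_filter]
  exact Finset.sum_eq_zero fun i _ => by rw [if_neg (Option.some_ne_none i)]

/-- The inclusion `t_i ↦ t_i`. -/
noncomputable abbrev jj : Pg k ι →ₐ[k] Pg k (Option ι) := Pmap some

lemma toL_jj (u : Pg k ι) : toL (jj u) = AddMonoidAlgebra.single 0 u := by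
  have h : toL.comp (jj (k := k) (ι := ι)) =
      (AddMonoidAlgebra.singleZeroAlgHom : Pg k ι →ₐ[k] AddMonoidAlgebra (Pg k ι) ℤ) := by
    apply hom_ext
    · intro a
      rw [AlgHom.comp_apply, Pmap_tt, toL_tt]
      simp only [push_some, push_some_none]
      rfl
    · intro m
      rw [AlgHom.comp_apply, Pmap_xx, toL_xx]
      rfl
  have h2 := AlgHom.congr_fun h u
  rw [AlgHom.comp_apply] at h2
  exact h2

/-- The contraction `T^m u ↦ X_m u`. -/
noncomputable def xlin : Pg k (Option ι) →ₗ[k] Pg k ι where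
  toFun f := (toL f).coeff.sum fun m u => u * xx m
  map_add' f g := by
    rw [map_add, AddMonoidAlgebra.coeff_add]
    exact Finsupp.sum_add_index' (fun m => zero_mul _) (fun m u v => add_mul _ _ _)
  map_smul' c f := by
    rw [map_smul, AddMonoidAlgebra.coeff_smul, RingHom.id_apply,
      Finsupp.sum_smul_index' (fun m => zero_mul _), Finsupp.smul_sum]
    exact Finset.sum_congr rfl fun m _ => smul_mul_assoc _ _ _

lemma xlin_apply (f : Pg k (Option ι)) : xlin f = (toL f).coeff.sum fun m u => u * xx m := rfl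

lemma xlin_mul (v : Pg k ι) (f : Pg k (Option ι)) : xlin (jj v * f) = v * xlin f := by
  rw [xlin_apply, xlin_apply, map_mul, toL_jj]
  generalize toL f = g
  induction g using AddMonoidAlgebra.induction_linear with
  | zero => simp
  | add x y hx hy =>
    rw [mul_add, AddMonoidAlgebra.coeff_add, AddMonoidAlgebra.coeff_add,
      Finsupp.sum_add_index' (fun m => zero_mul _) (fun m u v => add_mul _ _ _),
      Finsupp.sum_add_index' (fun m => zero_mul _) (fun m u v => add_mul _ _ _), hx, hy, mul_add]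
  | single m u =>
    rw [AddMonoidAlgebra.single_mul_single, AddMonoidAlgebra.coeff_single,
      AddMonoidAlgebra.coeff_single, Finsupp.sum_single_index (zero_mul _),
      Finsupp.sum_single_index (zero_mul _), mul_assoc, zero_add]

lemma xlin_tv (m : ℤ) : xlin (k := k) (ι := ι) (tv none m) = xx m := by
  rw [xlin_apply, toL_tv_none, AddMonoidAlgebra.coeff_single,
    Finsupp.sum_single_index (zero_mul _), one_mul]

lemma xlin_tv_mul (m : ℤ) (v : Pg k ι) : xlin (tv none m * jj v) = xx m * v := by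
  rw [mul_comm, xlin_mul, xlin_tv, mul_comm]

end

attribute [irreducible] toL xlin

section
variable {k : Type u} [CommRing k] {ι ι' ι'' : Type} [Fintype ι] [DecidableEq ι] [Fintype ι']
  [DecidableEq ι'] [DecidableEq ι'']

/-- Induction principle over `Option ι`: additive predicates true on `T^m v`. -/
lemma opt_induction {p : Pg k (Option ι) → Prop} (f : Pg k (Option ι)) (h0 : p 0)
    (hadd : ∀ u v, p u → p v → p (u + v)) (hm : ∀ (m : ℤ) (v : Pg k ι), p (tv none m * jj v)) :
    p f := by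
  induction f using mono_induction with
  | h0 => exact h0
  | hadd u v hu hv => exact hadd u v hu hv
  | hm c a β =>
    have h := hm (a none) (c • mono (fun i => a (some i)) β)
    rw [map_smul, Pmap_mono, mul_smul_comm] at h
    have h2 : tv none (a none) * mono (push some fun i => a (some i)) β = mono (k := k) a β := by
      unfold mono tv
      rw [← mul_assoc, ← tt_add]
      congr 2
      funext i
      cases i with
      | none => rw [Pi.add_apply, Pi.single_eq_same, push_some_none, add_zero]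
      | some i =>
        rw [Pi.add_apply, Pi.single_eq_of_ne (Option.some_ne_none i), push_some, zero_add]
    rw [h2] at h
    exact h

lemma olmap_ext {N : Type*} [AddCommMonoid N] [Module k N] {f g : Pg k (Option ι) →ₗ[k] N}
    (h : ∀ (m : ℤ) (v : Pg k ι), f (tv none m * jj v) = g (tv none m * jj v)) : f = g := by
  refine LinearMap.ext fun u => ?_
  induction u using opt_induction with
  | h0 => rw [map_zero, map_zero]
  | hadd u v hu hv => rw [map_add, map_add, hu, hv]
  | hm m v => exact h m v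

lemma Pmap_xlin (f : ι → ι') (u : Pg k (Option ι)) :
    Pmap f (xlin u) = xlin (Pmap (Option.map f) u) := by
  have h : (Pmap f).toLinearMap ∘ₗ xlin = xlin ∘ₗ (Pmap (k := k) (Option.map f)).toLinearMap := by
    apply olmap_ext
    intro m v
    simp only [LinearMap.comp_apply, AlgHom.toLinearMap_apply]
    rw [xlin_tv_mul, map_mul, map_mul, Pmap_xx, Pmap_tv, Pmap_Pmap]
    have h : Option.map f ∘ some = some ∘ f := rfl
    rw [h, ← Pmap_Pmap, Option.map_none, xlin_tv_mul]
  exact LinearMap.congr_fun h u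

lemma DD_xlin (n : ℤ) (f : Pg k (Option ι)) :
    DD n (xlin f) = xlin (DD n f - (n : Pg k (Option ι)) * (tv none (n - 1) * f)) := by
  have h : (DD n).toLinearMap ∘ₗ xlin (k := k) (ι := ι) =
      xlin ∘ₗ ((DD n).toLinearMap -
        LinearMap.mulLeft k ((n : Pg k (Option ι)) * tv none (n - 1))) := by
    apply olmap_ext
    intro m v
    simp only [LinearMap.comp_apply, LinearMap.sub_apply, Derivation.coeFn_coe,
      LinearMap.mulLeft_apply]
    have h1 : tv (k := k) (none : Option ι) (m + n - 1) = tv none (n - 1) * tv none m := by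
      rw [tv_mul]
      congr 1
      ring
    have h2 : DD n (tv none m * jj v) - ((n : Pg k (Option ι)) * tv none (n - 1)) *
        (tv none m * jj v) = tv none m * jj (DD n v) +
          tv none (m + n - 1) * jj (((m - n : ℤ) : Pg k ι) * v) := by
      rw [leib, DD_tv, DD_Pmap, map_mul, map_intCast, h1]
      push_cast
      ring
    rw [h2, map_add, xlin_tv_mul, xlin_tv_mul, xlin_tv_mul, leib, DD_xx]
    ring
  have h2 := LinearMap.congr_fun h f
  simp only [LinearMap.comp_apply, LinearMap.sub_apply, Derivation.coeFn_coe,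
      LinearMap.mulLeft_apply, mul_assoc] at h2
  exact h2

/-- `(T^n - T'^n) / (T - T')`. -/
noncomputable def hh (n : ℤ) (i j : ι) : Pg k ι :=
  match n with
  | Int.ofNat N => ∑ l ∈ Finset.range N, tv i 1 ^ l * tv j 1 ^ (N - 1 - l)
  | Int.negSucc N =>
    -(tv i (-1) * tv j (-1) * ∑ l ∈ Finset.range (N + 1), tv i (-1) ^ l * tv j (-1) ^ (N - l))

lemma sub_mul_hh (n : ℤ) (i j : ι) :
    (tv (k := k) i 1 - tv j 1) * hh n i j = tv i n - tv j n := by
  cases n with
  | ofNat N =>
    show (tv (k := k) i 1 - tv j 1) * (∑ l ∈ Finset.range N, tv i 1 ^ l * tv j 1 ^ (N - 1 - l)) = _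
    rw [mul_comm, geom_sum₂_mul, tv_pow, tv_pow]
    simp
  | negSucc N =>
    show (tv (k := k) i 1 - tv j 1) * (-(tv i (-1) * tv j (-1) *
      ∑ l ∈ Finset.range (N + 1), tv i (-1) ^ l * tv j (-1) ^ (N - l))) = _
    have h1 := geom_sum₂_mul (tv (k := k) i (-1)) (tv j (-1)) (N + 1)
    simp only [Nat.add_sub_cancel] at h1
    have h2 : tv (k := k) i (-1) * tv i 1 = 1 := tv_neg_mul i 1
    have h3 : tv (k := k) j (-1) * tv j 1 = 1 := tv_neg_mul j 1
    have h4 : tv (k := k) i (-1) ^ (N + 1) = tv i (Int.negSucc N) := by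
      rw [tv_pow]
      congr 1
      rw [Int.negSucc_eq]
      push_cast
      ring
    have h5 : tv (k := k) j (-1) ^ (N + 1) = tv j (Int.negSucc N) := by
      rw [tv_pow]
      congr 1
      rw [Int.negSucc_eq]
      push_cast
      ring
    rw [h4, h5] at h1
    rw [← h1]
    linear_combination (-tv (k := k) j (-1) * (∑ l ∈ Finset.range (N + 1), tv i (-1) ^ l *
      tv j (-1) ^ (N - l))) * h2 + (tv (k := k) i (-1) * (∑ l ∈ Finset.range (N + 1), tv i (-1) ^ l *
      tv j (-1) ^ (N - l))) * h3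

lemma hh_self (n : ℤ) (i : ι) : hh (k := k) n i i = (n : Pg k ι) * tv i (n - 1) := by
  cases n with
  | ofNat N =>
    show (∑ l ∈ Finset.range N, tv i 1 ^ l * tv i 1 ^ (N - 1 - l)) = _
    have h : ∀ l ∈ Finset.range N, tv (k := k) i 1 ^ l * tv i 1 ^ (N - 1 - l) =
        tv i (Int.ofNat N - 1) := by
      intro l hl
      rw [Finset.mem_range] at hl
      rw [← pow_add, tv_pow]
      congr 1
      have : l + (N - 1 - l) = N - 1 := by omega
      rw [this, mul_one, Int.ofNat_eq_natCast]
      omega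
    rw [Finset.sum_congr rfl h, Finset.sum_const, Finset.card_range, nsmul_eq_mul]
    simp
  | negSucc N =>
    show -(tv i (-1) * tv i (-1) *
      ∑ l ∈ Finset.range (N + 1), tv i (-1) ^ l * tv i (-1) ^ (N - l)) = _
    have h : ∀ l ∈ Finset.range (N + 1), tv (k := k) i (-1) ^ l * tv i (-1) ^ (N - l) =
        tv i (-N) := by
      intro l hl
      rw [Finset.mem_range] at hl
      rw [← pow_add, tv_pow]
      congr 1
      have : l + (N - l) = N := by omega
      rw [this]
      ring
    have h3 : tv (k := k) i (Int.negSucc N - 1) = tv i (-1) * tv i (-1) * tv i (-N) := by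
      rw [tv_mul, tv_mul]
      congr 1
      rw [Int.negSucc_eq]
      ring
    rw [Finset.sum_congr rfl h, Finset.sum_const, Finset.card_range, nsmul_eq_mul, h3,
      Int.negSucc_eq]
    push_cast
    ring

lemma Pmap_hh (f : ι → ι') (n : ℤ) (i j : ι) :
    Pmap (k := k) f (hh n i j) = hh n (f i) (f j) := by
  cases n with
  | ofNat N =>
    show Pmap f (∑ l ∈ Finset.range N, tv i 1 ^ l * tv j 1 ^ (N - 1 - l)) =
      (∑ l ∈ Finset.range N, tv (f i) 1 ^ l * tv (f j) 1 ^ (N - 1 - l))
    simp only [map_sum, map_mul, map_pow, Pmap_tv]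
  | negSucc N =>
    show Pmap f (-(tv i (-1) * tv j (-1) *
      ∑ l ∈ Finset.range (N + 1), tv i (-1) ^ l * tv j (-1) ^ (N - l))) =
      -(tv (f i) (-1) * tv (f j) (-1) *
      ∑ l ∈ Finset.range (N + 1), tv (f i) (-1) ^ l * tv (f j) (-1) ^ (N - l))
    simp only [map_sum, map_mul, map_pow, Pmap_tv, map_neg]

/-- `x` is an eigenvector-like element: `D_n x = x a`. -/
def LD (n : ℤ) (x a : Pg k ι) : Prop := DD n x = x * a

lemma LD.mul {n : ℤ} {x y a b : Pg k ι} (hx : LD n x a) (hy : LD n y b) :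
    LD n (x * y) (a + b) := by
  unfold LD at *
  rw [leib, hx, hy]
  ring

lemma LD.one (n : ℤ) : LD n (1 : Pg k ι) 0 := by
  unfold LD
  rw [Derivation.map_one_eq_zero, mul_zero]

lemma LD.pow {n : ℤ} {x a : Pg k ι} (hx : LD n x a) (m : ℕ) :
    LD n (x ^ m) ((m : Pg k ι) * a) := by
  induction m with
  | zero => rw [pow_zero, Nat.cast_zero, zero_mul]; exact LD.one n
  | succ m ih =>
    have h := ih.mul hx
    have h2 : ((m + 1 : ℕ) : Pg k ι) * a = (m : Pg k ι) * a + a := by push_cast; ring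
    rw [pow_succ, h2]
    exact h

lemma LD.prod {n : ℤ} {σ : Type*} (s : Finset σ) {x a : σ → Pg k ι}
    (h : ∀ i ∈ s, LD n (x i) (a i)) : LD n (∏ i ∈ s, x i) (∑ i ∈ s, a i) := by
  classical
  induction s using Finset.induction_on with
  | empty => rw [Finset.prod_empty, Finset.sum_empty]; exact LD.one n
  | insert i s hi ih =>
    rw [Finset.prod_insert hi, Finset.sum_insert hi]
    exact (h i (Finset.mem_insert_self _ _)).mul
      (ih fun j hj => h j (Finset.mem_insert_of_mem hj))

lemma LD_sub (n : ℤ) (i j : ι) : LD n (tv (k := k) i 1 - tv j 1) (hh n i j) := by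
  unfold LD
  have h : (1 : ℤ) + n - 1 = n := by ring
  rw [map_sub, DD_tv, DD_tv, sub_mul_hh, Int.cast_one, one_mul, one_mul, h]

/-- `P0 r = ∏ (T - t_i)^{r i}`. -/
noncomputable def P0 (r : ι → ℕ) : Pg k (Option ι) := ∏ i, (tv none 1 - tv (some i) 1) ^ r i

lemma P0_add (r s : ι → ℕ) : P0 (k := k) (r + s) = P0 r * P0 s := by
  unfold P0
  rw [← Finset.prod_mul_distrib]
  exact Finset.prod_congr rfl fun i _ => by rw [Pi.add_apply, pow_add]

lemma P0_single (i : ι) : P0 (k := k) (Pi.single i 1) = tv none 1 - tv (some i) 1 := by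
  unfold P0
  rw [Finset.prod_eq_single i]
  · rw [Pi.single_eq_same, pow_one]
  · intro j _ hj
    rw [Pi.single_eq_of_ne hj, pow_zero]
  · intro h
    exact absurd (Finset.mem_univ i) h

lemma LD_P0 (n : ℤ) (r : ι → ℕ) :
    LD n (P0 (k := k) r) (∑ i, (r i : Pg k (Option ι)) * hh n none (some i)) :=
  LD.prod _ fun i _ => (LD_sub n none (some i)).pow (r i)

/-- The ideal of `Pg k ι` generated by the contractions of multiples of `P0 r`. -/
noncomputable def qq (r : ι → ℕ) : Ideal (Pg k ι) where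
  carrier := {u | ∃ f, u = xlin (P0 r * f)}
  zero_mem' := ⟨0, by rw [mul_zero, map_zero]⟩
  add_mem' := by
    rintro _ _ ⟨f, rfl⟩ ⟨g, rfl⟩
    exact ⟨f + g, by rw [mul_add, map_add]⟩
  smul_mem' := by
    rintro c _ ⟨f, rfl⟩
    exact ⟨jj c * f, by rw [smul_eq_mul, ← xlin_mul]; congr 1; ring⟩

lemma mem_qq {r : ι → ℕ} {u : Pg k ι} : u ∈ qq r ↔ ∃ f, u = xlin (P0 r * f) := Iff.rfl

lemma xlin_mem_qq (r : ι → ℕ) (f : Pg k (Option ι)) : xlin (P0 r * f) ∈ qq r := ⟨f, rfl⟩

lemma DD_mem_qq {r : ι → ℕ} {u : Pg k ι} (hu : u ∈ qq r) (n : ℤ) : DD n u ∈ qq r := by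
  obtain ⟨f, rfl⟩ := hu
  refine ⟨(∑ i, (r i : Pg k (Option ι)) * hh n none (some i)) * f + DD n f -
    (n : Pg k (Option ι)) * (tv none (n - 1) * f), ?_⟩
  rw [DD_xlin, leib, LD_P0 n r]
  congr 1
  ring

/-- The evaluation `T = t_i`. -/
noncomputable abbrev evo (i : ι) : Pg k (Option ι) →ₐ[k] Pg k ι := Pmap (fun o => o.elim i id)

lemma evo_jj (i : ι) (v : Pg k ι) : evo i (jj v) = v := by
  rw [Pmap_Pmap]
  exact Pmap_id v

lemma evo_tv_none (i : ι) (m : ℤ) : evo (k := k) i (tv none m) = tv i m := Pmap_tv _ _ _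

lemma evo_dvd (i : ι) (f : Pg k (Option ι)) :
    ∃ g, f - jj (evo i f) = (tv none 1 - tv (some i) 1) * g := by
  induction f using opt_induction with
  | h0 => exact ⟨0, by rw [map_zero, map_zero, sub_zero, mul_zero]⟩
  | hadd u v hu hv =>
    obtain ⟨g, hg⟩ := hu
    obtain ⟨h, hh⟩ := hv
    refine ⟨g + h, ?_⟩
    rw [map_add, map_add, mul_add, ← hg, ← hh]
    ring
  | hm m v =>
    refine ⟨hh m none (some i) * jj v, ?_⟩
    rw [map_mul, map_mul, evo_jj, evo_tv_none, Pmap_tv, ← sub_mul, ← mul_assoc, sub_mul_hh]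

/-- The lowest element of the cluster `i` for the multiplicities `r + δ_i`. -/
noncomputable def ww (r : ι → ℕ) : Pg k ι := xlin (P0 r)

lemma xlin_P0_mul (r : ι → ℕ) (i : ι) (f : Pg k (Option ι)) :
    xlin (P0 r * f) - ww r * evo i f ∈ qq (r + Pi.single i 1) := by
  obtain ⟨g, hg⟩ := evo_dvd i f
  refine ⟨g, ?_⟩
  have h1 : P0 r * f = P0 r * (f - jj (evo i f)) + jj (evo i f) * P0 r := by ring
  rw [h1, hg, map_add, xlin_mul, P0_add, P0_single]
  unfold ww
  rw [mul_comm (xlin (P0 r)), add_sub_cancel_right, mul_assoc]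

lemma qq_le (r : ι → ℕ) (i : ι) :
    qq (k := k) r ≤ qq (r + Pi.single i 1) ⊔ Ideal.span {ww r} := by
  rintro _ ⟨f, rfl⟩
  rw [← sub_add_cancel (xlin (P0 r * f)) (ww r * evo i f)]
  exact Submodule.add_mem_sup (xlin_P0_mul r i f)
    (Ideal.mul_mem_right _ _ (Ideal.mem_span_singleton_self _))

lemma qq_mono_add (r s : ι → ℕ) : qq (k := k) (r + s) ≤ qq r := by
  rintro _ ⟨f, rfl⟩
  exact ⟨P0 s * f, by rw [P0_add, mul_assoc]⟩

lemma DD_ww (r : ι → ℕ) (i : ι) (n : ℤ) :
    DD (k := k) n (ww r) - ww r * ((∑ j, (r j : Pg k ι) * hh n i j) - hh n i i) ∈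
      qq (r + Pi.single i 1) := by
  have h := xlin_P0_mul (k := k) r i
    ((∑ j, (r j : Pg k (Option ι)) * hh n none (some j)) - (n : Pg k (Option ι)) * tv none (n - 1))
  have h1 : evo (k := k) i ((∑ j, (r j : Pg k (Option ι)) * hh n none (some j)) -
      (n : Pg k (Option ι)) * tv none (n - 1)) =
      (∑ j, (r j : Pg k ι) * hh n i j) - hh n i i := by
    rw [map_sub, map_sum, map_mul, map_intCast, evo_tv_none, hh_self]
    congr 1
    refine Finset.sum_congr rfl fun j _ => ?_
    rw [map_mul, map_natCast, Pmap_hh]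
    rfl
  rw [h1] at h
  have h2 : DD (k := k) n (ww r) = xlin (P0 r * ((∑ j, (r j : Pg k (Option ι)) *
      hh n none (some j)) - (n : Pg k (Option ι)) * tv none (n - 1))) := by
    unfold ww
    rw [DD_xlin, LD_P0 n r]
    congr 1
    ring
  rw [h2]
  exact h

/-- The twist `∑ a_{ij} h_n(t_i, t_j)`. -/
noncomputable def ph (a : ι → ι → ℤ) (n : ℤ) : Pg k ι := ∑ i, ∑ j, (a i j : Pg k ι) * hh n i j

/-- The twisted operator. -/
noncomputable def Dt (a : ι → ι → ℤ) (n : ℤ) : Pg k ι →ₗ[k] Pg k ι :=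
  (DD n).toLinearMap + LinearMap.mulLeft k (ph a n)

lemma Dt_apply (a : ι → ι → ℤ) (n : ℤ) (u : Pg k ι) : Dt a n u = DD n u + ph a n * u := rfl

lemma ph_add (a b : ι → ι → ℤ) (n : ℤ) : ph (k := k) (a + b) n = ph a n + ph b n := by
  unfold ph
  simp only [Pi.add_apply, Int.cast_add, add_mul, Finset.sum_add_distrib]

lemma Dt_mem_qq {r : ι → ℕ} (a : ι → ι → ℤ) {u : Pg k ι} (hu : u ∈ qq r) (n : ℤ) :
    Dt a n u ∈ qq r :=
  Ideal.add_mem _ (DD_mem_qq hu n) (Ideal.mul_mem_left _ _ hu)

/-- If `D_n x = x c` then multiplication by `x` intertwines the twisted operators. -/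
lemma Dt_mul (a : ι → ι → ℤ) (n : ℤ) (x u c : Pg k ι) (h : LD n x c) :
    Dt a n (x * u) = x * (Dt a n u + c * u) := by
  unfold LD at h
  rw [Dt_apply, Dt_apply, leib, h]
  ring

/-- Push forward of twists. -/
noncomputable def pusha (f : ι → ι') (a : ι → ι → ℤ) : ι' → ι' → ℤ :=
  fun i' j' => ∑ i with f i = i', ∑ j with f j = j', a i j

lemma Pmap_ph (f : ι → ι') (a : ι → ι → ℤ) (n : ℤ) :
    Pmap (k := k) f (ph a n) = ph (pusha f a) n := by
  unfold ph pusha
  simp only [map_sum, map_mul, map_intCast, Pmap_hh, Int.cast_sum, Finset.sum_mul]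
  have h : ∀ i' j' : ι', ∑ i with f i = i', ∑ j with f j = j', (a i j : Pg k ι') *
      hh (k := k) n i' j' =
      ∑ i with f i = i', ∑ j with f j = j', (a i j : Pg k ι') * hh (k := k) n (f i) (f j) := by
    intro i' j'
    refine Finset.sum_congr rfl fun i hi => Finset.sum_congr rfl fun j hj => ?_
    rw [(Finset.mem_filter.1 hi).2, (Finset.mem_filter.1 hj).2]
  simp only [h]
  have h2 : ∀ i' : ι', ∑ j', ∑ i with f i = i', ∑ j with f j = j', (a i j : Pg k ι') *
      hh (k := k) n (f i) (f j)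
      = ∑ i with f i = i', ∑ j, (a i j : Pg k ι') * hh (k := k) n (f i) (f j) := by
    intro i'
    rw [Finset.sum_comm]
    refine Finset.sum_congr rfl fun i _ => ?_
    exact Finset.sum_fiberwise _ f _
  simp only [h2]
  exact (Finset.sum_fiberwise _ f _).symm

lemma Dt_Pmap (f : ι → ι') (a : ι → ι → ℤ) (n : ℤ) (u : Pg k ι) :
    Dt (pusha f a) n (Pmap f u) = Pmap f (Dt a n u) := by
  rw [Dt_apply, Dt_apply, DD_Pmap, map_add, map_mul, Pmap_ph]

end

end Pool.Agent.K9h91.WI
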